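import Pool.Agent.Lib.MP_6e0dc6_co.Defs

/-!
Bipartite realizations with exact degrees on one side and capacities on the other.
-/

namespace Pool.Agent.MP_6e0dc6_co

open Finset

variable {V : Type*} [Fintype V] [DecidableEq V]

/-- A top subset of given size exists. -/
theorem exists_top (S : Finset V) (c : V → ℕ) (t : ℕ) (ht : t ≤ S.card) :
    ∃ A ⊆ S, A.card = t ∧ ∀ a ∈ A, ∀ b ∈ S, b ∉ A → c b ≤ c a := by
  induction t with
  | zero => exact ⟨∅, by simp, by simp, by simp⟩
  | succ t ih =>
    obtain ⟨A, hAS, hAc, hA⟩ := ih (by omega)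
    have hne : (S \ A).Nonempty := by
      rw [← Finset.card_pos, Finset.card_sdiff_of_subset hAS]; omega
    obtain ⟨m, hm, hmax⟩ := Finset.exists_max_image (S \ A) c hne
    rw [Finset.mem_sdiff] at hm
    refine ⟨insert m A, ?_, ?_, ?_⟩
    · exact Finset.insert_subset hm.1 hAS
    · rw [Finset.card_insert_of_notMem hm.2, hAc]
    · intro a ha b hb hbA
      rw [Finset.mem_insert, not_or] at hbA
      have hb' : b ∈ S \ A := Finset.mem_sdiff.mpr ⟨hb, hbA.2⟩
      rcases Finset.mem_insert.mp ha with rfl | ha
      · exact hmax b hb'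
      · exact hA a ha b hb hbA.2

/-- Pure combinatorial form of the bipartite realization: neighbourhoods `N j ⊆ S`. -/
theorem bip_aux (S : Finset V) (t : V → ℕ) (T : Finset V) :
    ∀ c : V → ℕ, (∀ Q ⊆ T, ∑ j ∈ Q, t j ≤ ∑ i ∈ S, min (c i) Q.card) →
    ∃ N : V → Finset V, (∀ j ∈ T, N j ⊆ S ∧ (N j).card = t j) ∧
      ∀ i ∈ S, (T.filter fun j => i ∈ N j).card ≤ c i := by
  induction T using Finset.induction_on with
  | empty =>
    intro c _
    exact ⟨fun _ => ∅, by simp, by simp⟩
  | insert j T hj ih =>
    intro c h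
    have htj : t j ≤ S.card := by
      have := h {j} (by simp)
      simp only [sum_singleton, card_singleton] at this
      calc t j ≤ ∑ i ∈ S, min (c i) 1 := this
        _ ≤ ∑ i ∈ S, 1 := Finset.sum_le_sum fun i _ => min_le_right _ _
        _ = S.card := by simp
    obtain ⟨A, hAS, hAc, hA⟩ := exists_top S c (t j) htj
    -- every chosen element has positive capacity
    have hpos : ∀ a ∈ A, 1 ≤ c a := by
      by_contra hcon
      push Not at hcon
      obtain ⟨a, ha, hca⟩ := hcon
      have hca0 : c a = 0 := by omega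
      have h0 : ∀ b ∈ S, b ∉ A → c b = 0 := fun b hb hbA => by
        have := hA a ha b hb hbA; omega
      have hle := h {j} (by simp)
      simp only [sum_singleton, card_singleton] at hle
      have h1 : ∑ i ∈ S, min (c i) 1 = ∑ i ∈ A, min (c i) 1 := by
        symm
        apply Finset.sum_subset hAS
        intro x hx hxA
        rw [h0 x hx hxA]; simp
      have h2 : ∑ i ∈ A, min (c i) 1 < ∑ i ∈ A, 1 := by
        apply Finset.sum_lt_sum
        · intro i _; exact min_le_right _ _
        · exact ⟨a, ha, by rw [hca0]; simp⟩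
      rw [h1] at hle
      simp at h2
      omega
    set c' : V → ℕ := fun i => if i ∈ A then c i - 1 else c i with hc'
    have hcond : ∀ Q ⊆ T, ∑ j ∈ Q, t j ≤ ∑ i ∈ S, min (c' i) Q.card := by
      intro Q hQ
      -- number of chosen elements with c ≤ |Q|
      have key : ∑ i ∈ S, min (c i) Q.card = ∑ i ∈ S, min (c' i) Q.card +
          (A.filter fun i => c i ≤ Q.card).card := by
        rw [Finset.card_filter]
        have hA1 : ∑ i ∈ A, (if c i ≤ Q.card then 1 else 0) =
            ∑ i ∈ S, (if i ∈ A then (if c i ≤ Q.card then 1 else 0) else 0) := by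
          rw [Finset.sum_ite_mem, Finset.inter_eq_right.mpr hAS]
        rw [hA1, ← Finset.sum_add_distrib]
        apply Finset.sum_congr rfl
        intro i _
        by_cases hi : i ∈ A
        · have := hpos i hi
          simp only [hc', hi, if_true]
          split_ifs with h5 <;> omega
        · simp [hc', hi]
      by_cases hz : (A.filter fun i => c i ≤ Q.card) = ∅
      · rw [hz, Finset.card_empty, Nat.add_zero] at key
        rw [← key]
        exact h Q (hQ.trans (Finset.subset_insert _ _))
      · obtain ⟨a, ha⟩ := Finset.nonempty_iff_ne_empty.mpr hz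
        rw [Finset.mem_filter] at ha
        have hnon : ∀ b ∈ S, b ∉ A → c b ≤ Q.card := fun b hb hbA =>
          (hA a ha.1 b hb hbA).trans ha.2
        have key2 : ∑ i ∈ S, min (c i) (Q.card + 1) = ∑ i ∈ S, min (c i) Q.card +
            (A.filter fun i => ¬ c i ≤ Q.card).card := by
          rw [Finset.card_filter]
          have hA1 : ∑ i ∈ A, (if ¬ c i ≤ Q.card then 1 else 0) =
              ∑ i ∈ S, (if i ∈ A then (if ¬ c i ≤ Q.card then 1 else 0) else 0) := by
            rw [Finset.sum_ite_mem, Finset.inter_eq_right.mpr hAS]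
          rw [hA1, ← Finset.sum_add_distrib]
          apply Finset.sum_congr rfl
          intro i hi
          by_cases hiA : i ∈ A
          · simp only [hiA, if_true]
            split_ifs with h5 <;> omega
          · have := hnon i hi hiA
            simp only [hiA, if_false]
            omega
        have hjQ : j ∉ Q := fun hjQ => hj (hQ hjQ)
        have h3 := h (insert j Q) (Finset.insert_subset_insert _ hQ)
        rw [Finset.sum_insert hjQ, Finset.card_insert_of_notMem hjQ, key2] at h3
        have h4 := Finset.card_filter_add_card_filter_not (s := A) (fun i => c i ≤ Q.card)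
        omega
    obtain ⟨N, hN1, hN2⟩ := ih c' hcond
    refine ⟨fun k => if k = j then A else N k, ?_, ?_⟩
    · intro k hk
      by_cases hkj : k = j
      · subst hkj; simp [hAS, hAc]
      · simp only [hkj, if_false]
        exact hN1 k ((Finset.mem_insert.mp hk).resolve_left hkj)
    · intro i hi
      have h1 : (T.filter fun k => i ∈ (if k = j then A else N k)) =
          T.filter fun k => i ∈ N k := by
        apply Finset.filter_congr
        intro k hk
        have : k ≠ j := fun h => hj (h ▸ hk)
        simp [this]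
      rw [Finset.filter_insert]
      simp only [if_true]
      have h2 := hN2 i hi
      by_cases hiA : i ∈ A
      · rw [if_pos hiA, Finset.card_insert_of_notMem (by simp [hj]), h1]
        have := hpos i hiA
        simp only [hc', hiA, if_true] at h2
        omega
      · rw [if_neg hiA, h1]
        simpa only [hc', hiA, if_false] using h2

/-- B: bipartite realization with exact degrees on `T` and capacities on `S`. -/
theorem bip (S T : Finset V) (hST : Disjoint S T) (t c : V → ℕ)
    (h : ∀ Q ⊆ T, ∑ j ∈ Q, t j ≤ ∑ i ∈ S, min (c i) Q.card) :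
    ∃ B : SimpleGraph V, (∀ a b, B.Adj a b → (a ∈ S ∧ b ∈ T) ∨ (a ∈ T ∧ b ∈ S)) ∧
      (∀ j ∈ T, (B.neighborSet j).ncard = t j) ∧ (∀ i ∈ S, (B.neighborSet i).ncard ≤ c i) := by
  obtain ⟨N, hN1, hN2⟩ := bip_aux S t T c h
  have hdis : ∀ x, x ∈ S → x ∈ T → False := fun x h1 h2 => Finset.disjoint_left.mp hST h1 h2
  let B : SimpleGraph V :=
    { Adj := fun a b => (a ∈ T ∧ b ∈ N a) ∨ (b ∈ T ∧ a ∈ N b)
      symm := ⟨fun a b h => h.symm⟩
      loopless := ⟨fun a h => by
        rcases h with ⟨h1, h2⟩ | ⟨h1, h2⟩ <;> exact hdis a ((hN1 a h1).1 h2) h1⟩ }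
  refine ⟨B, ?_, ?_, ?_⟩
  · intro a b hab
    rcases hab with ⟨h1, h2⟩ | ⟨h1, h2⟩
    · exact Or.inr ⟨h1, (hN1 a h1).1 h2⟩
    · exact Or.inl ⟨(hN1 b h1).1 h2, h1⟩
  · intro j hj
    have : B.neighborSet j = (N j : Set V) := by
      ext x
      rw [SimpleGraph.mem_neighborSet]
      constructor
      · rintro (⟨_, h2⟩ | ⟨h1, h2⟩)
        · exact h2
        · exact (hdis j ((hN1 x h1).1 h2) hj).elim
      · intro hx
        exact Or.inl ⟨hj, hx⟩
    rw [this, Set.ncard_coe_finset, (hN1 j hj).2]
  · intro i hi
    have : B.neighborSet i = ((T.filter fun j => i ∈ N j : Finset V) : Set V) := by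
      ext x
      rw [SimpleGraph.mem_neighborSet]
      constructor
      · rintro (⟨h1, _⟩ | ⟨h1, h2⟩)
        · exact (hdis i hi h1).elim
        · simp [h1, h2]
      · intro hx
        simp only [coe_filter, Set.mem_ofPred_eq] at hx
        exact Or.inr hx
    rw [this, Set.ncard_coe_finset]
    exact hN2 i hi

end Pool.Agent.MP_6e0dc6_co
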