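import Pool.Agent.Lib.MP_6e0dc6_co.Defs

/-!
Obstructions to perfect matchings and gluing of blocks.
-/

namespace Pool.Agent.MP_6e0dc6_co

open Finset

variable {V : Type*} [Fintype V] [DecidableEq V]

/-- Degrees in an edge-disjoint union. -/
theorem deg_sup (G H : SimpleGraph V) (v : V) (h : ∀ w, G.Adj v w → ¬ H.Adj v w) :
    ((G ⊔ H).neighborSet v).ncard = (G.neighborSet v).ncard + (H.neighborSet v).ncard := by
  have h1 : (G ⊔ H).neighborSet v = G.neighborSet v ∪ H.neighborSet v := by
    ext w; simp [SimpleGraph.mem_neighborSet]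
  rw [h1, Set.ncard_union_eq]
  rw [Set.disjoint_left]
  intro w hw hw2
  exact h w hw hw2

/-- A vertex of degree zero has no neighbours. -/
theorem no_adj_of_deg_zero (G : SimpleGraph V) (v : V) (h : (G.neighborSet v).ncard = 0) (w : V) :
    ¬ G.Adj v w := by
  intro hw
  rw [Set.ncard_eq_zero] at h
  have : w ∈ G.neighborSet v := hw
  rw [h] at this
  exact this

/-- Obstruction to a perfect matching: too many disjoint odd sets whose outer neighbours lie in
a small set `S`. -/
theorem no_pm (G : SimpleGraph V) (S : Finset V) {ι : Type*} [Fintype ι] (C : ι → Finset V)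
    (hdis : ∀ i j, i ≠ j → Disjoint (C i) (C j)) (hodd : ∀ i, Odd (C i).card)
    (hnb : ∀ i, ∀ v ∈ C i, ∀ w, G.Adj v w → w ∈ C i ∨ w ∈ S) (hcard : S.card < Fintype.card ι)
    (M : G.Subgraph) : ¬ M.IsPerfectMatching := by
  intro hM
  obtain ⟨hM1, hM2⟩ := hM
  -- the partner function
  have hex : ∀ v, ∃ w, M.Adj v w ∧ ∀ y, M.Adj v y → y = w := fun v => hM1 (hM2 v)
  choose p hp hpu using hex
  have hpp : ∀ v, p (p v) = v := fun v => ((hpu (p v)) v (hp v).symm).symm
  have hpne : ∀ v, p v ≠ v := fun v h => by
    have := (hp v).ne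
    exact this h.symm
  -- each odd set has an element matched outside, into S
  have key : ∀ i, ∃ v ∈ C i, p v ∈ S ∧ p v ∉ C i := by
    intro i
    by_contra hcon
    push Not at hcon
    have hstab : ∀ v ∈ C i, p v ∈ C i := by
      intro v hv
      rcases hnb i v hv (p v) (M.adj_sub (hp v)) with h | h
      · exact h
      · exact hcon v hv h
    have : Even (C i).card := by
      have h0 : ∑ x ∈ C i, (1 : ZMod 2) = 0 := by
        apply Finset.sum_involution (fun a _ => p a)
        · intro a _; decide
        · intro a _ _; exact hpne a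
        · intro a ha; exact hstab a ha
        · intro a _; exact hpp a
      rw [Finset.sum_const, nsmul_eq_mul, mul_one] at h0
      exact (ZMod.natCast_eq_zero_iff_even).mp h0
    exact (Nat.not_even_iff_odd.mpr (hodd i)) this
  choose g hg hgS hgC using key
  have hinj : Function.Injective (fun i => p (g i)) := by
    intro i j hij
    by_contra hne
    have : g i = g j := by
      have := congrArg p hij
      simpa [hpp] using this
    exact Finset.disjoint_left.mp (hdis i j hne) (hg i) (this ▸ hg j)
  have := Finset.card_le_card_of_injOn (s := (Finset.univ : Finset ι)) (t := S)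
    (fun i => p (g i)) (fun i _ => hgS i) (fun i _ j _ h => hinj h)
  rw [Finset.card_univ] at this
  omega

/-- Splitting off an odd set. -/
theorem split_glue (f : V → ℕ) (C : Finset V) (hC : Odd C.card)
    (h1 : IsValence (fun v => if v ∈ C then f v else 0))
    (h2 : IsValence (fun v => if v ∈ C then 0 else f v)) : BadReal f := by
  obtain ⟨G1, hG1⟩ := h1
  obtain ⟨G2, hG2⟩ := h2
  have hn1 : ∀ v, v ∉ C → ∀ w, ¬ G1.Adj v w := fun v hv w =>
    no_adj_of_deg_zero G1 v (by rw [hG1]; simp [hv]) w
  have hn2 : ∀ v, v ∈ C → ∀ w, ¬ G2.Adj v w := fun v hv w =>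
    no_adj_of_deg_zero G2 v (by rw [hG2]; simp [hv]) w
  refine ⟨G1 ⊔ G2, ?_, ?_⟩
  · intro v
    rw [deg_sup, hG1, hG2]
    · by_cases hv : v ∈ C <;> simp [hv]
    · intro w hw1 hw2
      by_cases hv : v ∈ C
      · exact hn2 v hv w hw2
      · exact hn1 v hv w hw1
  · intro M
    apply no_pm (G1 ⊔ G2) ∅ (ι := Unit) (fun _ => C)
    · intro i j h; exact (h rfl).elim
    · intro _; exact hC
    · intro _ v hv w hw
      left
      rcases hw with hw | hw
      · by_contra hwC
        exact hn1 w hwC v hw.symm
      · exact (hn2 v hv w hw).elim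
    · simp

/-- Gluing three blocks at a cut vertex. -/
theorem cut_glue (f : V → ℕ) (u : V) (A B Z : Finset V) (hAB : Disjoint A B) (huA : u ∉ A)
    (huB : u ∉ B) (hA : Odd A.card) (hB : Odd B.card) (hZ : Z ⊆ A ∪ B) (hZ1 : ∀ z ∈ Z, 1 ≤ f z)
    (hu : Z.card ≤ f u)
    (h1 : IsValence (fun v => if v ∈ A then f v - (if v ∈ Z then 1 else 0) else 0))
    (h2 : IsValence (fun v => if v ∈ B then f v - (if v ∈ Z then 1 else 0) else 0))
    (h3 : IsValence (fun v => if v ∈ A ∪ B then 0 else if v = u then f u - Z.card else f v)) :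
    BadReal f := by
  obtain ⟨G1, hG1⟩ := h1
  obtain ⟨G2, hG2⟩ := h2
  obtain ⟨G3, hG3⟩ := h3
  have huAB : u ∉ A ∪ B := by simp [huA, huB]
  have huZ : u ∉ Z := fun h => huAB (hZ h)
  have hdis : ∀ x, x ∈ A → x ∈ B → False := fun x h1 h2 => Finset.disjoint_left.mp hAB h1 h2
  have hn1 : ∀ v, v ∉ A → ∀ w, ¬ G1.Adj v w := fun v hv w =>
    no_adj_of_deg_zero G1 v (by rw [hG1]; simp [hv]) w
  have hn2 : ∀ v, v ∉ B → ∀ w, ¬ G2.Adj v w := fun v hv w =>
    no_adj_of_deg_zero G2 v (by rw [hG2]; simp [hv]) w
  have hn3 : ∀ v, v ∈ A ∪ B → ∀ w, ¬ G3.Adj v w := fun v hv w =>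
    no_adj_of_deg_zero G3 v (by rw [hG3]; simp only [hv, if_true]) w
  let G4 : SimpleGraph V :=
    { Adj := fun a b => (a = u ∧ b ∈ Z) ∨ (b = u ∧ a ∈ Z)
      symm := ⟨fun a b h => h.symm⟩
      loopless := ⟨fun a h => by
        rcases h with ⟨rfl, h⟩ | ⟨rfl, h⟩ <;> exact huZ h⟩ }
  have hG4u : (G4.neighborSet u).ncard = Z.card := by
    have : G4.neighborSet u = (Z : Set V) := by
      ext x
      rw [SimpleGraph.mem_neighborSet]
      constructor
      · rintro (⟨_, h⟩ | ⟨_, h⟩)
        · exact h
        · exact (huZ h).elim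
      · intro h; exact Or.inl ⟨rfl, h⟩
    rw [this, Set.ncard_coe_finset]
  have hG4v : ∀ v, v ≠ u → (G4.neighborSet v).ncard = if v ∈ Z then 1 else 0 := by
    intro v hv
    by_cases hvZ : v ∈ Z
    · have : G4.neighborSet v = {u} := by
        ext x
        rw [SimpleGraph.mem_neighborSet, Set.mem_singleton_iff]
        constructor
        · rintro (⟨h, _⟩ | ⟨h, _⟩)
          · exact (hv h).elim
          · exact h
        · intro h; exact Or.inr ⟨h, hvZ⟩
      rw [this, Set.ncard_singleton, if_pos hvZ]
    · have : G4.neighborSet v = ∅ := by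
        ext x
        rw [SimpleGraph.mem_neighborSet]
        constructor
        · rintro (⟨h, _⟩ | ⟨_, h⟩)
          · exact (hv h).elim
          · exact (hvZ h).elim
        · intro h; exact h.elim
      rw [this, Set.ncard_empty, if_neg hvZ]
  -- edge-disjointness
  have hd12 : ∀ v w, G1.Adj v w → ¬ G2.Adj v w := by
    intro v w h1 h2
    by_cases hv : v ∈ A
    · exact hn2 v (fun h => hdis v hv h) w h2
    · exact hn1 v hv w h1
  have hd3 : ∀ v w, (G1 ⊔ G2).Adj v w → ¬ G3.Adj v w := by
    intro v w h1 h3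
    by_cases hv : v ∈ A ∪ B
    · exact hn3 v hv w h3
    · rw [Finset.mem_union, not_or] at hv
      rcases h1 with h1 | h1
      · exact hn1 v hv.1 w h1
      · exact hn2 v hv.2 w h1
  have hd4 : ∀ v w, (G1 ⊔ G2 ⊔ G3).Adj v w → ¬ G4.Adj v w := by
    intro v w h1 h4
    have key : ∀ z, z ∈ Z → ¬ (G1 ⊔ G2 ⊔ G3).Adj u z := by
      intro z hz h
      rcases h with (h | h) | h
      · exact hn1 u huA z h
      · exact hn2 u huB z h
      · exact hn3 z (hZ hz) u h.symm
    rcases h4 with ⟨rfl, h4⟩ | ⟨rfl, h4⟩
    · exact key w h4 h1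
    · exact key v h4 h1.symm
  refine ⟨G1 ⊔ G2 ⊔ G3 ⊔ G4, ?_, ?_⟩
  · intro v
    rw [deg_sup _ _ v (hd4 v), deg_sup _ _ v (hd3 v), deg_sup _ _ v (hd12 v), hG1, hG2, hG3]
    by_cases hvu : v = u
    · subst hvu
      rw [hG4u]
      simp only [huA, huB, huAB, if_false, if_true]
      omega
    · rw [hG4v v hvu]
      by_cases hvA : v ∈ A
      · have hvB : v ∉ B := fun h => hdis v hvA h
        have hvAB : v ∈ A ∪ B := Finset.mem_union_left _ hvA
        simp only [hvA, hvB, hvAB, if_true, if_false]
        by_cases hvZ : v ∈ Z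
        · have := hZ1 v hvZ
          simp only [hvZ, if_true]; omega
        · simp only [hvZ, if_false]; omega
      · by_cases hvB : v ∈ B
        · have hvAB : v ∈ A ∪ B := Finset.mem_union_right _ hvB
          simp only [hvA, hvB, hvAB, if_true, if_false]
          by_cases hvZ : v ∈ Z
          · have := hZ1 v hvZ
            simp only [hvZ, if_true]; omega
          · simp only [hvZ, if_false]; omega
        · have hvAB : v ∉ A ∪ B := by simp [hvA, hvB]
          have hvZ : v ∉ Z := fun h => hvAB (hZ h)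
          simp only [hvA, hvB, hvAB, hvZ, hvu, if_false]
          omega
  · intro M
    apply no_pm _ {u} (ι := Bool) (fun b => if b then A else B)
    · intro i j h
      cases i <;> cases j <;> simp_all [disjoint_comm]
    · intro i; cases i <;> simp [hA, hB]
    · intro i v hv w hw
      rw [Finset.mem_singleton]
      cases i
      · simp only [Bool.false_eq_true, if_false] at hv ⊢
        have hvA : v ∉ A := fun h => hdis v h hv
        rcases hw with ((hw | hw) | hw) | hw
        · exact (hn1 v hvA w hw).elim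
        · left
          by_contra hwB
          exact hn2 w hwB v hw.symm
        · exact (hn3 v (Finset.mem_union_right _ hv) w hw).elim
        · rcases hw with ⟨h, _⟩ | ⟨h, _⟩
          · exact (huB (h ▸ hv)).elim
          · exact Or.inr h
      · simp only [if_true] at hv ⊢
        have hvB : v ∉ B := fun h => hdis v hv h
        rcases hw with ((hw | hw) | hw) | hw
        · left
          by_contra hwA
          exact hn1 w hwA v hw.symm
        · exact (hn2 v hvB w hw).elim
        · exact (hn3 v (Finset.mem_union_left _ hv) w hw).elim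
        · rcases hw with ⟨h, _⟩ | ⟨h, _⟩
          · exact (huA (h ▸ hv)).elim
          · exact Or.inr h
    · simp

/-- Two-block bad realization: `T` is joined only to `S`, `|S| < |T|`. -/
theorem bip_glue (f : V → ℕ) (S T : Finset V) (hST : Disjoint S T) (hlt : S.card < T.card)
    (B G : SimpleGraph V)
    (hB : ∀ a b, B.Adj a b → (a ∈ S ∧ b ∈ T) ∨ (a ∈ T ∧ b ∈ S))
    (hBT : ∀ j ∈ T, (B.neighborSet j).ncard = f j)
    (hBS : ∀ i ∈ S, (B.neighborSet i).ncard ≤ f i)
    (hG : ∀ v, (G.neighborSet v).ncard =
      if v ∈ T then 0 else if v ∈ S then f v - (B.neighborSet v).ncard else f v) : BadReal f := by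
  have hdis : ∀ x, x ∈ S → x ∈ T → False := fun x h1 h2 => Finset.disjoint_left.mp hST h1 h2
  have hnT : ∀ v, v ∈ T → ∀ w, ¬ G.Adj v w := fun v hv w =>
    no_adj_of_deg_zero G v (by rw [hG]; simp [hv]) w
  have hd : ∀ v w, G.Adj v w → ¬ B.Adj v w := by
    intro v w h1 h2
    rcases hB v w h2 with ⟨_, h⟩ | ⟨h, _⟩
    · exact hnT w h v h1.symm
    · exact hnT v h w h1
  refine ⟨G ⊔ B, ?_, ?_⟩
  · intro v
    rw [deg_sup _ _ v (hd v), hG]
    by_cases hT : v ∈ T
    · simp only [hT, if_true]; rw [hBT v hT]; omega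
    · by_cases hS : v ∈ S
      · simp only [hT, hS, if_true, if_false]
        have := hBS v hS
        omega
      · simp only [hT, hS, if_false]
        have : B.neighborSet v = ∅ := by
          ext x
          rw [SimpleGraph.mem_neighborSet]
          constructor
          · intro h
            rcases hB v x h with ⟨h, _⟩ | ⟨h, _⟩
            · exact (hS h).elim
            · exact (hT h).elim
          · intro h; exact h.elim
        rw [this, Set.ncard_empty, Nat.add_zero]
  · intro M
    apply no_pm _ S (ι := T) (fun t => {t.1})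
    · intro i j h
      rw [Finset.disjoint_singleton]
      exact fun h' => h (Subtype.ext h')
    · intro i; simp
    · intro i v hv w hw
      right
      rw [Finset.mem_singleton] at hv
      subst hv
      rcases hw with hw | hw
      · exact (hnT _ i.2 w hw).elim
      · rcases hB _ _ hw with ⟨h, _⟩ | ⟨_, h⟩
        · exact (hdis _ h i.2).elim
        · exact h
    · simpa using hlt

end Pool.Agent.MP_6e0dc6_co
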