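import Pool.Agent.Lib.MP_6e0dc6_co.EG
import Pool.Agent.Lib.MP_6e0dc6_co.Bip
import Pool.Agent.Lib.MP_6e0dc6_co.Glue

/-!
Case 2 of the main construction.
-/

namespace Pool.Agent.MP_6e0dc6_co

open Finset

variable {V : Type*} [Fintype V] [DecidableEq V]

/-- Double counting in a bipartite graph. -/
theorem bip_count (S T : Finset V) (hST : Disjoint S T) (B : SimpleGraph V)
    (hB : ∀ a b, B.Adj a b → (a ∈ S ∧ b ∈ T) ∨ (a ∈ T ∧ b ∈ S)) :
    ∑ i ∈ S, (B.neighborSet i).ncard = ∑ j ∈ T, (B.neighborSet j).ncard := by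
  classical
  have hdis : ∀ x, x ∈ S → x ∈ T → False := fun x h1 h2 => Finset.disjoint_left.mp hST h1 h2
  have h1 : ∀ i ∈ S, (B.neighborSet i).ncard = (T.filter fun j => B.Adj i j).card := by
    intro i hi
    have : B.neighborSet i = ((T.filter fun j => B.Adj i j : Finset V) : Set V) := by
      ext x
      rw [SimpleGraph.mem_neighborSet]
      simp only [coe_filter, Set.mem_ofPred_eq]
      constructor
      · intro h
        rcases hB i x h with ⟨_, h'⟩ | ⟨h', _⟩
        · exact ⟨h', h⟩
        · exact (hdis i hi h').elim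
      · exact fun h => h.2
    rw [this, Set.ncard_coe_finset]
  have h2 : ∀ j ∈ T, (B.neighborSet j).ncard = (S.filter fun i => B.Adj i j).card := by
    intro j hj
    have : B.neighborSet j = ((S.filter fun i => B.Adj i j : Finset V) : Set V) := by
      ext x
      rw [SimpleGraph.mem_neighborSet]
      simp only [coe_filter, Set.mem_ofPred_eq]
      constructor
      · intro h
        rcases hB j x h with ⟨h', _⟩ | ⟨_, h'⟩
        · exact (hdis j h' hj).elim
        · exact ⟨h', h.symm⟩
      · exact fun h => h.2.symm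
    rw [this, Set.ncard_coe_finset]
  rw [Finset.sum_congr rfl h1, Finset.sum_congr rfl h2]
  simp only [Finset.card_filter]
  exact Finset.sum_comm

/-- The residual function after removing a bipartite graph. -/
noncomputable def resid (f : V → ℕ) (S T : Finset V) (B : SimpleGraph V) : V → ℕ :=
  fun v => if v ∈ T then 0 else if v ∈ S then f v - (B.neighborSet v).ncard else f v

/-- The sum of a function over all vertices, split over `S`, `T`, rest. -/
theorem sum_split (g : V → ℕ) (S T : Finset V) (hST : Disjoint S T) :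
    ∑ v, g v = ∑ v ∈ S, g v + ∑ v ∈ T, g v + ∑ v ∈ (S ∪ T)ᶜ, g v := by
  rw [← Finset.sum_union hST, Finset.sum_add_sum_compl]

theorem resid_sum (f : V → ℕ) (S T : Finset V) (hST : Disjoint S T) (B : SimpleGraph V)
    (hB : ∀ a b, B.Adj a b → (a ∈ S ∧ b ∈ T) ∨ (a ∈ T ∧ b ∈ S))
    (hBT : ∀ j ∈ T, (B.neighborSet j).ncard = f j)
    (hBS : ∀ i ∈ S, (B.neighborSet i).ncard ≤ f i) :
    ∑ v, resid f S T B v + 2 * ∑ t ∈ T, f t = ∑ v, f v := by
  have hdis : ∀ x, x ∈ S → x ∈ T → False := fun x h1 h2 => Finset.disjoint_left.mp hST h1 h2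
  rw [sum_split (resid f S T B) S T hST, sum_split f S T hST]
  have h1 : ∑ v ∈ T, resid f S T B v = 0 := by
    apply Finset.sum_eq_zero
    intro v hv; simp [resid, hv]
  have h2 : ∑ v ∈ (S ∪ T)ᶜ, resid f S T B v = ∑ v ∈ (S ∪ T)ᶜ, f v := by
    apply Finset.sum_congr rfl
    intro v hv
    rw [Finset.mem_compl, Finset.mem_union, not_or] at hv
    simp [resid, hv.1, hv.2]
  have h3 : ∑ v ∈ S, resid f S T B v + ∑ v ∈ S, (B.neighborSet v).ncard = ∑ v ∈ S, f v := by
    rw [← Finset.sum_add_distrib]
    apply Finset.sum_congr rfl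
    intro v hv
    have hvT : v ∉ T := fun h => hdis v hv h
    simp only [resid, hvT, hv, if_true, if_false]
    have := hBS v hv
    omega
  have h4 := bip_count S T hST B hB
  have h5 : ∑ j ∈ T, (B.neighborSet j).ncard = ∑ j ∈ T, f j := Finset.sum_congr rfl hBT
  omega

/-- Slack bound for small sets: all vertices of `M = (S ∪ T)ᶜ` have value at least `k`. -/
theorem slack_small (g : V → ℕ) (S T K : Finset V) (D : ℕ)
    (hgD : ∀ v, g v ≤ D)
    (hM : ∀ m, m ∉ S → m ∉ T → K.card ≤ g m) (hcard : D + 1 ≤ (S ∪ T)ᶜ.card) :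
    0 ≤ slack g K := by
  set k := K.card with hk
  set Mx := (S ∪ T)ᶜ with hMx
  have h1 : (Mx.card - (Mx ∩ K).card) * k ≤ ∑ w ∈ Kᶜ, min (g w) k := by
    have h2 : ∑ w ∈ Mx \ K, k ≤ ∑ w ∈ Mx \ K, min (g w) k := by
      apply Finset.sum_le_sum
      intro w hw
      rw [Finset.mem_sdiff, hMx, Finset.mem_compl, Finset.mem_union, not_or] at hw
      have := hM w hw.1.1 hw.1.2
      omega
    have h3 : ∑ w ∈ Mx \ K, min (g w) k ≤ ∑ w ∈ Kᶜ, min (g w) k := by
      apply Finset.sum_le_sum_of_subset
      intro x hx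
      rw [Finset.mem_sdiff] at hx
      exact Finset.mem_compl.mpr hx.2
    rw [Finset.sum_const, smul_eq_mul] at h2
    have h4 : (Mx \ K).card = Mx.card - (Mx ∩ K).card := by
      have := Finset.card_sdiff_add_card_inter Mx K
      omega
    rw [h4] at h2
    exact h2.trans h3
  have h5 : (Mx ∩ K).card ≤ k := Finset.card_le_card Finset.inter_subset_right
  have h6 : (Mx ∩ K).card ≤ Mx.card := Finset.card_le_card Finset.inter_subset_left
  have h7 : ∑ v ∈ K, g v ≤ k * D := by
    rw [hk, ← smul_eq_mul, ← Finset.sum_const]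
    exact Finset.sum_le_sum fun v _ => hgD v
  unfold slack
  rw [← hk]
  have hcastK : (∑ v ∈ K, (g v : ℤ)) = ((∑ v ∈ K, g v : ℕ) : ℤ) := by push_cast; rfl
  rw [hcastK]
  have h8 : ((Mx.card : ℤ) - (Mx ∩ K).card) * k ≤ (∑ w ∈ Kᶜ, min (g w) k : ℕ) := by
    have : (((Mx.card - (Mx ∩ K).card) * k : ℕ) : ℤ) = ((Mx.card : ℤ) - (Mx ∩ K).card) * k := by
      push_cast [Nat.cast_sub h6]; ring
    rw [← this]; exact_mod_cast h1
  have h9 : ((∑ v ∈ K, g v : ℕ) : ℤ) ≤ (k : ℤ) * D := by exact_mod_cast h7
  have h10 : ((Mx ∩ K).card : ℤ) ≤ k := by exact_mod_cast h5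
  have h11 : (D : ℤ) + 1 ≤ Mx.card := by exact_mod_cast hcard
  have hk0 : (0 : ℤ) ≤ k := Int.natCast_nonneg k
  nlinarith [mul_nonneg hk0 (sub_nonneg.mpr h11), mul_nonneg hk0 (sub_nonneg.mpr h10)]

/-- Case 2. -/
theorem case_two (f : V → ℕ) (hf : Even (∑ v, f v)) (D e s : ℕ) (hD : ∀ v, f v ≤ D)
    (hn : 3 * D + 2 ≤ Fintype.card V) (S T : Finset V) (hST : Disjoint S T) (hS : S.card = s)
    (hT : T.card = s + 1) (hes : e ≤ s) (hsD : D ≤ s + 1) (hse : s ≤ max e (D - 1)) (heD : e ≤ D)
    (he : 1 ≤ e)
    (hM : ∀ m, m ∉ S → m ∉ T → f m = e) (hTe : ∀ t ∈ T, f t ≤ e) (hSe : ∀ i ∈ S, e ≤ f i)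
    (hp : (S.filter fun v => e < f v).card < e)
    (hXY : e ≤ ∑ i ∈ S, (f i - e) + ∑ t ∈ T, (e - f t)) :
    BadReal f := by
  -- the bipartite graph
  have hbip : ∀ Q ⊆ T, ∑ j ∈ Q, f j ≤ ∑ i ∈ S, min (f i) Q.card := by
    intro Q hQ
    have hQc : Q.card ≤ s + 1 := hT ▸ Finset.card_le_card hQ
    by_cases hQT : Q.card = s + 1
    · have hQeq : Q = T := Finset.eq_of_subset_of_card_le hQ (by omega)
      subst hQeq
      rw [hQT]
      have h1 : ∑ i ∈ S, min (f i) (s + 1) = ∑ i ∈ S, f i := by
        apply Finset.sum_congr rfl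
        intro i _
        have := hD i
        omega
      rw [h1]
      have h2 : ∑ j ∈ Q, f j + ∑ t ∈ Q, (e - f t) = (s + 1) * e := by
        rw [← Finset.sum_add_distrib, ← hQT, ← smul_eq_mul, ← Finset.sum_const]
        apply Finset.sum_congr rfl
        intro j hj
        have := hTe j hj
        omega
      have h3 : ∑ i ∈ S, f i = s * e + ∑ i ∈ S, (f i - e) := by
        rw [← hS, ← smul_eq_mul, ← Finset.sum_const, ← Finset.sum_add_distrib]
        apply Finset.sum_congr rfl
        intro i hi
        have := hSe i hi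
        omega
      have h4 : (s + 1) * e = s * e + e := by ring
      omega
    · have hQs : Q.card ≤ s := by omega
      have h1 : ∑ j ∈ Q, f j ≤ Q.card * e := by
        rw [← smul_eq_mul, ← Finset.sum_const]
        exact Finset.sum_le_sum fun j hj => hTe j (hQ hj)
      have h2 : s * min e Q.card ≤ ∑ i ∈ S, min (f i) Q.card := by
        rw [← hS, ← smul_eq_mul, ← Finset.sum_const]
        apply Finset.sum_le_sum
        intro i hi
        have := hSe i hi
        omega
      have h3 : Q.card * e ≤ s * min e Q.card := by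
        rcases le_total e Q.card with h | h
        · rw [min_eq_left h]; exact Nat.mul_le_mul_right e hQs
        · rw [min_eq_right h, mul_comm]; exact Nat.mul_le_mul_right _ hes
      omega
  obtain ⟨B, hB1, hB2, hB3⟩ := bip S T hST f f hbip
  have hcardM : D + 1 ≤ (S ∪ T)ᶜ.card := by
    rw [Finset.card_compl, Finset.card_union_of_disjoint hST, hS, hT]
    rcases le_total e (D - 1) with h | h
    · rw [max_eq_right h] at hse; omega
    · rw [max_eq_left h] at hse; omega
  have hres : IsValence (resid f S T B) := by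
    apply eg_suff
    · have := resid_sum f S T hST B hB1 hB2 hB3
      rw [← this] at hf
      rw [Nat.even_add] at hf
      exact hf.mpr (even_two_mul _)
    · apply eg_reduce
      intro K hK1 _
      have hKT : K.card = 0 ∨ ∀ v ∈ K, v ∉ T := by
        by_cases h0 : K.card = 0
        · exact Or.inl h0
        · right
          intro v hv hvT
          have := hK1 v hv
          simp only [resid, hvT, if_true] at this
          omega
      rcases hKT with h0 | hKT
      · rw [Finset.card_eq_zero] at h0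
        subst h0
        simp [slack]
      have hres_le : ∀ v, resid f S T B v ≤ f v := by
        intro v
        unfold resid
        split_ifs <;> omega
      by_cases hke : K.card ≤ e
      · apply slack_small (resid f S T B) S T K D (fun v => (hres_le v).trans (hD v)) _ hcardM
        intro m hmS hmT
        simp only [resid, hmS, hmT, if_false]
        rw [hM m hmS hmT]; exact hke
      · exfalso
        have : K ⊆ S.filter fun v => e < f v := by
          intro v hv
          rw [Finset.mem_filter]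
          have h1 := hK1 v hv
          have h2 := hres_le v
          have h3 : e < f v := by omega
          refine ⟨?_, h3⟩
          by_contra hvS
          have := hM v hvS (hKT v hv)
          omega
        have := Finset.card_le_card this
        omega
  obtain ⟨G, hG⟩ := hres
  exact bip_glue f S T hST (by omega) B G hB1 hB2 hB3 hG

end Pool.Agent.MP_6e0dc6_co
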