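import Pool.Agent.Lib.MP_6e0dc6_co.EG
import Pool.Agent.Lib.MP_6e0dc6_co.Bip
import Pool.Agent.Lib.MP_6e0dc6_co.Glue
import Pool.Agent.Lib.MP_6e0dc6_co.CaseTwo

/-!
Balanced bipartite templates (module M62-6).
-/

set_option autoImplicit false

namespace Pool.Agent.MP_6e0dc6_co

open Finset

variable {V : Type*} [Fintype V] [DecidableEq V]

/-- M62-6a. -/
theorem sm_valence (g : V → ℕ) (M : Finset V) (r : ℕ) (he : Even (∑ v, g v))
    (hM : ∀ v ∈ M, g v = r) (hS : ∑ v ∈ Mᶜ, g v ≤ r) (hcard : r + 2 ≤ M.card) :
    IsValence g := by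
  apply eg_suff g he
  apply eg_reduce
  intro K hK _
  rcases K.eq_empty_or_nonempty with rfl | hne
  · simp [slack]
  obtain ⟨v0, hv0⟩ := hne
  have hk1 : 1 ≤ K.card := Finset.card_pos.2 ⟨v0, hv0⟩
  by_cases hkr : K.card ≤ r
  · -- split `K` by `M`
    have h1 : ∑ v ∈ K, g v = (K ∩ M).card * r + ∑ v ∈ K \ M, g v := by
      rw [← Finset.sum_inter_add_sum_sdiff K M]
      congr 1
      rw [← smul_eq_mul, ← Finset.sum_const]
      exact Finset.sum_congr rfl fun v hv => hM v (Finset.mem_inter.1 hv).2
    have h2 : ∑ v ∈ K \ M, g v ≤ r := by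
      refine le_trans (Finset.sum_le_sum_of_subset ?_) hS
      intro x hx
      rw [Finset.mem_sdiff] at hx
      exact Finset.mem_compl.2 hx.2
    have h3 : (M \ K).card * K.card ≤ ∑ w ∈ Kᶜ, min (g w) K.card := by
      rw [← smul_eq_mul, ← Finset.sum_const]
      calc ∑ _w ∈ M \ K, K.card ≤ ∑ w ∈ M \ K, min (g w) K.card := by
            refine Finset.sum_le_sum fun w hw => ?_
            rw [hM w (Finset.mem_sdiff.1 hw).1]
            omega
        _ ≤ ∑ w ∈ Kᶜ, min (g w) K.card := by
            refine Finset.sum_le_sum_of_subset ?_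
            intro x hx
            rw [Finset.mem_sdiff] at hx
            exact Finset.mem_compl.2 hx.2
    have h4 : (K ∩ M).card + (K \ M).card = K.card := Finset.card_inter_add_card_sdiff K M
    have h5 : (M \ K).card + (K ∩ M).card = M.card := by
      rw [Finset.inter_comm]
      exact Finset.card_sdiff_add_card_inter M K
    have h6 : (K \ M).card = 0 → ∑ v ∈ K \ M, g v = 0 := by
      intro h
      rw [Finset.card_eq_zero] at h
      rw [h, Finset.sum_empty]
    rw [eg_slack_def, h1]
    generalize (∑ v ∈ K \ M, g v) = G at *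
    generalize (∑ w ∈ Kᶜ, min (g w) K.card) = W at *
    generalize (K \ M).card = a at *
    generalize (K ∩ M).card = b at *
    generalize (M \ K).card = c at *
    generalize K.card = k at *
    generalize M.card = m at *
    have h3' : (c : ℤ) * k ≤ W := by exact_mod_cast h3
    have h4' : (b : ℤ) + a = k := by exact_mod_cast h4
    have h5' : (c : ℤ) + b = m := by exact_mod_cast h5
    have hm' : (r : ℤ) + 2 ≤ m := by exact_mod_cast hcard
    have hG' : (G : ℤ) ≤ a * r := by
      rcases Nat.eq_zero_or_pos a with h | h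
      · rw [h6 h, h]; simp
      · have : G ≤ a * r := le_trans h2 (Nat.le_mul_of_pos_left r h)
        exact_mod_cast this
    have hk' : (1 : ℤ) ≤ k := by exact_mod_cast hk1
    have ha' : (0 : ℤ) ≤ a := Int.natCast_nonneg a
    have hr' : (0 : ℤ) ≤ r := Int.natCast_nonneg r
    push_cast
    have hc : (c : ℤ) = m - k + a := by linarith
    have hb : (b : ℤ) = k - a := by linarith
    rw [hc] at h3'
    rw [hb]
    nlinarith [mul_nonneg (by linarith : (0 : ℤ) ≤ k) (by linarith : (0 : ℤ) ≤ m - r - 2),
      mul_nonneg (by linarith : (0 : ℤ) ≤ k) ha']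
  · exfalso
    have h1 := hK v0 hv0
    have h2 : v0 ∈ Mᶜ := by
      rw [Finset.mem_compl]
      intro h
      have := hM v0 h
      omega
    have h3 := Finset.single_le_sum (f := g) (fun i _ => Nat.zero_le _) h2
    omega

/-- M62-6b. -/
theorem f_bad (f : V → ℕ) (he : Even (∑ v, f v)) (r : ℕ) (hr : 3 ≤ r)
    (hcard : 3 * r - 1 ≤ Fintype.card V) (T : Finset V) (hT : T.card = r - 1)
    (hT2 : ∀ v ∈ T, f v = r - 2) (hTr : ∀ v ∉ T, f v = r) : BadReal f := by
  obtain ⟨S, hST', hS⟩ : ∃ S ⊆ Tᶜ, S.card = r - 2 := by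
    apply Finset.exists_subset_card_eq
    rw [Finset.card_compl, hT]
    omega
  have hST : Disjoint S T := by
    rw [Finset.disjoint_left]
    intro x hx hxT
    exact (Finset.mem_compl.1 (hST' hx)) hxT
  have hSr : ∀ v ∈ S, f v = r := fun v hv => hTr v (Finset.mem_compl.1 (hST' hv))
  obtain ⟨B, hB1, hB2, hB3⟩ := bip S T hST f (fun _ => r - 1) (by
    intro Q hQ
    have hq : Q.card ≤ r - 1 := hT ▸ Finset.card_le_card hQ
    have h1 : ∑ j ∈ Q, f j = Q.card * (r - 2) := by
      rw [← smul_eq_mul, ← Finset.sum_const]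
      exact Finset.sum_congr rfl fun v hv => hT2 v (hQ hv)
    rw [h1, Finset.sum_const, hS, smul_eq_mul, min_eq_right hq, mul_comm])
  have hBS : ∀ i ∈ S, (B.neighborSet i).ncard ≤ f i := by
    intro i hi
    have := hB3 i hi
    rw [hSr i hi]
    omega
  have hcnt := bip_count S T hST B hB1
  have hTsum : ∑ j ∈ T, (B.neighborSet j).ncard = (r - 1) * (r - 2) := by
    rw [← hT, ← smul_eq_mul, ← Finset.sum_const]
    refine Finset.sum_congr rfl fun v hv => ?_
    rw [hB2 v hv, hT2 v hv]
  have hSsum : ∑ v ∈ S, resid f S T B v + (r - 1) * (r - 2) = (r - 2) * r := by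
    have h1 : ∑ v ∈ S, resid f S T B v + ∑ v ∈ S, (B.neighborSet v).ncard = ∑ v ∈ S, f v := by
      rw [← Finset.sum_add_distrib]
      refine Finset.sum_congr rfl fun v hv => ?_
      have hvT : v ∉ T := fun h => Finset.disjoint_left.mp hST hv h
      simp only [resid, hvT, hv, if_true, if_false]
      have := hBS v hv
      omega
    have h2 : ∑ v ∈ S, f v = (r - 2) * r := by
      rw [← hS, ← smul_eq_mul, ← Finset.sum_const]
      exact Finset.sum_congr rfl hSr
    omega
  have hres : IsValence (resid f S T B) := by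
    apply sm_valence (resid f S T B) (S ∪ T)ᶜ r
    · have := resid_sum f S T hST B hB1 hB2 hBS
      rw [← this, Nat.even_add] at he
      exact he.2 (even_two_mul _)
    · intro v hv
      rw [Finset.mem_compl, Finset.mem_union, not_or] at hv
      simp only [resid, hv.1, hv.2, if_false]
      exact hTr v hv.2
    · rw [compl_compl, Finset.sum_union hST]
      have h1 : ∑ v ∈ T, resid f S T B v = 0 := by
        apply Finset.sum_eq_zero
        intro v hv
        simp [resid, hv]
      rw [h1, add_zero]
      obtain ⟨q, rfl⟩ : ∃ q, r = q + 3 := ⟨r - 3, by omega⟩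
      have h2 : (q + 3 - 2) * (q + 3) = (q + 3 - 1) * (q + 3 - 2) + (q + 1) := by
        have e1 : q + 3 - 2 = q + 1 := by omega
        have e2 : q + 3 - 1 = q + 2 := by omega
        rw [e1, e2]
        ring
      omega
    · rw [Finset.card_compl, Finset.card_union_of_disjoint hST, hS, hT]
      omega
  obtain ⟨G, hG⟩ := hres
  exact bip_glue f S T hST (by omega) B G hB1 hB2 hBS hG

/-- M62-6c. -/
theorem dc_bad (f : V → ℕ) (he : Even (∑ v, f v)) (r s : ℕ) (hr : 1 ≤ r) (hs : r ≤ s)
    (hcard : Fintype.card V = 2 * s + r + 3) (hodd : ∀ v, Odd (f v)) (hro : Odd r)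
    (hXY : ∑ v, (f v - r) + ∑ v, (r - f v) + 2 ≤ 2 * r)
    (hdc : r ≤ ∑ v, min (f v - r) (s + 1 - r) + ∑ v, (r - f v)) : BadReal f := by
  -- few vertices have value different from `r`
  have hfew : 2 * (univ.filter fun v => f v ≠ r).card ≤
      ∑ v, (f v - r) + ∑ v, (r - f v) := by
    rw [← Finset.sum_add_distrib, Finset.card_filter, Finset.mul_sum]
    refine Finset.sum_le_sum fun v _ => ?_
    obtain ⟨a, ha⟩ := hodd v
    obtain ⟨b, hb⟩ := hro
    split_ifs with h
    · omega
    · omega
  have hgt : (univ.filter fun v => r < f v).card ≤ (univ.filter fun v => f v ≠ r).card := by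
    apply Finset.card_le_card
    intro v hv
    rw [Finset.mem_filter] at hv ⊢
    exact ⟨hv.1, by omega⟩
  have hlt : (univ.filter fun v => f v < r).card ≤ (univ.filter fun v => f v ≠ r).card := by
    apply Finset.card_le_card
    intro v hv
    rw [Finset.mem_filter] at hv ⊢
    exact ⟨hv.1, by omega⟩
  have hge : (univ.filter fun v => r ≤ f v).card + (univ.filter fun v => f v < r).card =
      Fintype.card V := by
    have := Finset.card_filter_add_card_filter_not (s := (univ : Finset V)) (fun v => r ≤ f v)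
    simp only [not_le] at this
    rw [this, Finset.card_univ]
  obtain ⟨S, hS1, hS2, hS⟩ : ∃ S, (univ.filter fun v => r < f v) ⊆ S ∧
      S ⊆ (univ.filter fun v => r ≤ f v) ∧ S.card = s := by
    apply Finset.exists_subsuperset_card_eq
    · intro v hv
      rw [Finset.mem_filter] at hv ⊢
      exact ⟨hv.1, by omega⟩
    · omega
    · omega
  obtain ⟨T, hT1, hT2, hT⟩ : ∃ T, (univ.filter fun v => f v < r) ⊆ T ∧
      T ⊆ Sᶜ ∧ T.card = s + 1 := by
    apply Finset.exists_subsuperset_card_eq
    · intro v hv
      rw [Finset.mem_filter] at hv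
      rw [Finset.mem_compl]
      intro h
      have := (Finset.mem_filter.1 (hS2 h)).2
      omega
    · omega
    · rw [Finset.card_compl, hS]
      omega
  have hST : Disjoint S T := by
    rw [Finset.disjoint_left]
    intro x hx hxT
    exact (Finset.mem_compl.1 (hT2 hxT)) hx
  have hSr : ∀ v ∈ S, r ≤ f v := fun v hv => (Finset.mem_filter.1 (hS2 hv)).2
  have hTr : ∀ v ∈ T, f v ≤ r := by
    intro v hv
    by_contra hcon
    push Not at hcon
    exact (Finset.mem_compl.1 (hT2 hv)) (hS1 (Finset.mem_filter.2 ⟨Finset.mem_univ _, hcon⟩))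
  have hSn : ∀ v ∉ S, f v ≤ r := by
    intro v hv
    by_contra hcon
    push Not at hcon
    exact hv (hS1 (Finset.mem_filter.2 ⟨Finset.mem_univ _, hcon⟩))
  have hTn : ∀ v ∉ T, r ≤ f v := by
    intro v hv
    by_contra hcon
    push Not at hcon
    exact hv (hT1 (Finset.mem_filter.2 ⟨Finset.mem_univ _, hcon⟩))
  have hY : ∑ v ∈ T, (r - f v) = ∑ v, (r - f v) := by
    apply Finset.sum_subset (Finset.subset_univ T)
    intro v _ hv
    have := hTn v hv
    omega
  have hX : ∑ v ∈ S, (f v - r) = ∑ v, (f v - r) := by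
    apply Finset.sum_subset (Finset.subset_univ S)
    intro v _ hv
    have := hSn v hv
    omega
  have hXm : ∑ v ∈ S, min (f v - r) (s + 1 - r) = ∑ v, min (f v - r) (s + 1 - r) := by
    apply Finset.sum_subset (Finset.subset_univ S)
    intro v _ hv
    have := hSn v hv
    omega
  have hTf : ∑ v ∈ T, f v + ∑ v ∈ T, (r - f v) = (s + 1) * r := by
    rw [← Finset.sum_add_distrib, ← hT, ← smul_eq_mul, ← Finset.sum_const]
    refine Finset.sum_congr rfl fun v hv => ?_
    have := hTr v hv
    omega
  have hSf : ∑ v ∈ S, f v = s * r + ∑ v ∈ S, (f v - r) := by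
    rw [← hS, ← smul_eq_mul, ← Finset.sum_const, ← Finset.sum_add_distrib]
    refine Finset.sum_congr rfl fun v hv => ?_
    have := hSr v hv
    omega
  obtain ⟨B, hB1, hB2, hB3⟩ := bip S T hST f (fun v => min (f v) (s + 1)) (by
    intro Q hQ
    have hQc : Q.card ≤ s + 1 := hT ▸ Finset.card_le_card hQ
    by_cases hQT : Q.card = s + 1
    · have hQeq : Q = T := Finset.eq_of_subset_of_card_le hQ (by omega)
      subst hQeq
      rw [hQT]
      have h1 : ∑ i ∈ S, min (min (f i) (s + 1)) (s + 1) =
          s * r + ∑ i ∈ S, min (f i - r) (s + 1 - r) := by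
        rw [← hS, ← smul_eq_mul, ← Finset.sum_const, ← Finset.sum_add_distrib, hS]
        refine Finset.sum_congr rfl fun v hv => ?_
        have := hSr v hv
        omega
      have h2 : (s + 1) * r = s * r + r := by ring
      omega
    · have hQs : Q.card ≤ s := by omega
      have h1 : ∑ j ∈ Q, f j ≤ Q.card * r := by
        rw [← smul_eq_mul, ← Finset.sum_const]
        exact Finset.sum_le_sum fun j hj => hTr j (hQ hj)
      have h2 : s * min r Q.card ≤ ∑ i ∈ S, min (min (f i) (s + 1)) Q.card := by
        rw [← hS, ← smul_eq_mul, ← Finset.sum_const, hS]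
        refine Finset.sum_le_sum fun i hi => ?_
        have := hSr i hi
        omega
      have h3 : Q.card * r ≤ s * min r Q.card := by
        rcases le_total r Q.card with h | h
        · rw [min_eq_left h]; exact Nat.mul_le_mul_right r hQs
        · rw [min_eq_right h, mul_comm]; exact Nat.mul_le_mul_right _ hs
      omega)
  have hBS : ∀ i ∈ S, (B.neighborSet i).ncard ≤ f i := fun i hi =>
    le_trans (hB3 i hi) (min_le_left _ _)
  have hcnt := bip_count S T hST B hB1
  have hTsum : ∑ j ∈ T, (B.neighborSet j).ncard = ∑ j ∈ T, f j :=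
    Finset.sum_congr rfl hB2
  have hSsum : ∑ v ∈ S, resid f S T B v + ∑ v ∈ S, (B.neighborSet v).ncard = ∑ v ∈ S, f v := by
    rw [← Finset.sum_add_distrib]
    refine Finset.sum_congr rfl fun v hv => ?_
    have hvT : v ∉ T := fun h => Finset.disjoint_left.mp hST hv h
    simp only [resid, hvT, hv, if_true, if_false]
    have := hBS v hv
    omega
  have hres : IsValence (resid f S T B) := by
    apply sm_valence (resid f S T B) (S ∪ T)ᶜ r
    · have := resid_sum f S T hST B hB1 hB2 hBS
      rw [← this, Nat.even_add] at he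
      exact he.2 (even_two_mul _)
    · intro v hv
      rw [Finset.mem_compl, Finset.mem_union, not_or] at hv
      simp only [resid, hv.1, hv.2, if_false]
      have h1 := hSn v hv.1
      have h2 := hTn v hv.2
      omega
    · rw [compl_compl, Finset.sum_union hST]
      have h1 : ∑ v ∈ T, resid f S T B v = 0 := by
        apply Finset.sum_eq_zero
        intro v hv
        simp [resid, hv]
      rw [h1, add_zero]
      have h2 : (s + 1) * r = s * r + r := by ring
      omega
    · rw [Finset.card_compl, Finset.card_union_of_disjoint hST, hS, hT]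
      omega
  obtain ⟨G, hG⟩ := hres
  exact bip_glue f S T hST (by omega) B G hB1 hB2 hBS hG

end Pool.Agent.MP_6e0dc6_co
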