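import Pool.Agent.Lib.MP_6e0dc6_co.Defs

/-!
Forcing direction of the classification (module Forcing): Tutte's theorem and counting.
-/

set_option linter.unusedSectionVars false

namespace Pool.Agent.MP_6e0dc6_co

open Finset

variable {V : Type*} [Fintype V] [DecidableEq V]

theorem Forcing.tutte_extract (G : SimpleGraph V) (hn : Even (Fintype.card V))
    (hM : ¬ ∃ M : G.Subgraph, M.IsPerfectMatching) :
    ∃ (S : Finset V) (F : Finset (Finset V)), F.card = S.card + 2 ∧
      (∀ C ∈ F, Odd C.card) ∧ (∀ C ∈ F, Disjoint C S) ∧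
      (∀ C ∈ F, ∀ D ∈ F, C ≠ D → Disjoint C D) ∧
      (∀ C ∈ F, ∀ v ∈ C, ∀ w, G.Adj v w → w ∈ C ∨ w ∈ S) := by
  classical
  rw [SimpleGraph.tutte] at hM
  push Not at hM
  obtain ⟨u, hu⟩ := hM
  unfold SimpleGraph.IsTutteViolator at hu
  have hodd := SimpleGraph.odd_ncard_oddComponents (G := ((⊤ : G.Subgraph).deleteVerts u).coe)
  generalize hK : ((⊤ : G.Subgraph).deleteVerts u) = K at hu hodd
  have hverts : ∀ v, v ∈ K.verts ↔ v ∉ u := by
    intro v
    rw [← hK]
    simp
  have hadj : ∀ v w, K.Adj v w ↔ v ∉ u ∧ w ∉ u ∧ G.Adj v w := by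
    intro v w
    rw [← hK]
    simp
  have hcardK : Nat.card K.verts + u.ncard = Fintype.card V := by
    have h1 : K.verts = uᶜ := by
      ext v
      simp [hverts]
    rw [Nat.card_coe_set_eq, h1, add_comm, Set.ncard_add_ncard_compl, Nat.card_eq_fintype_card]
  let comp : K.coe.ConnectedComponent → Finset V := fun c => (Subtype.val '' c.supp).toFinset
  have hmem : ∀ (c : K.coe.ConnectedComponent) (v : V), v ∈ comp c ↔
      ∃ h : v ∈ K.verts, K.coe.connectedComponentMk ⟨v, h⟩ = c := by
    intro c v
    simp only [comp, Set.mem_toFinset, Set.mem_image, Subtype.exists, exists_and_right,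
      exists_eq_right]
    rfl
  have hinj : ∀ c d : K.coe.ConnectedComponent, ∀ v, v ∈ comp c → v ∈ comp d → c = d := by
    intro c d v hc hd
    rw [hmem] at hc hd
    obtain ⟨h, hc⟩ := hc
    obtain ⟨h', hd⟩ := hd
    rw [← hc, ← hd]
  have hne : ∀ c : K.coe.ConnectedComponent, ∃ v, v ∈ comp c := by
    intro c
    induction c using SimpleGraph.ConnectedComponent.ind with
    | _ v => exact ⟨v.1, by rw [hmem]; exact ⟨v.2, rfl⟩⟩
  have hinj' : Function.Injective comp := by
    intro c d h
    obtain ⟨v, hv⟩ := hne c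
    exact hinj c d v hv (h ▸ hv)
  have hcc : ∀ c : K.coe.ConnectedComponent, (comp c).card = c.supp.ncard := by
    intro c
    rw [← Set.ncard_eq_toFinset_card', Set.ncard_image_of_injective _ Subtype.val_injective]
  have hS : u.toFinset.card = u.ncard := (Set.ncard_eq_toFinset_card' u).symm
  have hcount : u.ncard + 2 ≤ K.coe.oddComponents.ncard := by
    have h1 : ¬ (K.coe.oddComponents.ncard = u.ncard + 1) := by
      intro h
      rw [h] at hodd
      rcases hn with ⟨m, hm⟩
      have h2 : Odd (u.ncard + 1) ↔ Odd (Nat.card K.verts) := hodd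
      rw [Nat.odd_iff, Nat.odd_iff] at h2
      omega
    omega
  have hfin : (K.coe.oddComponents.toFinset.image comp).card = K.coe.oddComponents.ncard := by
    rw [Finset.card_image_of_injective _ hinj', Set.ncard_eq_toFinset_card']
  obtain ⟨F, hF, hFc⟩ := Finset.exists_subset_card_eq (s := K.coe.oddComponents.toFinset.image comp)
    (n := u.toFinset.card + 2) (by rw [hfin, hS]; exact hcount)
  have hFm : ∀ C ∈ F, ∃ c, Odd c.supp.ncard ∧ comp c = C := by
    intro C hC
    have := hF hC
    rw [Finset.mem_image] at this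
    obtain ⟨c, hc, hcC⟩ := this
    refine ⟨c, ?_, hcC⟩
    simpa using hc
  refine ⟨u.toFinset, F, hFc, ?_, ?_, ?_, ?_⟩
  · intro C hC
    obtain ⟨c, hc, rfl⟩ := hFm C hC
    rw [hcc]
    exact hc
  · intro C hC
    obtain ⟨c, hc, rfl⟩ := hFm C hC
    rw [Finset.disjoint_left]
    intro v hv hvu
    rw [hmem] at hv
    obtain ⟨h, -⟩ := hv
    rw [hverts] at h
    exact h (by simpa using hvu)
  · intro C hC D hD hCD
    obtain ⟨c, hc, rfl⟩ := hFm C hC
    obtain ⟨d, hd, rfl⟩ := hFm D hD
    rw [Finset.disjoint_left]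
    intro v hv hv'
    exact hCD (by rw [hinj c d v hv hv'])
  · intro C hC v hv w hvw
    obtain ⟨c, hc, rfl⟩ := hFm C hC
    by_cases hw : w ∈ u
    · right
      simpa using hw
    · left
      rw [hmem] at hv ⊢
      obtain ⟨h, hv⟩ := hv
      refine ⟨(hverts w).2 hw, ?_⟩
      rw [← hv]
      apply SimpleGraph.ConnectedComponent.sound
      apply SimpleGraph.Adj.reachable
      show K.Adj w v
      rw [hadj]
      exact ⟨hw, (hverts v).1 h, hvw.symm⟩

open Classical in
/-- number of neighbours of `v` in `X` -/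
noncomputable def Forcing.nb (G : SimpleGraph V) (v : V) (X : Finset V) : ℕ :=
  (X.filter (fun w => G.Adj v w)).card

theorem Forcing.nb_univ (G : SimpleGraph V) (v : V) :
    Forcing.nb G v univ = (G.neighborSet v).ncard := by
  classical
  unfold Forcing.nb
  rw [← Set.ncard_coe_finset]
  congr 1
  ext w
  simp

theorem Forcing.nb_mono (G : SimpleGraph V) (v : V) {X Y : Finset V} (h : X ⊆ Y) :
    Forcing.nb G v X ≤ Forcing.nb G v Y := by
  classical
  unfold Forcing.nb
  exact Finset.card_le_card (Finset.filter_subset_filter _ h)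

theorem Forcing.nb_union (G : SimpleGraph V) (v : V) {X Y : Finset V} (h : Disjoint X Y) :
    Forcing.nb G v (X ∪ Y) = Forcing.nb G v X + Forcing.nb G v Y := by
  classical
  unfold Forcing.nb
  rw [Finset.filter_union, Finset.card_union_of_disjoint]
  exact Finset.disjoint_filter_filter h

theorem Forcing.nb_eq_of (G : SimpleGraph V) (v : V) {X : Finset V}
    (h : ∀ w, G.Adj v w → w ∈ X) : Forcing.nb G v X = (G.neighborSet v).ncard := by
  classical
  rw [← Forcing.nb_univ]
  unfold Forcing.nb
  congr 1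
  ext w
  simp only [mem_filter, mem_univ, true_and, and_iff_right_iff_imp]
  exact h w

theorem Forcing.nb_lt (G : SimpleGraph V) (v : V) {X : Finset V} (hv : v ∈ X) :
    Forcing.nb G v X + 1 ≤ X.card := by
  classical
  unfold Forcing.nb
  have h : X.filter (fun w => G.Adj v w) ⊆ X.erase v := by
    intro w hw
    rw [mem_filter] at hw
    rw [mem_erase]
    exact ⟨hw.2.ne', hw.1⟩
  have := Finset.card_le_card h
  rw [Finset.card_erase_of_mem hv] at this
  have h2 : 0 < X.card := Finset.card_pos.2 ⟨v, hv⟩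
  omega

theorem Forcing.nb_le (G : SimpleGraph V) (v : V) (X : Finset V) :
    Forcing.nb G v X ≤ X.card := by
  classical
  unfold Forcing.nb
  exact Finset.card_filter_le _ _

theorem Forcing.sum_nb_comm (G : SimpleGraph V) (X Y : Finset V) :
    ∑ v ∈ X, Forcing.nb G v Y = ∑ u ∈ Y, Forcing.nb G u X := by
  classical
  unfold Forcing.nb
  simp only [Finset.card_filter]
  rw [Finset.sum_comm]
  simp only [SimpleGraph.adj_comm]

theorem Forcing.even_inner (G : SimpleGraph V) (C : Finset V) :
    Even (∑ v ∈ C, Forcing.nb G v C) := by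
  classical
  let H : SimpleGraph V :=
    { Adj := fun a b => G.Adj a b ∧ a ∈ C ∧ b ∈ C
      symm := ⟨fun a b h => ⟨h.1.symm, h.2.2, h.2.1⟩⟩
      loopless := ⟨fun a h => G.loopless.irrefl a h.1⟩ }
  have h1 := H.sum_degrees_eq_twice_card_edges
  have h2 : ∑ v, H.degree v = ∑ v ∈ C, Forcing.nb G v C := by
    rw [← Finset.sum_subset (Finset.subset_univ C)]
    · apply Finset.sum_congr rfl
      intro v hv
      unfold Forcing.nb
      rw [← SimpleGraph.card_neighborFinset_eq_degree]
      congr 1
      ext w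
      simp only [SimpleGraph.mem_neighborFinset, mem_filter, H]
      tauto
    · intro v _ hv
      rw [SimpleGraph.degree_eq_zero]
      intro w hw
      exact hv hw.2.1
  rw [← h2, h1]
  exact even_two_mul _

theorem Forcing.exc_graph (f : V → ℕ) (r : ℕ) (hr : ∀ v, f v ≤ r) (G : SimpleGraph V)
    (hG : ∀ v, (G.neighborSet v).ncard = f v) (C : Finset V) (u : V) (huC : u ∉ C)
    (hC : C.card = r) (hnb : ∀ v ∈ C, ∀ w, G.Adj v w → w ∈ C ∨ w = u) :
    IsValence (fun o : Option C => o.elim (r - ∑ v ∈ C, Forcing.nb G v {u}) fun i => r - f i) := by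
  classical
  let φ : Option C → V := fun o => o.elim u fun i => i
  have hφ : Function.Injective φ := by
    intro x y h
    cases x with
    | none =>
      cases y with
      | none => rfl
      | some b => exact absurd ((show (b : V) = u from h.symm) ▸ b.2) huC
    | some a =>
      cases y with
      | none => exact absurd ((show (a : V) = u from h) ▸ a.2) huC
      | some b => exact congrArg some (Subtype.ext h)
  have hrange : ∀ w, (∃ y, φ y = w) ↔ w ∈ insert u C := by
    intro w
    constructor
    · rintro ⟨y, rfl⟩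
      cases y with
      | none => exact mem_insert_self _ _
      | some a => exact mem_insert_of_mem a.2
    · intro hw
      rcases mem_insert.1 hw with rfl | hw
      · exact ⟨none, rfl⟩
      · exact ⟨some ⟨w, hw⟩, rfl⟩
  have hcount : ∀ x : Option C, (((Gᶜ).comap φ).neighborSet x).ncard +
      Forcing.nb G (φ x) (insert u C) = r := by
    intro x
    have h1 : (((Gᶜ).comap φ).neighborSet x).ncard =
        ((insert u C).filter (fun w => φ x ≠ w ∧ ¬ G.Adj (φ x) w)).card := by
      rw [← Set.ncard_image_of_injective _ hφ, ← Set.ncard_coe_finset]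
      congr 1
      ext w
      simp only [Set.mem_image, SimpleGraph.mem_neighborSet, SimpleGraph.comap_adj,
        SimpleGraph.compl_adj, coe_filter, Set.mem_ofPred_eq]
      constructor
      · rintro ⟨y, hy, rfl⟩
        exact ⟨(hrange _).1 ⟨y, rfl⟩, hy⟩
      · rintro ⟨hw, hy⟩
        obtain ⟨y, rfl⟩ := (hrange w).2 hw
        exact ⟨y, hy, rfl⟩
    rw [h1]
    unfold Forcing.nb
    have h2 : (insert u C).filter (fun w => φ x ≠ w ∧ ¬ G.Adj (φ x) w) =
        ((insert u C).filter (fun w => ¬ G.Adj (φ x) w)).erase (φ x) := by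
      ext w
      simp only [mem_filter, mem_erase]
      constructor
      · rintro ⟨a, b, c⟩
        exact ⟨b.symm, a, c⟩
      · rintro ⟨b, a, c⟩
        exact ⟨a, b.symm, c⟩
    have h3 : φ x ∈ (insert u C).filter (fun w => ¬ G.Adj (φ x) w) := by
      rw [mem_filter]
      exact ⟨(hrange _).1 ⟨x, rfl⟩, G.loopless.irrefl _⟩
    have h4 := Finset.card_filter_add_card_filter_not (s := insert u C) (fun w => G.Adj (φ x) w)
    have h5 : (insert u C).card = r + 1 := by
      rw [card_insert_of_notMem huC, hC]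
    have h6 : 0 < ((insert u C).filter (fun w => ¬ G.Adj (φ x) w)).card :=
      card_pos.2 ⟨_, h3⟩
    rw [h2, card_erase_of_mem h3]
    omega
  refine ⟨(Gᶜ).comap φ, ?_⟩
  intro x
  have hx := hcount x
  cases x with
  | none =>
    have h1 : Forcing.nb G (φ none) (insert u C) = ∑ v ∈ C, Forcing.nb G v {u} := by
      rw [Forcing.sum_nb_comm, sum_singleton]
      show Forcing.nb G u (insert u C) = _
      unfold Forcing.nb
      congr 1
      ext w
      simp only [mem_filter, mem_insert]
      constructor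
      · rintro ⟨rfl | h, h'⟩
        · exact absurd h' (G.loopless.irrefl _)
        · exact ⟨h, h'⟩
      · rintro ⟨h, h'⟩
        exact ⟨Or.inr h, h'⟩
    simp only [Option.elim]
    omega
  | some a =>
    have h1 : Forcing.nb G (φ (some a)) (insert u C) = f a := by
      rw [Forcing.nb_eq_of, hG]
      · rfl
      · intro w hw
        rcases hnb a a.2 w hw with h | h
        · exact mem_insert_of_mem h
        · rw [h]
          exact mem_insert_self _ _
    simp only [Option.elim]
    have := hr a
    omega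

/-- forcing direction. -/
theorem forcing (f : V → ℕ) (r : ℕ) (hro : Odd r) (hr : ∀ v, f v ≤ r) (hodd : ∀ v, Odd (f v))
    (h3 : ∀ v, 3 ≤ f v) (hY : ∑ v, (r - f v) < r)
    (hn : Fintype.card V = 3 * r + 3 ∨ Fintype.card V = 3 * r + 5 ∧
      ¬ ∃ (Q : Finset V) (c : ℕ), 2 ≤ c ∧ IsValence (fun o : Option Q => o.elim c fun i => r - f i))
    (G : SimpleGraph V) (hG : ∀ v, (G.neighborSet v).ncard = f v) :
    ∃ M : G.Subgraph, M.IsPerfectMatching := by
  classical
  by_contra hM
  have hro' := Nat.odd_iff.1 hro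
  have hne : Even (Fintype.card V) := by
    rw [Nat.even_iff]
    rcases hn with hn | ⟨hn, -⟩ <;> omega
  obtain ⟨S, F, hFc, hFodd, hFS, hFdis, hFnb⟩ := Forcing.tutte_extract G hne hM
  set s := S.card with hs
  -- edges from `C` to `S`
  let e : Finset V → ℕ := fun C => ∑ v ∈ C, Forcing.nb G v S
  let Yc : Finset V → ℕ := fun C => ∑ v ∈ C, (r - f v)
  have hsplit : ∀ C ∈ F, ∀ v ∈ C, Forcing.nb G v C + Forcing.nb G v S = f v := by
    intro C hC v hv
    rw [← Forcing.nb_union G v (hFS C hC), Forcing.nb_eq_of, hG]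
    intro w hw
    rw [mem_union]
    exact hFnb C hC v hv w hw
  -- (a)
  have heodd : ∀ C ∈ F, Odd (e C) := by
    intro C hC
    have h1 : ∑ v ∈ C, f v = ∑ v ∈ C, Forcing.nb G v C + e C := by
      simp only [e]
      rw [← Finset.sum_add_distrib]
      exact Finset.sum_congr rfl fun v hv => (hsplit C hC v hv).symm
    have h2 : Odd (∑ v ∈ C, f v) := by
      rw [Finset.odd_sum_iff_odd_card_odd]
      have : C.filter (fun v => Odd (f v)) = C := Finset.filter_true_of_mem fun v _ => hodd v
      rw [this]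
      exact hFodd C hC
    have h4 := Forcing.even_inner G C
    rw [Nat.odd_iff] at h2 ⊢
    rw [Nat.even_iff] at h4
    omega
  -- (b)
  have hsmall : ∀ C ∈ F, C.card ≤ r → C.card * (r + 1 - C.card) ≤ e C + Yc C := by
    intro C hC hCr
    have h1 : ∑ v ∈ C, (r + 1 - C.card) ≤ ∑ v ∈ C, (Forcing.nb G v S + (r - f v)) := by
      apply Finset.sum_le_sum
      intro v hv
      have := hsplit C hC v hv
      have := Forcing.nb_lt G v hv
      have := hr v
      omega
    rw [Finset.sum_const, smul_eq_mul, Finset.sum_add_distrib] at h1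
    exact h1
  -- (c)
  have hdisF : (F : Set (Finset V)).PairwiseDisjoint id := by
    intro C hC D hD hCD
    exact hFdis C hC D hD hCD
  have hsumF : ∀ g : V → ℕ, ∑ C ∈ F, ∑ v ∈ C, g v = ∑ v ∈ F.biUnion id, g v := by
    intro g
    rw [Finset.sum_biUnion hdisF]
    rfl
  have hc : ∑ C ∈ F, e C ≤ ∑ u ∈ S, f u := by
    simp only [e]
    rw [hsumF, Forcing.sum_nb_comm]
    apply Finset.sum_le_sum
    intro u _
    rw [← hG u, ← Forcing.nb_univ]
    exact Forcing.nb_mono G u (subset_univ _)
  have hc' : ∑ C ∈ F, e C ≤ s * r := by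
    refine hc.trans ?_
    rw [hs, ← smul_eq_mul, ← Finset.sum_const]
    exact Finset.sum_le_sum fun u _ => hr u
  have hd : ∑ C ∈ F, Yc C < r := by
    simp only [Yc]
    rw [hsumF]
    exact lt_of_le_of_lt (Finset.sum_le_sum_of_subset (subset_univ _)) hY
  -- (n)
  have hcard : s + ∑ C ∈ F, C.card ≤ Fintype.card V := by
    have h1 : ∑ C ∈ F, C.card = (F.biUnion id).card :=
      (Finset.card_biUnion (t := id) (fun C hC D hD hCD => hFdis C hC D hD hCD)).symm
    rw [h1, hs, ← Finset.card_union_of_disjoint]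
    · exact Finset.card_le_univ _
    · rw [Finset.disjoint_biUnion_right]
      intro C hC
      exact (hFS C hC).symm
  -- small and large
  have hlarge : ∀ C ∈ F, ¬ C.card ≤ r → r + 2 ≤ C.card := by
    intro C hC h
    have := Nat.odd_iff.1 (hFodd C hC)
    omega
  have hpos : ∀ C ∈ F, 1 ≤ C.card := fun C hC => (hFodd C hC).pos
  have hg : ∀ C ∈ F, C.card ≤ r → r ≤ C.card * (r + 1 - C.card) := by
    intro C hC h
    have h1 := hpos C hC
    obtain ⟨x, hx⟩ := Nat.exists_eq_add_of_le h1
    obtain ⟨y, hy⟩ := Nat.exists_eq_add_of_le h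
    rw [hx] at hy ⊢
    have : r + 1 - (1 + x) = y + 1 := by omega
    rw [this, hy]
    nlinarith
  let Fs := F.filter (fun C => C.card ≤ r)
  let Fl := F.filter (fun C => ¬ C.card ≤ r)
  have hkl : Fs.card + Fl.card = s + 2 := by
    rw [← hFc]
    exact Finset.card_filter_add_card_filter_not _
  have hsplitF : ∀ g : Finset V → ℕ, ∑ C ∈ F, g C = ∑ C ∈ Fs, g C + ∑ C ∈ Fl, g C := by
    intro g
    exact (Finset.sum_filter_add_sum_filter_not F _ g).symm
  have hstar : ∑ C ∈ Fs, C.card * (r + 1 - C.card) + Fl.card < s * r + r := by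
    have h1 : ∑ C ∈ Fs, C.card * (r + 1 - C.card) ≤ ∑ C ∈ Fs, (e C + Yc C) :=
      Finset.sum_le_sum fun C hC => hsmall C (mem_filter.1 hC).1 (mem_filter.1 hC).2
    have h2 : Fl.card ≤ ∑ C ∈ Fl, e C := by
      rw [Finset.card_eq_sum_ones]
      exact Finset.sum_le_sum fun C hC => (heodd C (mem_filter.1 hC).1).pos
    rw [Finset.sum_add_distrib] at h1
    have h4 := hsplitF e
    have h5 := hsplitF Yc
    omega
  have hkr : Fs.card * r ≤ ∑ C ∈ Fs, C.card * (r + 1 - C.card) := by
    rw [← smul_eq_mul, ← Finset.sum_const]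
    exact Finset.sum_le_sum fun C hC => hg C (mem_filter.1 hC).1 (mem_filter.1 hC).2
  have hks : Fs.card ≤ s := by
    by_contra h
    push Not at h
    have : (s + 1) * r ≤ Fs.card * r := Nat.mul_le_mul_right _ h
    nlinarith
  have hs1 : 1 ≤ s := by
    by_contra h
    have h0 : s = 0 := by omega
    have hS0 : S = ∅ := Finset.card_eq_zero.1 (by omega)
    obtain ⟨C, hC⟩ : F.Nonempty := Finset.card_pos.1 (by omega)
    have h1 := (heodd C hC).pos
    have h2 : e C = 0 := by
      simp only [e]
      apply Finset.sum_eq_zero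
      intro v _
      have := Forcing.nb_le G v S
      rw [hS0, Finset.card_empty] at this
      rw [hS0]
      omega
    omega
  have hsumc : s + (∑ C ∈ Fs, C.card + Fl.card * (r + 2)) ≤ Fintype.card V := by
    refine le_trans ?_ hcard
    rw [hsplitF (fun C => C.card)]
    have : Fl.card * (r + 2) ≤ ∑ C ∈ Fl, C.card := by
      rw [← smul_eq_mul, ← Finset.sum_const]
      exact Finset.sum_le_sum fun C hC => hlarge C (mem_filter.1 hC).1 (mem_filter.1 hC).2
    omega
  have hnle : Fintype.card V ≤ 3 * r + 5 := by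
    rcases hn with hn | ⟨hn, -⟩ <;> omega
  have hl2 : Fl.card = 2 := by
    by_contra h
    have h3l : 3 ≤ Fl.card := by omega
    have : 3 * (r + 2) ≤ Fl.card * (r + 2) := Nat.mul_le_mul_right _ h3l
    omega
  have hk : Fs.card = s := by omega
  rw [hl2] at hstar hsumc
  -- every small component has one or `r` vertices
  have hone : ∀ C ∈ Fs, C.card = 1 ∨ C.card = r := by
    intro C hC
    have hCF := (mem_filter.1 hC).1
    have hCr := (mem_filter.1 hC).2
    by_contra h
    push Not at h
    have hC2 := Nat.odd_iff.1 (hFodd C hCF)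
    have h1 := hpos C hCF
    have h2 : ∑ D ∈ Fs.erase C, D.card * (r + 1 - D.card) + C.card * (r + 1 - C.card) =
        ∑ D ∈ Fs, D.card * (r + 1 - D.card) := Finset.sum_erase_add _ _ hC
    have h4 : (s - 1) * r ≤ ∑ D ∈ Fs.erase C, D.card * (r + 1 - D.card) := by
      rw [← hk, ← Finset.card_erase_of_mem hC, ← smul_eq_mul, ← Finset.sum_const]
      exact Finset.sum_le_sum fun D hD => hg D (mem_filter.1 (mem_of_mem_erase hD)).1
        (mem_filter.1 (mem_of_mem_erase hD)).2
    obtain ⟨x, hx⟩ := Nat.exists_eq_add_of_le (show 3 ≤ C.card by omega)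
    obtain ⟨y, hy⟩ := Nat.exists_eq_add_of_le (show C.card + 2 ≤ r by omega)
    obtain ⟨z, hz⟩ := Nat.exists_eq_add_of_le hs1
    rw [hx] at hy
    have h5 : r + 1 - C.card = y + 3 := by omega
    rw [h5, hx] at h2
    rw [hz] at h4 hstar
    have h6 : 1 + z - 1 = z := by omega
    rw [h6] at h4
    nlinarith
  by_cases hall : ∀ C ∈ Fs, C.card = 1
  · -- all small components are singletons
    have h1 : ∀ C ∈ Fs, 3 ≤ s ∧ r ≤ s + Yc C := by
      intro C hC
      have hCF := (mem_filter.1 hC).1
      obtain ⟨w, hw⟩ := Finset.card_eq_one.1 (hall C hC)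
      have h2 := hsplit C hCF w (by rw [hw]; exact mem_singleton_self w)
      have h4 := Forcing.nb_lt G w (X := C) (by rw [hw]; exact mem_singleton_self w)
      rw [hall C hC] at h4
      have h5 := Forcing.nb_le G w S
      have h6 := h3 w
      have h7 : Yc C = r - f w := by
        simp only [Yc]
        rw [hw, sum_singleton]
      have h8 := hr w
      refine ⟨by omega, by omega⟩
    obtain ⟨C, hC⟩ : Fs.Nonempty := Finset.card_pos.1 (by omega)
    have hs3 := (h1 C hC).1
    have h2 : ∑ C ∈ Fs, C.card = s := by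
      rw [Finset.sum_congr rfl hall, Finset.sum_const, smul_eq_mul, hk, mul_one]
    rw [h2] at hsumc
    have h4 : s * (r - s) ≤ ∑ C ∈ Fs, Yc C := by
      rw [← hk, ← smul_eq_mul, ← Finset.sum_const]
      refine Finset.sum_le_sum fun C hC => ?_
      have := (h1 C hC).2
      omega
    have h5 := hsplitF Yc
    have h6 : s * (r - s) < r := by omega
    obtain ⟨y, hy⟩ := Nat.exists_eq_add_of_le (show s + 2 ≤ r by omega)
    obtain ⟨z, hz⟩ := Nat.exists_eq_add_of_le hs3
    have h7 : r - s = y + 2 := by omega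
    rw [h7, hz, hy] at h6
    nlinarith
  · -- one small component has `r` vertices
    push Not at hall
    obtain ⟨C, hC, hC1⟩ := hall
    have hCF := (mem_filter.1 hC).1
    have hCr : C.card = r := (hone C hC).resolve_left hC1
    have h2 : ∑ D ∈ Fs.erase C, D.card + C.card = ∑ D ∈ Fs, D.card :=
      Finset.sum_erase_add _ _ hC
    have h4 : (s - 1) ≤ ∑ D ∈ Fs.erase C, D.card := by
      rw [← hk, ← Finset.card_erase_of_mem hC, Finset.card_eq_sum_ones]
      exact Finset.sum_le_sum fun D hD => hpos D (mem_filter.1 (mem_of_mem_erase hD)).1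
    have hs11 : s = 1 := by omega
    have hn5 : ¬ Fintype.card V = 3 * r + 3 := by omega
    obtain ⟨u, hu⟩ := Finset.card_eq_one.1 (hs.symm.trans hs11)
    have huC : u ∉ C := by
      intro h
      have := hFS C hCF
      rw [Finset.disjoint_left] at this
      exact this h (by rw [hu]; exact mem_singleton_self u)
    have hval := Forcing.exc_graph f r hr G hG C u huC hCr (by
      intro v hv w hw
      have := hFnb C hCF v hv w hw
      rwa [hu, mem_singleton] at this)
    have heC : e C = ∑ v ∈ C, Forcing.nb G v {u} := by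
      simp only [e]
      rw [hu]
    rw [← heC] at hval
    refine (hn.resolve_left hn5).2 ⟨C, r - e C, ?_, hval⟩
    -- `2 ≤ r - e C`
    have h5 := hsplitF e
    have h6 : Fl.card ≤ ∑ C ∈ Fl, e C := by
      rw [Finset.card_eq_sum_ones]
      exact Finset.sum_le_sum fun C hC => (heodd C (mem_filter.1 hC).1).pos
    have h7 : e C ≤ ∑ C ∈ Fs, e C := Finset.single_le_sum (fun D _ => Nat.zero_le _) hC
    rw [hs11] at hc'
    omega

end Pool.Agent.MP_6e0dc6_co
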