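import Pool.Agent.Lib.MP_6e0dc6_co.BarDef
import Pool.Agent.Lib.MP_6e0dc6_co.Forcing

/-!
Counting lemmas for Tutte barriers of deficiency two.
-/

namespace Pool.Agent.MP_6e0dc6_co

open Finset

variable {V : Type*} [Fintype V] [DecidableEq V]

/-- M62-8a. -/
theorem Barrier.exists (f : V → ℕ) (G : SimpleGraph V) (hG : ∀ v, (G.neighborSet v).ncard = f v)
    (hn : Even (Fintype.card V)) (hM : ¬ ∃ M : G.Subgraph, M.IsPerfectMatching) :
    ∃ S F, Barrier f G S F := by
  obtain ⟨S, F, h1, h2, h3, h4, h5⟩ := Forcing.tutte_extract G hn hM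
  exact ⟨S, F, hG, h1, h2, h3, h4, h5⟩

omit [Fintype V] in
/-- Sums over the union of a subfamily. -/
theorem Barrier.sum_biUnion {f : V → ℕ} {G : SimpleGraph V} {S : Finset V}
    {F : Finset (Finset V)} (h : Barrier f G S F) (F' : Finset (Finset V)) (hF : F' ⊆ F)
    (g : V → ℕ) : ∑ v ∈ F'.biUnion id, g v = ∑ C ∈ F', ∑ v ∈ C, g v := by
  rw [Finset.sum_biUnion]
  · rfl
  · intro C hC D hD hCD
    exact h.disj C (hF hC) D (hF hD) hCD

/-- M62-8i. A component sum is at most the total. -/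
theorem Barrier.sum_le {f : V → ℕ} {G : SimpleGraph V} {S : Finset V}
    {F : Finset (Finset V)} (h : Barrier f G S F) (g : V → ℕ) :
    ∑ v ∈ S, g v + ∑ C ∈ F, ∑ v ∈ C, g v ≤ ∑ v, g v := by
  rw [← h.sum_biUnion F (Finset.Subset.refl _) g, ← Finset.sum_union]
  · exact Finset.sum_le_sum_of_subset (Finset.subset_univ _)
  · rw [Finset.disjoint_left]
    intro v hv hv2
    rw [Finset.mem_biUnion] at hv2
    obtain ⟨C, hC, hvC⟩ := hv2
    exact Finset.disjoint_left.mp (h.disjS C hC) hvC hv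

/-- M62-8b. -/
theorem Barrier.card_le {f : V → ℕ} {G : SimpleGraph V} {S : Finset V} {F : Finset (Finset V)}
    (h : Barrier f G S F) : S.card + ∑ C ∈ F, C.card ≤ Fintype.card V := by
  have := h.sum_le (fun _ => 1)
  simpa using this

/-- The degree splits over the component and `S`. -/
theorem Barrier.deg_split {f : V → ℕ} {G : SimpleGraph V} {S : Finset V}
    {F : Finset (Finset V)} (h : Barrier f G S F) {C : Finset V} (hC : C ∈ F) {v : V}
    (hv : v ∈ C) : f v = Forcing.nb G v C + Forcing.nb G v S := by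
  rw [← Forcing.nb_union G v (h.disjS C hC), Forcing.nb_eq_of, h.deg v]
  intro w hw
  rw [Finset.mem_union]
  exact h.nb C hC v hv w hw

/-- M62-8c. -/
theorem Barrier.vert {f : V → ℕ} {G : SimpleGraph V} {S : Finset V} {F : Finset (Finset V)}
    (h : Barrier f G S F) {C : Finset V} (hC : C ∈ F) {v : V} (hv : v ∈ C) :
    f v + 1 ≤ C.card + S.card := by
  rw [h.deg_split hC hv]
  have h1 := Forcing.nb_lt G v hv
  have h2 := Forcing.nb_le G v S
  omega

/-- M62-8d. The number of edges between a component and `S` is odd. -/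
theorem Barrier.edges_odd {f : V → ℕ} {G : SimpleGraph V} {S : Finset V}
    {F : Finset (Finset V)} (h : Barrier f G S F) (hodd : ∀ v, Odd (f v)) {C : Finset V}
    (hC : C ∈ F) : Odd (∑ v ∈ C, Forcing.nb G v S) := by
  have h1 : ∑ v ∈ C, f v = ∑ v ∈ C, Forcing.nb G v C + ∑ v ∈ C, Forcing.nb G v S := by
    rw [← Finset.sum_add_distrib]
    exact Finset.sum_congr rfl fun v hv => h.deg_split hC hv
  have h2 := Forcing.even_inner G C
  have h3 : Odd (∑ v ∈ C, f v) := by
    rw [Finset.odd_sum_iff_odd_card_odd]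
    have : (C.filter fun v => Odd (f v)) = C :=
      Finset.filter_true_of_mem fun v _ => hodd v
    rw [this]
    exact h.odd C hC
  rw [h1] at h3
  rw [Nat.odd_add'] at h3
  exact h3.mpr h2

/-- M62-8e. -/
theorem Barrier.edges_low {f : V → ℕ} {G : SimpleGraph V} {S : Finset V}
    {F : Finset (Finset V)} (h : Barrier f G S F) {C : Finset V} (hC : C ∈ F) :
    (∑ v ∈ C, (f v : ℤ)) - (C.card : ℤ) * ((C.card : ℤ) - 1) ≤
      ((∑ v ∈ C, Forcing.nb G v S : ℕ) : ℤ) := by
  push_cast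
  have : (C.card : ℤ) * ((C.card : ℤ) - 1) = ∑ v ∈ C, ((C.card : ℤ) - 1) := by
    rw [Finset.sum_const, nsmul_eq_mul]
  rw [this, ← Finset.sum_sub_distrib]
  apply Finset.sum_le_sum
  intro v hv
  have h1 := h.deg_split hC hv
  have h2 := Forcing.nb_lt G v hv
  omega

/-- M62-8f. -/
theorem Barrier.edges_sum {f : V → ℕ} {G : SimpleGraph V} {S : Finset V}
    {F : Finset (Finset V)} (h : Barrier f G S F) :
    ∑ C ∈ F, ∑ v ∈ C, Forcing.nb G v S ≤ ∑ v ∈ S, f v := by
  classical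
  have e1 : ∀ C ∈ F, ∑ v ∈ C, Forcing.nb G v S = ∑ u ∈ S, Forcing.nb G u C :=
    fun C _ => Forcing.sum_nb_comm G C S
  rw [Finset.sum_congr rfl e1, Finset.sum_comm]
  apply Finset.sum_le_sum
  intro u _
  have e2 : ∀ C : Finset V, Forcing.nb G u C = ∑ w ∈ C, if G.Adj u w then 1 else 0 := by
    intro C
    unfold Forcing.nb
    rw [Finset.card_filter]
  have e3 := h.sum_le (fun w => if G.Adj u w then 1 else 0)
  have e4 : ∑ w, (if G.Adj u w then 1 else 0) = f u := by
    rw [← h.deg u, ← Forcing.nb_univ, e2]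
  rw [e4] at e3
  rw [Finset.sum_congr rfl fun C _ => e2 C]
  omega

/-- M62-8g. The basic inequality (★): `small` components have at most `r` vertices. -/
theorem Barrier.star {f : V → ℕ} {G : SimpleGraph V} {S : Finset V}
    {F : Finset (Finset V)} (h : Barrier f G S F) (r : ℕ) :
    (((F.filter fun C => C.card ≤ r).card : ℤ) - S.card) * r
      + ∑ C ∈ F.filter (fun C => C.card ≤ r), ((C.card : ℤ) - 1) * ((r : ℤ) - C.card)
      + ((∑ C ∈ F.filter (fun C => ¬ C.card ≤ r), ∑ v ∈ C, Forcing.nb G v S : ℕ) : ℤ)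
      + ((∑ C ∈ F.filter (fun C => C.card ≤ r), ∑ v ∈ C, (f v - r) : ℕ) : ℤ)
      + ((∑ v ∈ S, (r - f v) : ℕ) : ℤ)
    ≤ ((∑ v ∈ S, (f v - r) : ℕ) : ℤ)
      + ((∑ C ∈ F.filter (fun C => C.card ≤ r), ∑ v ∈ C, (r - f v) : ℕ) : ℤ) := by
  have bal : ∀ A : Finset V, (∑ v ∈ A, (f v : ℤ)) + ((∑ v ∈ A, (r - f v) : ℕ) : ℤ) =
      (A.card : ℤ) * r + ((∑ v ∈ A, (f v - r) : ℕ) : ℤ) := by
    intro A
    have e1 : (A.card : ℤ) * r = ∑ v ∈ A, (r : ℤ) := by
      rw [Finset.sum_const, nsmul_eq_mul]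
    push_cast
    rw [e1, ← Finset.sum_add_distrib, ← Finset.sum_add_distrib]
    apply Finset.sum_congr rfl
    intro v _
    omega
  have h1 : ((∑ C ∈ F.filter (fun C => C.card ≤ r), ∑ v ∈ C, Forcing.nb G v S : ℕ) : ℤ)
      + ((∑ C ∈ F.filter (fun C => ¬ C.card ≤ r), ∑ v ∈ C, Forcing.nb G v S : ℕ) : ℤ)
      ≤ ∑ v ∈ S, (f v : ℤ) := by
    have e1 := h.edges_sum
    have e2 := Finset.sum_filter_add_sum_filter_not F (fun C => C.card ≤ r)
      (fun C => ∑ v ∈ C, Forcing.nb G v S)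
    rw [← e2] at e1
    exact_mod_cast e1
  have h2 : ((F.filter fun C => C.card ≤ r).card : ℤ) * r
      + ∑ C ∈ F.filter (fun C => C.card ≤ r), ((C.card : ℤ) - 1) * ((r : ℤ) - C.card)
      + ((∑ C ∈ F.filter (fun C => C.card ≤ r), ∑ v ∈ C, (f v - r) : ℕ) : ℤ)
      ≤ ((∑ C ∈ F.filter (fun C => C.card ≤ r), ∑ v ∈ C, Forcing.nb G v S : ℕ) : ℤ)
      + ((∑ C ∈ F.filter (fun C => C.card ≤ r), ∑ v ∈ C, (r - f v) : ℕ) : ℤ) := by
    have e1 : ((F.filter fun C => C.card ≤ r).card : ℤ) * r =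
        ∑ C ∈ F.filter (fun C => C.card ≤ r), (r : ℤ) := by
      rw [Finset.sum_const, nsmul_eq_mul]
    rw [e1, Nat.cast_sum, Nat.cast_sum, Nat.cast_sum, ← Finset.sum_add_distrib,
      ← Finset.sum_add_distrib, ← Finset.sum_add_distrib]
    apply Finset.sum_le_sum
    intro C hC
    have e2 := h.edges_low (Finset.mem_filter.mp hC).1
    have e3 := bal C
    have e4 : (r : ℤ) + ((C.card : ℤ) - 1) * ((r : ℤ) - C.card) =
        (C.card : ℤ) * r - (C.card : ℤ) * ((C.card : ℤ) - 1) := by ring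
    linarith
  have h3 := bal S
  have h4 : (((F.filter fun C => C.card ≤ r).card : ℤ) - S.card) * r =
      ((F.filter fun C => C.card ≤ r).card : ℤ) * r - (S.card : ℤ) * r := by ring
  rw [h4]
  linarith

/-- M62-8h. Deficiency of a small component. -/
theorem Barrier.defic {f : V → ℕ} {G : SimpleGraph V} {S : Finset V}
    {F : Finset (Finset V)} (h : Barrier f G S F) (r : ℕ) {C : Finset V} (hC : C ∈ F) :
    (C.card : ℤ) * ((r : ℤ) + 1 - C.card - S.card) ≤ ((∑ v ∈ C, (r - f v) : ℕ) : ℤ) := by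
  push_cast
  rw [← nsmul_eq_mul, ← Finset.sum_const]
  apply Finset.sum_le_sum
  intro v hv
  have := h.vert hC hv
  omega

/-- M62-8j. The counting for singletons: if `s + 1` components are singletons. -/
theorem Barrier.single {f : V → ℕ} {G : SimpleGraph V} {S : Finset V}
    {F : Finset (Finset V)} (h : Barrier f G S F) (r : ℕ) (hs : r ≤ S.card)
    (h1 : (F.filter fun C => C.card = 1).card = S.card + 1) :
    r ≤ ∑ v, min (f v - r) (S.card + 1 - r) + ∑ v, (r - f v) := by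
  obtain ⟨F1, hF1⟩ : ∃ F1, F1 = F.filter fun C => C.card = 1 := ⟨_, rfl⟩
  have hF1F : F1 ⊆ F := hF1 ▸ Finset.filter_subset _ _
  obtain ⟨T, hT⟩ : ∃ T, T = F1.biUnion id := ⟨_, rfl⟩
  have hTc : T.card = S.card + 1 := by
    have e1 := h.sum_biUnion F1 hF1F (fun _ => 1)
    rw [← hT, Finset.sum_const, smul_eq_mul, mul_one] at e1
    rw [e1, ← h1, ← hF1, Finset.card_eq_sum_ones]
    apply Finset.sum_congr rfl
    intro C hC
    rw [hF1, Finset.mem_filter] at hC
    simp [hC.2]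
  have hTf : ∀ v ∈ T, f v = Forcing.nb G v S := by
    intro v hv
    rw [hT, Finset.mem_biUnion] at hv
    obtain ⟨C, hC, hvC⟩ := hv
    have hvC' : v ∈ C := hvC
    have hc1 : C.card = 1 := by
      rw [hF1, Finset.mem_filter] at hC
      exact hC.2
    have e1 := h.deg_split (hF1F hC) hvC'
    have e2 := Forcing.nb_lt G v hvC'
    omega
  have e1 : ∑ v ∈ T, f v = ∑ i ∈ S, Forcing.nb G i T := by
    rw [Finset.sum_congr rfl hTf, Forcing.sum_nb_comm]
  have e2 : ∑ i ∈ S, Forcing.nb G i T ≤ ∑ i ∈ S, (r + min (f i - r) (S.card + 1 - r)) := by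
    apply Finset.sum_le_sum
    intro i _
    have h2 := Forcing.nb_le G i T
    have h3 := Forcing.nb_mono G i (Finset.subset_univ T)
    rw [Forcing.nb_univ, h.deg] at h3
    omega
  rw [Finset.sum_add_distrib, Finset.sum_const, smul_eq_mul] at e2
  have e3 : (S.card + 1) * r ≤ ∑ v ∈ T, f v + ∑ v ∈ T, (r - f v) := by
    rw [← hTc, ← smul_eq_mul, ← Finset.sum_const, ← Finset.sum_add_distrib]
    apply Finset.sum_le_sum
    intro v _
    omega
  have e4 : ∑ i ∈ S, min (f i - r) (S.card + 1 - r) ≤ ∑ i, min (f i - r) (S.card + 1 - r) :=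
    Finset.sum_le_sum_of_subset (Finset.subset_univ _)
  have e5 : ∑ v ∈ T, (r - f v) ≤ ∑ v, (r - f v) :=
    Finset.sum_le_sum_of_subset (Finset.subset_univ _)
  have e6 : (S.card + 1) * r = S.card * r + r := by ring
  omega

end Pool.Agent.MP_6e0dc6_co
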