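import Pool.Agent.Lib.MP_6e0dc6_co.Defs

/-!
Tutte barriers of deficiency two.
-/

namespace Pool.Agent.MP_6e0dc6_co

open Finset

variable {V : Type*} [Fintype V] [DecidableEq V]

/-- A Tutte barrier of deficiency two in a realization of `f`. -/
structure Barrier (f : V → ℕ) (G : SimpleGraph V) (S : Finset V) (F : Finset (Finset V)) :
    Prop where
  deg : ∀ v, (G.neighborSet v).ncard = f v
  card : F.card = S.card + 2
  odd : ∀ C ∈ F, Odd C.card
  disjS : ∀ C ∈ F, Disjoint C S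
  disj : ∀ C ∈ F, ∀ D ∈ F, C ≠ D → Disjoint C D
  nb : ∀ C ∈ F, ∀ v ∈ C, ∀ w, G.Adj v w → w ∈ C ∨ w ∈ S

end Pool.Agent.MP_6e0dc6_co
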