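import Pool.Agent.Lib.MP_6e0dc6_co.CaseTwo

/-!
Case 1 of the main construction.
-/

namespace Pool.Agent.MP_6e0dc6_co

open Finset

variable {V : Type*} [Fintype V] [DecidableEq V]

/-- Arithmetic of subcase B. -/
theorem caseB_arith (k h e N D a R μ : ℤ) (he : 0 ≤ e) (h0 : 0 ≤ h) (hhe : h ≤ e) (hke : e + 1 ≤ k)
    (hka : k ≤ a) (haD : a ≤ D) (hN : a - 2 * e + 1 ≤ N) (hμ : 3 * D + 1 - 2 * e ≤ μ)
    (hR : R = μ - N) :
    0 ≤ k * (k - 1) + (k * (N - (k - h)) + e * R) - (h * D + (k - h) * a) := by
  subst hR
  obtain ⟨w, hw⟩ : ∃ w, w = N - (a - 2 * e + 1) := ⟨_, rfl⟩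
  have hw0 : 0 ≤ w := by omega
  have hNw : N = a - 2 * e + 1 + w := by omega
  subst hNw
  have h1 : e * (3 * D - a - w) ≤ e * (μ - (a - 2 * e + 1 + w)) :=
    mul_le_mul_of_nonneg_left (by linarith) he
  rcases le_total w (2 * e - h) with hc | hc
  · -- use k ≤ a
    have h2 : 0 ≤ (a - k) * (2 * e - h - w) := mul_nonneg (by linarith) (by linarith)
    have h3 : 0 ≤ (3 * e - h) * (D - a) := mul_nonneg (by linarith) (by linarith)
    have h4 : 0 ≤ h * a := mul_nonneg h0 (by linarith)
    have h5 : 0 ≤ w * (a - e) := mul_nonneg hw0 (by linarith)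
    nlinarith
  · have h2 : 0 ≤ (k - e) * (w - (2 * e - h)) := mul_nonneg (by linarith) (by linarith)
    have h3 : 0 ≤ e * (2 * D - 2 * e + h) := mul_nonneg he (by linarith)
    have h4 : 0 ≤ (e - h) * (D - a) := mul_nonneg (by linarith) (by linarith)
    nlinarith

/-- Arithmetic of subcase A. -/
theorem caseA_arith (k q h j N e X1 X2 X3 Y SK SQ TF MK : ℤ)
    (hs : 0 ≤ (k + q) * ((k + q) - 1) + (X1 + X2) - (SK + SQ + TF + MK)) (h1 : X1 ≤ TF)
    (h2 : X2 ≤ X3 + q * (N - j)) (h3 : q * k + X3 ≤ Y) (h4 : q * (N + e) ≤ SQ + q)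
    (hk : k = h + j) (he : e = q + h) : 0 ≤ k * (k - 1) + Y - (SK + MK) := by
  subst hk he
  linarith

/-- Case 1. -/
theorem case_one (f : V → ℕ) (hf : IsValence f) (D e : ℕ) (hD : ∀ v, f v ≤ D)
    (hn : 3 * D + 2 ≤ Fintype.card V) (S T : Finset V) (hST : Disjoint S T) (hS : S.card = e)
    (hT : T.card = e + 1) (hTe : ∀ t ∈ T, f t ≤ e) (hSe : ∀ s ∈ S, e + 1 ≤ f s)
    (hM : ∀ m, m ∉ S → m ∉ T → e ≤ f m) (hSM : ∀ s ∈ S, ∀ m ∉ S, f m ≤ f s) (he : 1 ≤ e) :
    BadReal f := by
  have hdis : ∀ x, x ∈ S → x ∈ T → False := fun x h1 h2 => Finset.disjoint_left.mp hST h1 h2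
  -- the bipartite graph
  have hbip : ∀ Q ⊆ T, ∑ j ∈ Q, f j ≤ ∑ i ∈ S, min (e + 1) Q.card := by
    intro Q hQ
    have hQc : Q.card ≤ e + 1 := hT ▸ Finset.card_le_card hQ
    rw [min_eq_right hQc, Finset.sum_const, smul_eq_mul, hS, mul_comm, ← smul_eq_mul,
      ← Finset.sum_const]
    exact Finset.sum_le_sum fun j hj => hTe j (hQ hj)
  obtain ⟨B, hB1, hB2, hB3⟩ := bip S T hST f (fun _ => e + 1) hbip
  have hB3' : ∀ i ∈ S, (B.neighborSet i).ncard ≤ f i := fun i hi => (hB3 i hi).trans (hSe i hi)
  have heD : e + 1 ≤ D := by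
    have : 0 < S.card := by omega
    obtain ⟨s, hs⟩ := Finset.card_pos.mp this
    exact (hSe s hs).trans (hD s)
  set Mx := (S ∪ T)ᶜ with hMx
  have hMxc : Mx.card = Fintype.card V - (2 * e + 1) := by
    rw [hMx, Finset.card_compl, Finset.card_union_of_disjoint hST, hS, hT]; congr 1; omega
  have hcardM : D + 1 ≤ Mx.card := by omega
  set g := resid f S T B with hg
  have hgT : ∀ v ∈ T, g v = 0 := fun v hv => by simp [hg, resid, hv]
  have hgM : ∀ v ∈ Mx, g v = f v := fun v hv => by
    rw [hMx, Finset.mem_compl, Finset.mem_union, not_or] at hv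
    simp [hg, resid, hv.1, hv.2]
  have hgS : ∀ v ∈ S, g v + (B.neighborSet v).ncard = f v := fun v hv => by
    have hvT : v ∉ T := fun h => hdis v hv h
    have := hB3' v hv
    simp only [hg, resid, hv, hvT, if_true, if_false]; omega
  have hg_le : ∀ v, g v ≤ f v := by
    intro v
    simp only [hg, resid]
    split_ifs <;> omega
  have hcount : ∑ i ∈ S, (B.neighborSet i).ncard = ∑ j ∈ T, f j := by
    rw [bip_count S T hST B hB1]; exact Finset.sum_congr rfl hB2
  have hres : IsValence g := by
    apply eg_suff
    · have h1 := resid_sum f S T hST B hB1 hB2 hB3'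
      have h2 := even_sum f hf
      rw [← h1, Nat.even_add] at h2
      exact h2.mpr (even_two_mul _)
    · apply eg_reduce
      intro K hK1 _
      rcases Nat.eq_zero_or_pos K.card with h0 | hkpos
      · rw [Finset.card_eq_zero] at h0
        subst h0
        simp [slack]
      have hKT : ∀ v ∈ K, v ∉ T := by
        intro v hv hvT
        have := hK1 v hv
        rw [hgT v hvT] at this
        omega
      by_cases hke : K.card ≤ e
      · apply slack_small g S T K D (fun v => (hg_le v).trans (hD v)) _ hcardM
        intro m hmS hmT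
        have hm : m ∈ Mx := by simp [hMx, hmS, hmT]
        rw [hgM m hm]
        exact hke.trans (hM m hmS hmT)
      -- large K
      have hke' : e + 1 ≤ K.card := by omega
      -- set decompositions
      have hK_eq : K = (S ∩ K) ∪ (Mx ∩ K) := by
        ext x
        simp only [hMx, Finset.mem_union, Finset.mem_inter, Finset.mem_compl, not_or]
        have := hKT x
        tauto
      have hdK : Disjoint (S ∩ K) (Mx ∩ K) := by
        rw [Finset.disjoint_left]
        intro x hx hx2
        simp only [hMx, Finset.mem_inter, Finset.mem_compl, Finset.mem_union, not_or] at hx hx2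
        tauto
      have hKc_eq : Kᶜ = (S \ K) ∪ T ∪ (Mx \ K) := by
        ext x
        simp only [hMx, Finset.mem_union, Finset.mem_sdiff, Finset.mem_compl, not_or]
        have := hKT x
        tauto
      have hdKc1 : Disjoint (S \ K) T := by
        rw [Finset.disjoint_left]
        intro x hx hx2
        exact hdis x (Finset.mem_sdiff.mp hx).1 hx2
      have hdKc2 : Disjoint ((S \ K) ∪ T) (Mx \ K) := by
        rw [Finset.disjoint_left]
        intro x hx hx2
        simp only [hMx, Finset.mem_union, Finset.mem_sdiff, Finset.mem_compl, not_or] at hx hx2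
        tauto
      have hsumK : ∀ φ : V → ℕ, ∑ v ∈ K, φ v = ∑ v ∈ S ∩ K, φ v + ∑ v ∈ Mx ∩ K, φ v := by
        intro φ
        conv_lhs => rw [hK_eq]
        exact Finset.sum_union hdK
      have hsumKc : ∀ φ : V → ℕ, ∑ v ∈ Kᶜ, φ v =
          ∑ v ∈ S \ K, φ v + ∑ v ∈ T, φ v + ∑ v ∈ Mx \ K, φ v := by
        intro φ
        rw [hKc_eq, Finset.sum_union hdKc2, Finset.sum_union hdKc1]
      -- cardinalities
      set k := K.card with hk
      set h := (S ∩ K).card with hh
      set j := (Mx ∩ K).card with hj
      set q := (S \ K).card with hq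
      have hkhj : k = h + j := by
        rw [hk, hh, hj, ← Finset.card_union_of_disjoint hdK, ← hK_eq]
      have hqh : q + h = e := by
        rw [hq, hh, ← hS]; exact Finset.card_sdiff_add_card_inter S K
      set P := Mx.filter fun m => k ≤ f m with hP
      set N := P.card with hN
      have hKP : Mx ∩ K ⊆ P := by
        intro m hm
        rw [Finset.mem_inter] at hm
        rw [hP, Finset.mem_filter]
        refine ⟨hm.1, ?_⟩
        rw [← hgM m hm.1]; exact hK1 m hm.2
      have hjN : j ≤ N := Finset.card_le_card hKP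
      have hPK : (P \ K).card = N - j := by
        have h1 := Finset.card_sdiff_add_card_inter P K
        have h2 : P ∩ K = Mx ∩ K := by
          apply Finset.Subset.antisymm
          · apply Finset.inter_subset_inter_right
            exact Finset.filter_subset _ _
          · intro x hx
            exact Finset.mem_inter.mpr ⟨hKP hx, (Finset.mem_inter.mp hx).2⟩
        rw [h2] at h1
        omega
      by_cases hA : ∀ x ∈ S \ K, N + 2 * e ≤ f x
      · -- subcase A: compare with S ∪ K
        set K' := S ∪ (Mx ∩ K) with hK'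
        have hdK' : Disjoint S (Mx ∩ K) := by
          rw [Finset.disjoint_left]
          intro x hx hx2
          simp only [hMx, Finset.mem_inter, Finset.mem_compl, Finset.mem_union, not_or] at hx2
          tauto
        have hK'card : K'.card = k + q := by
          rw [hK', Finset.card_union_of_disjoint hdK', hS]; omega
        have hK'c : K'ᶜ = T ∪ (Mx \ K) := by
          ext x
          simp only [hK', hMx, Finset.mem_union, Finset.mem_sdiff, Finset.mem_compl, not_or,
            Finset.mem_inter]
          have := hKT x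
          have := hdis x
          tauto
        have hdK'c : Disjoint T (Mx \ K) := by
          rw [Finset.disjoint_left]
          intro x hx hx2
          simp only [hMx, Finset.mem_sdiff, Finset.mem_compl, Finset.mem_union, not_or] at hx2
          tauto
        have hslack := eg_nec f hf K'
        unfold slack at hslack ⊢
        rw [hK'card] at hslack
        rw [← hk]
        have hcast1 : (∑ v ∈ K', (f v : ℤ)) = ((∑ v ∈ K', f v : ℕ) : ℤ) := by push_cast; rfl
        have hcast2 : (∑ v ∈ K, (g v : ℤ)) = ((∑ v ∈ K, g v : ℕ) : ℤ) := by push_cast; rfl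
        rw [hcast1] at hslack
        rw [hcast2]
        have e1 : ∑ v ∈ K', f v = ∑ v ∈ S, f v + ∑ v ∈ Mx ∩ K, f v := Finset.sum_union hdK'
        have e2 : ∑ w ∈ K'ᶜ, min (f w) (k + q) =
            ∑ w ∈ T, min (f w) (k + q) + ∑ w ∈ Mx \ K, min (f w) (k + q) := by
          rw [hK'c, Finset.sum_union hdK'c]
        have e3 : ∑ w ∈ T, min (f w) (k + q) ≤ ∑ w ∈ T, f w :=
          Finset.sum_le_sum fun w _ => min_le_left _ _
        -- compare min sums over Mx \ K
        have e4 : ∑ w ∈ Mx \ K, min (f w) (k + q) ≤ ∑ w ∈ Mx \ K, min (f w) k + q * (N - j) := by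
          have h1 : ∑ w ∈ Mx \ K, min (f w) (k + q) ≤
              ∑ w ∈ Mx \ K, (min (f w) k + if k ≤ f w then q else 0) := by
            apply Finset.sum_le_sum
            intro w _
            split_ifs <;> omega
          rw [Finset.sum_add_distrib, ← Finset.sum_filter, Finset.sum_const, smul_eq_mul] at h1
          have h2 : (Mx \ K).filter (fun w => k ≤ f w) = P \ K := by
            ext x
            simp only [hP, Finset.mem_filter, Finset.mem_sdiff]
            tauto
          rw [h2, hPK, mul_comm] at h1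
          exact h1
        have e5 : ∑ v ∈ S, f v = ∑ v ∈ S ∩ K, g v + ∑ v ∈ S \ K, g v + ∑ t ∈ T, f t := by
          rw [← hcount, ← Finset.sum_congr rfl hgS, Finset.sum_add_distrib,
            ← Finset.sum_inter_add_sum_sdiff S K (fun v => g v)]
        have e6 : ∑ v ∈ K, g v = ∑ v ∈ S ∩ K, g v + ∑ v ∈ Mx ∩ K, f v := by
          rw [hsumK]
          congr 1
          exact Finset.sum_congr rfl fun v hv => hgM v (Finset.mem_inter.mp hv).1
        have hgx : ∀ x ∈ S \ K, k ≤ g x ∧ N + e ≤ g x + 1 := by
          intro x hx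
          have hxS := (Finset.mem_sdiff.mp hx).1
          have h1 := hgS x hxS
          have h2 := hB3 x hxS
          have h3 := hA x hx
          have h4 : 1 ≤ q := Finset.card_pos.mpr ⟨x, hx⟩
          omega
        have e7 : ∑ w ∈ Kᶜ, min (g w) k ≥ q * k + ∑ w ∈ Mx \ K, min (f w) k := by
          rw [hsumKc]
          have h1 : ∑ v ∈ S \ K, min (g v) k = q * k := by
            rw [hq, ← smul_eq_mul, ← Finset.sum_const]
            apply Finset.sum_congr rfl
            intro x hx
            have := hgx x hx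
            omega
          have h2 : ∑ v ∈ Mx \ K, min (g v) k = ∑ v ∈ Mx \ K, min (f v) k := by
            apply Finset.sum_congr rfl
            intro x hx
            rw [hgM x (Finset.mem_sdiff.mp hx).1]
          rw [h1, h2]; omega
        have e8 : q * (N + e) ≤ ∑ v ∈ S \ K, g v + q := by
          have h1 : ∑ v ∈ S \ K, (N + e) ≤ ∑ v ∈ S \ K, (g v + 1) :=
            Finset.sum_le_sum fun x hx => (hgx x hx).2
          rw [Finset.sum_const, smul_eq_mul, Finset.sum_add_distrib, Finset.sum_const,
            smul_eq_mul, mul_one] at h1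
          exact h1
        rw [e2] at hslack
        rw [e1, e5] at hslack
        rw [e6]
        have z4 : (∑ w ∈ Mx \ K, min (f w) (k + q) : ℕ) ≤
            ((∑ w ∈ Mx \ K, min (f w) k : ℕ) : ℤ) + q * ((N : ℤ) - j) := by
          have : ((q * (N - j) : ℕ) : ℤ) = (q : ℤ) * ((N : ℤ) - j) := by
            push_cast [Nat.cast_sub hjN]; ring
          rw [← this]; exact_mod_cast e4
        have z3 : ((∑ w ∈ T, min (f w) (k + q) : ℕ) : ℤ) ≤ (∑ w ∈ T, f w : ℕ) := by exact_mod_cast e3
        have z7 : ((∑ w ∈ Kᶜ, min (g w) k : ℕ) : ℤ) ≥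
            (q : ℤ) * k + (∑ w ∈ Mx \ K, min (f w) k : ℕ) := by exact_mod_cast e7
        have z8 : (q : ℤ) * ((N : ℤ) + e) ≤ (∑ v ∈ S \ K, g v : ℕ) + q := by exact_mod_cast e8
        have zk : (k : ℤ) = h + j := by exact_mod_cast hkhj
        have ze : (q : ℤ) + h = e := by exact_mod_cast hqh
        rw [Nat.cast_add, Nat.cast_add, Nat.cast_add, Nat.cast_add, Nat.cast_add] at hslack
        rw [Nat.cast_add]
        exact caseA_arith k q h j N e _ _ _ _ _ _ _ _ hslack z3 z4 z7 z8 zk ze.symm
      · -- subcase B
        push Not at hA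
        obtain ⟨x0, hx0, hx0f⟩ := hA
        have hx0S := (Finset.mem_sdiff.mp hx0).1
        have hq1 : 1 ≤ q := Finset.card_pos.mpr ⟨x0, hx0⟩
        have hj1 : 1 ≤ j := by omega
        set a := f x0 with ha
        have hMa : ∀ m ∈ Mx, f m ≤ a := by
          intro m hm
          rw [hMx, Finset.mem_compl, Finset.mem_union, not_or] at hm
          exact hSM x0 hx0S m hm.1
        have hka : k ≤ a := by
          obtain ⟨m, hm⟩ := Finset.card_pos.mp (show 0 < (Mx ∩ K).card by omega)
          rw [Finset.mem_inter] at hm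
          have h1 := hK1 m hm.2
          rw [hgM m hm.1] at h1
          exact h1.trans (hMa m hm.1)
        -- lower bound on the min sum
        set R := (Mx.filter fun m => ¬ k ≤ f m).card with hR
        have hRN : N + R = Mx.card := Finset.card_filter_add_card_filter_not (s := Mx) _
        have e1 : k * (N - j) + e * R ≤ ∑ w ∈ Kᶜ, min (g w) k := by
          rw [hsumKc]
          have h1 : ∑ v ∈ Mx \ K, min (g v) k = ∑ v ∈ Mx \ K, min (f v) k := by
            apply Finset.sum_congr rfl
            intro x hx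
            rw [hgM x (Finset.mem_sdiff.mp hx).1]
          have h2 : Mx \ K = (P \ K) ∪ (Mx.filter fun m => ¬ k ≤ f m) := by
            ext x
            simp only [hP, Finset.mem_sdiff, Finset.mem_union, Finset.mem_filter]
            constructor
            · rintro ⟨h3, h4⟩
              by_cases h5 : k ≤ f x
              · exact Or.inl ⟨⟨h3, h5⟩, h4⟩
              · exact Or.inr ⟨h3, h5⟩
            · rintro (⟨⟨h3, _⟩, h4⟩ | ⟨h3, h4⟩)
              · exact ⟨h3, h4⟩
              · refine ⟨h3, fun h5 => h4 ?_⟩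
                rw [← hgM x h3]; exact hK1 x h5
          have h3 : Disjoint (P \ K) (Mx.filter fun m => ¬ k ≤ f m) := by
            rw [Finset.disjoint_left]
            intro x hx hx2
            simp only [hP, Finset.mem_sdiff, Finset.mem_filter] at hx hx2
            exact hx2.2 hx.1.2
          rw [h1, h2, Finset.sum_union h3]
          have h4 : k * (N - j) = ∑ v ∈ P \ K, k := by
            rw [Finset.sum_const, smul_eq_mul, hPK, mul_comm]
          have h5 : ∑ v ∈ P \ K, k ≤ ∑ v ∈ P \ K, min (f v) k := by
            apply Finset.sum_le_sum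
            intro x hx
            simp only [hP, Finset.mem_sdiff, Finset.mem_filter] at hx
            omega
          have h6 : e * R = ∑ v ∈ Mx.filter (fun m => ¬ k ≤ f m), e := by
            rw [Finset.sum_const, smul_eq_mul, mul_comm]
          have h7 : ∑ v ∈ Mx.filter (fun m => ¬ k ≤ f m), e ≤
              ∑ v ∈ Mx.filter (fun m => ¬ k ≤ f m), min (f v) k := by
            apply Finset.sum_le_sum
            intro x hx
            simp only [hMx, Finset.mem_filter, Finset.mem_compl, Finset.mem_union, not_or] at hx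
            have := hM x hx.1.1 hx.1.2
            omega
          omega
        have e2 : ∑ v ∈ K, g v ≤ h * D + j * a := by
          rw [hsumK]
          have h1 : ∑ v ∈ S ∩ K, g v ≤ h * D := by
            rw [hh, ← smul_eq_mul, ← Finset.sum_const]
            exact Finset.sum_le_sum fun v _ => (hg_le v).trans (hD v)
          have h2 : ∑ v ∈ Mx ∩ K, g v ≤ j * a := by
            rw [hj, ← smul_eq_mul, ← Finset.sum_const]
            exact Finset.sum_le_sum fun v hv => (hg_le v).trans (hMa v (Finset.mem_inter.mp hv).1)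
          omega
        unfold slack
        rw [← hk]
        have hcast2 : (∑ v ∈ K, (g v : ℤ)) = ((∑ v ∈ K, g v : ℕ) : ℤ) := by push_cast; rfl
        rw [hcast2]
        have z1 : (k : ℤ) * ((N : ℤ) - j) + e * R ≤ (∑ w ∈ Kᶜ, min (g w) k : ℕ) := by
          have : ((k * (N - j) + e * R : ℕ) : ℤ) = (k : ℤ) * ((N : ℤ) - j) + e * R := by
            rw [Nat.cast_add, Nat.cast_mul, Nat.cast_mul, Nat.cast_sub hjN]
          rw [← this]; exact_mod_cast e1
        have z2 : ((∑ v ∈ K, g v : ℕ) : ℤ) ≤ (h : ℤ) * D + j * a := by exact_mod_cast e2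
        have zj : (j : ℤ) = (k : ℤ) - h := by omega
        rw [zj] at z1 z2
        have := caseB_arith (k : ℤ) h e N D a R Mx.card (Int.natCast_nonneg _) (Int.natCast_nonneg _)
          (by omega) (by exact_mod_cast hke') (by exact_mod_cast hka) (by exact_mod_cast hD x0)
          (by omega) (by omega) (by omega)
        linarith
  obtain ⟨G, hG⟩ := hres
  exact bip_glue f S T hST (by omega) B G hB1 hB2 hB3' hG

end Pool.Agent.MP_6e0dc6_co
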