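import Pool.Agent.Lib.MP_6e0dc6_co.Forcing
import Pool.Agent.Lib.MP_6e0dc6_co.Bar

/-!
M62-11: the cut vertex template forces the exceptional condition.
-/

namespace Pool.Agent.MP_6e0dc6_co

open Finset

variable {V : Type*} [Fintype V] [DecidableEq V]

private theorem cutForce_graph (f : V → ℕ) (r : ℕ) (G : SimpleGraph V)
    (hG : ∀ v, (G.neighborSet v).ncard = f v) (C : Finset V) (hr : ∀ v ∈ C, f v ≤ r) (u : V)
    (huC : u ∉ C)
    (hC : C.card = r) (hnb : ∀ v ∈ C, ∀ w, G.Adj v w → w ∈ C ∨ w = u) :
    IsValence (fun o : Option C => o.elim (r - ∑ v ∈ C, Forcing.nb G v {u}) fun i => r - f i) := by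
  classical
  let φ : Option C → V := fun o => o.elim u fun i => i
  have hφ : Function.Injective φ := by
    intro x y h
    cases x with
    | none =>
      cases y with
      | none => rfl
      | some b => exact absurd ((show (b : V) = u from h.symm) ▸ b.2) huC
    | some a =>
      cases y with
      | none => exact absurd ((show (a : V) = u from h) ▸ a.2) huC
      | some b => exact congrArg some (Subtype.ext h)
  have hrange : ∀ w, (∃ y, φ y = w) ↔ w ∈ insert u C := by
    intro w
    constructor
    · rintro ⟨y, rfl⟩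
      cases y with
      | none => exact mem_insert_self _ _
      | some a => exact mem_insert_of_mem a.2
    · intro hw
      rcases mem_insert.1 hw with rfl | hw
      · exact ⟨none, rfl⟩
      · exact ⟨some ⟨w, hw⟩, rfl⟩
  have hcount : ∀ x : Option C, (((Gᶜ).comap φ).neighborSet x).ncard +
      Forcing.nb G (φ x) (insert u C) = r := by
    intro x
    have h1 : (((Gᶜ).comap φ).neighborSet x).ncard =
        ((insert u C).filter (fun w => φ x ≠ w ∧ ¬ G.Adj (φ x) w)).card := by
      rw [← Set.ncard_image_of_injective _ hφ, ← Set.ncard_coe_finset]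
      congr 1
      ext w
      simp only [Set.mem_image, SimpleGraph.mem_neighborSet, SimpleGraph.comap_adj,
        SimpleGraph.compl_adj, coe_filter, Set.mem_ofPred_eq]
      constructor
      · rintro ⟨y, hy, rfl⟩
        exact ⟨(hrange _).1 ⟨y, rfl⟩, hy⟩
      · rintro ⟨hw, hy⟩
        obtain ⟨y, rfl⟩ := (hrange w).2 hw
        exact ⟨y, hy, rfl⟩
    rw [h1]
    unfold Forcing.nb
    have h2 : (insert u C).filter (fun w => φ x ≠ w ∧ ¬ G.Adj (φ x) w) =
        ((insert u C).filter (fun w => ¬ G.Adj (φ x) w)).erase (φ x) := by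
      ext w
      simp only [mem_filter, mem_erase]
      constructor
      · rintro ⟨a, b, c⟩
        exact ⟨b.symm, a, c⟩
      · rintro ⟨b, a, c⟩
        exact ⟨a, b.symm, c⟩
    have h3 : φ x ∈ (insert u C).filter (fun w => ¬ G.Adj (φ x) w) := by
      rw [mem_filter]
      exact ⟨(hrange _).1 ⟨x, rfl⟩, G.loopless.irrefl _⟩
    have h4 := Finset.card_filter_add_card_filter_not (s := insert u C) (fun w => G.Adj (φ x) w)
    have h5 : (insert u C).card = r + 1 := by
      rw [card_insert_of_notMem huC, hC]
    have h6 : 0 < ((insert u C).filter (fun w => ¬ G.Adj (φ x) w)).card :=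
      card_pos.2 ⟨_, h3⟩
    rw [h2, card_erase_of_mem h3]
    omega
  refine ⟨(Gᶜ).comap φ, ?_⟩
  intro x
  have hx := hcount x
  cases x with
  | none =>
    have h1 : Forcing.nb G (φ none) (insert u C) = ∑ v ∈ C, Forcing.nb G v {u} := by
      rw [Forcing.sum_nb_comm, sum_singleton]
      show Forcing.nb G u (insert u C) = _
      unfold Forcing.nb
      congr 1
      ext w
      simp only [mem_filter, mem_insert]
      constructor
      · rintro ⟨rfl | h, h'⟩
        · exact absurd h' (G.loopless.irrefl _)
        · exact ⟨h, h'⟩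
      · rintro ⟨h, h'⟩
        exact ⟨Or.inr h, h'⟩
    simp only [Option.elim]
    omega
  | some a =>
    have h1 : Forcing.nb G (φ (some a)) (insert u C) = f a := by
      rw [Forcing.nb_eq_of, hG]
      · rfl
      · intro w hw
        rcases hnb a a.2 w hw with h | h
        · exact mem_insert_of_mem h
        · rw [h]
          exact mem_insert_self _ _
    simp only [Option.elim]
    have := hr a a.2
    omega

/-- M62-11. The cut vertex template forces the exceptional condition. -/
theorem force_cut (f : V → ℕ) (r D : ℕ) (hr : 3 ≤ r) (hro : Odd r) (hodd : ∀ v, Odd (f v))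
    (hn : Even (Fintype.card V)) (hrD : r < D) (hD : ∀ v, f v ≤ D) (hDex : ∃ v, f v = D)
    (hcard : 3 * r + 3 ≤ Fintype.card V)
    (hT : 3 * r + 5 ≤ Fintype.card V → ∀ (u : V) (Q : Finset V) (c : ℕ), f u = D →
      IsValence (fun o : Option Q => o.elim c fun i => r - f i) →
      (∃ v, v ≠ u ∧ Fintype.card V - 2 * r - 3 < f v) ∨
      D - r + c < (univ.filter fun v => v ≠ u ∧ f v = Fintype.card V - 2 * r - 3).card
        + (if Fintype.card V = 3 * r + 5 then 0 else 1))
    (G : SimpleGraph V) (S : Finset V) (F : Finset (Finset V)) (hB : Barrier f G S F)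
    (hl : (F.filter fun C => ¬ C.card ≤ r).card = 2) (hS : S.card = 1)
    (C : Finset V) (hC : C ∈ F) (hCr : C.card = r) : False := by
  classical
  obtain ⟨u, rfl⟩ := card_eq_one.1 hS
  obtain ⟨L1, L2, hL12, hLF⟩ := card_eq_two.1 hl
  have hL1m : L1 ∈ F ∧ ¬ L1.card ≤ r := by
    have : L1 ∈ F.filter fun C => ¬ C.card ≤ r := by rw [hLF]; simp
    exact mem_filter.1 this
  have hL2m : L2 ∈ F ∧ ¬ L2.card ≤ r := by
    have : L2 ∈ F.filter fun C => ¬ C.card ≤ r := by rw [hLF]; simp
    exact mem_filter.1 this
  obtain ⟨hL1F, hL1r⟩ := hL1m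
  obtain ⟨hL2F, hL2r⟩ := hL2m
  have hC1 : C ≠ L1 := by rintro rfl; omega
  have hC2 : C ≠ L2 := by rintro rfl; omega
  have hFcard : F.card = 3 := by rw [hB.card, hS]
  have hF : F = {C, L1, L2} := by
    symm
    apply eq_of_subset_of_card_le
    · intro X hX
      simp only [mem_insert, mem_singleton] at hX
      rcases hX with rfl | rfl | rfl
      · exact hC
      · exact hL1F
      · exact hL2F
    · rw [hFcard, card_insert_of_notMem (by simp [hC1, hC2]), card_insert_of_notMem (by simp [hL12]),
        card_singleton]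
  have hsum3 : ∀ g : Finset V → ℕ, ∑ X ∈ F, g X = g C + (g L1 + g L2) := by
    intro g
    rw [hF, sum_insert (by simp [hC1, hC2]), sum_insert (by simp [hL12]), sum_singleton]
  have hcl := hB.card_le
  rw [hsum3, hS, hCr] at hcl
  -- sizes
  have hL1s : r + 2 ≤ L1.card := by
    have h1 := hB.odd L1 hL1F
    obtain ⟨a, ha⟩ := h1
    obtain ⟨b, hb⟩ := hro
    omega
  have hL2s : r + 2 ≤ L2.card := by
    have h1 := hB.odd L2 hL2F
    obtain ⟨a, ha⟩ := h1
    obtain ⟨b, hb⟩ := hro
    omega
  have hn5 : 3 * r + 5 ≤ Fintype.card V := by omega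
  set n := Fintype.card V with hndef
  set B := n - 2 * r - 3 with hBdef
  have hB1 : B + 2 * r + 3 = n := by omega
  have hL1B : L1.card ≤ B := by omega
  have hL2B : L2.card ≤ B := by omega
  -- values
  have huC : u ∉ C := by
    have := hB.disjS C hC
    rw [disjoint_singleton_right] at this
    exact this
  have huL1 : u ∉ L1 := by
    have := hB.disjS L1 hL1F
    rw [disjoint_singleton_right] at this
    exact this
  have huL2 : u ∉ L2 := by
    have := hB.disjS L2 hL2F
    rw [disjoint_singleton_right] at this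
    exact this
  have hdC1 : Disjoint C L1 := hB.disj C hC L1 hL1F hC1
  have hdC2 : Disjoint C L2 := hB.disj C hC L2 hL2F hC2
  have hd12 : Disjoint L1 L2 := hB.disj L1 hL1F L2 hL2F hL12
  have hvC : ∀ v ∈ C, f v ≤ r := by
    intro v hv
    have := hB.vert hC hv
    rw [hCr, hS] at this
    omega
  have hvL1 : ∀ v ∈ L1, f v ≤ L1.card := by
    intro v hv
    have := hB.vert hL1F hv
    rw [hS] at this
    omega
  have hvL2 : ∀ v ∈ L2, f v ≤ L2.card := by
    intro v hv
    have := hB.vert hL2F hv
    rw [hS] at this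
    omega
  have hvO : ∀ v, v ∉ C → v ∉ L1 → v ∉ L2 → v ≠ u → f v < B := by
    intro v h0 h1 h2 h3
    have h4 : ∀ w, G.Adj v w → w ∈ (C ∪ L1 ∪ L2)ᶜ := by
      intro w hw
      rw [mem_compl, mem_union, mem_union]
      rintro ((h5 | h5) | h5)
      · rcases hB.nb C hC w h5 v hw.symm with h6 | h6
        · exact h0 h6
        · exact h3 (mem_singleton.1 h6)
      · rcases hB.nb L1 hL1F w h5 v hw.symm with h6 | h6
        · exact h1 h6
        · exact h3 (mem_singleton.1 h6)
      · rcases hB.nb L2 hL2F w h5 v hw.symm with h6 | h6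
        · exact h2 h6
        · exact h3 (mem_singleton.1 h6)
    have h5 := Forcing.nb_eq_of G v h4
    rw [hB.deg] at h5
    have h6 := Forcing.nb_le G v (C ∪ L1 ∪ L2)ᶜ
    rw [card_compl, card_union_of_disjoint, card_union_of_disjoint hdC1, hCr] at h6
    · omega
    · rw [disjoint_union_left]
      exact ⟨hdC2, hd12⟩
  have hvB : ∀ v, v ≠ u → f v ≤ B := by
    intro v hv
    by_cases h0 : v ∈ C
    · have := hvC v h0
      omega
    by_cases h1 : v ∈ L1
    · exact (hvL1 v h1).trans hL1B
    by_cases h2 : v ∈ L2
    · exact (hvL2 v h2).trans hL2B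
    exact (hvO v h0 h1 h2 hv).le
  -- vertices of value `B` in a large component are adjacent to `u`
  have hadj : ∀ L ∈ F, L.card ≤ B → u ∉ L → ∀ v ∈ L, f v = B → L.card = B ∧ G.Adj v u := by
    intro L hLF hLB huL v hv hvB'
    have h1 := hB.vert hLF hv
    rw [hS] at h1
    refine ⟨by omega, ?_⟩
    by_contra hna
    have h4 : ∀ w, G.Adj v w → w ∈ L := by
      intro w hw
      rcases hB.nb L hLF v hv w hw with h6 | h6
      · exact h6
      · rw [mem_singleton.1 h6] at hw
        exact absurd hw hna
    have h5 := Forcing.nb_eq_of G v h4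
    rw [hB.deg] at h5
    have h6 := Forcing.nb_lt G v hv
    omega
  -- edges at `u`
  have hes := hB.edges_sum
  rw [hsum3, sum_singleton] at hes
  have hoC := hB.edges_odd hodd hC
  have ho1 := hB.edges_odd hodd hL1F
  have ho2 := hB.edges_odd hodd hL2F
  set eC := ∑ v ∈ C, Forcing.nb G v {u} with heC
  set e1 := ∑ v ∈ L1, Forcing.nb G v {u} with he1
  set e2 := ∑ v ∈ L2, Forcing.nb G v {u} with he2
  have heCr : eC ≤ r := by
    rw [heC, ← hCr]
    calc ∑ v ∈ C, Forcing.nb G v {u} ≤ ∑ v ∈ C, 1 := by
          refine sum_le_sum fun v _ => ?_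
          have := Forcing.nb_le G v {u}
          simpa using this
      _ = C.card := by simp
  have hval := cutForce_graph f r G hB.deg C hvC u huC hCr (by
    intro v hv w hw
    rcases hB.nb C hC v hv w hw with h | h
    · exact Or.inl h
    · exact Or.inr (mem_singleton.1 h))
  rw [← heC] at hval
  -- the number of vertices of value `B`
  set N := (univ.filter fun v => v ≠ u ∧ f v = B).card with hN
  have hcnt : ∀ L : Finset V, (∀ v ∈ L, f v = B → G.Adj v u) →
      (L.filter fun v => f v = B).card ≤ ∑ v ∈ L, Forcing.nb G v {u} := by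
    intro L hL
    rw [card_filter]
    refine sum_le_sum fun v hv => ?_
    split_ifs with h
    · unfold Forcing.nb
      rw [Nat.one_le_iff_ne_zero, Finset.card_ne_zero]
      exact ⟨u, mem_filter.2 ⟨mem_singleton_self u, hL v hv h⟩⟩
    · exact Nat.zero_le _
  have hNle : N ≤ (L1.filter fun v => f v = B).card + (L2.filter fun v => f v = B).card := by
    rw [hN]
    refine (card_le_card ?_).trans (card_union_le _ _)
    intro v hv
    simp only [mem_filter, mem_univ, true_and] at hv
    obtain ⟨hvu, hvB'⟩ := hv
    rw [mem_union, mem_filter, mem_filter]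
    by_cases h1 : v ∈ L1
    · exact Or.inl ⟨h1, hvB'⟩
    by_cases h2 : v ∈ L2
    · exact Or.inr ⟨h2, hvB'⟩
    exfalso
    by_cases h0 : v ∈ C
    · have := hvC v h0
      omega
    · have := hvO v h0 h1 h2 hvu
      omega
  have hc1 := hcnt L1 fun v hv hv' => (hadj L1 hL1F hL1B huL1 v hv hv').2
  have hc2 := hcnt L2 fun v hv hv' => (hadj L2 hL2F hL2B huL2 v hv hv').2
  rw [← he1] at hc1
  rw [← he2] at hc2
  have he1pos : 1 ≤ e1 := ho1.pos
  have he2pos : 1 ≤ e2 := ho2.pos
  have hNkey : N + (if n = 3 * r + 5 then 0 else 1) ≤ e1 + e2 := by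
    split_ifs with hif
    · omega
    · by_cases h1 : (L1.filter fun v => f v = B).card = 0
      · omega
      · obtain ⟨v, hv⟩ := card_pos.1 (Nat.pos_of_ne_zero h1)
        rw [mem_filter] at hv
        have h2 := (hadj L1 hL1F hL1B huL1 v hv.1 hv.2).1
        have h3 : (L2.filter fun v => f v = B).card = 0 := by
          rw [card_eq_zero, filter_eq_empty_iff]
          intro w hw hw'
          have h4 := (hadj L2 hL2F hL2B huL2 w hw hw').1
          omega
        omega
  have hmain : N + (if n = 3 * r + 5 then 0 else 1) + eC ≤ f u := by omega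
  by_cases hfu : f u = D
  · rcases hT hn5 u C (r - eC) hfu hval with ⟨v, hvu, hvB'⟩ | h
    · have := hvB v hvu
      omega
    · omega
  · have hfuD : f u < D := lt_of_le_of_ne (hD u) hfu
    obtain ⟨u', hu'⟩ := hDex
    have huu' : u' ≠ u := by
      rintro rfl
      exact hfu hu'
    have hDB : D ≤ B := hu' ▸ hvB u' huu'
    rcases hT hn5 u' C (r - eC) hu' hval with ⟨v, hvu, hvB'⟩ | h
    · by_cases hv : v = u
      · rw [hv] at hvB'
        omega
      · have := hvB v hv
        omega
    · have hN' : (univ.filter fun v => v ≠ u' ∧ f v = B).card + (if D = B then 1 else 0) ≤ N := by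
        split_ifs with hDB'
        · have h1 : (univ.filter fun v => v ≠ u' ∧ f v = B) ⊆
              (univ.filter fun v => v ≠ u ∧ f v = B).erase u' := by
            intro v hv
            simp only [mem_filter, mem_univ, true_and, mem_erase] at hv ⊢
            refine ⟨hv.1, ?_, hv.2⟩
            rintro rfl
            omega
          have h2 : u' ∈ (univ.filter fun v => v ≠ u ∧ f v = B) := by
            simp only [mem_filter, mem_univ, true_and]
            exact ⟨huu', by omega⟩
          have h3 := card_le_card h1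
          rw [card_erase_of_mem h2] at h3
          have h4 : 0 < (univ.filter fun v => v ≠ u ∧ f v = B).card := card_pos.2 ⟨_, h2⟩
          omega
        · have h1 : (univ.filter fun v => v ≠ u' ∧ f v = B).card = 0 := by
            rw [card_eq_zero, filter_eq_empty_iff]
            intro v _ hv
            have := hD v
            omega
          omega
      split_ifs at h hN' hmain with h5 h6 <;> omega

end Pool.Agent.MP_6e0dc6_co
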