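import Pool.Agent.Lib.MP_6e0dc6_co.EG

/-!
Near-regular sequences on a subset are valence sequences.
-/

namespace Pool.Agent.MP_6e0dc6_co

open Finset

variable {V : Type*} [Fintype V] [DecidableEq V]

/-- NR: near-regular sequences on a subset `W` are valence sequences. -/
theorem near_reg (W : Finset V) (f : V → ℕ) (r : ℕ) (hsupp : ∀ v ∉ W, f v = 0)
    (he : Even (∑ v, f v)) (hr : 1 ≤ r) (hW : r + 2 ≤ W.card) (hmax : ∀ v ∈ W, f v + 1 ≤ W.card)
    (hXY : ∑ v ∈ W, (f v - r) + ∑ v ∈ W, (r - f v) + 2 ≤ W.card)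
    (hX : (W.filter fun v => r < f v).card ≤ r) : IsValence f := by
  apply eg_suff f he
  apply eg_reduce
  intro K hK1 hK2
  rcases Nat.eq_zero_or_pos K.card with hk0 | hkpos
  · rw [Finset.card_eq_zero] at hk0
    subst hk0
    simp [slack]
  have hKW : K ⊆ W := by
    intro v hv
    by_contra hvW
    have := hK1 v hv
    rw [hsupp v hvW] at this
    omega
  have hkr : K.card ≤ r := by
    by_contra hcon
    have : K ⊆ W.filter fun v => r < f v := by
      intro v hv
      rw [Finset.mem_filter]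
      exact ⟨hKW hv, by have := hK1 v hv; omega⟩
    have := Finset.card_le_card this
    omega
  -- bound the min-sum from below on W \ K
  set k := K.card with hk
  have hsum1 : ∑ w ∈ Kᶜ, min (f w) k = ∑ w ∈ W \ K, min (f w) k := by
    symm
    apply Finset.sum_subset
    · intro x hx
      rw [Finset.mem_sdiff] at hx
      rw [Finset.mem_compl]; exact hx.2
    · intro x hx hx2
      rw [Finset.mem_compl] at hx
      have : x ∉ W := fun h => hx2 (Finset.mem_sdiff.mpr ⟨h, hx⟩)
      rw [hsupp x this]; simp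
  have hcardWK : (W \ K).card = W.card - k := by
    rw [Finset.card_sdiff_of_subset hKW]
  have hkW : k ≤ W.card := Finset.card_le_card hKW
  -- total identity
  have hsplit : ∀ g : V → ℕ, ∑ v ∈ W, g v = ∑ v ∈ K, g v + ∑ v ∈ W \ K, g v := by
    intro g
    rw [← Finset.sum_sdiff hKW]; ring
  unfold slack
  rw [← hk]
  rw [hsum1]
  have hcastK : (∑ v ∈ K, (f v : ℤ)) = ((∑ v ∈ K, f v : ℕ) : ℤ) := by push_cast; rfl
  rw [hcastK]
  by_cases hall : ∀ w ∈ W \ K, r - f w ≤ r - k
  · -- all outside terms contribute k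
    have h1 : ∑ w ∈ W \ K, min (f w) k = (W.card - k) * k := by
      rw [← hcardWK, ← smul_eq_mul, ← Finset.sum_const]
      apply Finset.sum_congr rfl
      intro w hw
      have := hall w hw
      omega
    have h2 : ∑ v ∈ K, f v ≤ k * (W.card - 1) := by
      rw [hk, ← smul_eq_mul, ← Finset.sum_const]
      apply Finset.sum_le_sum
      intro v hv
      have := hmax v (hKW hv)
      omega
    rw [h1]
    have h3 : (((W.card - k) * k : ℕ) : ℤ) = ((W.card : ℤ) - k) * k := by
      push_cast [Nat.cast_sub hkW]; ring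
    have h4 : ((∑ v ∈ K, f v : ℕ) : ℤ) ≤ (k : ℤ) * ((W.card : ℤ) - 1) := by
      have : ((k * (W.card - 1) : ℕ) : ℤ) = (k : ℤ) * ((W.card : ℤ) - 1) := by
        rw [Nat.cast_mul, Nat.cast_sub (by omega)]; simp
      rw [← this]; exact_mod_cast h2
    rw [h3]
    nlinarith
  · push Not at hall
    obtain ⟨w0, hw0, hw0r⟩ := hall
    -- sum over W\K of min ≥ (L-k) k - (Y_{W\K} - (r-k))
    have h1 : (W.card - k) * k + (r - k) ≤
        ∑ w ∈ W \ K, min (f w) k + ∑ w ∈ W \ K, (r - f w) := by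
      rw [← Finset.sum_add_distrib, ← Finset.add_sum_erase _ _ hw0]
      have h2 : ∑ w ∈ (W \ K).erase w0, k ≤
          ∑ w ∈ (W \ K).erase w0, (min (f w) k + (r - f w)) := by
        apply Finset.sum_le_sum
        intro w hw
        omega
      rw [Finset.sum_const, smul_eq_mul, Finset.card_erase_of_mem hw0, hcardWK] at h2
      have h3 : k + (r - k) ≤ min (f w0) k + (r - f w0) := by omega
      have h4 : 1 ≤ W.card - k := by
        rw [← hcardWK]; exact Finset.card_pos.mpr ⟨w0, hw0⟩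
      have h5 : (W.card - k) * k = (W.card - k - 1) * k + k := by
        obtain ⟨m, hm⟩ : ∃ m, W.card - k = m + 1 := ⟨W.card - k - 1, by omega⟩
        rw [hm]; simp; ring
      omega
    have h6 : ∑ v ∈ K, f v ≤ r * k + ∑ v ∈ K, (f v - r) := by
      rw [hk, mul_comm r, ← smul_eq_mul, ← Finset.sum_const, ← Finset.sum_add_distrib]
      apply Finset.sum_le_sum
      intro v _
      omega
    have h7 := hsplit (fun v => f v - r)
    have h8 := hsplit (fun v => r - f v)
    have h9 : ((∑ v ∈ K, f v : ℕ) : ℤ) ≤ (r : ℤ) * k + (∑ v ∈ K, (f v - r) : ℕ) := by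
      exact_mod_cast h6
    have h10 : ((W.card : ℤ) - k) * k + ((r : ℤ) - k) ≤
        (∑ w ∈ W \ K, min (f w) k : ℕ) + (∑ w ∈ W \ K, (r - f w) : ℕ) := by
      have : (((W.card - k) * k + (r - k) : ℕ) : ℤ) = ((W.card : ℤ) - k) * k + ((r : ℤ) - k) := by
        push_cast [Nat.cast_sub hkW, Nat.cast_sub hkr]; ring
      rw [← this]
      exact_mod_cast h1
    have h11 : ((∑ v ∈ K, (f v - r) : ℕ) : ℤ) + (∑ w ∈ W \ K, (r - f w) : ℕ) + 2 ≤ W.card := by
      have : (∑ v ∈ K, (f v - r)) + (∑ w ∈ W \ K, (r - f w)) + 2 ≤ W.card := by omega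
      exact_mod_cast this
    have hk1 : (1 : ℤ) ≤ k := by exact_mod_cast hkpos
    have hL : (r : ℤ) + 2 ≤ W.card := by exact_mod_cast hW
    nlinarith [mul_nonneg (sub_nonneg.mpr hk1) (sub_nonneg.mpr hL)]

end Pool.Agent.MP_6e0dc6_co
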