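import Pool.Agent.Lib.MP_6e0dc6_co.EG

/-!
Near-regular sequences on a subset are valence sequences, second version.
-/

namespace Pool.Agent.MP_6e0dc6_co

open Finset

variable {V : Type*} [Fintype V] [DecidableEq V]

/-- M62-3. Nearly regular sequences, second version. -/
theorem near_reg2 (W : Finset V) (f : V → ℕ) (r D : ℕ) (hsupp : ∀ v ∉ W, f v = 0)
    (he : Even (∑ v, f v)) (hr : 1 ≤ r) (hrD : r ≤ D) (hW : r + 3 ≤ W.card)
    (hWD : D + 2 ≤ W.card) (hD : ∀ v ∈ W, f v ≤ D)
    (hXY : ∑ v ∈ W, (f v - r) + ∑ v ∈ W, (r - f v) + 2 ≤ 2 * r) : IsValence f := by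
  apply eg_suff f he
  apply eg_reduce
  intro K hK1 hK2
  rcases Nat.eq_zero_or_pos K.card with hk0 | hkpos
  · rw [Finset.card_eq_zero] at hk0
    subst hk0
    simp [slack]
  have hKW : K ⊆ W := by
    intro v hv
    by_contra hvW
    have := hK1 v hv
    rw [hsupp v hvW] at this
    omega
  set k := K.card with hk
  have hsum1 : ∑ w ∈ Kᶜ, min (f w) k = ∑ w ∈ W \ K, min (f w) k := by
    symm
    apply Finset.sum_subset
    · intro x hx
      rw [Finset.mem_sdiff] at hx
      rw [Finset.mem_compl]; exact hx.2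
    · intro x hx hx2
      rw [Finset.mem_compl] at hx
      have : x ∉ W := fun h => hx2 (Finset.mem_sdiff.mpr ⟨h, hx⟩)
      rw [hsupp x this]; simp
  have hcardWK : (W \ K).card = W.card - k := by
    rw [Finset.card_sdiff_of_subset hKW]
  have hkW : k ≤ W.card := Finset.card_le_card hKW
  have hsplit : ∀ g : V → ℕ, ∑ v ∈ W, g v = ∑ v ∈ K, g v + ∑ v ∈ W \ K, g v := by
    intro g
    rw [← Finset.sum_sdiff hKW]; ring
  unfold slack
  rw [← hk, hsum1]
  have hcastK : (∑ v ∈ K, (f v : ℤ)) = ((∑ v ∈ K, f v : ℕ) : ℤ) := by push_cast; rfl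
  rw [hcastK]
  have hkD : ∑ v ∈ K, f v ≤ k * D := by
    rw [hk, ← smul_eq_mul, ← Finset.sum_const]
    exact Finset.sum_le_sum fun v hv => hD v (hKW hv)
  have hkX : ∑ v ∈ K, f v ≤ k * r + ∑ v ∈ K, (f v - r) := by
    rw [hk, ← smul_eq_mul, ← Finset.sum_const, ← Finset.sum_add_distrib]
    apply Finset.sum_le_sum
    intro v _
    omega
  have h7 := hsplit (fun v => f v - r)
  have h8 := hsplit (fun v => r - f v)
  obtain ⟨m, hm⟩ : ∃ m, W.card = k + m := ⟨W.card - k, by omega⟩
  have hcm : (W \ K).card = m := by omega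
  rcases le_or_gt k r with hkr | hkr
  · by_cases h0 : ∀ w ∈ W \ K, k ≤ f w
    · have h1 : ∑ w ∈ W \ K, min (f w) k = m * k := by
        rw [← hcm, ← smul_eq_mul, ← Finset.sum_const]
        apply Finset.sum_congr rfl
        intro w hw
        exact min_eq_right (h0 w hw)
      rw [h1]
      have h2 : ((∑ v ∈ K, f v : ℕ) : ℤ) ≤ (k : ℤ) * D := by exact_mod_cast hkD
      have h3 : (D : ℤ) + 2 ≤ k + m := by exact_mod_cast (by omega : D + 2 ≤ k + m)
      push_cast
      nlinarith
    · push Not at h0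
      obtain ⟨w0, hw0, hw0k⟩ := h0
      by_cases h1 : ∀ w ∈ (W \ K).erase w0, k ≤ f w
      · have h2 : (m - 1) * k ≤ ∑ w ∈ W \ K, min (f w) k := by
          rw [← Finset.add_sum_erase _ _ hw0]
          have h3 : ∑ w ∈ (W \ K).erase w0, min (f w) k = (m - 1) * k := by
            rw [← hcm, ← Finset.card_erase_of_mem hw0, ← smul_eq_mul, ← Finset.sum_const]
            apply Finset.sum_congr rfl
            intro w hw
            exact min_eq_right (h1 w hw)
          omega
        have hm1 : 1 ≤ m := by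
          rw [← hcm]; exact Finset.card_pos.mpr ⟨w0, hw0⟩
        have h3 : ((m : ℤ) - 1) * k ≤ ((∑ w ∈ W \ K, min (f w) k : ℕ) : ℤ) := by
          have : (((m - 1) * k : ℕ) : ℤ) = ((m : ℤ) - 1) * k := by
            push_cast [Nat.cast_sub hm1]; ring
          rw [← this]
          exact_mod_cast h2
        have h4 : ((∑ v ∈ K, f v : ℕ) : ℤ) ≤ (k : ℤ) * D := by exact_mod_cast hkD
        have h5 : (D : ℤ) + 2 ≤ k + m := by exact_mod_cast (by omega : D + 2 ≤ k + m)
        nlinarith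
      · push Not at h1
        obtain ⟨w1, hw1, hw1k⟩ := h1
        -- two deficient vertices
        have h2 : m * k + 2 * (r - k) ≤
            ∑ w ∈ W \ K, min (f w) k + ∑ w ∈ W \ K, (r - f w) := by
          rw [← Finset.sum_add_distrib, ← Finset.add_sum_erase _ _ hw0,
            ← Finset.add_sum_erase _ _ hw1]
          have h3 : ∑ w ∈ ((W \ K).erase w0).erase w1, k ≤
              ∑ w ∈ ((W \ K).erase w0).erase w1, (min (f w) k + (r - f w)) := by
            apply Finset.sum_le_sum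
            intro w hw
            omega
          rw [Finset.sum_const, smul_eq_mul, Finset.card_erase_of_mem hw1,
            Finset.card_erase_of_mem hw0, hcm] at h3
          have h4 : 2 ≤ m := by
            have e1 : 1 ≤ ((W \ K).erase w0).card := Finset.card_pos.mpr ⟨w1, hw1⟩
            rw [Finset.card_erase_of_mem hw0, hcm] at e1
            omega
          obtain ⟨m', hm'⟩ : ∃ m', m = m' + 2 := ⟨m - 2, by omega⟩
          have h5 : m * k = (m - 1 - 1) * k + 2 * k := by
            rw [hm']; simp; ring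
          omega
        have h9 : ((∑ v ∈ K, f v : ℕ) : ℤ) ≤ (k : ℤ) * r + (∑ v ∈ K, (f v - r) : ℕ) := by
          exact_mod_cast hkX
        have h10 : (m : ℤ) * k + 2 * ((r : ℤ) - k) ≤
            (∑ w ∈ W \ K, min (f w) k : ℕ) + (∑ w ∈ W \ K, (r - f w) : ℕ) := by
          have : ((m * k + 2 * (r - k) : ℕ) : ℤ) = (m : ℤ) * k + 2 * ((r : ℤ) - k) := by
            push_cast [Nat.cast_sub hkr]; ring
          rw [← this]
          exact_mod_cast h2
        have h11 : ((∑ v ∈ K, (f v - r) : ℕ) : ℤ) + (∑ w ∈ W \ K, (r - f w) : ℕ) + 2 ≤ 2 * r := by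
          have : (∑ v ∈ K, (f v - r)) + (∑ w ∈ W \ K, (r - f w)) + 2 ≤ 2 * r := by omega
          exact_mod_cast this
        have hk1 : (1 : ℤ) ≤ k := by exact_mod_cast hkpos
        have hL : (r : ℤ) + 3 ≤ k + m := by exact_mod_cast (by omega : r + 3 ≤ k + m)
        nlinarith [mul_nonneg (by linarith : (0 : ℤ) ≤ k) (sub_nonneg.mpr hL)]
  · have h2 : m * r ≤ ∑ w ∈ W \ K, min (f w) k + ∑ w ∈ W \ K, (r - f w) := by
      rw [← Finset.sum_add_distrib, ← hcm, ← smul_eq_mul, ← Finset.sum_const]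
      apply Finset.sum_le_sum
      intro w hw
      omega
    have h9 : ((∑ v ∈ K, f v : ℕ) : ℤ) ≤ (k : ℤ) * r + (∑ v ∈ K, (f v - r) : ℕ) := by
      exact_mod_cast hkX
    have h10 : (m : ℤ) * r ≤
        (∑ w ∈ W \ K, min (f w) k : ℕ) + (∑ w ∈ W \ K, (r - f w) : ℕ) := by
      exact_mod_cast h2
    have h11 : ((∑ v ∈ K, (f v - r) : ℕ) : ℤ) + (∑ w ∈ W \ K, (r - f w) : ℕ) + 2 ≤ 2 * r := by
      have : (∑ v ∈ K, (f v - r)) + (∑ w ∈ W \ K, (r - f w)) + 2 ≤ 2 * r := by omega
      exact_mod_cast this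
    obtain ⟨j, hj⟩ : ∃ j, k = r + j + 1 := ⟨k - r - 1, by omega⟩
    have hk2 : (k : ℤ) = r + j + 1 := by exact_mod_cast hj
    obtain ⟨e, he⟩ : ∃ e, k + m = r + 3 + e := ⟨k + m - r - 3, by omega⟩
    have hm2 : (m : ℤ) = r + 3 + e - k := by
      have : (k : ℤ) + m = r + 3 + e := by exact_mod_cast he
      linarith
    have hre : 0 ≤ (r : ℤ) * e := by positivity
    have hjj : 0 ≤ ((j : ℤ) + 1) * j := by positivity
    rw [hm2, hk2] at h10
    rw [hk2] at h9 ⊢
    nlinarith

end Pool.Agent.MP_6e0dc6_co
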