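import Pool.Agent.Lib.MP_6e0dc6_co.Glue
import Pool.Agent.Lib.MP_6e0dc6_co.NearReg
import Pool.Agent.Lib.MP_6e0dc6_co.NearRegTwo

/-!
Sequences with an even term and small deviation have a realization without a perfect matching.
-/

namespace Pool.Agent.MP_6e0dc6_co

open Finset

variable {V : Type*} [Fintype V] [DecidableEq V]

private theorem eb_split (f : V → ℕ) (he : Even (∑ v, f v)) (D r : ℕ) (hD : ∀ v, f v ≤ D)
    (hcard : 2 * D + 6 ≤ Fintype.card V) (hr : 1 ≤ r) (hrD : r ≤ D)
    (hXY : ∑ v, (f v - r) + ∑ v, (r - f v) + 2 ≤ 2 * r) (A : Finset V) (hA : Odd A.card)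
    (hA2 : A.card ≤ D + 3) (hsum : Even (∑ v ∈ A, f v))
    (hval : IsValence (fun v => if v ∈ A then f v else 0)) : BadReal f := by
  apply split_glue f A hA hval
  have hcc := Finset.card_compl A
  have h0 : (fun v => if v ∈ A then 0 else f v) = fun v => if v ∈ Aᶜ then f v else 0 := by
    funext v
    by_cases h : v ∈ A
    · rw [if_pos h, if_neg (by simpa using h)]
    · rw [if_neg h, if_pos (by simpa using h)]
  have hs : ∀ F : ℕ → ℕ, ∑ v ∈ Aᶜ, F (if v ∈ Aᶜ then f v else 0) = ∑ v ∈ Aᶜ, F (f v) := fun F =>
    Finset.sum_congr rfl fun v hv => by rw [if_pos hv]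
  have hX0 : ∑ v ∈ Aᶜ, (f v - r) ≤ ∑ v, (f v - r) :=
    Finset.sum_le_sum_of_subset (Finset.subset_univ _)
  have hY0 : ∑ v ∈ Aᶜ, (r - f v) ≤ ∑ v, (r - f v) :=
    Finset.sum_le_sum_of_subset (Finset.subset_univ _)
  have hec : Even (∑ v ∈ Aᶜ, f v) := by
    have h := Finset.sum_add_sum_compl A f
    rw [← h, Nat.even_add] at he
    exact he.1 hsum
  rw [h0]
  apply near_reg2 Aᶜ _ r D
  · intro v hv
    rw [if_neg hv]
  · rw [Finset.sum_ite_mem, Finset.univ_inter]
    exact hec
  · exact hr
  · exact hrD
  · omega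
  · omega
  · intro v hv
    rw [if_pos hv]
    exact hD v
  · rw [hs fun x => x - r, hs fun x => r - x]
    omega

private theorem eb_block (f : V → ℕ) (r : ℕ) (hr : 1 ≤ r) (W : Finset V)
    (he : Even (∑ v ∈ W, f v)) (hW : r + 2 ≤ W.card) (hmax : ∀ v ∈ W, f v + 1 ≤ W.card)
    (hXY : ∑ v ∈ W, (f v - r) + ∑ v ∈ W, (r - f v) + 2 ≤ W.card)
    (hX : (W.filter fun v => r < f v).card ≤ r) :
    IsValence (fun v => if v ∈ W then f v else 0) := by
  have hs : ∀ F : ℕ → ℕ, ∑ v ∈ W, F (if v ∈ W then f v else 0) = ∑ v ∈ W, F (f v) := fun F =>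
    Finset.sum_congr rfl fun v hv => by rw [if_pos hv]
  apply near_reg W _ r
  · intro v hv
    rw [if_neg hv]
  · rw [Finset.sum_ite_mem, Finset.univ_inter]
    exact he
  · exact hr
  · exact hW
  · intro v hv
    rw [if_pos hv]
    exact hmax v hv
  · rw [hs fun x => x - r, hs fun x => r - x]
    exact hXY
  · have h1 : (W.filter fun v => r < if v ∈ W then f v else 0) = W.filter fun v => r < f v := by
      apply Finset.filter_congr
      intro v hv
      rw [if_pos hv]
    rw [h1]
    exact hX

/-- Block consisting of `A0` (value `r`) and `A1` (values at distance one from `r`). -/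
private theorem eb_two (f : V → ℕ) (r : ℕ) (hr : 1 ≤ r) (A0 A1 : Finset V)
    (hdis : Disjoint A0 A1) (h0 : ∀ v ∈ A0, f v = r) (h1 : ∀ v ∈ A1, f v = r + 1 ∨ f v + 1 = r)
    (ha : 2 ≤ A0.card) (hc : r + 2 ≤ A0.card + A1.card) (hc1 : A1.card ≤ r)
    (he : Even (∑ v ∈ A0 ∪ A1, f v)) :
    IsValence (fun v => if v ∈ A0 ∪ A1 then f v else 0) := by
  have hcard : (A0 ∪ A1).card = A0.card + A1.card := Finset.card_union_of_disjoint hdis
  apply eb_block f r hr _ he
  · omega
  · intro v hv
    rcases Finset.mem_union.1 hv with hv | hv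
    · have := h0 v hv
      omega
    · have := h1 v hv
      omega
  · rw [Finset.sum_union hdis, Finset.sum_union hdis]
    have e1 : ∑ v ∈ A0, (f v - r) = 0 := Finset.sum_eq_zero fun v hv => by rw [h0 v hv]; omega
    have e2 : ∑ v ∈ A0, (r - f v) = 0 := Finset.sum_eq_zero fun v hv => by rw [h0 v hv]; omega
    have e3 : ∑ v ∈ A1, (f v - r) + ∑ v ∈ A1, (r - f v) = A1.card := by
      rw [← Finset.sum_add_distrib, Finset.card_eq_sum_ones]
      apply Finset.sum_congr rfl
      intro v hv
      have := h1 v hv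
      omega
    omega
  · have e1 : ((A0 ∪ A1).filter fun v => r < f v) ⊆ A1 := by
      intro v hv
      obtain ⟨h2, h3⟩ := Finset.mem_filter.1 hv
      rcases Finset.mem_union.1 h2 with h2 | h2
      · have := h0 v h2
        omega
      · exact h2
    exact (Finset.card_le_card e1).trans hc1

omit [DecidableEq V] in
/-- counting -/
private theorem eb_cnt (f : V → ℕ) (r : ℕ)
    (hXY : ∑ v, (f v - r) + ∑ v, (r - f v) + 2 ≤ 2 * r) :
    2 * Fintype.card V + 2 ≤ 2 * (univ.filter fun v => f v = r).card +
      (univ.filter fun v => f v = r + 1 ∨ f v + 1 = r).card + 2 * r := by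
  have h1 : 2 * Fintype.card V ≤ 2 * (univ.filter fun v => f v = r).card +
      (univ.filter fun v => f v = r + 1 ∨ f v + 1 = r).card +
      (∑ v, (f v - r) + ∑ v, (r - f v)) := by
    have e1 : (univ.filter fun v => f v = r).card = ∑ v, if f v = r then 1 else 0 :=
      Finset.card_filter _ _
    have e2 : (univ.filter fun v => f v = r + 1 ∨ f v + 1 = r).card =
      ∑ v, if f v = r + 1 ∨ f v + 1 = r then 1 else 0 := Finset.card_filter _ _
    have e3 : Fintype.card V = ∑ v : V, 1 := by simp
    rw [e1, e2, e3, Finset.mul_sum, Finset.mul_sum, ← Finset.sum_add_distrib,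
      ← Finset.sum_add_distrib, ← Finset.sum_add_distrib]
    apply Finset.sum_le_sum
    intro v _
    split_ifs <;> omega
  omega

/-- M62-4. -/
theorem even_bad (f : V → ℕ) (he : Even (∑ v, f v)) (D r : ℕ) (hD : ∀ v, f v ≤ D)
    (hcard : 2 * D + 6 ≤ Fintype.card V) (hr : 1 ≤ r) (hrD : r ≤ D)
    (h1 : ∀ v, 1 ≤ f v) (hXY : ∑ v, (f v - r) + ∑ v, (r - f v) + 2 ≤ 2 * r)
    (w : V) (hw : Even (f w)) : BadReal f := by
  have hcnt := eb_cnt f r hXY
  set N0 := univ.filter fun v => f v = r with hN0
  set N1 := univ.filter fun v => f v = r + 1 ∨ f v + 1 = r with hN1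
  have hdis : Disjoint N0 N1 := by
    rw [Finset.disjoint_left]
    intro v hv hv'
    have e1 := (Finset.mem_filter.1 hv).2
    have e2 := (Finset.mem_filter.1 hv').2
    omega
  have hN1le : N1.card + 2 ≤ 2 * r := by
    have e1 : N1.card ≤ ∑ v, (f v - r) + ∑ v, (r - f v) := by
      rw [← Finset.sum_add_distrib, Finset.card_eq_sum_ones]
      refine (Finset.sum_le_sum (g := fun v => (f v - r) + (r - f v)) ?_).trans
        (Finset.sum_le_sum_of_subset (Finset.filter_subset _ _))
      intro v hv
      have := (Finset.mem_filter.1 hv).2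
      omega
    omega
  have hN01 : N0.card + N1.card ≤ Fintype.card V := by
    rw [← Finset.card_union_of_disjoint hdis]
    exact Finset.card_le_univ _
  rcases Nat.even_or_odd r with hre | hro
  · by_cases hn0 : r + 1 ≤ N0.card
    · -- complete graph
      obtain ⟨C, hC, hCc⟩ := Finset.exists_subset_card_eq hn0
      have hCr : ∀ v ∈ C, f v = r := fun v hv => (Finset.mem_filter.1 (hC hv)).2
      have hsum : Even (∑ v ∈ C, f v) := by
        rw [Finset.sum_congr rfl hCr, Finset.sum_const, smul_eq_mul]
        exact hre.mul_left _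
      apply eb_split f he D r hD hcard hr hrD hXY C (by rw [hCc]; exact hre.add_one) (by omega)
        hsum
      refine ⟨SimpleGraph.fromRel fun a b => a ∈ C ∧ b ∈ C, fun a => ?_⟩
      by_cases ha : a ∈ C
      · have h2 : (SimpleGraph.fromRel fun a b => a ∈ C ∧ b ∈ C).neighborSet a =
            ((C.erase a : Finset V) : Set V) := by
          ext b
          simp only [SimpleGraph.mem_neighborSet, SimpleGraph.fromRel_adj, Finset.coe_erase,
            Set.mem_sdiff, Finset.mem_coe, Set.mem_singleton_iff]
          constructor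
          · rintro ⟨h3, ⟨-, h4⟩ | ⟨h4, -⟩⟩
            · exact ⟨h4, fun h => h3 h.symm⟩
            · exact ⟨h4, fun h => h3 h.symm⟩
          · rintro ⟨h3, h4⟩
            exact ⟨fun h => h4 h.symm, Or.inl ⟨ha, h3⟩⟩
        rw [h2, Set.ncard_coe_finset, Finset.card_erase_of_mem ha]
        show C.card - 1 = if a ∈ C then f a else 0
        rw [if_pos ha, hCr a ha, hCc]
        omega
      · have h2 : (SimpleGraph.fromRel fun a b => a ∈ C ∧ b ∈ C).neighborSet a = ∅ := by
          ext b
          simp only [SimpleGraph.mem_neighborSet, SimpleGraph.fromRel_adj, Set.mem_empty_iff_false,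
            iff_false]
          rintro ⟨-, ⟨h4, -⟩ | ⟨-, h4⟩⟩ <;> exact ha h4
        rw [h2, Set.ncard_empty]
        show 0 = if a ∈ C then f a else 0
        rw [if_neg ha]
    · -- mixed block of size r + 3
      obtain ⟨a, ha1, ha2, ha3⟩ : ∃ a, Odd a ∧ a ≤ N0.card ∧ N0.card ≤ a + 1 := by
        rcases Nat.even_or_odd N0.card with h | h
        · refine ⟨N0.card - 1, ?_, by omega, by omega⟩
          obtain ⟨t, ht⟩ := h
          exact ⟨t - 1, by omega⟩
        · exact ⟨N0.card, h, le_rfl, by omega⟩
      obtain ⟨A0, hA0, hA0c⟩ := Finset.exists_subset_card_eq ha2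
      obtain ⟨A1, hA1, hA1c⟩ := Finset.exists_subset_card_eq
        (show r + 3 - a ≤ N1.card by omega)
      have hd : Disjoint A0 A1 := Finset.disjoint_of_subset_left hA0
        (Finset.disjoint_of_subset_right hA1 hdis)
      have h0' : ∀ v ∈ A0, f v = r := fun v hv => (Finset.mem_filter.1 (hA0 hv)).2
      have h1' : ∀ v ∈ A1, f v = r + 1 ∨ f v + 1 = r :=
        fun v hv => (Finset.mem_filter.1 (hA1 hv)).2
      have hcd : (A0 ∪ A1).card = r + 3 := by
        rw [Finset.card_union_of_disjoint hd]
        omega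
      have hsum : Even (∑ v ∈ A0 ∪ A1, f v) := by
        rw [Finset.sum_union hd]
        apply Even.add
        · rw [Finset.sum_congr rfl h0', Finset.sum_const, smul_eq_mul]
          exact hre.mul_left _
        · rw [← Nat.not_odd_iff_even, Finset.odd_sum_iff_odd_card_odd]
          have e1 : A1.filter (fun v => Odd (f v)) = A1 := by
            apply Finset.filter_true_of_mem
            intro v hv
            obtain ⟨t, ht⟩ := hre
            rcases h1' v hv with h | h
            · exact ⟨t, by omega⟩
            · exact ⟨t - 1, by omega⟩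
          rw [e1, hA1c, Nat.not_odd_iff_even]
          obtain ⟨t, ht⟩ := hre
          obtain ⟨s, hs⟩ := ha1
          exact ⟨t + 1 - s, by omega⟩
      apply eb_split f he D r hD hcard hr hrD hXY (A0 ∪ A1) ?_ (by omega) hsum
      · exact eb_two f r hr A0 A1 hd h0' h1' (by omega) (by omega) (by omega) hsum
      · rw [hcd]
        obtain ⟨t, ht⟩ := hre
        exact ⟨t + 1, by omega⟩
  · by_cases hn1 : 1 ≤ N1.card
    · obtain ⟨a, ha1, ha2, ha3, ha4⟩ : ∃ a, Even a ∧ a ≤ N0.card ∧ a ≤ r + 1 ∧
          (a = r + 1 ∨ (N0.card ≤ a + 1 ∧ N0.card ≤ r)) := by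
        by_cases hn0 : r + 1 ≤ N0.card
        · exact ⟨r + 1, hro.add_one, hn0, le_rfl, Or.inl rfl⟩
        · rcases Nat.even_or_odd N0.card with h | h
          · exact ⟨N0.card, h, le_rfl, by omega, Or.inr ⟨by omega, by omega⟩⟩
          · refine ⟨N0.card - 1, ?_, by omega, by omega, Or.inr ⟨by omega, by omega⟩⟩
            obtain ⟨t, ht⟩ := h
            exact ⟨t, by omega⟩
      obtain ⟨A0, hA0, hA0c⟩ := Finset.exists_subset_card_eq ha2
      obtain ⟨A1, hA1, hA1c⟩ := Finset.exists_subset_card_eq
        (show r + 2 - a ≤ N1.card by omega)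
      have hd : Disjoint A0 A1 := Finset.disjoint_of_subset_left hA0
        (Finset.disjoint_of_subset_right hA1 hdis)
      have h0' : ∀ v ∈ A0, f v = r := fun v hv => (Finset.mem_filter.1 (hA0 hv)).2
      have h1' : ∀ v ∈ A1, f v = r + 1 ∨ f v + 1 = r :=
        fun v hv => (Finset.mem_filter.1 (hA1 hv)).2
      have hcd : (A0 ∪ A1).card = r + 2 := by
        rw [Finset.card_union_of_disjoint hd]
        omega
      have hsum : Even (∑ v ∈ A0 ∪ A1, f v) := by
        rw [Finset.sum_union hd]
        apply Even.add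
        · rw [Finset.sum_congr rfl h0', Finset.sum_const, smul_eq_mul, hA0c]
          exact ha1.mul_right _
        · apply Finset.even_sum
          intro v hv
          obtain ⟨t, ht⟩ := hro
          rcases h1' v hv with h | h
          · exact ⟨t + 1, by omega⟩
          · exact ⟨t, by omega⟩
      apply eb_split f he D r hD hcard hr hrD hXY (A0 ∪ A1) ?_ (by omega) hsum
      · exact eb_two f r hr A0 A1 hd h0' h1' (by omega) (by omega) (by omega) hsum
      · rw [hcd]
        obtain ⟨t, ht⟩ := hro
        exact ⟨t + 1, by omega⟩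
    · -- no vertex at distance one
      have hN1z : N1.card = 0 := by omega
      have hwD := hD w
      have hwr : f w ≠ r := by
        intro h
        rw [h] at hw
        exact (Nat.not_even_iff_odd.2 hro) hw
      have hw1 : w ∉ N1 := by
        rw [Finset.card_eq_zero] at hN1z
        rw [hN1z]
        exact Finset.notMem_empty w
      have hw1' : ¬ (f w = r + 1 ∨ f w + 1 = r) := by
        intro h
        exact hw1 (Finset.mem_filter.2 ⟨Finset.mem_univ _, h⟩)
      have hw2 : 2 ≤ f w := by
        have := h1 w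
        obtain ⟨t, ht⟩ := hw
        omega
      have hn0 : 2 * D + 7 ≤ N0.card + r := by omega
      obtain ⟨k, hk1, hk2, hk3, hk4⟩ : ∃ k, Even k ∧ r + 1 ≤ k ∧ f w ≤ k ∧
          k ≤ D + 1 ∧ (k = r + 1 ∨ k = f w) := by
        by_cases h : f w ≤ r + 1
        · exact ⟨r + 1, hro.add_one, le_refl _, h, by omega, Or.inl rfl⟩
        · exact ⟨f w, hw, by omega, le_refl _, by omega, Or.inr rfl⟩
      obtain ⟨R, hR, hRc⟩ := Finset.exists_subset_card_eq
        (show k ≤ N0.card by omega)
      have hRr : ∀ v ∈ R, f v = r := fun v hv => (Finset.mem_filter.1 (hR hv)).2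
      have hwR : w ∉ R := fun h => hwr (hRr w h)
      have hcard' : (insert w R).card = k + 1 := by rw [Finset.card_insert_of_notMem hwR, hRc]
      have hsum : Even (∑ v ∈ insert w R, f v) := by
        rw [Finset.sum_insert hwR, Finset.sum_congr rfl hRr, Finset.sum_const, smul_eq_mul, hRc]
        exact hw.add (hk1.mul_right _)
      apply eb_split f he D r hD hcard hr hrD hXY (insert w R) ?_ (by omega) hsum
      · apply eb_block f r hr _ hsum
        · omega
        · intro v hv
          rcases Finset.mem_insert.1 hv with rfl | hv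
          · omega
          · have := hRr v hv
            omega
        · rw [Finset.sum_insert hwR, Finset.sum_insert hwR]
          have e1 : ∑ v ∈ R, (f v - r) = 0 :=
            Finset.sum_eq_zero fun v hv => by rw [hRr v hv]; omega
          have e2 : ∑ v ∈ R, (r - f v) = 0 :=
            Finset.sum_eq_zero fun v hv => by rw [hRr v hv]; omega
          omega
        · have e1 : ((insert w R).filter fun v => r < f v) ⊆ {w} := by
            intro v hv
            obtain ⟨h2, h3⟩ := Finset.mem_filter.1 hv
            rcases Finset.mem_insert.1 h2 with rfl | h2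
            · exact Finset.mem_singleton_self _
            · have := hRr v h2
              omega
          exact (Finset.card_le_card e1).trans (by simpa using hr)
      · rw [hcard']
        exact hk1.add_one

end Pool.Agent.MP_6e0dc6_co
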