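import Pool.Agent.Lib.MP_6e0dc6_co.ForceLem

/-!
Barriers for `n ≤ 3r+1`.
-/

namespace Pool.Agent.MP_6e0dc6_co

open Finset

variable {V : Type*} [Fintype V] [DecidableEq V]

section
variable {f : V → ℕ} {G : SimpleGraph V} {S : Finset V} {F : Finset (Finset V)}

/-- Case of one large component. -/
theorem ForceA.large_one (r : ℕ) (hr : 3 ≤ r) (hro : Odd r) (hodd : ∀ v, Odd (f v))
    (h3 : ∀ v, 3 ≤ f v)
    (hXY : ∑ v, (f v - r) + ∑ v, (r - f v) + 2 ≤ 2 * r)
    (hcard : Fintype.card V ≤ 3 * r + 1)
    (hF : 3 * r ≤ Fintype.card V + 1 → (univ.filter fun v => f v + 2 = r).card + 1 ≠ r)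
    (hS : r = 7 → 22 ≤ Fintype.card V → (univ.filter fun v => f v = 3).card ≠ 3)
    (hB : Barrier f G S F) (hl : (F.filter fun C => ¬ C.card ≤ r).card = 1) : False := by
  have hs1 := ForceLem.one_le hB hodd
  have hsplit := ForceLem.card_split hB r
  rw [hl] at hsplit
  have hk : (F.filter fun C => C.card ≤ r).card = S.card + 1 := by omega
  have hsize := ForceLem.size hB hro
  rw [hl] at hsize
  obtain ⟨hm, hsum⟩ := ForceLem.split_small hr
    (fun C hC => ForceLem.one_or_r hB hr hro hodd hXY hl.ge hk hC)
  rw [hsum] at hsize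
  rw [hk] at hm
  have hY1 := ForceLem.defic_single hB r
  have hY2 := ForceLem.sum_fam_le hB _ (filter_subset (fun C => C.card = 1) F) (fun v => r - f v)
  have hYX : ∑ C ∈ F.filter (fun C => C.card = 1), ∑ v ∈ C, (r - f v) + 2 ≤ 2 * r := by omega
  have hUs := ForceLem.sum_biUnion hB _ (filter_subset (fun C => C.card = 1) F)
    (fun v => r - f v)
  have hUc : ((F.filter fun C => C.card = 1).biUnion id).card =
      (F.filter fun C => C.card = 1).card := by
    rw [ForceLem.card_biUnion hB _ (filter_subset _ F),
      Finset.sum_congr rfl (fun C hC => (mem_filter.mp hC).2)]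
    simp
  have hUv : ∀ v ∈ (F.filter fun C => C.card = 1).biUnion id, f v ≤ S.card := by
    intro v hv
    rw [mem_biUnion] at hv
    obtain ⟨C, hC, hvC⟩ := hv
    rw [mem_filter] at hC
    have := hB.vert hC.1 hvC
    omega
  set U := (F.filter fun C => C.card = 1).biUnion id with hU
  rw [← hUs] at hY1 hYX
  have hthree : 0 < (F.filter fun C => C.card = 1).card → 3 ≤ S.card := by
    intro h
    obtain ⟨C, hC⟩ := Finset.card_pos.mp h
    rw [mem_filter] at hC
    exact ForceLem.single_three hB h3 hC.1 hC.2
  rw [← hUc] at hm hsize hY1 hthree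
  obtain ⟨b, hb⟩ := hro
  generalize hmm : (F.filter fun C => C.card = r).card = m at hm hsize
  rcases Nat.lt_or_ge 1 m with h2 | h2
  · -- at least two components of size `r`
    have : 2 * (r - 1) ≤ m * (r - 1) := Nat.mul_le_mul_right _ h2
    have h4 : m * r = m * (r - 1) + m := by
      conv_lhs => rw [show r = (r - 1) + 1 by omega]
      ring
    omega
  · interval_cases m
    · -- no component of size `r`
      have hUn : U.card = S.card + 1 := by omega
      have hs3 := hthree (by omega)
      rw [hUn] at hY1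
      push_cast at hY1
      have hYX' : ((∑ v ∈ U, (r - f v) : ℕ) : ℤ) + 2 ≤ 2 * r := by exact_mod_cast hYX
      have hsr : S.card + 1 ≤ r := by omega
      rcases Nat.lt_or_ge (S.card + 2) r with h5 | h5
      · -- `s ≤ r - 3`
        have h6 : (0 : ℤ) ≤ ((S.card : ℤ) - 3) * ((r : ℤ) - 3 - S.card) :=
          mul_nonneg (by omega) (by omega)
        push_cast at hYX'
        nlinarith
      · rcases Nat.lt_or_ge (S.card + 1) r with h6 | h6
        · -- `s = r - 2`
          have hsr2 : S.card + 2 = r := by omega
          have hUge : 2 * U.card ≤ ∑ v ∈ U, (r - f v) := by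
            rw [mul_comm, ← smul_eq_mul]
            refine Finset.card_nsmul_le_sum _ _ _ fun v hv => ?_
            have := hUv v hv
            omega
          have hUeq : ∀ v ∈ U, f v + 2 = r := by
            intro v hv
            by_contra hne
            have h7 := hUv v hv
            have h8 : ∑ w ∈ U, 2 < ∑ w ∈ U, (r - f w) :=
              Finset.sum_lt_sum (fun w hw => by have := hUv w hw; omega) ⟨v, hv, by omega⟩
            simp only [sum_const, smul_eq_mul] at h8
            omega
          have h9 := ForceLem.card_filter_eq f r (r - 2) (by omega) hXY U (by omega)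
            (fun v hv => by have := hUeq v hv; omega)
          have h10 : (univ.filter fun v => f v + 2 = r) = univ.filter fun v => f v = r - 2 := by
            refine Finset.filter_congr fun v _ => ?_
            constructor
            · intro h; omega
            · intro h; omega
          refine hF (by omega) ?_
          rw [h10, h9]
          omega
        · -- `s = r - 1`
          have hUge : 2 * U.card ≤ ∑ v ∈ U, (r - f v) := by
            rw [mul_comm, ← smul_eq_mul]
            refine Finset.card_nsmul_le_sum _ _ _ fun v hv => ?_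
            have := hUv v hv
            obtain ⟨c, hc⟩ := hodd v
            omega
          omega
    · -- one component of size `r`
      have hUn : U.card = S.card := by omega
      have hs3 := hthree (by omega)
      rw [hUn] at hY1
      push_cast at hY1
      have hYX' : ((∑ v ∈ U, (r - f v) : ℕ) : ℤ) + 2 ≤ 2 * r := by exact_mod_cast hYX
      push_cast at hYX'
      have h2s : 2 * S.card + 1 ≤ r := by omega
      have h6 : (0 : ℤ) ≤ ((S.card : ℤ) - 3) * ((r : ℤ) - 3 - S.card) :=
        mul_nonneg (by omega) (by omega)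
      have hr7 : r ≤ 7 := by
        have : (r : ℤ) ≤ 7 := by nlinarith
        exact_mod_cast this
      have hr7' : r = 7 := by omega
      have hs3' : S.card = 3 := by omega
      have hUeq : ∀ v ∈ U, f v = 3 := by
        intro v hv
        have := hUv v hv
        have := h3 v
        omega
      refine hS hr7' (by omega) ?_
      rw [ForceLem.card_filter_eq f r 3 (by omega) hXY U ?_ hUeq]
      · omega
      · rw [Finset.sum_congr rfl (fun v hv => by rw [hUeq v hv])]
        simp only [sum_const, smul_eq_mul]
        rw [hUn, hs3', hr7']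

/-- Case of two large components. -/
theorem ForceA.large_two (r : ℕ) (hr : 3 ≤ r) (hro : Odd r) (hodd : ∀ v, Odd (f v))
    (h3 : ∀ v, 3 ≤ f v)
    (hXY : ∑ v, (f v - r) + ∑ v, (r - f v) + 2 ≤ 2 * r)
    (hcard : Fintype.card V ≤ 3 * r + 1)
    (hS : r = 7 → 22 ≤ Fintype.card V → (univ.filter fun v => f v = 3).card ≠ 3)
    (hB : Barrier f G S F) (hl : (F.filter fun C => ¬ C.card ≤ r).card = 2) : False := by
  have hs1 := ForceLem.one_le hB hodd
  have hsplit := ForceLem.card_split hB r
  rw [hl] at hsplit
  have hk : (F.filter fun C => C.card ≤ r).card = S.card := by omega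
  have hsize := ForceLem.size hB hro
  rw [hl] at hsize
  have hY2 := ForceLem.sum_fam_le hB _ (filter_subset (fun C => C.card ≤ r) F) (fun v => r - f v)
  have hYX : ∑ C ∈ F.filter (fun C => C.card ≤ r), ∑ v ∈ C, (r - f v) + 2 ≤ 2 * r := by omega
  have hYX' : ∑ C ∈ F.filter (fun C => C.card ≤ r), ((∑ v ∈ C, (r - f v) : ℕ) : ℤ) + 2 ≤
      2 * r := by exact_mod_cast hYX
  have hone : ∀ C ∈ F.filter (fun C => C.card ≤ r), 1 ≤ C.card := fun C hC =>
    ForceLem.card_pos hB (mem_filter.mp hC).1
  have hthree : S.card < 3 → ∀ C ∈ F.filter (fun C => C.card ≤ r), 3 ≤ C.card := by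
    intro h C hC
    obtain ⟨a, ha⟩ := hB.odd C (mem_filter.mp hC).1
    by_contra h4
    have h5 : C.card = 1 := by omega
    have := ForceLem.single_three hB h3 (mem_filter.mp hC).1 h5
    omega
  rcases Nat.lt_or_ge S.card 3 with hs3 | hs3
  · have h3' := hthree hs3
    rcases Nat.lt_or_ge 1 S.card with hs2 | hs2
    · -- `s = 2`
      have hs : S.card = 2 := by omega
      have hbd : ∀ C ∈ F.filter (fun C => C.card ≤ r), (3 : ℤ) * ((r : ℤ) - 4) ≤
          ((∑ v ∈ C, (r - f v) : ℕ) : ℤ) := by
        intro C hC
        have h4 := ForceLem.card_add_le _ 3 h3' hC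
        rw [hk, hs] at h4
        rw [hs] at hsize
        have h5 := hB.defic r (mem_filter.mp hC).1
        have h6 := h3' C hC
        rw [hs] at h5
        have h7 : (C.card : ℤ) + 8 ≤ r := by omega
        have h8 : (0 : ℤ) ≤ ((C.card : ℤ) - 3) * ((r : ℤ) - 4 - C.card) :=
          mul_nonneg (by omega) (by omega)
        push_cast at h5 ⊢
        nlinarith
      have h9 := Finset.card_nsmul_le_sum _ _ _ hbd
      rw [hk, hs] at h9
      have h10 := Finset.card_nsmul_le_sum _ (fun C : Finset V => C.card) 3 h3'
      rw [hk, hs] at h10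
      simp only [smul_eq_mul, nsmul_eq_mul] at h9 h10
      push_cast at h9
      push_cast at hYX'
      have h11 : (11 : ℤ) ≤ r := by omega
      linarith
    · -- `s = 1`
      have hs : S.card = 1 := by omega
      rw [hs] at hk
      obtain ⟨C, hC⟩ := Finset.card_eq_one.mp hk
      have hCm : C ∈ F.filter (fun C => C.card ≤ r) := by rw [hC]; exact mem_singleton_self C
      rw [hC, sum_singleton] at hYX hsize
      have h5 := hB.defic r (mem_filter.mp hCm).1
      have h6 := h3' C hCm
      rw [hs] at h5
      have h7 : (C.card : ℤ) + 4 ≤ r := by omega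
      have h8 : (0 : ℤ) ≤ ((C.card : ℤ) - 3) * ((r : ℤ) - 4 - C.card) :=
        mul_nonneg (by omega) (by omega)
      have hYX2 : ((∑ v ∈ C, (r - f v) : ℕ) : ℤ) + 2 ≤ 2 * r := by exact_mod_cast hYX
      push_cast at h5 hYX2
      have hr7 : r ≤ 7 := by
        have : (r : ℤ) ≤ 7 := by nlinarith
        exact_mod_cast this
      obtain ⟨a, ha⟩ := hB.odd C (mem_filter.mp hCm).1
      have hC3 : C.card = 3 := by omega
      have hr7' : r = 7 := by omega
      have hUeq : ∀ v ∈ C, f v = 3 := by
        intro v hv
        have := hB.vert (mem_filter.mp hCm).1 hv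
        have := h3 v
        omega
      refine hS hr7' (by omega) ?_
      rw [ForceLem.card_filter_eq f r 3 (by omega) hXY C ?_ hUeq]
      · exact hC3
      · rw [Finset.sum_congr rfl (fun v hv => by rw [hUeq v hv])]
        simp only [sum_const, smul_eq_mul]
        rw [hC3, hr7']
  · -- `s ≥ 3`
    have hbd : ∀ C ∈ F.filter (fun C => C.card ≤ r), (r : ℤ) - S.card ≤
        ((∑ v ∈ C, (r - f v) : ℕ) : ℤ) := by
      intro C hC
      have h4 := ForceLem.card_add_le _ 1 hone hC
      rw [hk] at h4
      have h5 := hB.defic r (mem_filter.mp hC).1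
      have h6 := hone C hC
      have h8 : (0 : ℤ) ≤ ((C.card : ℤ) - 1) * ((r : ℤ) - S.card - C.card) :=
        mul_nonneg (by omega) (by omega)
      push_cast at h5 ⊢
      nlinarith
    have h9 := Finset.card_nsmul_le_sum _ _ _ hbd
    rw [hk] at h9
    have h10 := Finset.card_nsmul_le_sum _ (fun C : Finset V => C.card) 1 hone
    rw [hk] at h10
    simp only [smul_eq_mul, nsmul_eq_mul] at h9 h10
    have h11 : 2 * S.card + 3 ≤ r := by omega
    have h12 : (0 : ℤ) ≤ ((S.card : ℤ) - 3) * ((r : ℤ) - 3 - S.card) :=
        mul_nonneg (by omega) (by omega)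
    have h13 : 2 * (S.card : ℤ) + 3 ≤ r := by exact_mod_cast h11
    have h14 : (3 : ℤ) ≤ S.card := by exact_mod_cast hs3
    nlinarith

end

/-- M62-9. Case `n ≤ 3r+1`. -/
theorem force_small (f : V → ℕ) (r : ℕ) (hr : 3 ≤ r) (hro : Odd r) (hodd : ∀ v, Odd (f v))
    (h3 : ∀ v, 3 ≤ f v) (hn : Even (Fintype.card V))
    (hXY : ∑ v, (f v - r) + ∑ v, (r - f v) + 2 ≤ 2 * r)
    (hcard : Fintype.card V ≤ 3 * r + 1)
    (hF : 3 * r ≤ Fintype.card V + 1 → (univ.filter fun v => f v + 2 = r).card + 1 ≠ r)
    (hS : r = 7 → 22 ≤ Fintype.card V → (univ.filter fun v => f v = 3).card ≠ 3)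
    (G : SimpleGraph V) (S : Finset V) (F : Finset (Finset V)) (hB : Barrier f G S F) : False := by
  have hs1 := ForceLem.one_le hB hodd
  have hsplit := ForceLem.card_split hB r
  have hsize := ForceLem.size hB hro
  have hstar := ForceLem.star_le hB hodd hXY
  have hnn : (0 : ℤ) ≤
      ∑ C ∈ F.filter (fun C => C.card ≤ r), ((C.card : ℤ) - 1) * ((r : ℤ) - C.card) :=
    Finset.sum_nonneg fun C hC => ForceLem.term_nonneg hB r hC
  rcases Nat.lt_or_ge 2 (F.filter fun C => ¬ C.card ≤ r).card with h | h
  · have : 3 * (r + 2) ≤ (F.filter fun C => ¬ C.card ≤ r).card * (r + 2) :=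
      Nat.mul_le_mul_right _ h
    omega
  · generalize hL : (F.filter fun C => ¬ C.card ≤ r).card = l at *
    interval_cases l
    · exfalso
      have hk : (((F.filter fun C => C.card ≤ r).card : ℤ) - S.card) = 2 := by omega
      rw [hk] at hstar
      push_cast at hstar
      omega
    · exact ForceA.large_one r hr hro hodd h3 hXY hcard hF hS hB hL
    · exact ForceA.large_two r hr hro hodd h3 hXY hcard hS hB hL

end Pool.Agent.MP_6e0dc6_co
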