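import Pool.Agent.Lib.MP_6e0dc6_co.ForceLem

/-!
Barriers for `3r+3 ≤ n ≤ 4r`.
-/

namespace Pool.Agent.MP_6e0dc6_co

open Finset

variable {V : Type*} [Fintype V] [DecidableEq V]

/-- The number of edges between `u` and a component of size `r`. -/
theorem ForceB.edges_ge {f : V → ℕ} {G : SimpleGraph V} {S : Finset V} {F : Finset (Finset V)}
    (hB : Barrier f G S F) (r : ℕ) (hro : Odd r) (hodd : ∀ v, Odd (f v))
    (hS1 : S.card = 1) {C : Finset V} (hC : C ∈ F) (hCr : C.card = r) :
    2 * r ≤ 2 * ∑ v ∈ C, Forcing.nb G v S + ∑ v ∈ C, (r - f v) := by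
  have h1 : ∑ v ∈ C, 2 ≤ ∑ v ∈ C, (2 * Forcing.nb G v S + (r - f v)) := by
    refine Finset.sum_le_sum fun v hv => ?_
    have h2 : Forcing.nb G v C + Forcing.nb G v S = f v := by
      rw [← Forcing.nb_union G v (hB.disjS C hC), Forcing.nb_eq_of, hB.deg]
      intro w hw
      rw [mem_union]
      exact hB.nb C hC v hv w hw
    have h3 := Forcing.nb_lt G v hv
    obtain ⟨a, ha⟩ := hodd v
    obtain ⟨b, hb⟩ := hro
    omega
  rw [Finset.sum_add_distrib, ← Finset.mul_sum] at h1
  simp only [sum_const, smul_eq_mul] at h1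
  omega

/-- M62-10a. One large component. -/
theorem force_one (f : V → ℕ) (r D : ℕ) (hr : 3 ≤ r) (hro : Odd r) (hodd : ∀ v, Odd (f v))
    (h3 : ∀ v, 3 ≤ f v) (hn : Even (Fintype.card V))
    (hD : ∀ v, f v ≤ D) (hDn : 2 * D + 6 ≤ Fintype.card V)
    (hXY : ∑ v, (f v - r) + ∑ v, (r - f v) + 2 ≤ 2 * r)
    (hcard : 3 * r + 3 ≤ Fintype.card V) (hcard' : Fintype.card V ≤ 4 * r)
    (hdc : ∑ v, min (f v - r) ((Fintype.card V - 3 * r - 1) / 2) + ∑ v, (r - f v) < r)
    (hx : 3 * r + 5 ≤ Fintype.card V → ∃ u v, u ≠ v ∧ f v ≤ f u ∧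
      Fintype.card V - 2 * r - 3 ≤ f v)
    (G : SimpleGraph V) (S : Finset V) (F : Finset (Finset V)) (hB : Barrier f G S F)
    (hl : (F.filter fun C => ¬ C.card ≤ r).card = 1) : False := by
  have hs1 := ForceLem.one_le hB hodd
  have hsplit := ForceLem.card_split hB r
  rw [hl] at hsplit
  have hk : (F.filter fun C => C.card ≤ r).card = S.card + 1 := by omega
  have hsize := ForceLem.size hB hro
  rw [hl] at hsize
  obtain ⟨hm, hsum⟩ := ForceLem.split_small hr
    (fun C hC => ForceLem.one_or_r hB hr hro hodd hXY hl.ge hk hC)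
  rw [hsum] at hsize
  rw [hk] at hm
  have hY1 := ForceLem.defic_single hB r
  have hY2 := ForceLem.sum_fam_le hB _ (filter_subset (fun C => C.card = 1) F) (fun v => r - f v)
  have hYX : ∑ C ∈ F.filter (fun C => C.card = 1), ∑ v ∈ C, (r - f v) < r := by omega
  have hUs := ForceLem.sum_biUnion hB _ (filter_subset (fun C => C.card = 1) F)
    (fun v => r - f v)
  have hUc : ((F.filter fun C => C.card = 1).biUnion id).card =
      (F.filter fun C => C.card = 1).card := by
    rw [ForceLem.card_biUnion hB _ (filter_subset _ F),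
      Finset.sum_congr rfl (fun C hC => (mem_filter.mp hC).2)]
    simp
  have hUv : ∀ v ∈ (F.filter fun C => C.card = 1).biUnion id, f v ≤ S.card := by
    intro v hv
    rw [mem_biUnion] at hv
    obtain ⟨C, hC, hvC⟩ := hv
    rw [mem_filter] at hC
    have := hB.vert hC.1 hvC
    omega
  set U := (F.filter fun C => C.card = 1).biUnion id with hU
  rw [← hUs] at hY1 hYX
  have hthree : 0 < (F.filter fun C => C.card = 1).card → 3 ≤ S.card := by
    intro h
    obtain ⟨C, hC⟩ := Finset.card_pos.mp h
    rw [mem_filter] at hC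
    exact ForceLem.single_three hB h3 hC.1 hC.2
  have hsing := hB.single r
  rw [← hUc] at hm hsize hY1 hthree hsing
  obtain ⟨b, hb⟩ := hro
  have hYX' : ((∑ v ∈ U, (r - f v) : ℕ) : ℤ) < r := by exact_mod_cast hYX
  generalize hmm : (F.filter fun C => C.card = r).card = m at hm hsize
  rcases Nat.lt_or_ge 2 m with h2 | h2
  · -- at least three components of size `r`
    have : 3 * (r - 1) ≤ m * (r - 1) := Nat.mul_le_mul_right _ h2
    have h4 : m * r = m * (r - 1) + m := by
      conv_lhs => rw [show r = (r - 1) + 1 by omega]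
      ring
    omega
  · interval_cases m
    · -- no component of size `r`
      have hUn : U.card = S.card + 1 := by omega
      rcases Nat.lt_or_ge S.card r with h5 | h5
      · rw [hUn] at hY1
        push_cast at hY1 hYX'
        have h6 : (0 : ℤ) ≤ (S.card : ℤ) * ((r : ℤ) - 1 - S.card) :=
          mul_nonneg (by omega) (by omega)
        nlinarith
      · have h6 := hsing h5 hUn
        have h7 : ∑ v, min (f v - r) (S.card + 1 - r) ≤
            ∑ v, min (f v - r) ((Fintype.card V - 3 * r - 1) / 2) := by
          refine Finset.sum_le_sum fun v _ => ?_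
          have : S.card + 1 - r ≤ (Fintype.card V - 3 * r - 1) / 2 := by omega
          exact min_le_min_left _ this
        omega
    · -- one component of size `r`
      have hUn : U.card = S.card := by omega
      have hs3 := hthree (by omega)
      rw [hUn] at hY1
      have hsr : S.card + 1 ≤ r := by omega
      rcases Nat.lt_or_ge (S.card + 1) r with h5 | h5
      · push_cast at hY1 hYX'
        have h6 : (0 : ℤ) ≤ ((S.card : ℤ) - 2) * ((r : ℤ) - 2 - S.card) :=
          mul_nonneg (by omega) (by omega)
        nlinarith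
      · have hUge : 2 * U.card ≤ ∑ v ∈ U, (r - f v) := by
          rw [mul_comm, ← smul_eq_mul]
          refine Finset.card_nsmul_le_sum _ _ _ fun v hv => ?_
          have := hUv v hv
          obtain ⟨c, hc⟩ := hodd v
          omega
        omega
    · -- two components of size `r`
      have hUn : U.card + 1 = S.card := by omega
      rcases Nat.lt_or_ge 1 S.card with h1 | h1
      · have hs3 := hthree (by omega)
        have h2s : 2 * S.card + 1 ≤ r := by omega
        have hUn' : (U.card : ℤ) = S.card - 1 := by omega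
        rw [hUn'] at hY1
        push_cast at hY1 hYX'
        have h6 : (0 : ℤ) ≤ ((S.card : ℤ) - 3) * ((r : ℤ) - S.card) :=
          mul_nonneg (by omega) (by omega)
        have h7 : 2 * (S.card : ℤ) + 1 ≤ r := by exact_mod_cast h2s
        nlinarith
      · have hS1 : S.card = 1 := by omega
        obtain ⟨C, C', hne, hCC⟩ := Finset.card_eq_two.mp hmm
        have hCm : C ∈ F.filter (fun C => C.card = r) := by rw [hCC]; simp
        have hCm' : C' ∈ F.filter (fun C => C.card = r) := by rw [hCC]; simp
        obtain ⟨L, hL⟩ := Finset.card_eq_one.mp hl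
        have hLm : L ∈ F.filter (fun C => ¬ C.card ≤ r) := by rw [hL]; simp
        rw [mem_filter] at hCm hCm' hLm
        have e1 := ForceB.edges_ge hB r ⟨b, hb⟩ hodd hS1 hCm.1 hCm.2
        have e2 := ForceB.edges_ge hB r ⟨b, hb⟩ hodd hS1 hCm'.1 hCm'.2
        have e3 := (hB.edges_odd hodd hLm.1).pos
        have hLC : L ≠ C := by rintro rfl; exact hLm.2 hCm.2.le
        have hLC' : L ≠ C' := by rintro rfl; exact hLm.2 hCm'.2.le
        have hsub : ({C, C', L} : Finset (Finset V)) ⊆ F := by
          intro x hx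
          simp only [mem_insert, mem_singleton] at hx
          rcases hx with rfl | rfl | rfl
          · exact hCm.1
          · exact hCm'.1
          · exact hLm.1
        have hsum3 : ∀ g : Finset V → ℕ, ∑ X ∈ ({C, C', L} : Finset (Finset V)), g X =
            g C + (g C' + g L) := by
          intro g
          rw [sum_insert, sum_insert, sum_singleton]
          · simp [hLC'.symm]
          · simp [hne, hLC.symm]
        have e4 : ∑ v ∈ C, Forcing.nb G v S + (∑ v ∈ C', Forcing.nb G v S +
            ∑ v ∈ L, Forcing.nb G v S) ≤ ∑ v ∈ S, f v := by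
          refine le_trans ?_ hB.edges_sum
          rw [← hsum3 fun X => ∑ v ∈ X, Forcing.nb G v S]
          exact Finset.sum_le_sum_of_subset hsub
        have e5 := ForceLem.sum_fam_le hB _ hsub (fun v => r - f v)
        rw [hsum3] at e5
        have e6 : ∑ v ∈ S, f v ≤ D := by
          obtain ⟨u, hu⟩ := Finset.card_eq_one.mp hS1
          rw [hu, sum_singleton]
          exact hD u
        -- now `n + Y ≥ 4r + 8`
        have e7 : 4 * r + 8 ≤ Fintype.card V + ∑ v, (r - f v) := by omega
        obtain ⟨c, hc⟩ := hn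
        have hn5 : 3 * r + 5 ≤ Fintype.card V := by omega
        obtain ⟨u, v, huv, hfuv, hv⟩ := hx hn5
        have e8 : ∑ w ∈ ({u, v} : Finset V), min (f w - r) ((Fintype.card V - 3 * r - 1) / 2) ≤
            ∑ w, min (f w - r) ((Fintype.card V - 3 * r - 1) / 2) :=
          Finset.sum_le_sum_of_subset (subset_univ _)
        rw [Finset.sum_pair huv, min_eq_right (by omega), min_eq_right (by omega)] at e8
        omega

section
variable {f : V → ℕ} {G : SimpleGraph V} {S : Finset V} {F : Finset (Finset V)}

/-- deficiency of a component as an integer inequality in `c`, `s` and `r` -/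
theorem ForceB.defic_small (hB : Barrier f G S F) (r : ℕ) (hY : ∑ v, (r - f v) < r)
    {C : Finset V} (hC : C ∈ F) :
    (C.card : ℤ) * ((r : ℤ) + 1 - C.card - S.card) < r := by
  have h1 := hB.defic r hC
  have h2 := ForceLem.sum_fam_le hB {C} (by simpa using hC) (fun v => r - f v)
  rw [sum_singleton] at h2
  have h3 : ∑ v ∈ C, (r - f v) < r := by omega
  have h4 : ((∑ v ∈ C, (r - f v) : ℕ) : ℤ) < r := by exact_mod_cast h3
  omega

/-- deficiency of a subfamily -/
theorem ForceB.defic_fam (hB : Barrier f G S F) (r : ℕ) (hY : ∑ v, (r - f v) < r)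
    (T : Finset (Finset V)) (hT : T ⊆ F)
    (h : ∀ C ∈ T, C.card + S.card ≤ r) :
    (T.card : ℤ) * ((r : ℤ) - S.card) < r := by
  have h2 := ForceLem.sum_fam_le hB T hT (fun v => r - f v)
  have h3 : ∑ C ∈ T, ∑ v ∈ C, (r - f v) < r := by omega
  have h4 : ((∑ C ∈ T, ∑ v ∈ C, (r - f v) : ℕ) : ℤ) < r := by exact_mod_cast h3
  refine lt_of_le_of_lt ?_ h4
  rw [Nat.cast_sum, ← nsmul_eq_mul]
  refine Finset.card_nsmul_le_sum _ _ _ fun C hC => ?_
  have h5 := hB.defic r (hT hC)
  have h6 := ForceLem.card_pos hB (hT hC)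
  have h7 := h C hC
  have h8 : (0 : ℤ) ≤ ((C.card : ℤ) - 1) * ((r : ℤ) - S.card - C.card) :=
    mul_nonneg (by omega) (by omega)
  nlinarith

end

/-- M62-10b. Two large components: only the cut vertex template remains. -/
theorem force_two (f : V → ℕ) (r : ℕ) (hr : 3 ≤ r) (hro : Odd r) (hodd : ∀ v, Odd (f v))
    (h3 : ∀ v, 3 ≤ f v) (hn : Even (Fintype.card V))
    (hcard : 3 * r + 3 ≤ Fintype.card V) (hcard' : Fintype.card V ≤ 4 * r)
    (hY : ∑ v, (r - f v) < r)
    (G : SimpleGraph V) (S : Finset V) (F : Finset (Finset V)) (hB : Barrier f G S F)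
    (hl : (F.filter fun C => ¬ C.card ≤ r).card = 2) :
    S.card = 1 ∧ ∃ C ∈ F, C.card = r := by
  have hs1 := ForceLem.one_le hB hodd
  have hsplit := ForceLem.card_split hB r
  rw [hl] at hsplit
  have hk : (F.filter fun C => C.card ≤ r).card = S.card := by omega
  have hsize := ForceLem.size hB hro
  rw [hl] at hsize
  have hone : ∀ C ∈ F.filter (fun C => C.card ≤ r), 1 ≤ C.card := fun C hC =>
    ForceLem.card_pos hB (mem_filter.mp hC).1
  have hthree : S.card < 3 → ∀ C ∈ F.filter (fun C => C.card ≤ r), 3 ≤ C.card := by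
    intro h C hC
    obtain ⟨a, ha⟩ := hB.odd C (mem_filter.mp hC).1
    by_contra h4
    have h5 : C.card = 1 := by omega
    have := ForceLem.single_three hB h3 (mem_filter.mp hC).1 h5
    omega
  obtain ⟨b, hb⟩ := hro
  rcases Nat.lt_or_ge 1 S.card with hs2 | hs2
  · -- `s ≥ 2`: contradiction
    exfalso
    have h10 := Finset.card_nsmul_le_sum _ (fun C : Finset V => C.card) 1 hone
    rw [hk] at h10
    simp only [smul_eq_mul] at h10
    have hsr : S.card + 2 ≤ r := by omega
    by_cases hbig : ∀ C ∈ F.filter (fun C => C.card ≤ r), C.card + S.card ≤ r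
    · -- all small components satisfy `s + c ≤ r`
      have h11 := ForceB.defic_fam hB r hY _ (filter_subset _ F) hbig
      rw [hk] at h11
      have h12 : (0 : ℤ) ≤ ((S.card : ℤ) - 2) * ((r : ℤ) - 2 - S.card) :=
        mul_nonneg (by omega) (by omega)
      have h13 : (S.card : ℤ) + 2 ≤ r := by exact_mod_cast hsr
      nlinarith
    · push Not at hbig
      obtain ⟨C, hC, hCs⟩ := hbig
      -- the other components
      have h20 := Finset.add_sum_erase _ (fun C : Finset V => C.card) hC
      have h21 : ((F.filter fun C => C.card ≤ r).erase C).card + 1 = S.card := by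
        rw [← hk]; exact card_erase_add_one hC
      have h22 : ∀ D ∈ (F.filter fun C => C.card ≤ r).erase C, D.card + S.card + 3 ≤ r := by
        intro D hD
        have h23 := ForceLem.card_add_le _ 1 (fun E hE => hone E (mem_of_mem_erase hE)) hD
        omega
      have h24 := ForceB.defic_fam hB r hY ((F.filter fun C => C.card ≤ r).erase C)
        ((erase_subset _ _).trans (filter_subset _ F)) (fun D hD => by have := h22 D hD; omega)
      have h25 : (((F.filter fun C => C.card ≤ r).erase C).card : ℤ) = S.card - 1 := by omega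
      rw [h25] at h24
      rcases Nat.lt_or_ge 2 S.card with hs3 | hs3
      · -- `s ≥ 3`
        have h26 : ((F.filter fun C => C.card ≤ r).erase C).card * 1 ≤
            ∑ D ∈ (F.filter fun C => C.card ≤ r).erase C, D.card := by
          have := Finset.card_nsmul_le_sum ((F.filter fun C => C.card ≤ r).erase C)
            (fun C : Finset V => C.card) 1 (fun E hE => hone E (mem_of_mem_erase hE))
          simpa using this
        have h27 : S.card + 4 ≤ r := by omega
        have h28 : (0 : ℤ) ≤ ((S.card : ℤ) - 3) * ((r : ℤ) - 4 - S.card) :=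
          mul_nonneg (by omega) (by omega)
        have h29 : (S.card : ℤ) + 4 ≤ r := by exact_mod_cast h27
        have h30 : (3 : ℤ) ≤ S.card := by exact_mod_cast hs3
        nlinarith
      · -- `s = 2`
        have hs : S.card = 2 := by omega
        have h3' := hthree (by omega)
        obtain ⟨D, hD⟩ : ∃ D, (F.filter fun C => C.card ≤ r).erase C = {D} :=
          Finset.card_eq_one.mp (by omega)
        have hDm : D ∈ (F.filter fun C => C.card ≤ r).erase C := by rw [hD]; simp
        rw [hD, sum_singleton] at h20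
        have h26 := h3' D (mem_of_mem_erase hDm)
        have h27 := h3' C hC
        have hCr := (mem_filter.mp hC).2
        obtain ⟨a, ha⟩ := hB.odd C (mem_filter.mp hC).1
        have hCr' : C.card = r := by omega
        have h28 : D.card + 6 ≤ r := by omega
        have h29 := ForceB.defic_small hB r hY (mem_filter.mp (mem_of_mem_erase hDm)).1
        rw [hs] at h29
        push_cast at h29
        have h30 : (0 : ℤ) ≤ ((D.card : ℤ) - 3) * ((r : ℤ) - 6 - D.card) :=
          mul_nonneg (by omega) (by omega)
        have h31 : (D.card : ℤ) + 6 ≤ r := by exact_mod_cast h28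
        have h32 : (3 : ℤ) ≤ D.card := by exact_mod_cast h26
        nlinarith
  · -- `s = 1`
    have hs : S.card = 1 := by omega
    refine ⟨hs, ?_⟩
    have h3' := hthree (by omega)
    rw [hs] at hk
    obtain ⟨C, hC⟩ := Finset.card_eq_one.mp hk
    have hCm : C ∈ F.filter (fun C => C.card ≤ r) := by rw [hC]; exact mem_singleton_self C
    refine ⟨C, (mem_filter.mp hCm).1, ?_⟩
    by_contra hne
    have hCr := (mem_filter.mp hCm).2
    obtain ⟨a, ha⟩ := hB.odd C (mem_filter.mp hCm).1
    have h6 := h3' C hCm
    have h5 := ForceB.defic_small hB r hY (mem_filter.mp hCm).1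
    rw [hs] at h5
    push_cast at h5
    have h7 : C.card + 2 ≤ r := by omega
    have h8 : (0 : ℤ) ≤ ((C.card : ℤ) - 3) * ((r : ℤ) - 2 - C.card) :=
      mul_nonneg (by omega) (by omega)
    have h9 : (C.card : ℤ) + 2 ≤ r := by exact_mod_cast h7
    have h10 : (3 : ℤ) ≤ C.card := by exact_mod_cast h6
    nlinarith

/-- M62-10c. At least three large components. -/
theorem force_three (f : V → ℕ) (r : ℕ) (hr : 3 ≤ r) (hro : Odd r) (hodd : ∀ v, Odd (f v))
    (h3 : ∀ v, 3 ≤ f v) (hn : Even (Fintype.card V))
    (hcard : 3 * r + 3 ≤ Fintype.card V) (hcard' : Fintype.card V ≤ 4 * r)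
    (hY : ∑ v, (r - f v) < r)
    (hx : 3 * r + 5 ≤ Fintype.card V → ∃ u v, u ≠ v ∧ f v ≤ f u ∧
      Fintype.card V - 2 * r - 3 ≤ f v)
    (G : SimpleGraph V) (S : Finset V) (F : Finset (Finset V)) (hB : Barrier f G S F)
    (hl : 3 ≤ (F.filter fun C => ¬ C.card ≤ r).card) : False := by
  have hs1 := ForceLem.one_le hB hodd
  have hsplit := ForceLem.card_split hB r
  have hsize := ForceLem.size hB hro
  have hone : ∀ C ∈ F.filter (fun C => C.card ≤ r), 1 ≤ C.card := fun C hC =>
    ForceLem.card_pos hB (mem_filter.mp hC).1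
  rcases Nat.lt_or_ge 3 (F.filter fun C => ¬ C.card ≤ r).card with hl4 | hl4
  · have : 4 * (r + 2) ≤ (F.filter fun C => ¬ C.card ≤ r).card * (r + 2) :=
      Nat.mul_le_mul_right _ hl4
    omega
  have hl3 : (F.filter fun C => ¬ C.card ≤ r).card = 3 := by omega
  rw [hl3] at hsplit hsize
  have hk : (F.filter fun C => C.card ≤ r).card + 1 = S.card := by omega
  have h10 := Finset.card_nsmul_le_sum _ (fun C : Finset V => C.card) 1 hone
  simp only [smul_eq_mul] at h10
  rcases Nat.lt_or_ge 1 S.card with hs2 | hs2
  · have h22 : ∀ D ∈ F.filter (fun C => C.card ≤ r), D.card + S.card ≤ r := by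
      intro D hD
      have h23 := ForceLem.card_add_le _ 1 hone hD
      omega
    have h24 := ForceB.defic_fam hB r hY _ (filter_subset _ F) h22
    have h25 : ((F.filter fun C => C.card ≤ r).card : ℤ) = S.card - 1 := by omega
    rw [h25] at h24
    rcases Nat.lt_or_ge 2 S.card with hs3 | hs3
    · have h26 : 2 * S.card + 5 ≤ r := by omega
      have h28 : (0 : ℤ) ≤ ((S.card : ℤ) - 3) * ((r : ℤ) - S.card) :=
        mul_nonneg (by omega) (by omega)
      have h29 : 2 * (S.card : ℤ) + 5 ≤ r := by exact_mod_cast h26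
      have h30 : (3 : ℤ) ≤ S.card := by exact_mod_cast hs3
      nlinarith
    · have hs : S.card = 2 := by omega
      obtain ⟨D, hD⟩ : ∃ D, (F.filter fun C => C.card ≤ r) = {D} :=
        Finset.card_eq_one.mp (by omega)
      have hDm : D ∈ F.filter fun C => C.card ≤ r := by rw [hD]; simp
      rw [hD, sum_singleton] at hsize
      obtain ⟨a, ha⟩ := hB.odd D (mem_filter.mp hDm).1
      have h26 : 3 ≤ D.card := by
        by_contra h4
        have h5 : D.card = 1 := by omega
        have := ForceLem.single_three hB h3 (mem_filter.mp hDm).1 h5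
        omega
      have h28 : D.card + 8 ≤ r := by omega
      have h29 := ForceB.defic_small hB r hY (mem_filter.mp hDm).1
      rw [hs] at h29
      push_cast at h29
      have h30 : (0 : ℤ) ≤ ((D.card : ℤ) - 3) * ((r : ℤ) - 8 - D.card) :=
        mul_nonneg (by omega) (by omega)
      have h31 : (D.card : ℤ) + 8 ≤ r := by exact_mod_cast h28
      have h32 : (3 : ℤ) ≤ D.card := by exact_mod_cast h26
      nlinarith
  · -- `s = 1`: there is no small component
    have hs : S.card = 1 := by omega
    have hn7 : 3 * r + 7 ≤ Fintype.card V := by omega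
    obtain ⟨u', v', huv, hfuv, hv⟩ := hx (by omega)
    obtain ⟨w, hw1, hw2⟩ : ∃ w, w ∉ S ∧ Fintype.card V - 2 * r - 3 ≤ f w := by
      obtain ⟨s0, hs0⟩ := Finset.card_eq_one.mp hs
      by_cases h : v' = s0
      · refine ⟨u', ?_, le_trans hv hfuv⟩
        rw [hs0, mem_singleton]
        rintro rfl
        exact huv h.symm
      · exact ⟨v', by rw [hs0, mem_singleton]; exact h, hv⟩
    have hF3 : F.card = 3 := by rw [hB.card, hs]
    have hsm : F.filter (fun C => C.card ≤ r) = ∅ := by
      rw [← Finset.card_eq_zero]; omega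
    have hall : ∀ C ∈ F, r + 2 ≤ C.card := by
      intro C hC
      refine ForceLem.large_ge hB hro (mem_filter.mpr ⟨hC, fun h => ?_⟩)
      have : C ∈ F.filter (fun C => C.card ≤ r) := mem_filter.mpr ⟨hC, h⟩
      rw [hsm] at this
      exact absurd this (notMem_empty _)
    have htot := hB.card_le
    by_cases hwF : ∃ C ∈ F, w ∈ C
    · obtain ⟨C, hC, hwC⟩ := hwF
      have h1 := hB.vert hC hwC
      have h2 := ForceLem.card_add_le _ (r + 2) hall hC
      rw [hF3] at h2
      omega
    · push Not at hwF
      have h1 : ∀ x, G.Adj w x → x ∈ (F.biUnion id)ᶜ := by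
        intro x hx
        rw [mem_compl, mem_biUnion]
        rintro ⟨C, hC, hxC⟩
        rcases hB.nb C hC x hxC w hx.symm with h | h
        · exact hwF C hC h
        · exact hw1 h
      have h2 : f w ≤ (F.biUnion id)ᶜ.card := by
        rw [← hB.deg w, ← Forcing.nb_eq_of G w h1]
        exact Forcing.nb_le G w _
      have h3 : (F.biUnion id).card = ∑ C ∈ F, C.card :=
        ForceLem.card_biUnion hB F (Subset.refl F)
      have h4 : F.card * (r + 2) ≤ ∑ C ∈ F, C.card := by
        have := Finset.card_nsmul_le_sum F (fun C : Finset V => C.card) (r + 2) hall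
        simpa using this
      rw [Finset.card_compl, h3] at h2
      rw [hF3] at h4
      omega

end Pool.Agent.MP_6e0dc6_co
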