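import Pool.Agent.Lib.MP_6e0dc6_co.RealInd

/-!
The half template: an independent set of `n / 2 + 1` vertices.
-/

namespace Pool.Agent.MP_6e0dc6_co

open Finset

variable {V : Type*} [Fintype V] [DecidableEq V]

/-- Pure arithmetic of the main case. -/
theorem half_arith (b c t h m : ℤ) (hb : 1 ≤ b) (hbc : b ≤ c) (hct : c < t) (hth : t ≤ h)
    (hm0 : 0 ≤ m) (hm : m ≤ h + 2)
    (I1 : (h - c) * t + b * (c - 1) + m + (h + 2 - m) * (b + c - t) < b * h)
    (I2 : b * (c - 1) + 2 * m + (b + c) * (h + 2 - m) < (b + c) * h) : False := by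
  have h1 : 0 ≤ b * (c - 1) := mul_nonneg (by omega) (by omega)
  have hm3 : 3 ≤ m := by
    by_contra hcon
    have h2 : m ≤ 2 := by omega
    have h3 : 0 ≤ (b + c) * (2 - m) := mul_nonneg (by omega) (by omega)
    nlinarith
  obtain ⟨e, he⟩ : ∃ e, e = t - b - c := ⟨_, rfl⟩
  have ht : t = b + c + e := by omega
  subst ht
  have key : (h - c) * c - b + m < (c + 2 - m) * e := by nlinarith
  have h4 : b ≤ (h - c) * c := by nlinarith
  rcases le_or_gt e 0 with h5 | h5
  · -- then `c + 2 - m < 0`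
    have h6 : c + 2 - m < 0 := by
      by_contra hcon
      have : 0 ≤ (c + 2 - m) * (-e) := mul_nonneg (by omega) (by omega)
      nlinarith
    have h7 : (m - c - 2) * (-e) ≤ (h - c) * (b - 1) := by
      apply mul_le_mul <;> omega
    have h8 : (h - c) * (b - 1) ≤ (h - c) * (c - 1) := by
      apply mul_le_mul_of_nonneg_left <;> omega
    nlinarith
  · have h6 : 0 < c + 2 - m := by
      by_contra hcon
      have : 0 ≤ (m - c - 2) * e := mul_nonneg (by omega) (by omega)
      nlinarith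
    have h7 : (c + 2 - m) * e ≤ (c + 2 - m) * (h - b - c) := by
      apply mul_le_mul_of_nonneg_left <;> omega
    have h8 : 0 ≤ b * (c + 1 - m) := mul_nonneg (by omega) (by omega)
    have h9 : 0 ≤ (h - c) * (m - 3) := mul_nonneg (by omega) (by omega)
    nlinarith

/-- M62-2. The half template. -/
theorem half_bad (f : V → ℕ) (hf : IsValence f) (D h : ℕ) (hD : ∀ v, f v ≤ D)
    (hcard : Fintype.card V = 2 * h + 2) (hDh : D ≤ h) (h1 : ∀ v, 1 ≤ f v)
    (S : Finset V) (hS : S.card = h) (htop : ∀ s ∈ S, ∀ t ∉ S, f t ≤ f s)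
    (hsum : ∑ t ∈ Sᶜ, f t ≤ ∑ s ∈ S, f s) : BadReal f := by
  classical
  have hTc : Sᶜ.card = h + 2 := by rw [Finset.card_compl, hS, hcard]; omega
  obtain ⟨x0, hx0, hmax⟩ := Finset.exists_max_image Sᶜ f (Finset.card_pos.mp (by omega))
  obtain ⟨τ, hτ⟩ : ∃ τ, τ = f x0 := ⟨_, rfl⟩
  have hτD : τ ≤ D := hτ ▸ hD x0
  have hSτ : ∀ s ∈ S, τ ≤ f s := fun s hs => by
    rw [hτ]; exact htop s hs x0 (Finset.mem_compl.mp hx0)
  have hTτ : ∀ t ∈ Sᶜ, f t ≤ τ := fun t ht => by rw [hτ]; exact hmax t ht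
  obtain ⟨G, hG, hGi⟩ := real_ind f S (even_sum f hf) (by
    intro X hX Y hY hXY
    by_contra hviol
    push Not at hviol
    have hdis : ∀ x, x ∈ X → x ∈ Y → False := fun x h1 h2 => Finset.disjoint_left.mp hXY h1 h2
    obtain ⟨Z, hZ⟩ : ∃ Z, Z = S \ (X ∪ Y) := ⟨_, rfl⟩
    have hXYS : X ∪ Y ⊆ S := Finset.union_subset hX hY
    have hcU : (X ∪ Y).card = X.card + Y.card := Finset.card_union_of_disjoint hXY
    have hcards : X.card + Y.card ≤ S.card := hcU ▸ Finset.card_le_card hXYS
    have hZc : Z.card = S.card - (X.card + Y.card) := by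
      rw [hZ, Finset.card_sdiff_of_subset hXYS, hcU]
    have hsplitS : ∀ g : V → ℕ, ∑ s ∈ S, g s = ∑ s ∈ X, g s + ∑ s ∈ Y, g s + ∑ s ∈ Z, g s := by
      intro g
      rw [hZ, ← Finset.sum_sdiff hXYS, Finset.sum_union hXY]
      ring
    obtain ⟨b, hb⟩ : ∃ b, b = Y.card := ⟨_, rfl⟩
    obtain ⟨c, hc⟩ : ∃ c, c = S.card - X.card := ⟨_, rfl⟩
    have hcZ : ((S.card : ℤ) - X.card) = c := by omega
    have hbc : b ≤ c := by omega
    have hch : c ≤ h := by omega
    have hXc : X.card = h - c := by omega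
    have hZc' : Z.card = c - b := by omega
    rw [hcZ, ← hb] at hviol
    set Φ : ℤ := ∑ t ∈ Sᶜ, min (b : ℤ) (min (f t : ℤ) ((b : ℤ) + c - f t)) with hΦ
    -- basic bounds on the sums
    have hSX : (h - c) * τ ≤ ∑ s ∈ X, f s := by
      rw [← hXc, ← smul_eq_mul, ← Finset.sum_const]
      exact Finset.sum_le_sum fun s hs => hSτ s (hX hs)
    have hSY : ∑ s ∈ Y, f s ≤ b * D := by
      rw [hb, ← smul_eq_mul, ← Finset.sum_const]
      exact Finset.sum_le_sum fun s _ => hD s
    have hSZ : ∑ s ∈ Z, f s ≤ (c - b) * D := by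
      rw [← hZc', ← smul_eq_mul, ← Finset.sum_const]
      exact Finset.sum_le_sum fun s _ => hD s
    have hSall := hsplitS f
    rcases Nat.lt_or_ge c τ with hcτ | hcτ
    swap
    · -- case (a)
      have heg := eg_nec f hf Y
      rw [eg_slack_def] at heg
      have e1 : ∑ w ∈ Yᶜ, min (f w) Y.card ≤ ∑ s ∈ X, f s + (c - b) * b
          + ∑ t ∈ Sᶜ, min (f t) b := by
        have e2 : Yᶜ = (X ∪ Z) ∪ Sᶜ := by
          ext v
          simp only [hZ, Finset.mem_compl, Finset.mem_union, Finset.mem_sdiff]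
          constructor
          · intro hv
            by_cases hvS : v ∈ S
            · by_cases hvX : v ∈ X
              · exact Or.inl (Or.inl hvX)
              · exact Or.inl (Or.inr ⟨hvS, fun h => h.elim hvX hv⟩)
            · exact Or.inr hvS
          · rintro ((hv | ⟨_, hv⟩) | hv)
            · exact fun h => hdis v hv h
            · exact fun h => hv (Or.inr h)
            · exact fun h => hv (hY h)
        have d1 : Disjoint X Z := by
          rw [Finset.disjoint_left]
          intro v hv hv2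
          rw [hZ, Finset.mem_sdiff] at hv2
          exact hv2.2 (Finset.mem_union_left _ hv)
        have d2 : Disjoint (X ∪ Z) Sᶜ := by
          rw [Finset.disjoint_left]
          intro v hv hv2
          rw [Finset.mem_compl] at hv2
          rcases Finset.mem_union.mp hv with h | h
          · exact hv2 (hX h)
          · rw [hZ, Finset.mem_sdiff] at h
            exact hv2 h.1
        rw [e2, Finset.sum_union d2, Finset.sum_union d1, ← hb]
        have e3 : ∑ x ∈ X, min (f x) b ≤ ∑ x ∈ X, f x :=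
          Finset.sum_le_sum fun x _ => min_le_left _ _
        have e4 : ∑ x ∈ Z, min (f x) b ≤ (c - b) * b := by
          rw [← hZc', ← smul_eq_mul, ← Finset.sum_const]
          exact Finset.sum_le_sum fun x _ => min_le_right _ _
        omega
      have e5 : Φ = ((∑ t ∈ Sᶜ, min (f t) b : ℕ) : ℤ) := by
        rw [hΦ]
        push_cast
        apply Finset.sum_congr rfl
        intro t ht
        have := hTτ t ht
        omega
      have e6 : ((∑ w ∈ Yᶜ, min (f w) Y.card : ℕ) : ℤ) ≤ ((∑ s ∈ X, f s : ℕ) : ℤ)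
          + ((c : ℤ) - b) * b + ((∑ t ∈ Sᶜ, min (f t) b : ℕ) : ℤ) := by
        have e7 : (((c - b : ℕ) : ℤ)) = (c : ℤ) - b := by omega
        rw [← e7]
        exact_mod_cast e1
      rw [← hb] at heg e6
      push_cast at heg e6 e5 hviol
      rw [e5] at hviol
      nlinarith
    -- now `c < τ`
    obtain ⟨m, hm⟩ : ∃ m, m = (Sᶜ.filter fun t => f t ≤ c).card := ⟨_, rfl⟩
    have hm2 : (Sᶜ.filter fun t => ¬ f t ≤ c).card = h + 2 - m := by
      have := Finset.card_filter_add_card_filter_not (s := Sᶜ) (fun t => f t ≤ c)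
      omega
    have hmle : m ≤ h + 2 := by
      have := Finset.card_filter_le Sᶜ (fun t => f t ≤ c)
      omega
    have hz3 : (((h + 2 - m : ℕ) : ℤ)) = (h : ℤ) + 2 - m := by omega
    have lower : ∀ (F : V → ℤ) (p q : ℤ), (∀ t ∈ Sᶜ, f t ≤ c → p ≤ F t) →
        (∀ t ∈ Sᶜ, ¬ f t ≤ c → q ≤ F t) → m * p + ((h : ℤ) + 2 - m) * q ≤ ∑ t ∈ Sᶜ, F t := by
      intro F p q hp hq
      rw [← Finset.sum_filter_add_sum_filter_not Sᶜ (fun t => f t ≤ c) F]
      have e1 : (m : ℤ) * p ≤ ∑ t ∈ Sᶜ.filter (fun t => f t ≤ c), F t := by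
        rw [hm, ← nsmul_eq_mul, ← Finset.sum_const]
        exact Finset.sum_le_sum fun t ht => hp t (Finset.mem_filter.mp ht).1
          (Finset.mem_filter.mp ht).2
      have e2 : ((h : ℤ) + 2 - m) * q ≤ ∑ t ∈ Sᶜ.filter (fun t => ¬ f t ≤ c), F t := by
        rw [← hz3, ← hm2, ← nsmul_eq_mul, ← Finset.sum_const]
        exact Finset.sum_le_sum fun t ht => hq t (Finset.mem_filter.mp ht).1
          (Finset.mem_filter.mp ht).2
      linarith
    have zSX : ((h : ℤ) - c) * τ ≤ ∑ s ∈ X, (f s : ℤ) := by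
      have : (((h - c : ℕ) : ℤ)) = (h : ℤ) - c := by omega
      rw [← this]
      exact_mod_cast hSX
    have zSY : ∑ s ∈ Y, (f s : ℤ) ≤ (b : ℤ) * D := by exact_mod_cast hSY
    have zSZ : ∑ s ∈ Z, (f s : ℤ) ≤ ((c : ℤ) - b) * D := by
      have : (((c - b : ℕ) : ℤ)) = (c : ℤ) - b := by omega
      rw [← this]
      exact_mod_cast hSZ
    have zsum : ∑ t ∈ Sᶜ, (f t : ℤ) ≤ ∑ s ∈ X, (f s : ℤ) + ∑ s ∈ Y, (f s : ℤ)
        + ∑ s ∈ Z, (f s : ℤ) := by
      rw [hSall] at hsum
      exact_mod_cast hsum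
    rcases Nat.eq_zero_or_pos b with hb0 | hb1
    · -- case (b)
      have hY0 : Y = ∅ := Finset.card_eq_zero.mp (by omega)
      have zY0 : ∑ s ∈ Y, (f s : ℤ) = 0 := by rw [hY0]; simp
      rw [hb0] at hviol zSZ
      have hΦ' : Φ = ∑ t ∈ Sᶜ, min (0 : ℤ) ((c : ℤ) - f t) := by
        rw [hΦ, hb0]
        apply Finset.sum_congr rfl
        intro t _
        push_cast
        omega
      rcases Nat.eq_zero_or_pos c with hc0 | hc1
      · have e1 : Φ = - ∑ t ∈ Sᶜ, (f t : ℤ) := by
          rw [hΦ', ← Finset.sum_neg_distrib]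
          apply Finset.sum_congr rfl
          intro t _
          rw [hc0]
          push_cast
          omega
        rw [hc0] at zSZ hviol
        have k1 : (((0 : ℕ) : ℤ) - ((0 : ℕ) : ℤ)) * D = 0 := by simp
        have k2 : ((0 : ℕ) : ℤ) * (((0 : ℕ) : ℤ) - 1) = 0 := by simp
        rw [k1] at zSZ
        rw [zY0, e1, k2] at hviol
        linarith
      · have e1 := lower (fun t => (f t : ℤ) + min (0 : ℤ) ((c : ℤ) - f t)) 1 c
          (fun t ht h5 => by have := h1 t; omega)
          (fun t ht h5 => by omega)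
        have e2 := lower (fun t => min (0 : ℤ) ((c : ℤ) - f t)) 0 ((c : ℤ) - τ)
          (fun t ht h5 => by omega)
          (fun t ht h5 => by have := hTτ t ht; omega)
        rw [Finset.sum_add_distrib, ← hΦ'] at e1
        rw [← hΦ'] at e2
        rw [zY0] at hviol zsum
        obtain ⟨n3, hn3⟩ : ∃ n3 : ℤ, n3 = (h : ℤ) + 2 - m := ⟨_, rfl⟩
        rw [← hn3] at e1 e2
        have hv1 : ∑ s ∈ X, (f s : ℤ) + Φ < 0 := by
          have : ((0 : ℕ) : ℤ) * ((c : ℤ) - 1) = 0 := by simp
          rw [this] at hviol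
          linarith
        have hv2 : ∑ s ∈ Z, (f s : ℤ) ≤ c * D := by
          have : ((c : ℤ) - ((0 : ℕ) : ℤ)) * D = c * D := by simp
          linarith
        have hm0 : (0 : ℤ) ≤ (m : ℤ) * 1 := by omega
        have hv3 : n3 * c < c * D := by linarith
        have hn3' : n3 < D := by
          by_contra hcon
          push Not at hcon
          have h6 : (c : ℤ) * D ≤ c * n3 := mul_le_mul_of_nonneg_left hcon (by omega)
          have h7 : (c : ℤ) * n3 = n3 * c := mul_comm _ _
          linarith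
        have e3 : n3 * ((τ : ℤ) - c) ≤ (h : ℤ) * ((τ : ℤ) - c) := by
          apply mul_le_mul_of_nonneg_right <;> omega
        have e4 : (c : ℤ) * τ ≤ c * h := by
          apply mul_le_mul_of_nonneg_left <;> omega
        have e5 : n3 * ((τ : ℤ) - c) = - (n3 * ((c : ℤ) - τ)) := by ring
        have e6 : (h : ℤ) * ((τ : ℤ) - c) = ((h : ℤ) - c) * τ + (c * τ - c * h) := by ring
        have e7 : (m : ℤ) * 0 = 0 := by ring
        linarith
    · -- case (c)
      have L1 := lower (fun t => min (b : ℤ) (min (f t : ℤ) ((b : ℤ) + c - f t))) 1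
        ((b : ℤ) + c - τ)
        (fun t ht h5 => by have := h1 t; omega)
        (fun t ht h5 => by have := hTτ t ht; omega)
      have L2 := lower (fun t => (f t : ℤ) + min (b : ℤ) (min (f t : ℤ) ((b : ℤ) + c - f t))) 2
        ((b : ℤ) + c)
        (fun t ht h5 => by have := h1 t; omega)
        (fun t ht h5 => by omega)
      rw [Finset.sum_add_distrib, ← hΦ] at L2
      rw [← hΦ] at L1
      have hDh' : (D : ℤ) ≤ h := by exact_mod_cast hDh
      have k1 : (b : ℤ) * D ≤ b * h := mul_le_mul_of_nonneg_left hDh' (by omega)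
      have k2 : ((b : ℤ) + c) * D ≤ (b + c) * h := mul_le_mul_of_nonneg_left hDh' (by omega)
      apply half_arith b c τ h m (by omega) (by omega) (by omega) (by omega) (by omega) (by omega)
      · linarith
      · linarith)
  refine ⟨G, hG, ?_⟩
  intro M
  apply no_pm G S (ι := (Sᶜ : Finset V)) (fun t => {t.1})
  · intro i j h
    rw [Finset.disjoint_singleton]
    exact fun h' => h (Subtype.ext h')
  · intro i; simp
  · intro i v hv w hw
    right
    rw [Finset.mem_singleton] at hv
    subst hv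
    by_contra hwS
    exact hGi _ (Finset.mem_compl.mp i.2) w hwS hw
  · rw [Fintype.card_coe, hTc, hS]
    omega

end Pool.Agent.MP_6e0dc6_co
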