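import Pool.Agent.Lib.MP_6e0dc6_co.NearRegTwo
import Pool.Agent.Lib.MP_6e0dc6_co.NearReg
import Pool.Agent.Lib.MP_6e0dc6_co.Glue

/-!
Sequences with a term 1, and the sequence with three terms 3 and all others 7.
-/

namespace Pool.Agent.MP_6e0dc6_co

open Finset

variable {V : Type*} [Fintype V] [DecidableEq V]

omit [DecidableEq V] in
/-- If all terms and `r` are odd, each term different from `r` deviates by at least two. -/
theorem leaf_cnt (f : V → ℕ) (r : ℕ) (hodd : ∀ v, Odd (f v)) (hro : Odd r) :
    2 * (univ.filter fun v => f v ≠ r).card ≤ ∑ v, (f v - r) + ∑ v, (r - f v) := by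
  classical
  rw [← Finset.sum_add_distrib]
  calc 2 * (univ.filter fun v => f v ≠ r).card
      = ∑ v ∈ univ.filter (fun v => f v ≠ r), 2 := by
        rw [Finset.sum_const, smul_eq_mul, mul_comm]
    _ ≤ ∑ v ∈ univ.filter (fun v => f v ≠ r), ((f v - r) + (r - f v)) := by
        apply Finset.sum_le_sum
        intro v hv
        rw [Finset.mem_filter] at hv
        rcases hodd v with ⟨a, ha⟩
        rcases hro with ⟨b, hb⟩
        omega
    _ ≤ ∑ v, ((f v - r) + (r - f v)) := Finset.sum_le_sum_of_subset (Finset.subset_univ _)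

/-- Sum over everything of a function supported on `B`. -/
theorem leaf_ite_sum (B : Finset V) (g : V → ℕ) :
    ∑ v, (if v ∈ B then g v else 0) = ∑ v ∈ B, g v := by
  rw [Finset.sum_ite_mem, Finset.univ_inter]

/-- A block of `m` vertices of value `r` (odd), one of them reduced by one. -/
theorem leaf_block (f : V → ℕ) (r : ℕ) (hr : 1 ≤ r) (hro : Odd r) (B Z : Finset V) (b : V)
    (hb : b ∈ B) (hB : B.card = r + 2) (hBr : ∀ v ∈ B, f v = r) (hZ : ∀ v ∈ B, v ∈ Z ↔ v = b) :
    IsValence (fun v => if v ∈ B then f v - (if v ∈ Z then 1 else 0) else 0) := by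
  have e1 : ∀ v ∈ B, f v - (if v ∈ Z then 1 else 0) = r - (if v = b then 1 else 0) := by
    intro v hv
    rw [hBr v hv]
    by_cases h : v = b
    · rw [if_pos ((hZ v hv).mpr h), if_pos h]
    · rw [if_neg (fun h' => h ((hZ v hv).mp h')), if_neg h]
  have e2 : ∑ v ∈ B, (if v = b then 1 else 0) = 1 := by
    rw [Finset.sum_ite_eq' B b, if_pos hb]
  have e3 : ∑ v ∈ B, (r - (if v = b then 1 else 0)) + 1 = (r + 2) * r := by
    rw [← e2, ← Finset.sum_add_distrib, ← hB, ← smul_eq_mul, ← Finset.sum_const]
    apply Finset.sum_congr rfl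
    intro v _
    split_ifs <;> omega
  apply near_reg B _ r
  · intro v hv
    simp [hv]
  · rw [leaf_ite_sum B, Finset.sum_congr rfl e1]
    rcases hro with ⟨m, hm⟩
    have : (r + 2) * r = 2 * (2 * m * m + 4 * m + 1) + 1 := by subst hm; ring
    rw [this] at e3
    exact ⟨2 * m * m + 4 * m + 1, by omega⟩
  · exact hr
  · omega
  · intro v hv
    simp only [hv, if_true]
    rw [e1 v hv]
    split_ifs <;> omega
  · have e4 : ∑ v ∈ B, ((if v ∈ B then f v - (if v ∈ Z then 1 else 0) else 0) - r) = 0 := by
      apply Finset.sum_eq_zero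
      intro v hv
      simp only [hv, if_true]
      rw [e1 v hv]
      omega
    have e5 : ∑ v ∈ B, (r - (if v ∈ B then f v - (if v ∈ Z then 1 else 0) else 0)) = 1 := by
      refine Eq.trans ?_ e2
      apply Finset.sum_congr rfl
      intro v hv
      simp only [hv, if_true]
      rw [e1 v hv]
      split_ifs <;> omega
    rw [e4, e5]
    omega
  · have : (B.filter fun v => r < (if v ∈ B then f v - (if v ∈ Z then 1 else 0) else 0)) = ∅ := by
      apply Finset.filter_false_of_mem
      intro v hv
      simp only [hv, if_true]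
      rw [e1 v hv]
      split_ifs <;> omega
    rw [this]
    simp

/-- M62-5a. -/
theorem leaf_bad (f : V → ℕ) (he : Even (∑ v, f v)) (D r : ℕ) (hD : ∀ v, f v ≤ D)
    (hcard : 2 * D + 6 ≤ Fintype.card V) (hr : 3 ≤ r) (hrD : r ≤ D) (hodd : ∀ v, Odd (f v))
    (hro : Odd r) (hXY : ∑ v, (f v - r) + ∑ v, (r - f v) + 2 ≤ 2 * r)
    (l : V) (hl : f l = 1) : BadReal f := by
  classical
  obtain ⟨full, hfull⟩ : ∃ full, full = univ.filter fun v => f v = r := ⟨_, rfl⟩
  have hfr : ∀ v ∈ full, f v = r := fun v hv => by
    rw [hfull, Finset.mem_filter] at hv; exact hv.2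
  have hcnt := leaf_cnt f r hodd hro
  have hfc : full.card + (univ.filter fun v => f v ≠ r).card = Fintype.card V := by
    have := Finset.card_filter_add_card_filter_not (s := (univ : Finset V)) (fun v => f v = r)
    rw [Finset.card_univ] at this
    rw [hfull]
    exact this
  have hfc' : r + 7 ≤ full.card := by omega
  obtain ⟨u, hu⟩ := Finset.card_pos.mp (show 0 < full.card by omega)
  obtain ⟨B, hBsub, hBc⟩ := Finset.exists_subset_card_eq
    (show r + 2 ≤ (full.erase u).card by rw [Finset.card_erase_of_mem hu]; omega)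
  have hBr : ∀ v ∈ B, f v = r := fun v hv => hfr v (Finset.mem_of_mem_erase (hBsub hv))
  have huB : u ∉ B := fun h => Finset.notMem_erase u full (hBsub h)
  obtain ⟨b, hb⟩ := Finset.card_pos.mp (show 0 < B.card by omega)
  have hlB : l ∉ B := fun h => by have := hBr l h; omega
  have hul : u ≠ l := fun h => by have := hfr u hu; rw [h, hl] at this; omega
  have hlb : l ≠ b := fun h => hlB (h ▸ hb)
  have hub : u ≠ b := fun h => huB (h ▸ hb)
  have hW : ({l} ∪ B : Finset V).card = r + 3 := by
    rw [Finset.card_union_of_disjoint (Finset.disjoint_singleton_left.mpr hlB),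
      Finset.card_singleton, hBc]
    omega
  apply cut_glue f u {l} B {l, b}
  · exact Finset.disjoint_singleton_left.mpr hlB
  · simpa using hul
  · exact huB
  · simp
  · rw [hBc]
    rcases hro with ⟨m, hm⟩
    exact ⟨m + 1, by omega⟩
  · intro x hx
    simp only [Finset.mem_insert, Finset.mem_singleton] at hx
    rcases hx with rfl | rfl
    · simp
    · exact Finset.mem_union_right _ hb
  · intro z _
    rcases hodd z with ⟨m, hm⟩
    omega
  · rw [Finset.card_pair hlb, hfr u hu]
    omega
  · refine ⟨⊥, ?_⟩
    intro v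
    have : (⊥ : SimpleGraph V).neighborSet v = ∅ := by ext x; simp
    rw [this, Set.ncard_empty]
    by_cases hv : v = l
    · subst hv
      simp [hl]
    · simp [hv]
  · apply leaf_block f r (by omega) hro B {l, b} b hb hBc hBr
    intro v hv
    have : v ≠ l := fun h => hlB (h ▸ hv)
    simp [this]
  · -- the third block
    obtain ⟨W, hWdef⟩ : ∃ W, W = ({l} ∪ B : Finset V)ᶜ := ⟨_, rfl⟩
    have hWc : W.card = Fintype.card V - (r + 3) := by
      rw [hWdef, Finset.card_compl, hW]
    have huW : u ∈ W := by
      rw [hWdef, Finset.mem_compl, Finset.mem_union, Finset.mem_singleton]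
      exact fun h => h.elim hul huB
    have hmemW : ∀ v, v ∈ ({l} ∪ B : Finset V) ↔ v ∉ W := by
      intro v
      rw [hWdef, Finset.mem_compl, not_not]
    have hfun : (fun v => if v ∈ ({l} ∪ B : Finset V) then 0 else
        if v = u then f u - ({l, b} : Finset V).card else f v) =
        fun v => if v ∈ W then (if v = u then r - 2 else f v) else 0 := by
      funext v
      rw [Finset.card_pair hlb, hfr u hu]
      by_cases hv : v ∈ W
      · rw [if_neg (fun h => (hmemW v).mp h hv), if_pos hv]
      · rw [if_pos ((hmemW v).mpr hv), if_neg hv]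
    rw [hfun]
    have hsplit : ∀ g : V → ℕ, ∑ v, g v = g l + ∑ v ∈ B, g v + ∑ v ∈ W, g v := by
      intro g
      have e1 : ∑ v ∈ ({l} ∪ B : Finset V), g v = g l + ∑ v ∈ B, g v := by
        rw [Finset.sum_union (Finset.disjoint_singleton_left.mpr hlB), Finset.sum_singleton]
      rw [← e1, hWdef, Finset.sum_add_sum_compl]
    have hBsum : ∑ v ∈ B, f v = (r + 2) * r := by
      rw [Finset.sum_congr rfl hBr, Finset.sum_const, hBc, smul_eq_mul]
    -- modifying one value
    have hmod : ∀ (p : ℕ → ℕ), ∑ v ∈ W, p (if v = u then r - 2 else f v) + p r =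
        ∑ v ∈ W, p (f v) + p (r - 2) := by
      intro p
      rw [← Finset.add_sum_erase W _ huW, ← Finset.add_sum_erase W (fun v => p (f v)) huW]
      have e1 : ∑ x ∈ W.erase u, p (if x = u then r - 2 else f x) =
          ∑ x ∈ W.erase u, p (f x) := by
        apply Finset.sum_congr rfl
        intro x hx
        rw [if_neg (Finset.ne_of_mem_erase hx)]
      rw [e1, if_pos rfl, hfr u hu]
      omega
    apply near_reg2 W _ r D
    · intro v hv
      rw [if_neg hv]
    · rw [leaf_ite_sum W]
      have e1 := hmod id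
      have e2 := hsplit f
      simp only [id] at e1
      rw [hBsum, hl] at e2
      rw [e2] at he
      rcases he with ⟨q, hq⟩
      rcases hro with ⟨m, hm⟩
      have e3 : (r + 2) * r = 2 * (2 * m * m + 4 * m + 1) + 1 := by subst hm; ring
      exact ⟨q - (2 * m * m + 4 * m + 2) - 1, by omega⟩
    · omega
    · exact hrD
    · omega
    · omega
    · intro v hv
      rw [if_pos hv]
      split_ifs
      · omega
      · exact hD v
    · have e1 := hmod (fun x => x - r)
      have e2 := hmod (fun x => r - x)
      have e3 := hsplit (fun v => f v - r)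
      have e4 := hsplit (fun v => r - f v)
      simp only [hl] at e3 e4
      have e5 : ∑ v ∈ W, ((if v ∈ W then (if v = u then r - 2 else f v) else 0) - r) =
          ∑ v ∈ W, ((if v = u then r - 2 else f v) - r) := by
        apply Finset.sum_congr rfl
        intro v hv
        rw [if_pos hv]
      have e6 : ∑ v ∈ W, (r - (if v ∈ W then (if v = u then r - 2 else f v) else 0)) =
          ∑ v ∈ W, (r - (if v = u then r - 2 else f v)) := by
        apply Finset.sum_congr rfl
        intro v hv
        rw [if_pos hv]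
      rw [e5, e6]
      omega

/-- M62-5b. -/
theorem seven_bad (f : V → ℕ) (hcard : 22 ≤ Fintype.card V) (hn : Even (Fintype.card V))
    (T : Finset V) (hT : T.card = 3) (hT3 : ∀ v ∈ T, f v = 3) (h7 : ∀ v ∉ T, f v = 7) :
    BadReal f := by
  classical
  have hTc : Tᶜ.card = Fintype.card V - 3 := by rw [Finset.card_compl, hT]
  have h7' : ∀ v ∈ Tᶜ, f v = 7 := fun v hv => h7 v (Finset.mem_compl.mp hv)
  obtain ⟨u, hu⟩ := Finset.card_pos.mp (show 0 < Tᶜ.card by omega)
  obtain ⟨B, hBsub, hBc⟩ := Finset.exists_subset_card_eq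
    (show 9 ≤ (Tᶜ.erase u).card by rw [Finset.card_erase_of_mem hu]; omega)
  have hBr : ∀ v ∈ B, f v = 7 := fun v hv => h7' v (Finset.mem_of_mem_erase (hBsub hv))
  have huB : u ∉ B := fun h => Finset.notMem_erase u _ (hBsub h)
  have huT : u ∉ T := Finset.mem_compl.mp hu
  obtain ⟨b, hb⟩ := Finset.card_pos.mp (show 0 < B.card by omega)
  have hTB : Disjoint T B := by
    rw [Finset.disjoint_left]
    intro v hv hv2
    have h1 := hT3 v hv
    have h2 := hBr v hv2
    omega
  have hbT : b ∉ T := fun h => Finset.disjoint_left.mp hTB h hb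
  have hW : (T ∪ B).card = 12 := by
    rw [Finset.card_union_of_disjoint hTB, hT, hBc]
  have hZc : (insert b T).card = 4 := by
    rw [Finset.card_insert_of_notMem hbT, hT]
  apply cut_glue f u T B (insert b T)
  · exact hTB
  · exact huT
  · exact huB
  · rw [hT]; decide
  · rw [hBc]; decide
  · intro x hx
    rcases Finset.mem_insert.mp hx with rfl | hx
    · exact Finset.mem_union_right _ hb
    · exact Finset.mem_union_left _ hx
  · intro z _
    by_cases hz : z ∈ T
    · rw [hT3 z hz]; omega
    · rw [h7 z hz]; omega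
  · rw [hZc, h7 u huT]; omega
  · -- the triangle
    refine ⟨{ Adj := fun a b => a ≠ b ∧ a ∈ T ∧ b ∈ T
              symm := ⟨fun a b h => ⟨h.1.symm, h.2.2, h.2.1⟩⟩
              loopless := ⟨fun a h => h.1 rfl⟩ }, ?_⟩
    intro v
    by_cases hv : v ∈ T
    · have : (SimpleGraph.neighborSet
          { Adj := fun a b => a ≠ b ∧ a ∈ T ∧ b ∈ T
            symm := ⟨fun a b h => ⟨h.1.symm, h.2.2, h.2.1⟩⟩
            loopless := ⟨fun a h => h.1 rfl⟩ } v : Set V) = ((T.erase v : Finset V) : Set V) := by
        ext x
        simp only [SimpleGraph.mem_neighborSet, Finset.coe_erase, Set.mem_sdiff,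
          Finset.mem_coe, Set.mem_singleton_iff]
        constructor
        · rintro ⟨h1, _, h3⟩
          exact ⟨h3, fun h => h1 h.symm⟩
        · rintro ⟨h1, h2⟩
          exact ⟨fun h => h2 h.symm, hv, h1⟩
      rw [this, Set.ncard_coe_finset, Finset.card_erase_of_mem hv, hT]
      simp [hv, hT3 v hv]
    · have : (SimpleGraph.neighborSet
          { Adj := fun a b => a ≠ b ∧ a ∈ T ∧ b ∈ T
            symm := ⟨fun a b h => ⟨h.1.symm, h.2.2, h.2.1⟩⟩
            loopless := ⟨fun a h => h.1 rfl⟩ } v : Set V) = ∅ := by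
        ext x
        simp only [SimpleGraph.mem_neighborSet, Set.mem_empty_iff_false, iff_false]
        rintro ⟨_, h2, _⟩
        exact hv h2
      rw [this, Set.ncard_empty]
      simp [hv]
  · apply leaf_block f 7 (by omega) (by decide) B (insert b T) b hb hBc hBr
    intro v hv
    have : v ∉ T := fun h => Finset.disjoint_left.mp hTB h hv
    simp [this]
  · -- the third block
    obtain ⟨W, hWdef⟩ : ∃ W, W = (T ∪ B)ᶜ := ⟨_, rfl⟩
    have hWc : W.card = Fintype.card V - 12 := by
      rw [hWdef, Finset.card_compl, hW]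
    have huW : u ∈ W := by
      rw [hWdef, Finset.mem_compl, Finset.mem_union]
      exact fun h => h.elim huT huB
    have hmemW : ∀ v, v ∈ T ∪ B ↔ v ∉ W := by
      intro v
      rw [hWdef, Finset.mem_compl, not_not]
    have hW7 : ∀ v ∈ W, f v = 7 := fun v hv => h7 v (fun h =>
      (hmemW v).mp (Finset.mem_union_left _ h) hv)
    have hfun : (fun v => if v ∈ T ∪ B then 0 else
        if v = u then f u - (insert b T).card else f v) =
        fun v => if v ∈ W then (if v = u then 3 else 7) else 0 := by
      funext v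
      rw [hZc, h7 u huT]
      by_cases hv : v ∈ W
      · rw [if_neg (fun h => (hmemW v).mp h hv), if_pos hv, hW7 v hv]
      · rw [if_pos ((hmemW v).mpr hv), if_neg hv]
    rw [hfun]
    have hsum3 : ∑ v ∈ W, (if v = u then 3 else 7) + 4 = 7 * W.card := by
      rw [← Finset.add_sum_erase W _ huW, if_pos rfl]
      have e1 : ∑ x ∈ W.erase u, (if x = u then 3 else 7) = (W.card - 1) * 7 := by
        rw [← Finset.card_erase_of_mem huW, ← smul_eq_mul, ← Finset.sum_const]
        apply Finset.sum_congr rfl
        intro x hx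
        rw [if_neg (Finset.ne_of_mem_erase hx)]
      rw [e1]
      omega
    apply near_reg W _ 7
    · intro v hv
      rw [if_neg hv]
    · rw [leaf_ite_sum W]
      rcases hn with ⟨m, hm⟩
      have : Even (7 * W.card) := by
        apply Even.mul_left
        exact ⟨m - 6, by omega⟩
      rw [← hsum3] at this
      rcases this with ⟨q, hq⟩
      exact ⟨q - 2, by omega⟩
    · omega
    · omega
    · intro v hv
      rw [if_pos hv]
      split_ifs <;> omega
    · have e1 : ∑ v ∈ W, ((if v ∈ W then (if v = u then 3 else 7) else 0) - 7) = 0 := by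
        apply Finset.sum_eq_zero
        intro v hv
        rw [if_pos hv]
        split_ifs <;> omega
      have e2 : ∑ v ∈ W, (7 - (if v ∈ W then (if v = u then 3 else 7) else 0)) = 4 := by
        rw [← Finset.add_sum_erase W _ huW, if_pos huW, if_pos rfl]
        have e3 : ∑ x ∈ W.erase u, (7 - (if x ∈ W then (if x = u then 3 else 7) else 0)) = 0 := by
          apply Finset.sum_eq_zero
          intro x hx
          rw [if_pos (Finset.mem_of_mem_erase hx), if_neg (Finset.ne_of_mem_erase hx)]
          rfl
        rw [e3]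
      rw [e1, e2]
      omega
    · have : (W.filter fun v => 7 < (if v ∈ W then (if v = u then 3 else 7) else 0)) = ∅ := by
        apply Finset.filter_false_of_mem
        intro v hv
        rw [if_pos hv]
        split_ifs <;> omega
      rw [this]
      simp

end Pool.Agent.MP_6e0dc6_co
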