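import Pool.Agent.Lib.MP_6e0dc6_co.Exc

/-! The cut vertex template (`n = 3 r + 3 + b`). -/

namespace Pool.Agent.MP_6e0dc6_co

open Finset

variable {V : Type*} [Fintype V] [DecidableEq V]

/-- M62-7a. The block of size `r + b` in the cut vertex template. -/
theorem t1_block (f : V → ℕ) (r b : ℕ) (hr : 3 ≤ r) (hb : 2 ≤ b) (L Z : Finset V)
    (hL : L.card = r + b) (he : Even (∑ v ∈ L, (f v - if v ∈ Z then 1 else 0)))
    (hrf : ∀ v ∈ L, r ≤ f v) (hmax : ∀ v ∈ L, f v ≤ r + b) (hmaxZ : ∀ v ∈ L, f v = r + b → v ∈ Z)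
    (hp : (L.filter fun v => r < f v).card < r)
    (hη : (L ∩ Z).card ≤ (b - 1) * (r - (L.filter fun v => r < f v).card)) :
    IsValence (fun v => if v ∈ L then f v - (if v ∈ Z then 1 else 0) else 0) := by
  set g : V → ℕ := fun v => if v ∈ L then f v - (if v ∈ Z then 1 else 0) else 0 with hgdef
  have hgL : ∀ v ∈ L, g v = f v - (if v ∈ Z then 1 else 0) := fun v hv => by
    simp only [hgdef, hv, if_true]
  have hgN : ∀ v ∉ L, g v = 0 := fun v hv => by simp only [hgdef, hv, if_false]
  have hgmax : ∀ v ∈ L, g v + 1 ≤ r + b := by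
    intro v hv
    rw [hgL v hv]
    have h1 := hmax v hv
    by_cases h : f v = r + b
    · have := hmaxZ v hv h
      simp only [this, if_true]; omega
    · split_ifs <;> omega
  have hgmin : ∀ v ∈ L, r ≤ g v + 1 := by
    intro v hv
    rw [hgL v hv]
    have h1 := hrf v hv
    split_ifs <;> omega
  apply eg_suff g
  · have h1 : ∑ v, g v = ∑ v ∈ L, (f v - if v ∈ Z then 1 else 0) := by
      simp only [hgdef]
      rw [Finset.sum_ite_mem, Finset.univ_inter]
    rw [h1]; exact he
  apply eg_reduce
  intro K hK1 _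
  rcases Nat.eq_zero_or_pos K.card with h0 | hkpos
  · rw [Finset.card_eq_zero] at h0
    subst h0
    simp [slack]
  have hKL : K ⊆ L := by
    intro v hv
    by_contra hvL
    have := hK1 v hv
    rw [hgN v hvL] at this
    omega
  have hsum1 : ∑ w ∈ Kᶜ, min (g w) K.card = ∑ w ∈ L \ K, min (g w) K.card := by
    symm
    apply Finset.sum_subset
    · intro x hx
      rw [Finset.mem_sdiff] at hx
      rw [Finset.mem_compl]; exact hx.2
    · intro x hx hx2
      rw [Finset.mem_compl] at hx
      have : x ∉ L := fun h => hx2 (Finset.mem_sdiff.mpr ⟨h, hx⟩)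
      rw [hgN x this]; simp
  have hcardLK : (L \ K).card = r + b - K.card := by
    rw [Finset.card_sdiff_of_subset hKL, hL]
  have hkL : K.card ≤ r + b := hL ▸ Finset.card_le_card hKL
  rw [eg_slack_def, hsum1]
  set k := K.card with hk
  rcases lt_trichotomy k r with hlt | heq | hgt
  · -- `k < r`
    have h1 : ∑ w ∈ L \ K, min (g w) k = (r + b - k) * k := by
      rw [← hcardLK, ← smul_eq_mul, ← Finset.sum_const]
      apply Finset.sum_congr rfl
      intro w hw
      have := hgmin w (Finset.mem_sdiff.mp hw).1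
      omega
    have h2 : ∑ v ∈ K, g v ≤ k * (r + b - 1) := by
      rw [hk, ← smul_eq_mul, ← Finset.sum_const]
      apply Finset.sum_le_sum
      intro v hv
      have := hgmax v (hKL hv)
      omega
    rw [h1]
    have h3 : (((r + b - k) * k : ℕ) : ℤ) = ((r : ℤ) + b - k) * k := by
      push_cast [Nat.cast_sub hkL]; ring
    have h4 : ((∑ v ∈ K, g v : ℕ) : ℤ) ≤ (k : ℤ) * ((r : ℤ) + b - 1) := by
      have : ((k * (r + b - 1) : ℕ) : ℤ) = (k : ℤ) * ((r : ℤ) + b - 1) := by
        rw [Nat.cast_mul, Nat.cast_sub (by omega)]; push_cast; ring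
      rw [← this]; exact_mod_cast h2
    rw [h3]
    nlinarith
  · -- `k = r`
    have h1 : b * r ≤ ∑ w ∈ L \ K, min (g w) k + (L ∩ Z).card := by
      have h2 : ∑ w ∈ L \ K, r ≤ ∑ w ∈ L \ K, (min (g w) k + if w ∈ Z then 1 else 0) := by
        apply Finset.sum_le_sum
        intro w hw
        have h3 := (Finset.mem_sdiff.mp hw).1
        have h4 := hrf w h3
        rw [hgL w h3]
        split_ifs <;> omega
      rw [Finset.sum_const, smul_eq_mul, hcardLK, Finset.sum_add_distrib, Finset.sum_ite_mem,
        Finset.sum_const, smul_eq_mul, mul_one] at h2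
      have h5 : ((L \ K) ∩ Z).card ≤ (L ∩ Z).card :=
        Finset.card_le_card (Finset.inter_subset_inter_right Finset.sdiff_subset)
      have h6 : r + b - k = b := by omega
      rw [h6] at h2
      omega
    have h2 : ∑ v ∈ K, g v ≤ r * r + (b - 1) * (L.filter fun v => r < f v).card := by
      have h3 : ∑ v ∈ K, g v ≤ ∑ v ∈ K, (r + if r < f v then (b - 1) else 0) := by
        apply Finset.sum_le_sum
        intro v hv
        have h4 := hgmax v (hKL hv)
        by_cases h5 : r < f v
        · simp only [h5, if_true]; omega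
        · have h6 := hgL v (hKL hv)
          simp only [h5, if_false]
          omega
      have h3' : ∑ v ∈ K, (r + if r < f v then (b - 1) else 0) =
          r * r + (K.filter fun v => r < f v).card * (b - 1) := by
        rw [Finset.sum_add_distrib, Finset.sum_const, smul_eq_mul, ← hk, heq,
          ← Finset.sum_filter, Finset.sum_const, smul_eq_mul]
      rw [h3'] at h3
      have h7 : (K.filter fun v => r < f v).card ≤ (L.filter fun v => r < f v).card :=
        Finset.card_le_card (Finset.filter_subset_filter _ hKL)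
      have h8 := Nat.mul_le_mul_right (b - 1) h7
      rw [mul_comm (b - 1)]
      omega
    set p := (L.filter fun v => r < f v).card with hpdef
    set S1 := ∑ w ∈ L \ K, min (g w) k
    set S2 := ∑ v ∈ K, g v
    have z1 : (b : ℤ) * r ≤ S1 + (L ∩ Z).card := by exact_mod_cast h1
    have z2 : (S2 : ℤ) ≤ (r : ℤ) * r + ((b : ℤ) - 1) * p := by
      have : ((r * r + (b - 1) * p : ℕ) : ℤ) = (r : ℤ) * r + ((b : ℤ) - 1) * p := by
        push_cast [Nat.cast_sub (show 1 ≤ b by omega)]; ring
      rw [← this]; exact_mod_cast h2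
    have z3 : (((L ∩ Z).card : ℕ) : ℤ) ≤ ((b : ℤ) - 1) * ((r : ℤ) - p) := by
      have : (((b - 1) * (r - p) : ℕ) : ℤ) = ((b : ℤ) - 1) * ((r : ℤ) - p) := by
        push_cast [Nat.cast_sub (show 1 ≤ b by omega), Nat.cast_sub hp.le]; ring
      rw [← this]; exact_mod_cast hη
    rw [heq]
    nlinarith
  · exfalso
    have : K ⊆ L.filter fun v => r < f v := by
      intro v hv
      rw [Finset.mem_filter]
      refine ⟨hKL hv, ?_⟩
      have h1 := hK1 v hv
      rw [hgL v (hKL hv)] at h1
      omega
    have := Finset.card_le_card this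
    omega

/-- the block of size `r + 2` in the cut vertex template -/
private theorem t1_small (f : V → ℕ) (r : ℕ) (hr : 3 ≤ r) (hro : Odd r) (hodd : ∀ v, Odd (f v))
    (L Z : Finset V) (z : V) (hL : L.card = r + 2) (hzL : z ∈ L) (hLZ : L ∩ Z = {z})
    (hz : f z = r ∨ f z = r + 2) (hle : ∀ v ∈ L, v ≠ z → f v ≤ r)
    (hY : ∑ v ∈ L, (r - f v) + 1 ≤ r) :
    IsValence (fun v => if v ∈ L then f v - (if v ∈ Z then 1 else 0) else 0) := by
  have hzZ : z ∈ Z := by
    have : z ∈ L ∩ Z := by rw [hLZ]; simp
    exact (Finset.mem_inter.mp this).2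
  have hnZ : ∀ v ∈ L, v ≠ z → v ∉ Z := by
    intro v hv hvz hvZ
    have : v ∈ L ∩ Z := Finset.mem_inter.mpr ⟨hv, hvZ⟩
    rw [hLZ, Finset.mem_singleton] at this
    exact hvz this
  apply near_reg L _ r
  · intro v hv
    simp only [hv, if_false]
  · rw [Finset.sum_ite_mem, Finset.univ_inter]
    have h1 : ∑ v ∈ L, (f v - (if v ∈ Z then 1 else 0)) + 1 = ∑ v ∈ L, f v := by
      rw [← Finset.add_sum_erase L _ hzL, ← Finset.add_sum_erase L f hzL]
      have h2 : ∑ v ∈ L.erase z, (f v - (if v ∈ Z then 1 else 0)) = ∑ v ∈ L.erase z, f v := by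
        apply Finset.sum_congr rfl
        intro v hv
        have h3 := hnZ v (Finset.mem_of_mem_erase hv) (Finset.ne_of_mem_erase hv)
        simp only [h3, if_false, Nat.sub_zero]
      rw [h2]
      have h4 := (hodd z).pos
      simp only [hzZ, if_true]
      omega
    have h2 : Odd (∑ v ∈ L, f v) := by
      rw [Finset.odd_sum_iff_odd_card_odd]
      have : L.filter (fun x => Odd (f x)) = L := Finset.filter_true_of_mem (fun v _ => hodd v)
      rw [this, hL]
      exact hro.add_even (by decide)
    rw [← h1] at h2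
    rcases Nat.even_or_odd (∑ v ∈ L, (f v - (if v ∈ Z then 1 else 0))) with h5 | h5
    · exact h5
    · exact absurd (h5.add_odd odd_one) (Nat.not_even_iff_odd.mpr h2)
  · omega
  · omega
  · intro v hv
    simp only [hv, if_true]
    by_cases hvz : v = z
    · subst hvz
      simp only [hzZ, if_true]
      omega
    · have := hle v hv hvz
      omega
  · have e1 : ∑ v ∈ L, ((if v ∈ L then f v - (if v ∈ Z then 1 else 0) else 0) - r) +
        ∑ v ∈ L, (r - (if v ∈ L then f v - (if v ∈ Z then 1 else 0) else 0)) ≤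
        ∑ v ∈ L, (r - f v) + 1 := by
      have h1 : (1 : ℕ) = ∑ v ∈ L, if v = z then 1 else 0 := by
        rw [Finset.sum_ite_eq' L z, if_pos hzL]
      rw [h1, ← Finset.sum_add_distrib, ← Finset.sum_add_distrib]
      refine Finset.sum_le_sum (fun v hv => ?_)
      simp only [hv, if_true]
      by_cases hvz : v = z
      · subst hvz
        simp only [hzZ, if_true]
        omega
      · have := hle v hv hvz
        have := hnZ v hv hvz
        simp only [this, hvz, if_false]
        omega
    omega
  · have : L.filter (fun v => r < (if v ∈ L then f v - (if v ∈ Z then 1 else 0) else 0)) ⊆ {z} := by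
      intro v hv
      rw [Finset.mem_filter] at hv
      obtain ⟨hv1, hv2⟩ := hv
      simp only [hv1, if_true] at hv2
      rw [Finset.mem_singleton]
      by_contra hvz
      have := hle v hv1 hvz
      omega
    have := Finset.card_le_card this
    rw [Finset.card_singleton] at this
    omega

/-- The cut vertex template with the blocks given. -/
private theorem t1_core (f : V → ℕ) (D r b c : ℕ) (hr : 3 ≤ r) (hro : Odd r)
    (hrD : r < D) (hb : 2 ≤ b) (hbe : Even b) (hodd : ∀ v, Odd (f v))
    (u : V) (hu : f u = D) (Q P C L1 L2 : Finset V)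
    (H : SimpleGraph (Option Q))
    (hH : ∀ o, (H.neighborSet o).ncard = Option.elim o c (fun i => r - f i))
    (hce : Even c) (huC : u ∉ C) (hCcard : C.card = r)
    (hPC : P ⊆ C) (hPQ : ∀ v ∈ P, v ∈ Q) (hP : ∀ v, v ∈ Q → f v < r → v ∈ P)
    (hCle : ∀ v ∈ C, f v ≤ r) (hCf : ∀ v ∈ C, v ∉ P → f v = r)
    (h12 : Disjoint L1 L2) (hun : L1 ∪ L2 = univ \ insert u C)
    (h1c : L1.card = r + 2) (h2c : L2.card = r + b) (z : V) (hzL : z ∈ L1)
    (hz : f z = r ∨ f z = r + 2) (hle : ∀ v ∈ L1, v ≠ z → f v ≤ r)
    (hY : ∑ v ∈ L1, (r - f v) + 1 ≤ r) (h2r : ∀ v ∈ L2, r ≤ f v) (h2m : ∀ v ∈ L2, f v ≤ r + b)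
    (hB : (L2.filter fun v => f v = r + b).card + 1 ≤ D - r + c)
    (hp : (L2.filter fun v => r < f v).card < r)
    (hη : D - r + c ≤ (b - 1) * (r - (L2.filter fun v => r < f v).card) + 1)
    (hg : D - r + c ≤ r + b) (hcr : c ≤ r) : BadReal f := by
  have hDo : Odd D := hu ▸ hodd u
  have hDr : Even (D - r) := Nat.Odd.sub_odd hDo hro
  have hge : Even (D - r + c) := hDr.add hce
  obtain ⟨Z2, hBZ, hZ2, hZ2c⟩ := Finset.exists_subsuperset_card_eq
    (s := L2.filter fun v => f v = r + b) (t := L2) (n := D - r + c - 1)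
    (Finset.filter_subset _ _) (by omega) (by omega)
  have hzL2 : z ∉ L2 := fun h => Finset.disjoint_left.mp h12 hzL h
  have hzZ2 : z ∉ Z2 := fun h => hzL2 (hZ2 h)
  have hZc : (insert z Z2).card = D - r + c := by
    rw [Finset.card_insert_of_notMem hzZ2, hZ2c]; omega
  have hL1Z : L1 ∩ insert z Z2 = {z} := by
    ext x
    rw [Finset.mem_inter, Finset.mem_insert, Finset.mem_singleton]
    constructor
    · rintro ⟨h1, h2 | h2⟩
      · exact h2
      · exact absurd (hZ2 h2) (fun h => Finset.disjoint_left.mp h12 h1 h)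
    · rintro rfl
      exact ⟨hzL, Or.inl rfl⟩
  have hL2Z : L2 ∩ insert z Z2 = Z2 := by
    ext x
    rw [Finset.mem_inter, Finset.mem_insert]
    constructor
    · rintro ⟨h1, h2 | h2⟩
      · exact absurd (h2 ▸ h1) hzL2
      · exact h2
    · intro h
      exact ⟨hZ2 h, Or.inr h⟩
  have huN : u ∉ L1 ∪ L2 := by
    rw [hun]
    intro h
    exact (Finset.mem_sdiff.mp h).2 (Finset.mem_insert_self _ _)
  have hu1 : u ∉ L1 := fun h => huN (Finset.mem_union_left _ h)
  have hu2 : u ∉ L2 := fun h => huN (Finset.mem_union_right _ h)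
  refine cut_glue f u L1 L2 (insert z Z2) h12 hu1 hu2 ?_ ?_ ?_ (fun z _ => (hodd z).pos) ?_ ?_ ?_ ?_
  · rw [h1c]; exact hro.add_even (by decide)
  · rw [h2c]; exact hro.add_even hbe
  · exact Finset.insert_subset (Finset.mem_union_left _ hzL)
      (hZ2.trans Finset.subset_union_right)
  · rw [hZc, hu]; omega
  · exact t1_small f r hr hro hodd L1 _ z h1c hzL hL1Z hz hle hY
  · apply t1_block f r b hr hb L2 _ h2c _ h2r h2m _ hp
    · rw [hL2Z, hZ2c]; omega
    · have hsum : ∑ v ∈ L2, (if v ∈ insert z Z2 then 1 else 0) = D - r + c - 1 := by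
        rw [Finset.sum_ite_mem, Finset.sum_const, smul_eq_mul, mul_one, hL2Z, hZ2c]
      have h1 : ∑ v ∈ L2, (f v - (if v ∈ insert z Z2 then 1 else 0)) + (D - r + c - 1) =
          ∑ v ∈ L2, f v := by
        rw [← hsum, ← Finset.sum_add_distrib]
        refine Finset.sum_congr rfl (fun v _ => Nat.sub_add_cancel ?_)
        have := (hodd v).pos
        split_ifs <;> omega
      have h2 : Odd (∑ v ∈ L2, f v) := by
        rw [Finset.odd_sum_iff_odd_card_odd]
        have : L2.filter (fun x => Odd (f x)) = L2 :=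
          Finset.filter_true_of_mem (fun v _ => hodd v)
        rw [this, h2c]
        exact hro.add_even hbe
      have h3 : Odd (D - r + c - 1) := Nat.Even.sub_odd (by omega) hge (by decide)
      rw [← h1] at h2
      rcases Nat.even_or_odd (∑ v ∈ L2, (f v - (if v ∈ insert z Z2 then 1 else 0))) with h | h
      · exact h
      · exact absurd (h.add_odd h3) (Nat.not_even_iff_odd.mpr h2)
    · intro v hv hfv
      exact Finset.mem_insert_of_mem (hBZ (Finset.mem_filter.mpr ⟨hv, hfv⟩))
  · have h := exc_third (fun v => min (f v) r) r u (by omega) (fun v => min_le_right _ _) Q c P C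
      huC hCcard hPC hPQ (fun v h1 h2 => hP v h1 (by omega))
      (fun v h1 h2 => by have := hCf v h1 h2; omega) H
      (fun o => by
        rw [hH]
        cases o with
        | none => rfl
        | some i => simp only [Option.elim]; omega)
    have heq : (fun v => if v ∈ insert u C then (if v = u then r - c else min (f v) r) else 0) =
        (fun v => if v ∈ L1 ∪ L2 then 0 else if v = u then f u - (insert z Z2).card else f v) := by
      funext v
      rw [hun, hZc, hu]
      by_cases hv : v ∈ insert u C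
      · have h1 : v ∉ univ \ insert u C := fun h => (Finset.mem_sdiff.mp h).2 hv
        simp only [hv, h1, if_true, if_false]
        by_cases hvu : v = u
        · simp only [hvu, if_true]; omega
        · have hvC : v ∈ C := (Finset.mem_insert.mp hv).resolve_left hvu
          have := hCle v hvC
          simp only [hvu, if_false]; omega
      · have h1 : v ∈ univ \ insert u C := Finset.mem_sdiff.mpr ⟨Finset.mem_univ _, hv⟩
        simp only [hv, h1, if_true, if_false]
    rw [← heq]
    exact h

/-- M62-7b. -/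
theorem t1_bad (f : V → ℕ) (he : Even (∑ v, f v)) (D r b : ℕ) (hr : 3 ≤ r) (hro : Odd r)
    (hD : ∀ v, f v ≤ D) (hrD : r < D) (hb : 2 ≤ b) (hbe : Even b)
    (hn : Fintype.card V = 3 * r + 3 + b) (hcard : 2 * D + 6 ≤ Fintype.card V)
    (hodd : ∀ v, Odd (f v))
    (hdc : ∑ v, min (f v - r) (b / 2 + 1) + ∑ v, (r - f v) < r)
    (u : V) (hu : f u = D) (hub : ∀ v, v ≠ u → f v ≤ r + b)
    (Q : Finset V) (c : ℕ) (hQ : IsValence (fun o : Option Q => o.elim c fun i => r - f i))
    (hg : (univ.filter fun v => v ≠ u ∧ f v = r + b).card + (if b = 2 then 0 else 1)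
      ≤ D - r + c) :
    BadReal f := by
  classical
  obtain ⟨H, hH⟩ := hQ
  set N : Finset V := univ.filter (fun v => f v < r) with hN
  set E : Finset V := univ.filter (fun v => r < f v) with hE
  set R0 : Finset V := univ.filter (fun v => f v = r) with hR0
  have mN : ∀ v, v ∈ N ↔ f v < r := fun v => by simp [hN]
  have mE : ∀ v, v ∈ E ↔ r < f v := fun v => by simp [hE]
  have mR : ∀ v, v ∈ R0 ↔ f v = r := fun v => by simp [hR0]
  have hE2 : 2 * E.card ≤ ∑ v, min (f v - r) (b / 2 + 1) := by
    calc 2 * E.card = ∑ v ∈ E, 2 := by rw [Finset.sum_const, smul_eq_mul, mul_comm]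
      _ ≤ ∑ v ∈ E, min (f v - r) (b / 2 + 1) := by
        refine Finset.sum_le_sum (fun v hv => ?_)
        have h1 := (mE v).mp hv
        obtain ⟨x, hx⟩ := Nat.Odd.sub_odd (hodd v) hro
        omega
      _ ≤ ∑ v, min (f v - r) (b / 2 + 1) := Finset.sum_le_sum_of_subset (Finset.subset_univ _)
  have hN2 : 2 * N.card ≤ ∑ v, (r - f v) := by
    calc 2 * N.card = ∑ v ∈ N, 2 := by rw [Finset.sum_const, smul_eq_mul, mul_comm]
      _ ≤ ∑ v ∈ N, (r - f v) := by
        refine Finset.sum_le_sum (fun v hv => ?_)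
        have h1 := (mN v).mp hv
        obtain ⟨x, hx⟩ := Nat.Odd.sub_odd hro (hodd v)
        omega
      _ ≤ ∑ v, (r - f v) := Finset.sum_le_sum_of_subset (Finset.subset_univ _)
  have hcnt : N.card + E.card + R0.card = 3 * r + 3 + b := by
    have h1 : Disjoint N E := by
      rw [Finset.disjoint_left]
      intro v h1 h2
      rw [mN] at h1; rw [mE] at h2; omega
    have h2 : Disjoint (N ∪ E) R0 := by
      rw [Finset.disjoint_left]
      intro v h1 h2
      rw [Finset.mem_union, mN, mE] at h1; rw [mR] at h2; omega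
    rw [← Finset.card_union_of_disjoint h1, ← Finset.card_union_of_disjoint h2, ← hn,
      ← Finset.card_univ]
    congr 1
    ext v
    simp only [Finset.mem_union, mN, mE, mR, Finset.mem_univ, iff_true]
    omega
  have huE : u ∈ E := by rw [mE, hu]; exact hrD
  have hEpos : 1 ≤ E.card := Finset.card_pos.mpr ⟨u, huE⟩
  set P : Finset V := Q.filter (fun v => f v < r) with hPdef
  have hPQ : ∀ v ∈ P, v ∈ Q := fun v hv => (Finset.mem_filter.mp hv).1
  have hP : ∀ v, v ∈ Q → f v < r → v ∈ P := fun v h1 h2 => Finset.mem_filter.mpr ⟨h1, h2⟩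
  have hPN : P ⊆ N := fun v hv => (mN v).mpr (Finset.mem_filter.mp hv).2
  have hcP : c ≤ P.card := by
    have h1 : (H.neighborSet none).ncard = c := hH none
    have h2 : H.neighborSet none ⊆ (fun v : V => if h : v ∈ Q then (some ⟨v, h⟩ : Option Q)
        else none) '' (P : Set V) := by
      intro o ho
      have h3 : 0 < (H.neighborSet o).ncard := by
        rw [Set.ncard_pos (Set.toFinite _)]
        exact ⟨none, ho.symm⟩
      rw [hH] at h3
      cases o with
      | none => exact absurd ho (H.irrefl)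
      | some i =>
        simp only [Option.elim] at h3
        refine ⟨i, hP i i.2 (by omega), ?_⟩
        simp only [i.2, dif_pos]
    rw [← h1]
    refine (Set.ncard_le_ncard h2 (Set.toFinite _)).trans ?_
    refine (Set.ncard_image_le (Set.toFinite _)).trans ?_
    rw [Set.ncard_coe_finset]
  have hce : Even c := by
    have h1 : Even (∑ o : Option Q, H.degree o) := by
      rw [SimpleGraph.sum_degrees_eq_twice_card_edges]
      exact even_two_mul _
    have h2 : ∀ o : Option Q, H.degree o = Option.elim o c (fun i => r - f i) := by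
      intro o
      have h3 : (H.neighborSet o).ncard = Option.elim o c (fun i => r - f i) := hH o
      rw [← h3, ← SimpleGraph.card_neighborSet_eq_degree, Set.ncard_eq_toFinset_card',
        Set.toFinset_card]
    rw [Fintype.sum_option, h2] at h1
    have h3 : Even (∑ i : Q, H.degree (some i)) := by
      refine Finset.even_sum _ (fun i _ => ?_)
      rw [h2]
      exact Nat.Odd.sub_odd hro (hodd i)
    exact (Nat.even_add.mp h1).mpr h3
  have hPcard : P.card ≤ N.card := Finset.card_le_card hPN
  have hDo : Odd D := hu ▸ hodd u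
  have hDr2 : r + 2 ≤ D := by
    obtain ⟨x, hx⟩ := Nat.Odd.sub_odd hDo hro
    omega
  -- the set `C`
  obtain ⟨C, hPC, hCsub, hCcard⟩ := Finset.exists_subsuperset_card_eq
    (s := P) (t := R0 ∪ P) (n := r) Finset.subset_union_right (by omega) (by
      have := Finset.card_le_card (Finset.subset_union_left (s₁ := R0) (s₂ := P))
      omega)
  have hCle : ∀ v ∈ C, f v ≤ r := by
    intro v hv
    rcases Finset.mem_union.mp (hCsub hv) with h1 | h1
    · exact ((mR v).mp h1).le
    · exact ((mN v).mp (hPN h1)).le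
  have hCf : ∀ v ∈ C, v ∉ P → f v = r := by
    intro v hv hvP
    rcases Finset.mem_union.mp (hCsub hv) with h1 | h1
    · exact (mR v).mp h1
    · exact absurd h1 hvP
  have huC : u ∉ C := fun h => by
    have := hCle u h
    omega
  set R : Finset V := univ \ insert u C with hR
  have hRcard : R.card = 2 * r + 2 + b := by
    rw [hR, Finset.card_sdiff_of_subset (Finset.subset_univ _), Finset.card_univ, hn,
      Finset.card_insert_of_notMem huC, hCcard]
    omega
  have mRR : ∀ v, v ∈ R ↔ v ≠ u ∧ v ∉ C := fun v => by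
    simp only [hR, Finset.mem_sdiff, Finset.mem_univ, true_and, Finset.mem_insert, not_or]
  -- the special vertex
  obtain ⟨s, hsE, hs1, hs2, hsB⟩ : ∃ s : Finset V, s ⊆ E.erase u ∧ s.card ≤ 1 ∧
      (∀ v ∈ s, f v = r + 2) ∧
      (univ.filter fun v => (v ≠ u ∧ f v = r + b) ∧ v ∉ s).card + 1 ≤ D - r + c := by
    by_cases hlt : (univ.filter fun v => v ≠ u ∧ f v = r + b).card + 1 ≤ D - r + c
    · refine ⟨∅, by simp, by simp, by simp, ?_⟩
      simpa using hlt
    · have hb2 : b = 2 := by
        by_contra hb2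
        rw [if_neg hb2] at hg
        exact hlt hg
      rw [if_pos hb2] at hg
      obtain ⟨z, hz⟩ := Finset.card_pos.mp
        (show 0 < (univ.filter fun v => v ≠ u ∧ f v = r + b).card by omega)
      have hz' := (Finset.mem_filter.mp hz).2
      refine ⟨{z}, ?_, by simp, ?_, ?_⟩
      · rw [Finset.singleton_subset_iff, Finset.mem_erase, mE]
        exact ⟨hz'.1, by omega⟩
      · intro v hv
        rw [Finset.mem_singleton] at hv
        rw [hv]; omega
      · have h1 : (univ.filter fun v => (v ≠ u ∧ f v = r + b) ∧ v ∉ ({z} : Finset V)) =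
            (univ.filter fun v => v ≠ u ∧ f v = r + b).erase z := by
          ext v
          simp only [Finset.mem_filter, Finset.mem_univ, true_and, Finset.mem_singleton,
            Finset.mem_erase]
          tauto
        rw [h1, Finset.card_erase_of_mem hz]
        omega
  have hER : E.erase u ⊆ R := by
    intro v hv
    rw [Finset.mem_erase, mE] at hv
    rw [mRR]
    exact ⟨hv.1, fun h => by have := hCle v h; omega⟩
  -- `L1`
  have hsub : N \ P ∪ s ⊆ R \ E ∪ s := by
    apply Finset.union_subset_union _ (Finset.Subset.refl _)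
    intro v hv
    rw [Finset.mem_sdiff, mN] at hv
    rw [Finset.mem_sdiff, mRR, mE]
    refine ⟨⟨?_, ?_⟩, by omega⟩
    · rintro rfl
      omega
    · intro h
      rcases Finset.mem_union.mp (hCsub h) with h1 | h1
      · rw [mR] at h1; omega
      · exact hv.2 h1
  have hc1 : (N \ P ∪ s).card ≤ r + 2 := by
    have h1 := Finset.card_union_le (N \ P) s
    have h2 := Finset.card_le_card (Finset.sdiff_subset (s := N) (t := P))
    omega
  have hc2 : r + 2 ≤ (R \ E ∪ s).card := by
    have h1 := Finset.card_le_card (Finset.subset_union_left (s₁ := R \ E) (s₂ := s))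
    have h2 := Finset.le_card_sdiff E R
    omega
  obtain ⟨L1, hL1a, hL1b, hL1c⟩ := Finset.exists_subsuperset_card_eq hsub hc1 hc2
  have hsL1 : s ⊆ L1 := Finset.subset_union_right.trans hL1a
  have hL1R : L1 ⊆ R := hL1b.trans
    (Finset.union_subset Finset.sdiff_subset (hsE.trans hER))
  obtain ⟨z, hzL, hz, hsz⟩ : ∃ z ∈ L1, (f z = r ∨ f z = r + 2) ∧ s ⊆ {z} := by
    rcases s.eq_empty_or_nonempty with hs | ⟨z, hz⟩
    · have h1 : (L1 \ N).Nonempty := by
        rw [← Finset.card_pos]
        have := Finset.le_card_sdiff N L1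
        omega
      obtain ⟨z, hz⟩ := h1
      rw [Finset.mem_sdiff, mN] at hz
      refine ⟨z, hz.1, Or.inl ?_, by simp [hs]⟩
      have h2 := hL1b hz.1
      rw [hs, Finset.union_empty, Finset.mem_sdiff, mE] at h2
      omega
    · refine ⟨z, hsL1 hz, Or.inr (hs2 z hz), ?_⟩
      intro x hx
      rw [Finset.mem_singleton]
      exact Finset.card_le_one.mp hs1 x hx z hz
  set L2 : Finset V := R \ L1 with hL2
  have hL2c : L2.card = r + b := by
    rw [hL2, Finset.card_sdiff_of_subset hL1R, hRcard, hL1c]; omega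
  have hp2 : (L2.filter fun v => r < f v).card + 1 ≤ E.card := by
    have h1 : (L2.filter fun v => r < f v) ⊆ E.erase u := by
      intro v hv
      rw [Finset.mem_filter, hL2, Finset.mem_sdiff, mRR] at hv
      rw [Finset.mem_erase, mE]
      exact ⟨hv.1.1.1, hv.2⟩
    have h2 := Finset.card_le_card h1
    rw [Finset.card_erase_of_mem huE] at h2
    omega
  refine t1_core f D r b c hr hro hrD hb hbe hodd u hu Q P C L1 L2 H hH hce huC hCcard hPC hPQ hP
    hCle hCf Finset.disjoint_sdiff (Finset.union_sdiff_of_subset hL1R) hL1c hL2c z hzL hz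
    ?_ ?_ ?_ ?_ ?_ ?_ ?_ ?_ ?_
  · intro v hv hvz
    rcases Finset.mem_union.mp (hL1b hv) with h1 | h1
    · rw [Finset.mem_sdiff, mE] at h1
      omega
    · exact absurd (Finset.mem_singleton.mp (hsz h1)) hvz
  · have h1 : ∑ v ∈ L1, (r - f v) ≤ ∑ v, (r - f v) :=
      Finset.sum_le_sum_of_subset (Finset.subset_univ _)
    omega
  · intro v hv
    by_contra hlt
    rw [hL2, Finset.mem_sdiff, mRR] at hv
    apply hv.2
    apply hL1a
    apply Finset.mem_union_left
    rw [Finset.mem_sdiff, mN]
    exact ⟨by omega, fun h => hv.1.2 (hPC h)⟩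
  · intro v hv
    rw [hL2, Finset.mem_sdiff, mRR] at hv
    exact hub v hv.1.1
  · have h1 : (L2.filter fun v => f v = r + b) ⊆
        (univ.filter fun v => (v ≠ u ∧ f v = r + b) ∧ v ∉ s) := by
      intro v hv
      rw [Finset.mem_filter, hL2, Finset.mem_sdiff, mRR] at hv
      rw [Finset.mem_filter]
      exact ⟨Finset.mem_univ _, ⟨hv.1.1.1, hv.2⟩, fun h => hv.1.2 (hsL1 h)⟩
    have h2 := Finset.card_le_card h1
    omega
  · omega
  · set m := r - (L2.filter fun v => r < f v).card with hm
    have hm3 : 3 ≤ m := by omega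
    obtain ⟨b', hb'⟩ : ∃ b', b = b' + 2 := ⟨b - 2, by omega⟩
    have h1 : (b - 1) * m = m + b' * m := by
      rw [hb', show b' + 2 - 1 = b' + 1 by omega]; ring
    have h2 : b' * 3 ≤ b' * m := Nat.mul_le_mul_left _ hm3
    omega
  · omega
  · omega

end Pool.Agent.MP_6e0dc6_co
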