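import Pool.Agent.Lib.MP_6e0dc6_co.Main
import Pool.Agent.Lib.MP_6e0dc6_co.Half
import Pool.Agent.Lib.MP_6e0dc6_co.EvenBad
import Pool.Agent.Lib.MP_6e0dc6_co.LeafBad
import Pool.Agent.Lib.MP_6e0dc6_co.Balanced
import Pool.Agent.Lib.MP_6e0dc6_co.TOne
import Pool.Agent.Lib.MP_6e0dc6_co.CutForce
import Pool.Agent.Lib.MP_6e0dc6_co.ForceA
import Pool.Agent.Lib.MP_6e0dc6_co.ForceB

/-!
Classification of the matching-forcing sequences with `n ≥ 2 D + 6`.
-/

namespace Pool.Agent.MP_6e0dc6_co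

open Finset

variable {V : Type*} [Fintype V] [DecidableEq V]

/-- The condition on the terms (with the parameter `r`) that characterizes matching-forcing
sequences with `n ≥ 2 D + 6`, apart from the sequence of ones. -/
def ForcingCond (f : V → ℕ) (D r : ℕ) : Prop :=
  3 ≤ r ∧ r ≤ D ∧ Odd r ∧ (∀ v, Odd (f v) ∧ 3 ≤ f v) ∧
  ∑ v, (f v - r) + ∑ v, (r - f v) + 2 ≤ 2 * r ∧
  (3 * r ≤ Fintype.card V + 1 → (univ.filter fun v => f v + 2 = r).card + 1 ≠ r) ∧
  (r = 7 → 22 ≤ Fintype.card V → (univ.filter fun v => f v = 3).card ≠ 3) ∧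
  (3 * r + 3 ≤ Fintype.card V →
    ∑ v, min (f v - r) ((Fintype.card V - 3 * r - 1) / 2) + ∑ v, (r - f v) < r) ∧
  (r = D → Fintype.card V ≤ 3 * r + 5) ∧
  (r = D → Fintype.card V = 3 * r + 5 → ∀ (Q : Finset V) (c : ℕ),
    IsValence (fun o : Option Q => o.elim c fun i => r - f i) → c < 2) ∧
  (r < D → 3 * r + 5 ≤ Fintype.card V → ∀ (u : V) (Q : Finset V) (c : ℕ), f u = D →
    IsValence (fun o : Option Q => o.elim c fun i => r - f i) →
    (∃ v, v ≠ u ∧ Fintype.card V - 2 * r - 3 < f v) ∨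
    D - r + c < (univ.filter fun v => v ≠ u ∧ f v = Fintype.card V - 2 * r - 3).card
      + (if Fintype.card V = 3 * r + 5 then 0 else 1))

omit [DecidableEq V] in
theorem even_card_of_odd (f : V → ℕ) (he : Even (∑ v, f v)) (hodd : ∀ v, Odd (f v)) :
    Even (Fintype.card V) := by
  have h3 := (Finset.even_sum_iff_even_card_odd (s := (univ : Finset V)) f).mp he
  have h4 : (univ.filter fun v => Odd (f v)) = univ := by
    apply Finset.filter_true_of_mem
    intro v _; exact hodd v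
  rw [h4, Finset.card_univ] at h3
  exact h3

/-- Exactly `r - 1` terms `r - 2`: then all other terms are `r`. -/
theorem main2_F (f : V → ℕ) (he : Even (∑ v, f v)) (r : ℕ) (hr : 3 ≤ r)
    (hXY : ∑ v, (f v - r) + ∑ v, (r - f v) + 2 ≤ 2 * r)
    (hcard : 3 * r ≤ Fintype.card V + 1)
    (h : (univ.filter fun v => f v + 2 = r).card + 1 = r) : BadReal f := by
  set T := univ.filter fun v => f v + 2 = r with hT
  have hT2 : ∀ v ∈ T, f v = r - 2 := fun v hv => by
    rw [hT, Finset.mem_filter] at hv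
    omega
  have hsplit : ∑ v, (r - f v) = ∑ v ∈ T, (r - f v) + ∑ v ∈ Tᶜ, (r - f v) :=
    (Finset.sum_add_sum_compl T _).symm
  have hTs : ∑ v ∈ T, (r - f v) = T.card * 2 := by
    rw [Finset.sum_const_nat]
    intro v hv
    have := hT2 v hv
    omega
  have hX0 : ∑ v, (f v - r) = 0 := by omega
  have hY0 : ∑ v ∈ Tᶜ, (r - f v) = 0 := by omega
  rw [Finset.sum_eq_zero_iff] at hX0 hY0
  apply f_bad f he r hr (by omega) T (by omega) hT2
  intro v hv
  have h1 := hX0 v (Finset.mem_univ _)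
  have h2 := hY0 v (Finset.mem_compl.mpr hv)
  omega

/-- Exactly three terms `3`, `r = 7`: then all other terms are `7`. -/
theorem main2_S (f : V → ℕ) (hn : Even (Fintype.card V))
    (hXY : ∑ v, (f v - 7) + ∑ v, (7 - f v) + 2 ≤ 2 * 7)
    (hcard : 22 ≤ Fintype.card V)
    (h : (univ.filter fun v => f v = 3).card = 3) : BadReal f := by
  set T := univ.filter fun v => f v = 3 with hT
  have hT2 : ∀ v ∈ T, f v = 3 := fun v hv => by
    rw [hT, Finset.mem_filter] at hv
    omega
  have hsplit : ∑ v, (7 - f v) = ∑ v ∈ T, (7 - f v) + ∑ v ∈ Tᶜ, (7 - f v) :=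
    (Finset.sum_add_sum_compl T _).symm
  have hTs : ∑ v ∈ T, (7 - f v) = T.card * 4 := by
    rw [Finset.sum_const_nat]
    intro v hv
    have := hT2 v hv
    omega
  have hX0 : ∑ v, (f v - 7) = 0 := by omega
  have hY0 : ∑ v ∈ Tᶜ, (7 - f v) = 0 := by omega
  rw [Finset.sum_eq_zero_iff] at hX0 hY0
  apply seven_bad f hcard hn T h hT2
  intro v hv
  have h1 := hX0 v (Finset.mem_univ _)
  have h2 := hY0 v (Finset.mem_compl.mpr hv)
  omega

/-- All valence sequences with `n ≥ 2 D + 6` that are not matching-forcing. -/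
theorem bad_main2 (f : V → ℕ) (hf : IsValence f) (D : ℕ) (hD : ∀ v, f v ≤ D)
    (hn : 2 * D + 6 ≤ Fintype.card V) (hneven : Even (Fintype.card V))
    (h1 : ¬ ∀ v, f v = 1) (h2 : ¬ ∃ r, ForcingCond f D r) : BadReal f := by
  classical
  by_cases hz : ∃ v, f v = 0
  · obtain ⟨v, hv⟩ := hz
    exact bad_of_zero f hf v hv
  push Not at hz
  have hpos : ∀ v, 1 ≤ f v := fun v => Nat.one_le_iff_ne_zero.mpr (hz v)
  have hsum := even_sum f hf
  obtain ⟨h, hh⟩ : ∃ h, Fintype.card V = 2 * h + 2 := by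
    rcases hneven with ⟨m, hm⟩
    exact ⟨m - 1, by omega⟩
  obtain ⟨S, _, hSc, hStop⟩ := exists_top (univ : Finset V) f h (by
    rw [Finset.card_univ]; omega)
  have htop : ∀ s ∈ S, ∀ t ∉ S, f t ≤ f s := fun s hs t ht => hStop s hs t (Finset.mem_univ _) ht
  by_cases hle : ∑ t ∈ Sᶜ, f t ≤ ∑ s ∈ S, f s
  · exact half_bad f hf D h hD hh (by omega) hpos S hSc htop hle
  push Not at hle
  have hTc : Sᶜ.card = h + 2 := by rw [Finset.card_compl, hSc, hh]; omega
  obtain ⟨x0, hx0, hmax⟩ := Finset.exists_max_image Sᶜ f (Finset.card_pos.mp (by omega))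
  obtain ⟨r, hrdef⟩ : ∃ r, r = f x0 := ⟨_, rfl⟩
  have hrD : r ≤ D := hrdef ▸ hD x0
  have hr1 : 1 ≤ r := hrdef ▸ hpos x0
  have hXY : ∑ v, (f v - r) + ∑ v, (r - f v) + 2 ≤ 2 * r := by
    have hS1 : ∀ s ∈ S, r ≤ f s := fun s hs => by
      rw [hrdef]; exact htop s hs x0 (Finset.mem_compl.mp hx0)
    have hT1 : ∀ t ∈ Sᶜ, f t ≤ r := fun t ht => by rw [hrdef]; exact hmax t ht
    have e1 : ∑ s ∈ S, f s = ∑ s ∈ S, (f s - r) + h * r := by
      rw [← hSc, ← smul_eq_mul, ← Finset.sum_const, ← Finset.sum_add_distrib]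
      apply Finset.sum_congr rfl
      intro s hs
      have := hS1 s hs
      omega
    have e2 : ∑ t ∈ Sᶜ, f t + ∑ t ∈ Sᶜ, (r - f t) = (h + 2) * r := by
      rw [← hTc, ← smul_eq_mul, ← Finset.sum_const, ← Finset.sum_add_distrib]
      apply Finset.sum_congr rfl
      intro s hs
      have := hT1 s hs
      omega
    have e3 : ∑ v, (f v - r) = ∑ s ∈ S, (f s - r) + ∑ t ∈ Sᶜ, (f t - r) :=
      (Finset.sum_add_sum_compl S _).symm
    have e4 : ∑ v, (r - f v) = ∑ s ∈ S, (r - f s) + ∑ t ∈ Sᶜ, (r - f t) :=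
      (Finset.sum_add_sum_compl S _).symm
    have e5 : ∑ t ∈ Sᶜ, (f t - r) = 0 := by
      rw [Finset.sum_eq_zero_iff]
      intro t ht
      have := hT1 t ht
      omega
    have e6 : ∑ s ∈ S, (r - f s) = 0 := by
      rw [Finset.sum_eq_zero_iff]
      intro t ht
      have := hS1 t ht
      omega
    have e7 : ∑ v, f v = ∑ s ∈ S, f s + ∑ t ∈ Sᶜ, f t := (Finset.sum_add_sum_compl S _).symm
    rw [e7] at hsum
    rcases hsum with ⟨m, hm⟩
    have e8 : (h + 2) * r = h * r + 2 * r := by ring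
    rw [e3, e4, e5, e6]
    omega
  by_cases hw : ∃ w, Even (f w)
  · obtain ⟨w, hw⟩ := hw
    exact even_bad f hsum D r hD hn hr1 hrD hpos hXY w hw
  push Not at hw
  have hodd : ∀ v, Odd (f v) := fun v => Nat.not_even_iff_odd.mp (hw v)
  have hro : Odd r := hrdef ▸ hodd x0
  have hr3 : 3 ≤ r := by
    by_contra hcon
    have hr : r = 1 := by
      rcases hro with ⟨a, ha⟩; omega
    apply h1
    intro v
    have h3 : ∑ v, (f v - r) = 0 := by omega
    rw [Finset.sum_eq_zero_iff] at h3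
    have := h3 v (Finset.mem_univ _)
    have := hpos v
    omega
  by_cases hl : ∃ l, f l = 1
  · obtain ⟨l, hl⟩ := hl
    exact leaf_bad f hsum D r hD hn hr3 hrD hodd hro hXY l hl
  push Not at hl
  have h3 : ∀ v, 3 ≤ f v := fun v => by
    have := hl v
    rcases hodd v with ⟨a, ha⟩
    omega
  by_contra hbad
  have hDC : 3 * r + 3 ≤ Fintype.card V →
      ∑ v, min (f v - r) ((Fintype.card V - 3 * r - 1) / 2) + ∑ v, (r - f v) < r := by
    intro hc
    by_contra hcon
    push Not at hcon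
    rcases hro with ⟨a, ha⟩
    rcases hneven with ⟨m, hm⟩
    obtain ⟨s, hs⟩ : ∃ s, Fintype.card V = 2 * s + r + 3 := ⟨m - a - 2, by omega⟩
    have hs1 : s + 1 - r = (Fintype.card V - 3 * r - 1) / 2 := by omega
    apply hbad
    apply dc_bad f hsum r s hr1 (by omega) hs hodd ⟨a, ha⟩ hXY
    rw [hs1]
    exact hcon
  apply h2
  refine ⟨r, hr3, hrD, hro, fun v => ⟨hodd v, h3 v⟩, hXY, ?_, ?_, hDC, ?_, ?_, ?_⟩
  · intro hc hF
    exact hbad (main2_F f hsum r hr3 hXY hc hF)
  · intro h7 hc hS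
    subst h7
    exact hbad (main2_S f hneven hXY hc hS)
  · intro hrD'
    by_contra hcon
    push Not at hcon
    have hY : ∑ v, (f v - r) + ∑ v, (r - f v) < r := by
      have := hDC (by omega)
      have h0 : ∑ v, (f v - r) = 0 := by
        rw [Finset.sum_eq_zero_iff]
        intro v _
        have := hD v
        omega
      omega
    apply hbad
    have hn7 : 3 * r + 7 ≤ Fintype.card V := by
      rcases hro with ⟨a, ha⟩
      rcases hneven with ⟨m, hm⟩
      omega
    exact nr_long f hsum D r hD (by omega) hn7 hr3 hrD hodd hro (Or.inl hrD'.symm) hY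
  · intro hrD' hc Q c hQ
    by_contra hcon
    push Not at hcon
    have hY : ∑ v, (r - f v) < r := by
      have := hDC (by omega)
      omega
    apply hbad
    exact nr_exc f hsum r hr3 hro hc (by rw [hrD']; exact hD) hodd hY Q c hcon hQ
  · intro hrD' hc u Q c hu hQ
    by_contra hcon
    rw [not_or] at hcon
    obtain ⟨hc1, hc2⟩ := hcon
    push Not at hc1 hc2
    obtain ⟨b, hb⟩ : ∃ b, Fintype.card V = 3 * r + 3 + b := ⟨Fintype.card V - (3 * r + 3), by omega⟩
    have hbe : Even b := by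
      rcases hro with ⟨a, ha⟩
      rcases hneven with ⟨m, hm⟩
      exact ⟨m - 3 * a - 3, by omega⟩
    have hb2 : 2 ≤ b := by
      rcases hbe with ⟨m, hm⟩
      omega
    have e1 : Fintype.card V - 2 * r - 3 = r + b := by omega
    have e2 : (Fintype.card V - 3 * r - 1) / 2 = b / 2 + 1 := by omega
    rw [e1] at hc1 hc2
    apply hbad
    apply t1_bad f hsum D r b hr3 hro hD hrD' hb2 hbe hb hn hodd _ u hu hc1 Q c hQ
    · have e3 : (b = 2) ↔ (Fintype.card V = 3 * r + 5) := by omega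
      by_cases hb' : b = 2
      · rw [if_pos hb']
        rw [if_pos (e3.mp hb')] at hc2
        exact hc2
      · rw [if_neg hb']
        rw [if_neg (fun h => hb' (e3.mpr h))] at hc2
        exact hc2
    · rw [← e2]
      exact hDC (by omega)

theorem force_main2 (f : V → ℕ) (hf : IsValence f) (D : ℕ) (hD : ∀ v, f v ≤ D)
    (hDex : ∃ v, f v = D) (hn : 2 * D + 6 ≤ Fintype.card V) (r : ℕ) (h : ForcingCond f D r)
    (G : SimpleGraph V) (hG : ∀ v, (G.neighborSet v).ncard = f v) :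
    ∃ M : G.Subgraph, M.IsPerfectMatching := by
  classical
  obtain ⟨hr3, hrD, hro, hodd3, hXY, hF, hS, hDC, hT1, hT2, hT3⟩ := h
  have hodd : ∀ v, Odd (f v) := fun v => (hodd3 v).1
  have h3 : ∀ v, 3 ≤ f v := fun v => (hodd3 v).2
  have hneven := even_card_of_odd f (even_sum f hf) hodd
  by_contra hM
  obtain ⟨S, F, hB⟩ := Barrier.exists f G hG hneven hM
  by_cases hsmall : Fintype.card V ≤ 3 * r + 1
  · exact force_small f r hr3 hro hodd h3 hneven hXY hsmall hF hS G S F hB
  have hcard : 3 * r + 3 ≤ Fintype.card V := by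
    rcases hro with ⟨a, ha⟩
    rcases hneven with ⟨m, hm⟩
    omega
  have hdc := hDC hcard
  have hY : ∑ v, (r - f v) < r := by omega
  rcases Nat.eq_or_lt_of_le hrD with hrD' | hrD'
  · -- `r = D`
    have h5 := hT1 hrD'
    apply hM
    apply forcing f r hro (by rw [hrD']; exact hD) hodd h3 hY _ G hG
    have h6 : Fintype.card V = 3 * r + 3 ∨ Fintype.card V = 3 * r + 5 := by
      rcases hro with ⟨a, ha⟩
      rcases hneven with ⟨m, hm⟩
      omega
    rcases h6 with h6 | h6
    · exact Or.inl h6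
    · right
      refine ⟨h6, ?_⟩
      rintro ⟨Q, c, hc, hQ⟩
      have := hT2 hrD' h6 Q c hQ
      omega
  -- `r < D`
  have hDr2 : r + 2 ≤ D := by
    obtain ⟨v0, hv0⟩ := hDex
    have := hodd v0
    rw [hv0] at this
    rcases hro with ⟨a, ha⟩
    rcases this with ⟨b, hb⟩
    omega
  have hx : 3 * r + 5 ≤ Fintype.card V → ∃ u v, u ≠ v ∧ f v ≤ f u ∧
      Fintype.card V - 2 * r - 3 ≤ f v := by
    intro hc
    obtain ⟨u, hu⟩ := hDex
    have hemp : IsValence (fun o : Option (∅ : Finset V) => o.elim 0 fun i => r - f i) := by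
      refine ⟨⊥, ?_⟩
      intro o
      rcases o with _ | ⟨i, hi⟩
      · have : (⊥ : SimpleGraph (Option (∅ : Finset V))).neighborSet none = ∅ := by
          ext x; simp
        rw [this]
        simp
      · exact absurd hi (Finset.notMem_empty _)
    rcases hT3 hrD' hc u ∅ 0 hu hemp with ⟨v, hv, hv2⟩ | h7
    · exact ⟨u, v, Ne.symm hv, hu ▸ hD v, hv2.le⟩
    · have h8 : 0 < (univ.filter fun v => v ≠ u ∧ f v = Fintype.card V - 2 * r - 3).card := by
        split_ifs at h7 <;> omega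
      obtain ⟨v, hv⟩ := Finset.card_pos.mp h8
      rw [Finset.mem_filter] at hv
      exact ⟨u, v, Ne.symm hv.2.1, hu ▸ hD v, hv.2.2.ge⟩
  have hcard' : Fintype.card V ≤ 4 * r := by
    by_cases hc : 3 * r + 5 ≤ Fintype.card V
    · obtain ⟨u, v, huv, hle, hv⟩ := hx hc
      have h9 : ∑ x ∈ ({u, v} : Finset V), min (f x - r) ((Fintype.card V - 3 * r - 1) / 2) ≤
          ∑ x, min (f x - r) ((Fintype.card V - 3 * r - 1) / 2) :=
        Finset.sum_le_sum_of_subset (Finset.subset_univ _)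
      rw [Finset.sum_pair huv] at h9
      have h10 : (Fintype.card V - 3 * r - 1) / 2 ≤ f v - r := by omega
      have h11 : (Fintype.card V - 3 * r - 1) / 2 ≤ f u - r := by omega
      rw [Nat.min_eq_right h10, Nat.min_eq_right h11] at h9
      rcases hro with ⟨a, ha⟩
      rcases hneven with ⟨m, hm⟩
      omega
    · omega
  -- the number of large components
  have hl0 : (F.filter fun C => ¬ C.card ≤ r).card ≠ 0 := by
    intro h0
    have hst := hB.star r
    have h12 := Finset.card_filter_add_card_filter_not (s := F) (fun C => C.card ≤ r)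
    rw [hB.card, h0] at h12
    have h13 : ((F.filter fun C => C.card ≤ r).card : ℤ) = S.card + 2 := by omega
    rw [h13] at hst
    have h14 : (0 : ℤ) ≤ ∑ C ∈ F.filter (fun C => C.card ≤ r),
        ((C.card : ℤ) - 1) * ((r : ℤ) - C.card) := by
      apply Finset.sum_nonneg
      intro C hC
      rw [Finset.mem_filter] at hC
      have h15 : 1 ≤ C.card := (hB.odd C hC.1).pos
      have h16 : (0 : ℤ) ≤ (C.card : ℤ) - 1 := by omega
      have h17 : (0 : ℤ) ≤ (r : ℤ) - C.card := by omega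
      exact mul_nonneg h16 h17
    have h18 : ∑ v ∈ S, (f v - r) ≤ ∑ v, (f v - r) :=
      Finset.sum_le_sum_of_subset (Finset.subset_univ _)
    have h19 : ∑ C ∈ F.filter (fun C => C.card ≤ r), ∑ v ∈ C, (r - f v) ≤ ∑ v, (r - f v) := by
      have h20 := hB.sum_le (fun v => r - f v)
      have h21 : ∑ C ∈ F.filter (fun C => C.card ≤ r), ∑ v ∈ C, (r - f v) ≤
          ∑ C ∈ F, ∑ v ∈ C, (r - f v) :=
        Finset.sum_le_sum_of_subset (Finset.filter_subset _ _)
      omega
    have h22 : ((S.card : ℤ) + 2 - S.card) * r = 2 * r := by ring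
    rw [h22] at hst
    omega
  rcases Nat.lt_or_ge (F.filter fun C => ¬ C.card ≤ r).card 2 with hl | hl
  · exact force_one f r D hr3 hro hodd h3 hneven hD hn hXY hcard hcard' hdc hx G S F hB (by omega)
  rcases Nat.eq_or_lt_of_le hl with hl2 | hl3
  · obtain ⟨hS1, C, hC, hCr⟩ := force_two f r hr3 hro hodd h3 hneven hcard hcard' hY G S F hB
      hl2.symm
    exact force_cut f r D hr3 hro hodd hneven hrD' hD hDex hcard (hT3 hrD') G S F hB hl2.symm hS1
      C hC hCr
  · exact force_three f r hr3 hro hodd h3 hneven hcard hcard' hY hx G S F hB hl3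

/-- The classification over an arbitrary finite vertex type, `n ≥ 2 D + 6`. -/
theorem classify2 (f : V → ℕ) (hf : IsValence f) (D : ℕ) (hD : ∀ v, f v ≤ D) (hD' : ∃ v, f v = D)
    (hn : 2 * D + 6 ≤ Fintype.card V) :
    MatchingForcing f ↔ (∀ v, f v = 1) ∨ ∃ r, ForcingCond f D r := by
  constructor
  · intro hMF
    by_contra hcon
    rw [not_or] at hcon
    have hneven : Even (Fintype.card V) := by
      obtain ⟨G, hG⟩ := hf
      obtain ⟨M, hM⟩ := hMF.2 G hG
      exact hM.even_card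
    obtain ⟨G, hG, hno⟩ := bad_main2 f hf D hD hn hneven hcon.1 hcon.2
    obtain ⟨M, hM⟩ := hMF.2 G hG
    exact hno M hM
  · rintro (h | ⟨r, h⟩)
    · exact ⟨hf, fun G hG => pm_of_one G fun v => by rw [hG, h]⟩
    · exact ⟨hf, fun G hG => force_main2 f hf D hD hD' hn r h G hG⟩

end Pool.Agent.MP_6e0dc6_co
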