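import Mathlib

/-!
Basic definitions for valence sequences (degree sequences) and matching-forcing sequences.
-/

namespace Pool.Agent.MP_6e0dc6_co

open Finset

/-- A function `f` on a vertex type is a valence sequence if some simple graph on that vertex type
has degree `f a` at every vertex `a`. -/
def IsValence {α : Type*} (f : α → ℕ) : Prop :=
  ∃ G : SimpleGraph α, ∀ a, (G.neighborSet a).ncard = f a

/-- `f` is matching-forcing: it is a valence sequence and every graph realizing it has a
perfect matching (1-factor). -/
def MatchingForcing {α : Type*} (f : α → ℕ) : Prop :=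
  IsValence f ∧ ∀ G : SimpleGraph α, (∀ a, (G.neighborSet a).ncard = f a) →
    ∃ M : G.Subgraph, M.IsPerfectMatching

/-- Some realization of `f` has no perfect matching. -/
def BadReal {α : Type*} (f : α → ℕ) : Prop :=
  ∃ G : SimpleGraph α, (∀ a, (G.neighborSet a).ncard = f a) ∧
    ∀ M : G.Subgraph, ¬ M.IsPerfectMatching

/-- The Erdos-Gallai slack of the vertex set `K`. -/
def slack {V : Type*} [Fintype V] [DecidableEq V] (f : V → ℕ) (K : Finset V) : ℤ :=
  (K.card : ℤ) * ((K.card : ℤ) - 1) + ∑ w ∈ Kᶜ, (min (f w) K.card : ℕ) - ∑ v ∈ K, (f v : ℤ)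

end Pool.Agent.MP_6e0dc6_co
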