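import Pool.Agent.Lib.MP_6e0dc6_co.Defs

/-!
The Erdos-Gallai theorem in subset form.
-/

set_option autoImplicit false

namespace Pool.Agent.MP_6e0dc6_co

open Finset

variable {V : Type*} [Fintype V] [DecidableEq V]

/-! ### Necessity -/

omit [DecidableEq V] in
theorem eg_ncard_neighborSet (G : SimpleGraph V) [DecidableRel G.Adj] (a : V) :
    (G.neighborSet a).ncard = (univ.filter fun w => G.Adj a w).card := by
  rw [Set.ncard_eq_toFinset_card']
  congr 1
  ext w
  simp

theorem even_sum (f : V → ℕ) (hf : IsValence f) : Even (∑ v, f v) := by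
  classical
  obtain ⟨G, hG⟩ := hf
  have h1 : ∑ v, f v = ∑ v, G.degree v := by
    refine Finset.sum_congr rfl fun v _ => ?_
    rw [← hG v, Set.ncard_eq_toFinset_card']
    rw [← SimpleGraph.card_neighborFinset_eq_degree]
    congr 1
  rw [h1, G.sum_degrees_eq_twice_card_edges]
  exact even_two_mul _

theorem eg_nec (f : V → ℕ) (hf : IsValence f) (K : Finset V) : 0 ≤ slack f K := by
  classical
  obtain ⟨G, hG⟩ := hf
  have hd : ∀ v, f v = ∑ w, if G.Adj v w then 1 else 0 := by
    intro v
    rw [← hG v, eg_ncard_neighborSet, Finset.card_filter]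
  have h1 : ∑ v ∈ K, f v = ∑ v ∈ K, ∑ w ∈ K, (if G.Adj v w then 1 else 0)
      + ∑ w ∈ Kᶜ, ∑ v ∈ K, (if G.Adj v w then 1 else 0) := by
    rw [Finset.sum_comm (s := Kᶜ), ← Finset.sum_add_distrib]
    refine Finset.sum_congr rfl fun v _ => ?_
    rw [hd v, Finset.sum_add_sum_compl]
  have h2 : ∑ v ∈ K, ∑ w ∈ K, (if G.Adj v w then 1 else 0) ≤ K.card * (K.card - 1) := by
    rw [← smul_eq_mul, ← Finset.sum_const]
    refine Finset.sum_le_sum fun v hv => ?_
    rw [← Finset.card_filter, ← Finset.card_erase_of_mem hv]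
    refine Finset.card_le_card fun w hw => ?_
    rw [Finset.mem_filter] at hw
    exact Finset.mem_erase.2 ⟨(G.ne_of_adj hw.2).symm, hw.1⟩
  have h3 : ∑ w ∈ Kᶜ, ∑ v ∈ K, (if G.Adj v w then 1 else 0) ≤ ∑ w ∈ Kᶜ, min (f w) K.card := by
    refine Finset.sum_le_sum fun w _ => le_min ?_ ?_
    · rw [hd w]
      calc ∑ v ∈ K, (if G.Adj v w then 1 else 0) = ∑ v ∈ K, (if G.Adj w v then 1 else 0) := by
            refine Finset.sum_congr rfl fun v _ => ?_
            simp only [G.adj_comm]
        _ ≤ ∑ v, (if G.Adj w v then 1 else 0) :=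
            Finset.sum_le_sum_of_subset (Finset.subset_univ _)
    · rw [← Finset.card_filter]
      exact Finset.card_filter_le _ _
  have h4 : (∑ v ∈ K, f v) ≤ K.card * (K.card - 1) + ∑ w ∈ Kᶜ, min (f w) K.card := by omega
  have h5 : ((K.card * (K.card - 1) : ℕ) : ℤ) = (K.card : ℤ) * ((K.card : ℤ) - 1) := by
    rcases Nat.eq_zero_or_pos K.card with h | h
    · simp [h]
    · rw [Nat.cast_mul, Nat.cast_sub h]; simp
  unfold slack
  have h6 : ((∑ v ∈ K, f v : ℕ) : ℤ) ≤ ((K.card * (K.card - 1) : ℕ) : ℤ)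
      + ((∑ w ∈ Kᶜ, min (f w) K.card : ℕ) : ℤ) := by exact_mod_cast h4
  rw [h5] at h6
  push_cast at h6 ⊢
  linarith

/-! ### Reduction -/

theorem eg_slack_empty (f : V → ℕ) : slack f ∅ = 0 := by
  simp [slack]

theorem eg_slack_def (f : V → ℕ) (K : Finset V) :
    slack f K = (K.card : ℤ) * ((K.card : ℤ) - 1) + ((∑ w ∈ Kᶜ, min (f w) K.card : ℕ) : ℤ)
      - ((∑ v ∈ K, f v : ℕ) : ℤ) := by
  unfold slack
  push_cast
  ring

/-- removing a vertex of small value -/
theorem eg_slack_erase (f : V → ℕ) {K : Finset V} {v : V} (hv : v ∈ K) (h : f v < K.card) :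
    slack f (K.erase v) ≤ slack f K := by
  have hc : (K.erase v).card + 1 = K.card := Finset.card_erase_add_one hv
  have h1 : (K.erase v)ᶜ = insert v Kᶜ := by
    ext w; by_cases hw : w = v <;> simp [hw, hv]
  have h2 : v ∉ Kᶜ := by simp [hv]
  have h3 : ∑ w ∈ K, f w = ∑ w ∈ K.erase v, f w + f v :=
    (Finset.sum_erase_add K f hv).symm
  have h4 : ∑ w ∈ Kᶜ, min (f w) (K.erase v).card ≤ ∑ w ∈ Kᶜ, min (f w) K.card :=
    Finset.sum_le_sum fun w _ => by omega
  have h5 : min (f v) (K.erase v).card ≤ f v := min_le_left _ _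
  rw [eg_slack_def, eg_slack_def, h1, Finset.sum_insert h2, h3]
  have h6 : ((K.erase v).card : ℤ) = (K.card : ℤ) - 1 := by omega
  have h7 : (f v : ℤ) ≤ (K.card : ℤ) - 1 := by omega
  rw [h6]
  have h8 : ((K.card : ℤ) - 1) * ((K.card : ℤ) - 1 - 1)
      = (K.card : ℤ) * ((K.card : ℤ) - 1) - 2 * ((K.card : ℤ) - 1) := by ring
  rw [h8]
  have h9 : ((∑ w ∈ Kᶜ, min (f w) (K.erase v).card : ℕ) : ℤ)
      ≤ ((∑ w ∈ Kᶜ, min (f w) K.card : ℕ) : ℤ) := by exact_mod_cast h4
  have h10 : ((min (f v) (K.erase v).card : ℕ) : ℤ) ≤ (f v : ℤ) := by exact_mod_cast h5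
  rw [Nat.cast_add, Nat.cast_add]
  linarith

/-- exchanging a vertex -/
theorem eg_slack_swap (f : V → ℕ) {K : Finset V} {v w : V} (hv : v ∈ K) (hw : w ∉ K) :
    slack f (insert w (K.erase v)) = slack f K - ((f w : ℤ) - f v)
      + (((min (f v) K.card : ℕ) : ℤ) - ((min (f w) K.card : ℕ) : ℤ)) := by
  have hwe : w ∉ K.erase v := fun h => hw (Finset.mem_of_mem_erase h)
  have hc : (insert w (K.erase v)).card = K.card := by
    rw [Finset.card_insert_of_notMem hwe, Finset.card_erase_add_one hv]
  have h1 : (insert w (K.erase v))ᶜ = insert v (Kᶜ.erase w) := by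
    ext x
    by_cases hxv : x = v
    · subst hxv
      have : x ≠ w := fun h => hw (h ▸ hv)
      simp [this]
    · by_cases hxw : x = w <;> simp [hxv, hxw]
      subst hxw
      exact hxv
  have h2 : v ∉ Kᶜ.erase w := by simp [hv]
  have hw' : w ∈ Kᶜ := by simp [hw]
  have h3 : ∑ x ∈ K, f x = ∑ x ∈ K.erase v, f x + f v :=
    (Finset.sum_erase_add K f hv).symm
  have h4 : ∑ x ∈ Kᶜ, min (f x) K.card
      = ∑ x ∈ Kᶜ.erase w, min (f x) K.card + min (f w) K.card :=
    (Finset.sum_erase_add Kᶜ (fun x => min (f x) K.card) hw').symm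
  rw [eg_slack_def, eg_slack_def, hc, h1, Finset.sum_insert h2, Finset.sum_insert hwe, h3, h4]
  push_cast
  ring

/-- A minimiser of the slack among the sets of the same size, minimal size violation. -/
theorem eg_core (f : V → ℕ) (m : Finset V → ℕ) (N : ℕ) (hm : ∀ K, m K ≤ N)
    (h : ∀ K : Finset V, (∀ v ∈ K, K.card ≤ f v) → (∀ v ∈ K, ∀ w ∉ K, f w ≤ f v) →
      (∀ v ∈ K, ∀ w ∉ K, f w = f v → m (insert w (K.erase v)) ≤ m K) → 0 ≤ slack f K) :
    ∀ K : Finset V, 0 ≤ slack f K := by
  intro K
  induction hk : K.card using Nat.strong_induction_on generalizing K with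
  | _ k ih =>
    by_contra hneg
    push Not at hneg
    -- minimise `slack * (N + 1) - m` over sets of size k
    have hne : (powersetCard k (univ : Finset V)).Nonempty :=
      ⟨K, Finset.mem_powersetCard.2 ⟨Finset.subset_univ _, hk⟩⟩
    obtain ⟨L, hL, hmin⟩ := Finset.exists_min_image (powersetCard k (univ : Finset V))
      (fun L => slack f L * ((N : ℤ) + 1) - m L) hne
    have hLc : L.card = k := (Finset.mem_powersetCard.1 hL).2
    have hmin' : ∀ L' : Finset V, L'.card = k → slack f L ≤ slack f L' := by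
      intro L' hL'
      by_contra hlt
      push Not at hlt
      have h1 := hmin L' (Finset.mem_powersetCard.2 ⟨Finset.subset_univ _, hL'⟩)
      have h2 : (m L : ℤ) ≤ N := by exact_mod_cast hm L
      have h3 : (0 : ℤ) ≤ m L' := by positivity
      have h4 : slack f L' ≤ slack f L - 1 := by omega
      have h5 : slack f L' * ((N : ℤ) + 1) ≤ (slack f L - 1) * ((N : ℤ) + 1) :=
        mul_le_mul_of_nonneg_right h4 (by positivity)
      nlinarith
    have hLneg : slack f L < 0 := lt_of_le_of_lt (hmin' K hk) hneg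
    refine absurd (h L ?_ ?_ ?_) (not_le.2 hLneg)
    · intro v hv
      by_contra hlt
      push Not at hlt
      have h1 := eg_slack_erase f hv hlt
      have h2 : (L.erase v).card < k := by
        have := Finset.card_erase_add_one hv
        omega
      have h3 := ih _ h2 (L.erase v) rfl
      omega
    · intro v hv w hw
      by_contra hlt
      push Not at hlt
      have h1 := eg_slack_swap f hv hw
      have hwe : w ∉ L.erase v := fun h => hw (Finset.mem_of_mem_erase h)
      have h2 : (insert w (L.erase v)).card = k := by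
        rw [Finset.card_insert_of_notMem hwe, Finset.card_erase_add_one hv, hLc]
      have h3 := hmin' _ h2
      have h4 : min (f v) L.card ≤ min (f w) L.card := by omega
      have h5 : ((min (f v) L.card : ℕ) : ℤ) ≤ ((min (f w) L.card : ℕ) : ℤ) := by exact_mod_cast h4
      have h6 : (f v : ℤ) < f w := by exact_mod_cast hlt
      linarith
    · intro v hv w hw hvw
      have h1 := eg_slack_swap f hv hw
      have hwe : w ∉ L.erase v := fun h => hw (Finset.mem_of_mem_erase h)
      have h2 : (insert w (L.erase v)).card = k := by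
        rw [Finset.card_insert_of_notMem hwe, Finset.card_erase_add_one hv, hLc]
      have h3 := hmin _ (Finset.mem_powersetCard.2 ⟨Finset.subset_univ _, h2⟩)
      rw [hvw] at h1
      have h4 : slack f (insert w (L.erase v)) = slack f L := by linarith
      rw [h4] at h3
      have h5 : (m (insert w (L.erase v)) : ℤ) ≤ m L := by linarith
      exact_mod_cast h5

/-- E1: it suffices to check the inequalities for top sets with all terms at least the size. -/
theorem eg_reduce (f : V → ℕ)
    (h : ∀ K : Finset V, (∀ v ∈ K, K.card ≤ f v) → (∀ v ∈ K, ∀ w ∉ K, f w ≤ f v) → 0 ≤ slack f K) :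
    ∀ K : Finset V, 0 ≤ slack f K :=
  eg_core f (fun _ => 0) 0 (fun _ => le_rfl) fun K h1 h2 _ => h K h1 h2

/-! ### Sufficiency -/

/-- laying off: the reduced function -/
def egLay (f : V → ℕ) (j : V) (A : Finset V) (v : V) : ℕ :=
  if v = j then 0 else if v ∈ A then f v - 1 else f v

omit [Fintype V] in
/-- top sets of a given size exist -/
theorem eg_top (f : V → ℕ) (W : Finset V) (k : ℕ) (hk : k ≤ W.card) :
    ∃ A ⊆ W, A.card = k ∧ ∀ a ∈ A, ∀ b ∈ W, b ∉ A → f b ≤ f a := by
  have hne : (powersetCard k W).Nonempty := Finset.powersetCard_nonempty.2 hk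
  obtain ⟨A, hA, hmax⟩ := Finset.exists_max_image (powersetCard k W) (fun A => ∑ a ∈ A, f a) hne
  obtain ⟨hAW, hAk⟩ := Finset.mem_powersetCard.1 hA
  refine ⟨A, hAW, hAk, fun a ha b hb hbA => ?_⟩
  by_contra hlt
  push Not at hlt
  have hbe : b ∉ A.erase a := fun h => hbA (Finset.mem_of_mem_erase h)
  have h1 : insert b (A.erase a) ∈ powersetCard k W := by
    rw [Finset.mem_powersetCard]
    refine ⟨fun x hx => ?_, ?_⟩
    · rcases Finset.mem_insert.1 hx with h | h
      · exact h ▸ hb
      · exact hAW (Finset.mem_of_mem_erase h)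
    · rw [Finset.card_insert_of_notMem hbe, Finset.card_erase_add_one ha, hAk]
  have h2 := hmax _ h1
  rw [Finset.sum_insert hbe, ← Finset.sum_erase_add A f ha] at h2
  omega

/-- gluing a star -/
theorem eg_star (f : V → ℕ) (j : V) (A : Finset V) (hj : j ∉ A) (hA : A.card = f j)
    (hpos : ∀ a ∈ A, 1 ≤ f a) (h : IsValence (egLay f j A)) : IsValence f := by
  classical
  obtain ⟨G, hG⟩ := h
  have hiso : ∀ w, ¬ G.Adj j w := by
    intro w hw
    have h1 := hG j
    rw [show egLay f j A j = 0 by simp [egLay]] at h1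
    rw [Set.ncard_eq_zero (Set.toFinite _)] at h1
    have : w ∈ G.neighborSet j := hw
    rw [h1] at this
    exact this
  refine ⟨{ Adj := fun a b => G.Adj a b ∨ (a = j ∧ b ∈ A) ∨ (b = j ∧ a ∈ A)
            symm := ?_, loopless := ?_ }, fun a => ?_⟩
  · refine ⟨fun a b h => ?_⟩
    rcases h with h | h | h
    · exact Or.inl h.symm
    · exact Or.inr (Or.inr h)
    · exact Or.inr (Or.inl h)
  · refine ⟨fun a ha => ?_⟩
    rcases ha with h | ⟨h1, h2⟩ | ⟨h1, h2⟩
    · exact G.loopless.irrefl a h
    · exact hj (h1 ▸ h2)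
    · exact hj (h1 ▸ h2)
  · by_cases haj : a = j
    · subst haj
      rw [show (SimpleGraph.neighborSet _ a : Set V) = (A : Set V) from ?_]
      · rw [Set.ncard_coe_finset, hA]
      · ext w
        rw [SimpleGraph.mem_neighborSet]
        constructor
        · rintro (h | ⟨_, h⟩ | ⟨_, h⟩)
          · exact absurd h (hiso w)
          · exact h
          · exact absurd h hj
        · intro h
          exact Or.inr (Or.inl ⟨rfl, h⟩)
    · by_cases haA : a ∈ A
      · rw [show (SimpleGraph.neighborSet _ a : Set V) = insert j (G.neighborSet a) from ?_]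
        · have hnj : j ∉ G.neighborSet a := fun (h : G.Adj a j) => hiso a h.symm
          rw [Set.ncard_insert_of_notMem hnj (Set.toFinite _), hG a]
          have := hpos a haA
          simp only [egLay, if_neg haj, if_pos haA]
          omega
        · ext w
          rw [SimpleGraph.mem_neighborSet, Set.mem_insert_iff, SimpleGraph.mem_neighborSet]
          constructor
          · rintro (h | ⟨h, _⟩ | ⟨h, _⟩)
            · exact Or.inr h
            · exact absurd h haj
            · exact Or.inl h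
          · rintro (h | h)
            · exact Or.inr (Or.inr ⟨h, haA⟩)
            · exact Or.inl h
      · rw [show (SimpleGraph.neighborSet _ a : Set V) = G.neighborSet a from ?_]
        · rw [hG a]
          simp only [egLay, if_neg haj, if_neg haA]
        · ext w
          rw [SimpleGraph.mem_neighborSet, SimpleGraph.mem_neighborSet]
          constructor
          · rintro (h | ⟨h, _⟩ | ⟨_, h⟩)
            · exact h
            · exact absurd h haj
            · exact absurd h haA
          · intro h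
            exact Or.inl h

theorem eg_lay_sum (f : V → ℕ) (j : V) (A : Finset V) (hj : j ∉ A) (hA : A.card = f j)
    (hpos : ∀ a ∈ A, 1 ≤ f a) : ∑ v, egLay f j A v + 2 * f j = ∑ v, f v := by
  have h1 : ∀ v, egLay f j A v + ((if v = j then f j else 0) + (if v ∈ A then 1 else 0)) = f v := by
    intro v
    unfold egLay
    by_cases hv : v = j
    · subst hv; simp [hj]
    · by_cases hvA : v ∈ A
      · have := hpos v hvA
        simp only [if_neg hv, if_pos hvA]
        omega
      · simp only [if_neg hv, if_neg hvA]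
        omega
  have h2 : ∑ v, f v = ∑ v, (egLay f j A v + ((if v = j then f j else 0)
      + (if v ∈ A then 1 else 0))) := Finset.sum_congr rfl fun v _ => (h1 v).symm
  rw [h2, Finset.sum_add_distrib, Finset.sum_add_distrib, Finset.sum_ite_eq' univ j,
    if_pos (Finset.mem_univ j), Finset.sum_boole]
  have h3 : (univ.filter fun v => v ∈ A) = A := by ext v; simp
  rw [h3, Nat.cast_id, hA]
  ring

theorem eg_lay_slack (f : V → ℕ) (j : V) (A : Finset V) (hjmax : ∀ v, f v ≤ f j) (hj : j ∉ A)
    (hA : A.card = f j) (hpos : ∀ a ∈ A, 1 ≤ f a)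
    (htop : ∀ a ∈ A, ∀ b, b ≠ j → b ∉ A → f b ≤ f a) (he : Even (∑ v, egLay f j A v))
    (h : ∀ K, 0 ≤ slack f K) : ∀ K, 0 ≤ slack (egLay f j A) K := by
  refine eg_core _ (fun K => (A ∩ K).card) (Fintype.card V) (fun K => Finset.card_le_univ _) ?_
  intro K hK1 hK2 hK3
  rcases K.eq_empty_or_nonempty with rfl | hne
  · rw [eg_slack_empty]
  have hk1 : 1 ≤ K.card := hne.card_pos
  have hjj : egLay f j A j = 0 := by simp [egLay]
  have hjK : j ∉ K := by
    intro hjK
    have := hK1 j hjK
    omega
  have hle : ∀ v, egLay f j A v ≤ f v := by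
    intro v
    unfold egLay
    split_ifs <;> omega
  have hlA : ∀ v ∈ A, egLay f j A v = f v - 1 := by
    intro v hv
    have : v ≠ j := fun h => hj (h ▸ hv)
    simp [egLay, this, hv]
  have hlN : ∀ v, v ≠ j → v ∉ A → egLay f j A v = f v := by
    intro v hv hvA
    simp [egLay, hv, hvA]
  have hkj : K.card ≤ f j := by
    obtain ⟨v, hv⟩ := hne
    exact (hK1 v hv).trans ((hle v).trans (hjmax v))
  set k := K.card with hk
  set g := egLay f j A with hg
  by_cases hKA : K ⊆ A
  · -- case (i)
    have hs1 : ∑ v ∈ K, g v + k = ∑ v ∈ K, f v := by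
      rw [hk, Finset.card_eq_sum_ones, ← Finset.sum_add_distrib]
      refine Finset.sum_congr rfl fun v hv => ?_
      have h1 := hlA v (hKA hv)
      have h2 := hpos v (hKA hv)
      omega
    set R := Kᶜ.erase j with hR
    have hjKc : j ∈ Kᶜ := by simp [hjK]
    have hs2 : ∑ w ∈ Kᶜ, min (g w) k = ∑ w ∈ R, min (g w) k := by
      rw [← Finset.sum_erase_add Kᶜ _ hjKc, hjj]
      simp [hR]
    have hs3 : ∑ w ∈ Kᶜ, min (f w) k = ∑ w ∈ R, min (f w) k + k := by
      rw [← Finset.sum_erase_add Kᶜ _ hjKc, min_eq_right hkj]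
    set z := (R.filter fun w => w ∈ A ∧ f w ≤ k).card with hz
    have hs4 : ∑ w ∈ R, min (g w) k + z = ∑ w ∈ R, min (f w) k := by
      rw [hz, Finset.card_filter, ← Finset.sum_add_distrib]
      refine Finset.sum_congr rfl fun w hw => ?_
      have hwj : w ≠ j := Finset.ne_of_mem_erase hw
      by_cases hwA : w ∈ A
      · rw [hlA w hwA]
        have := hpos w hwA
        by_cases hfk : f w ≤ k
        · rw [if_pos ⟨hwA, hfk⟩]; omega
        · rw [if_neg (fun h => hfk h.2)]; omega
      · rw [hlN w hwj hwA, if_neg (fun h => hwA h.1)]; omega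
    rw [eg_slack_def, ← hk]
    rcases Nat.eq_zero_or_pos z with hz0 | hzpos
    · have h1 := h K
      rw [eg_slack_def, ← hk] at h1
      have h2 : ((∑ w ∈ Kᶜ, min (g w) k : ℕ) : ℤ) + k = ((∑ w ∈ Kᶜ, min (f w) k : ℕ) : ℤ) := by
        have : ∑ w ∈ Kᶜ, min (g w) k + k = ∑ w ∈ Kᶜ, min (f w) k := by omega
        exact_mod_cast this
      have h3 : ((∑ v ∈ K, g v : ℕ) : ℤ) + k = ((∑ v ∈ K, f v : ℕ) : ℤ) := by exact_mod_cast hs1
      linarith
    · obtain ⟨a0, ha0⟩ := Finset.card_pos.1 hzpos
      rw [Finset.mem_filter] at ha0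
      have hsmall : ∀ w, w ≠ j → w ∉ A → f w ≤ k := fun w hw hwA =>
        (htop a0 ha0.2.1 w hw hwA).trans ha0.2.2
      have h1 := h (insert j K)
      rw [eg_slack_def, Finset.card_insert_of_notMem hjK, ← hk, Finset.sum_insert hjK] at h1
      have hRc : (insert j K)ᶜ = R := by
        ext w
        simp only [hR, Finset.mem_compl, Finset.mem_insert, Finset.mem_erase]
        tauto
      rw [hRc] at h1
      have hs5 : ∑ w ∈ R, min (f w) (k + 1)
          = ∑ w ∈ R, min (f w) k + (R.filter fun w => k + 1 ≤ f w).card := by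
        rw [Finset.card_filter, ← Finset.sum_add_distrib]
        refine Finset.sum_congr rfl fun w _ => ?_
        split_ifs <;> omega
      have hs6 : z + (R.filter fun w => k + 1 ≤ f w).card + k = f j := by
        rw [hz, ← Finset.card_union_of_disjoint]
        · have h2 : (R.filter fun w => w ∈ A ∧ f w ≤ k) ∪ (R.filter fun w => k + 1 ≤ f w) = A \ K := by
            ext w
            simp only [hR, Finset.mem_union, Finset.mem_filter, Finset.mem_erase,
              Finset.mem_compl, Finset.mem_sdiff]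
            constructor
            · rintro (⟨⟨_, h3⟩, h4, _⟩ | ⟨⟨h2, h3⟩, h4⟩)
              · exact ⟨h4, h3⟩
              · refine ⟨?_, h3⟩
                by_contra hwA
                have := hsmall w h2 hwA
                omega
            · rintro ⟨h2, h3⟩
              have hwj : w ≠ j := fun h => hj (h ▸ h2)
              by_cases h4 : f w ≤ k
              · exact Or.inl ⟨⟨hwj, h3⟩, h2, h4⟩
              · exact Or.inr ⟨⟨hwj, h3⟩, by omega⟩
          rw [h2]
          have h3 := Finset.card_sdiff_add_card_eq_card hKA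
          omega
        · rw [Finset.disjoint_left]
          intro w hw hw'
          rw [Finset.mem_filter] at hw hw'
          omega
      have h2 : (((∑ w ∈ R, min (f w) (k + 1) : ℕ)) : ℤ)
          = ((∑ w ∈ Kᶜ, min (g w) k : ℕ) : ℤ) + (f j : ℤ) - k := by
        have : ∑ w ∈ R, min (f w) (k + 1) + k = ∑ w ∈ Kᶜ, min (g w) k + f j := by omega
        have h3 : ((∑ w ∈ R, min (f w) (k + 1) : ℕ) : ℤ) + k
            = ((∑ w ∈ Kᶜ, min (g w) k : ℕ) : ℤ) + f j := by exact_mod_cast this
        linarith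
      have h3 : ((∑ v ∈ K, g v : ℕ) : ℤ) + k = ((∑ v ∈ K, f v : ℕ) : ℤ) := by exact_mod_cast hs1
      have h4 : ((f j + ∑ x ∈ K, f x : ℕ) : ℤ) = f j + (((∑ v ∈ K, g v : ℕ) : ℤ) + k) := by
        rw [Nat.cast_add, h3]
      have h5 : ((k + 1 : ℕ) : ℤ) * (((k + 1 : ℕ) : ℤ) - 1) = (k : ℤ) * ((k : ℤ) - 1) + 2 * k := by
        push_cast; ring
      rw [h2, h4, h5] at h1
      linarith
  · -- case (ii)
    obtain ⟨v0, hv0K, hv0A⟩ := Finset.not_subset.1 hKA
    have hvj : ∀ v ∈ K, v ≠ j := fun v hv h => hjK (h ▸ hv)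
    set a := (A ∩ K).card with ha
    have hsplit : a + (K \ A).card = k := by
      rw [ha, hk, Finset.inter_comm]
      exact Finset.card_inter_add_card_sdiff K A
    have hpos' : 1 ≤ (K \ A).card :=
      Finset.card_pos.2 ⟨v0, Finset.mem_sdiff.2 ⟨hv0K, hv0A⟩⟩
    have hsplitA : a + (A \ K).card = f j := by
      rw [ha, ← hA]
      exact Finset.card_inter_add_card_sdiff A K
    obtain ⟨w0, hw0⟩ : (A \ K).Nonempty := Finset.card_pos.1 (by omega)
    rw [Finset.mem_sdiff] at hw0
    have hval : ∀ v ∈ K, v ∉ A → ∀ w ∈ A, w ∉ K → f w = f v := by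
      intro v hv hvA w hw hwK
      have h1 := htop w hw v (hvj v hv) hvA
      have h2 := hK2 v hv w hwK
      rw [hlA w hw, hlN v (hvj v hv) hvA] at h2
      by_contra hne'
      have h3 : f w = f v + 1 := by
        have := hpos w hw
        omega
      have h4 := hK3 v hv w hwK (by rw [hlA w hw, hlN v (hvj v hv) hvA]; omega)
      have h5 : A ∩ insert w (K.erase v) = insert w (A ∩ K) := by
        ext x
        simp only [Finset.mem_inter, Finset.mem_insert, Finset.mem_erase]
        constructor
        · rintro ⟨h6, h7 | h7⟩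
          · exact Or.inl h7
          · exact Or.inr ⟨h6, h7.2⟩
        · rintro (h6 | h6)
          · exact ⟨h6 ▸ hw, Or.inl h6⟩
          · exact ⟨h6.1, Or.inr ⟨fun h => hvA (h ▸ h6.1), h6.2⟩⟩
      rw [h5, Finset.card_insert_of_notMem (fun h => hwK (Finset.mem_inter.1 h).2)] at h4
      omega
    set c := f v0 with hc
    have hcK : ∀ v ∈ K, v ∉ A → f v = c := fun v hv hvA =>
      (hval v hv hvA w0 hw0.1 hw0.2).symm.trans (hval v0 hv0K hv0A w0 hw0.1 hw0.2)
    have hcA : ∀ w ∈ A, w ∉ K → f w = c := fun w hw hwK => hval v0 hv0K hv0A w hw hwK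
    have hck : k ≤ c := by
      have h1 := hK1 v0 hv0K
      rw [hlN v0 (hvj v0 hv0K) hv0A] at h1
      exact h1
    have hcj : c ≤ f j := hjmax v0
    have hs1 : ∑ v ∈ K, g v ≤ a * (f j - 1) + (K \ A).card * c := by
      have hac : (K ∩ A).card = a := by rw [ha, Finset.inter_comm]
      rw [← Finset.sum_inter_add_sum_sdiff K A, ← hac]
      refine add_le_add ?_ ?_
      · rw [← smul_eq_mul, ← Finset.sum_const]
        refine Finset.sum_le_sum fun v hv => ?_
        rw [Finset.mem_inter] at hv
        rw [hlA v hv.2]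
        have := hjmax v
        omega
      · rw [← smul_eq_mul, ← Finset.sum_const]
        refine Finset.sum_le_sum fun v hv => ?_
        rw [Finset.mem_sdiff] at hv
        rw [hlN v (hvj v hv.1) hv.2, hcK v hv.1 hv.2]
    have hs2 : (A \ K).card * min (c - 1) k ≤ ∑ w ∈ Kᶜ, min (g w) k := by
      rw [← smul_eq_mul, ← Finset.sum_const]
      calc ∑ w ∈ A \ K, min (c - 1) k = ∑ w ∈ A \ K, min (g w) k := by
            refine Finset.sum_congr rfl fun w hw => ?_
            rw [Finset.mem_sdiff] at hw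
            rw [hlA w hw.1, hcA w hw.1 hw.2]
        _ ≤ ∑ w ∈ Kᶜ, min (g w) k := by
            refine Finset.sum_le_sum_of_subset fun w hw => ?_
            rw [Finset.mem_sdiff] at hw
            simp [hw.2]
    rw [eg_slack_def, ← hk]
    have hs1' : ((∑ v ∈ K, g v : ℕ) : ℤ) ≤ (a : ℤ) * ((f j : ℤ) - 1) + ((k : ℤ) - a) * c := by
      have h1 : ((∑ v ∈ K, g v : ℕ) : ℤ) ≤ ((a * (f j - 1) + (K \ A).card * c : ℕ) : ℤ) := by
        exact_mod_cast hs1
      refine h1.trans_eq ?_
      have h2 : ((f j - 1 : ℕ) : ℤ) = (f j : ℤ) - 1 := by omega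
      have h3 : (((K \ A).card : ℕ) : ℤ) = (k : ℤ) - a := by omega
      rw [Nat.cast_add, Nat.cast_mul, Nat.cast_mul, h2, h3]
    have hs2' : ((f j : ℤ) - a) * (min (c - 1) k : ℕ) ≤ ((∑ w ∈ Kᶜ, min (g w) k : ℕ) : ℤ) := by
      have h1 : (((A \ K).card * min (c - 1) k : ℕ) : ℤ) ≤ ((∑ w ∈ Kᶜ, min (g w) k : ℕ) : ℤ) := by
        exact_mod_cast hs2
      refine le_trans (le_of_eq ?_) h1
      have h3 : (((A \ K).card : ℕ) : ℤ) = (f j : ℤ) - a := by omega
      rw [Nat.cast_mul, h3]
    have hak : (a : ℤ) + 1 ≤ k := by omega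
    have hcj' : (c : ℤ) ≤ f j := by exact_mod_cast hcj
    have hk1' : (1 : ℤ) ≤ k := by exact_mod_cast hk1
    have ha0 : (0 : ℤ) ≤ a := by positivity
    rcases Nat.lt_or_ge k c with hlt | hge
    · rw [min_eq_right (by omega : k ≤ c - 1)] at hs2'
      have h1 : 0 ≤ ((k : ℤ) - a) * ((f j : ℤ) - c + k - 1) :=
        mul_nonneg (by linarith) (by linarith)
      nlinarith
    · have hck' : c = k := le_antisymm hge hck
      rw [min_eq_left (by omega : c - 1 ≤ k)] at hs2'
      have h2 : ((c - 1 : ℕ) : ℤ) = (k : ℤ) - 1 := by omega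
      rw [h2] at hs2'
      have hck'' : (c : ℤ) = k := by exact_mod_cast hck'
      rw [hck''] at hs1' hcj'
      have hkey : ((k : ℤ) - a) * ((f j : ℤ) - 1) - ((f j : ℤ) - a)
          ≤ (k : ℤ) * ((k : ℤ) - 1) + ((∑ w ∈ Kᶜ, min (g w) k : ℕ) : ℤ)
            - ((∑ v ∈ K, g v : ℕ) : ℤ) := by nlinarith
      rcases Nat.lt_or_ge k 2 with hk2 | hk2
      · -- k = 1
        have hk1e : k = 1 := by omega
        have hKs : K = {v0} := by
          obtain ⟨x, hx⟩ := Finset.card_eq_one.1 (hk.symm.trans hk1e)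
          rw [hx] at hv0K ⊢
          rw [Finset.mem_singleton.1 hv0K]
        have hgv0 : g v0 = 1 := by
          rw [hlN v0 (hvj v0 hv0K) hv0A, ← hc]
          omega
        -- another positive value
        have hex : ∃ x, x ≠ v0 ∧ 1 ≤ g x := by
          by_contra hcon
          push Not at hcon
          have : ∑ v, g v = 1 := by
            rw [Finset.sum_eq_single v0 (fun b _ hb => ?_) (fun h => absurd (Finset.mem_univ _) h),
              hgv0]
            have := hcon b hb
            omega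
          rw [this] at he
          exact absurd he (by decide)
        obtain ⟨x, hx, hgx⟩ := hex
        have h3 : 1 ≤ ∑ w ∈ Kᶜ, min (g w) k := by
          have hxK : x ∈ Kᶜ := by rw [hKs]; simp [hx]
          refine le_trans ?_ (Finset.single_le_sum (f := fun w => min (g w) k)
            (fun _ _ => Nat.zero_le _) hxK)
          show 1 ≤ min (g x) k
          omega
        have h4 : ∑ v ∈ K, g v = 1 := by rw [hKs, Finset.sum_singleton, hgv0]
        rw [h4, hk1e]
        rw [hk1e] at h3
        have h5 : (1 : ℤ) ≤ ((∑ w ∈ Kᶜ, min (g w) 1 : ℕ) : ℤ) := by exact_mod_cast h3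
        push_cast at h5 ⊢
        linarith
      · have hk2' : (2 : ℤ) ≤ k := by exact_mod_cast hk2
        refine le_trans ?_ hkey
        rcases eq_or_lt_of_le hak with h5 | h5
        · have h6 : (a : ℤ) = k - 1 := by linarith
          have h7 : ((k : ℤ) - a) * ((f j : ℤ) - 1) - ((f j : ℤ) - a) = k - 2 := by
            rw [h6]; ring
          rw [h7]
          linarith
        · have h6 : (2 : ℤ) ≤ k - a := by omega
          have h7 : (0 : ℤ) ≤ (f j : ℤ) - 1 := by linarith
          have h8 := mul_le_mul_of_nonneg_right h6 h7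
          linarith

/-- E2: sufficiency (Erdos-Gallai). -/
theorem eg_suff (f : V → ℕ) (he : Even (∑ v, f v)) (h : ∀ K : Finset V, 0 ≤ slack f K) :
    IsValence f := by
  induction hS : ∑ v, f v using Nat.strong_induction_on generalizing f with
  | _ S ih =>
    by_cases hz : ∀ v, f v = 0
    · refine ⟨⊥, fun a => ?_⟩
      rw [hz a, Set.ncard_eq_zero (Set.toFinite _)]
      ext w
      simp
    push Not at hz
    obtain ⟨v1, hv1⟩ := hz
    obtain ⟨j, -, hjmax⟩ := Finset.exists_max_image (univ : Finset V) f ⟨v1, Finset.mem_univ _⟩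
    have hjmax' : ∀ v, f v ≤ f j := fun v => hjmax v (Finset.mem_univ _)
    have hjpos : 0 < f j := lt_of_lt_of_le (Nat.pos_of_ne_zero hv1) (hjmax' v1)
    -- many positive others
    have h1 := h {j}
    rw [eg_slack_def, Finset.card_singleton, Finset.sum_singleton] at h1
    have h2 : f j ≤ ∑ w ∈ ({j} : Finset V)ᶜ, min (f w) 1 := by
      have : (f j : ℤ) ≤ ((∑ w ∈ ({j} : Finset V)ᶜ, min (f w) 1 : ℕ) : ℤ) := by
        push_cast at h1 ⊢
        linarith
      exact_mod_cast this
    set W := (({j} : Finset V)ᶜ).filter fun w => 0 < f w with hW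
    have h3 : ∑ w ∈ ({j} : Finset V)ᶜ, min (f w) 1 = W.card := by
      rw [hW, Finset.card_filter]
      refine Finset.sum_congr rfl fun w _ => ?_
      split_ifs <;> omega
    obtain ⟨A, hAW, hAk, hAtop⟩ := eg_top f W (f j) (by omega)
    have hjA : j ∉ A := by
      intro hjA
      have := hAW hjA
      rw [hW, Finset.mem_filter, Finset.mem_compl, Finset.mem_singleton] at this
      exact this.1 rfl
    have hpos : ∀ a ∈ A, 1 ≤ f a := by
      intro a ha
      have := hAW ha
      rw [hW, Finset.mem_filter] at this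
      exact this.2
    have htop : ∀ a ∈ A, ∀ b, b ≠ j → b ∉ A → f b ≤ f a := by
      intro a ha b hbj hbA
      by_cases hb : 0 < f b
      · refine hAtop a ha b ?_ hbA
        rw [hW, Finset.mem_filter, Finset.mem_compl, Finset.mem_singleton]
        exact ⟨hbj, hb⟩
      · omega
    have hsum := eg_lay_sum f j A hjA hAk hpos
    have he' : Even (∑ v, egLay f j A v) := by
      have h4 : Even (∑ v, egLay f j A v + 2 * f j) := by rw [hsum]; exact he
      exact (Nat.even_add.1 h4).2 (even_two_mul _)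
    refine eg_star f j A hjA hAk hpos (ih (∑ v, egLay f j A v) (by omega) _ he' ?_ rfl)
    exact eg_lay_slack f j A hjmax' hjA hAk hpos htop he' h

end Pool.Agent.MP_6e0dc6_co
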