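import Pool.Agent.Lib.MP_6e0dc6_co.Glue
import Pool.Agent.Lib.MP_6e0dc6_co.NearReg

/-! The exceptional construction at `n = 3 r + 5`. -/

namespace Pool.Agent.MP_6e0dc6_co

open Finset

variable {V : Type*} [Fintype V] [DecidableEq V]

/-- one of the two blocks of size `r + 2` -/
theorem exc_block (f : V → ℕ) (r : ℕ) (hr : 3 ≤ r) (hro : Odd r) (hD : ∀ v, f v ≤ r)
    (hodd : ∀ v, Odd (f v)) (A Z : Finset V) (hA : A.card = r + 2) (hAZ : Odd (A ∩ Z).card)
    (hY : ∑ v ∈ A, (r - f v) + (A ∩ Z).card ≤ r) :
    IsValence (fun v => if v ∈ A then f v - (if v ∈ Z then 1 else 0) else 0) := by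
  classical
  have hsum : ∑ v ∈ A, (if v ∈ Z then 1 else 0) = (A ∩ Z).card := by
    rw [Finset.sum_ite_mem, Finset.sum_const, smul_eq_mul, mul_one]
  have hle : ∀ v, (if v ∈ Z then 1 else 0) ≤ f v := by
    intro v
    have := (hodd v).pos
    split_ifs <;> omega
  apply near_reg A _ r
  · intro v hv
    simp only [hv, if_false]
  · rw [Finset.sum_ite_mem, Finset.univ_inter]
    have h1 : ∑ v ∈ A, (f v - (if v ∈ Z then 1 else 0)) + (A ∩ Z).card = ∑ v ∈ A, f v := by
      rw [← hsum, ← Finset.sum_add_distrib]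
      exact Finset.sum_congr rfl (fun v _ => Nat.sub_add_cancel (hle v))
    have h2 : Odd (∑ v ∈ A, f v) := by
      rw [Finset.odd_sum_iff_odd_card_odd]
      have : A.filter (fun x => Odd (f x)) = A := Finset.filter_true_of_mem (fun v _ => hodd v)
      rw [this, hA]
      exact hro.add_even (by decide)
    rw [← h1] at h2
    rcases Nat.even_or_odd (∑ v ∈ A, (f v - (if v ∈ Z then 1 else 0))) with h | h
    · exact h
    · exact absurd (h.add_odd hAZ) (Nat.not_even_iff_odd.mpr h2)
  · omega
  · omega
  · intro v hv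
    simp only [hv, if_true]
    have := hD v
    omega
  · have e1 : ∑ v ∈ A, ((if v ∈ A then f v - (if v ∈ Z then 1 else 0) else 0) - r) = 0 := by
      refine Finset.sum_eq_zero (fun v hv => ?_)
      simp only [hv, if_true]
      have := hD v
      omega
    have e2 : ∑ v ∈ A, (r - (if v ∈ A then f v - (if v ∈ Z then 1 else 0) else 0)) =
        ∑ v ∈ A, (r - f v) + (A ∩ Z).card := by
      rw [← hsum, ← Finset.sum_add_distrib]
      refine Finset.sum_congr rfl (fun v hv => ?_)
      simp only [hv, if_true]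
      have := hD v
      have := hle v
      omega
    rw [e1, e2, hA]
    omega
  · have : A.filter (fun v => r < (if v ∈ A then f v - (if v ∈ Z then 1 else 0) else 0)) = ∅ := by
      refine Finset.filter_false_of_mem (fun v hv => ?_)
      simp only [hv, if_true]
      have := hD v
      omega
    rw [this]
    simp

/-- the third block, on `r + 1` vertices: complement of the witness graph -/
theorem exc_third (f : V → ℕ) (r : ℕ) (u : V) (hu : f u = r) (hD : ∀ v, f v ≤ r)
    (Q : Finset V) (c : ℕ) (P C : Finset V) (huC : u ∉ C) (hCcard : C.card = r)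
    (hPC : P ⊆ C) (hPQ : ∀ v ∈ P, v ∈ Q) (hP : ∀ v, v ∈ Q → f v < r → v ∈ P)
    (hCf : ∀ v ∈ C, v ∉ P → f v = r)
    (H : SimpleGraph (Option Q))
    (hH : ∀ o, (H.neighborSet o).ncard = Option.elim o c (fun i => r - f i)) :
    IsValence (fun v => if v ∈ insert u C then (if v = u then r - c else f v) else 0) := by
  classical
  -- transport of `H` to `V`
  let e : V → Option Q := fun v => if h : v ∈ P then some ⟨v, hPQ v h⟩ else none
  let g : Option Q → V := fun o => Option.elim o u (fun i => (i : V))
  have huP : u ∉ P := fun h => huC (hPC h)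
  have heu : e u = none := by simp only [e, huP, dif_neg, not_false_eq_true]
  have heP : ∀ v (h : v ∈ P), e v = some ⟨v, hPQ v h⟩ := fun v h => by simp only [e, h, dif_pos]
  -- vertices of positive degree
  have hpos : ∀ o o', H.Adj o o' → e (g o') = o' ∧ g o' ∈ insert u P := by
    intro o o' h
    have h1 : 0 < (H.neighborSet o').ncard := by
      rw [Set.ncard_pos (Set.toFinite _)]
      exact ⟨o, h.symm⟩
    rw [hH] at h1
    cases o' with
    | none => exact ⟨heu, Finset.mem_insert_self _ _⟩
    | some i =>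
      simp only [Option.elim] at h1
      have h2 : (i : V) ∈ P := hP i i.2 (by omega)
      exact ⟨heP _ h2, Finset.mem_insert_of_mem h2⟩
  have hge : ∀ x ∈ insert u P, g (e x) = x := by
    intro x hx
    rcases Finset.mem_insert.mp hx with h | h
    · rw [h, heu]; rfl
    · rw [heP x h]; rfl
  -- degrees in the transported graph
  have hdeg : ∀ x ∈ insert u P,
      {y | x ∈ insert u P ∧ y ∈ insert u P ∧ H.Adj (e x) (e y)}.ncard = Option.elim (e x) c
        (fun i => r - f i) := by
    intro x hx
    rw [← hH]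
    have himg : {y | x ∈ insert u P ∧ y ∈ insert u P ∧ H.Adj (e x) (e y)} =
        g '' (H.neighborSet (e x)) := by
      ext y
      simp only [Set.mem_ofPred_eq, Set.mem_image, SimpleGraph.mem_neighborSet]
      constructor
      · rintro ⟨_, hy, hadj⟩
        exact ⟨e y, hadj, hge y hy⟩
      · rintro ⟨o, ho, rfl⟩
        obtain ⟨h1, h2⟩ := hpos _ _ ho
        exact ⟨hx, h2, by rw [h1]; exact ho⟩
    rw [himg]
    refine Set.InjOn.ncard_image ?_
    intro o ho o' ho' h
    have h1 := (hpos _ _ ho).1
    have h2 := (hpos _ _ ho').1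
    rw [← h1, ← h2, h]
  have hdegu : {y | u ∈ insert u P ∧ y ∈ insert u P ∧ H.Adj (e u) (e y)}.ncard = c := by
    rw [hdeg u (Finset.mem_insert_self _ _), heu]; rfl
  have hdegP : ∀ x ∈ P, {y | x ∈ insert u P ∧ y ∈ insert u P ∧ H.Adj (e x) (e y)}.ncard =
      r - f x := by
    intro x hx
    rw [hdeg x (Finset.mem_insert_of_mem hx), heP x hx]; rfl
  have hdegC : ∀ x ∈ C, {y | x ∈ insert u P ∧ y ∈ insert u P ∧ H.Adj (e x) (e y)}.ncard =
      r - f x := by
    intro x hx
    by_cases hxP : x ∈ P
    · exact hdegP x hxP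
    · have hxu : x ≠ u := fun h => huC (h ▸ hx)
      have : {y | x ∈ insert u P ∧ y ∈ insert u P ∧ H.Adj (e x) (e y)} = ∅ := by
        ext y
        simp only [Set.mem_ofPred_eq, Set.mem_empty_iff_false, iff_false, Finset.mem_insert]
        rintro ⟨h, -⟩
        rcases h with h | h
        · exact hxu h
        · exact hxP h
      rw [this, Set.ncard_empty, hCf x hx hxP, Nat.sub_self]
  let G : SimpleGraph V :=
    { Adj := fun x y => x ≠ y ∧ x ∈ insert u C ∧ y ∈ insert u C ∧
        ¬ (x ∈ insert u P ∧ y ∈ insert u P ∧ H.Adj (e x) (e y))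
      symm := ⟨fun x y h => ⟨h.1.symm, h.2.2.1, h.2.1, fun h' => h.2.2.2 ⟨h'.2.1, h'.1, h'.2.2.symm⟩⟩⟩
      loopless := ⟨fun x h => h.1 rfl⟩ }
  have hsub : ∀ x ∈ insert u C, {y | x ∈ insert u P ∧ y ∈ insert u P ∧ H.Adj (e x) (e y)} ⊆
      (((insert u C).erase x : Finset V) : Set V) := by
    rintro x - y ⟨-, hy, hadj⟩
    rw [Finset.mem_coe, Finset.mem_erase]
    refine ⟨?_, Finset.insert_subset_insert u hPC hy⟩
    rintro rfl
    exact H.irrefl hadj
  have hnb : ∀ x ∈ insert u C, (G.neighborSet x).ncard =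
      r - {y | x ∈ insert u P ∧ y ∈ insert u P ∧ H.Adj (e x) (e y)}.ncard := by
    intro x hx
    have h1 : G.neighborSet x = (((insert u C).erase x : Finset V) : Set V) \
        {y | x ∈ insert u P ∧ y ∈ insert u P ∧ H.Adj (e x) (e y)} := by
      ext y
      simp only [SimpleGraph.mem_neighborSet, Set.mem_sdiff, Finset.mem_coe, Finset.mem_erase,
        Set.mem_ofPred_eq, G]
      constructor
      · rintro ⟨h1, -, h3, h4⟩
        exact ⟨⟨h1.symm, h3⟩, h4⟩
      · rintro ⟨⟨h1, h3⟩, h4⟩
        exact ⟨h1.symm, hx, h3, h4⟩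
    rw [h1, Set.ncard_sdiff (hsub x hx), Set.ncard_coe_finset, Finset.card_erase_of_mem hx,
      Finset.card_insert_of_notMem huC, hCcard, Nat.add_sub_cancel]
  refine ⟨G, fun v => ?_⟩
  by_cases hv : v ∈ insert u C
  · simp only [hv, if_true]
    rw [hnb v hv]
    by_cases hvu : v = u
    · subst hvu
      simp only [if_true]
      rw [hdegu]
    · simp only [hvu, if_false]
      have hvC : v ∈ C := by
        rcases Finset.mem_insert.mp hv with h | h
        · exact absurd h hvu
        · exact h
      rw [hdegC v hvC]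
      have := hD v
      omega
  · simp only [hv, if_false]
    have : G.neighborSet v = ∅ := by
      ext y
      simp only [SimpleGraph.mem_neighborSet, Set.mem_empty_iff_false, iff_false, G]
      rintro ⟨-, h, -⟩
      exact hv h
    rw [this, Set.ncard_empty]

/-- the exceptional construction at `n = 3 r + 5`. -/
theorem nr_exc (f : V → ℕ) (he : Even (∑ v, f v)) (r : ℕ) (hr : 3 ≤ r) (hro : Odd r)
    (hn : Fintype.card V = 3 * r + 5) (hD : ∀ v, f v ≤ r) (hodd : ∀ v, Odd (f v))
    (hY : ∑ v, (r - f v) < r)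
    (Q : Finset V) (c : ℕ) (hc : 2 ≤ c)
    (hQ : IsValence (fun o : Option Q => o.elim c fun i => r - f i)) : BadReal f := by
  classical
  obtain ⟨H, hH⟩ := hQ
  -- the non-full vertices
  set N : Finset V := univ.filter (fun v => f v < r) with hN
  have hNcard : N.card ≤ ∑ v, (r - f v) := by
    calc N.card = ∑ v ∈ N, 1 := by simp
      _ ≤ ∑ v ∈ N, (r - f v) := by
        refine Finset.sum_le_sum (fun v hv => ?_)
        have := (Finset.mem_filter.mp hv).2
        omega
      _ ≤ ∑ v, (r - f v) := Finset.sum_le_sum_of_subset (Finset.subset_univ _)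
  set P : Finset V := Q.filter (fun v => f v < r) with hPdef
  have hPQ : ∀ v ∈ P, v ∈ Q := fun v hv => (Finset.mem_filter.mp hv).1
  have hP : ∀ v, v ∈ Q → f v < r → v ∈ P := fun v h1 h2 => Finset.mem_filter.mpr ⟨h1, h2⟩
  have hPN : P ⊆ N := fun v hv => Finset.mem_filter.mpr ⟨Finset.mem_univ _, (Finset.mem_filter.mp hv).2⟩
  -- `c ≤ ∑_P (r - f)`
  have hcP : c ≤ ∑ v ∈ P, (r - f v) := by
    have h1 : (H.neighborSet none).ncard = c := hH none
    have h2 : H.neighborSet none ⊆ (fun v : V => if h : v ∈ Q then (some ⟨v, h⟩ : Option Q)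
        else none) '' (P : Set V) := by
      intro o ho
      have h3 : 0 < (H.neighborSet o).ncard := by
        rw [Set.ncard_pos (Set.toFinite _)]
        exact ⟨none, ho.symm⟩
      rw [hH] at h3
      cases o with
      | none => exact absurd ho (H.irrefl)
      | some i =>
        simp only [Option.elim] at h3
        refine ⟨i, hP i i.2 (by omega), ?_⟩
        simp only [i.2, dif_pos]
    have h3 : c ≤ P.card := by
      rw [← h1]
      refine (Set.ncard_le_ncard h2 (Set.toFinite _)).trans ?_
      refine (Set.ncard_image_le (Set.toFinite _)).trans ?_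
      rw [Set.ncard_coe_finset]
    refine h3.trans ?_
    calc P.card = ∑ v ∈ P, 1 := by simp
      _ ≤ ∑ v ∈ P, (r - f v) := by
        refine Finset.sum_le_sum (fun v hv => ?_)
        have := (Finset.mem_filter.mp hv).2
        omega
  -- `c` is even
  have hce : Even c := by
    have h1 : Even (∑ o : Option Q, H.degree o) := by
      rw [SimpleGraph.sum_degrees_eq_twice_card_edges]
      exact even_two_mul _
    have h2 : ∀ o : Option Q, H.degree o = Option.elim o c (fun i => r - f i) := by
      intro o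
      have h3 : (H.neighborSet o).ncard = Option.elim o c (fun i => r - f i) := hH o
      rw [← h3, ← SimpleGraph.card_neighborSet_eq_degree, Set.ncard_eq_toFinset_card',
        Set.toFinset_card]
    rw [Fintype.sum_option, h2] at h1
    have h3 : Even (∑ i : Q, H.degree (some i)) := by
      refine Finset.even_sum _ (fun i _ => ?_)
      rw [h2]
      exact Nat.Odd.sub_odd hro (hodd i)
    exact (Nat.even_add.mp h1).mpr h3
  have hPcard : P.card ≤ N.card := Finset.card_le_card hPN
  -- the cut vertex
  obtain ⟨u, hu⟩ : ∃ u, u ∉ N := by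
    by_contra hcon
    have : N = univ := Finset.eq_univ_iff_forall.mpr (fun x => by
      by_contra hx
      exact hcon ⟨x, hx⟩)
    rw [this, Finset.card_univ, hn] at hNcard
    omega
  have hfu : f u = r := by
    have h1 : ¬ f u < r := fun h => hu (Finset.mem_filter.mpr ⟨Finset.mem_univ _, h⟩)
    have h2 := hD u
    omega
  -- the set `C`
  have hcard1 : r ≤ ((univ \ N).erase u ∪ P).card := by
    have h1 : ((univ : Finset V) \ N).card = 3 * r + 5 - N.card := by
      rw [Finset.card_sdiff_of_subset (Finset.subset_univ _), Finset.card_univ, hn]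
    have h2 : ((univ \ N).erase u).card ≤ ((univ \ N).erase u ∪ P).card :=
      Finset.card_le_card Finset.subset_union_left
    have h3 := Finset.pred_card_le_card_erase (s := univ \ N) (a := u)
    omega
  obtain ⟨C, hPC, hCsub, hCcard⟩ := Finset.exists_subsuperset_card_eq
    (s := P) (t := (univ \ N).erase u ∪ P) (n := r) Finset.subset_union_right (by omega) hcard1
  have huP : u ∉ P := fun h => hu (hPN h)
  have huC : u ∉ C := by
    intro h
    rcases Finset.mem_union.mp (hCsub h) with h1 | h1
    · exact Finset.notMem_erase _ _ h1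
    · exact huP h1
  have hCf : ∀ v ∈ C, v ∉ P → f v = r := by
    intro v hv hvP
    rcases Finset.mem_union.mp (hCsub hv) with h1 | h1
    · have h2 : v ∉ N := (Finset.mem_sdiff.mp (Finset.mem_of_mem_erase h1)).2
      have h3 : ¬ f v < r := fun h => h2 (Finset.mem_filter.mpr ⟨Finset.mem_univ _, h⟩)
      have h4 := hD v
      omega
    · exact absurd h1 hvP
  -- the two large blocks
  set W : Finset V := univ \ insert u C with hW
  have hWcard : W.card = 2 * r + 4 := by
    rw [hW, Finset.card_sdiff_of_subset (Finset.subset_univ _), Finset.card_univ, hn,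
      Finset.card_insert_of_notMem huC, hCcard]
    omega
  obtain ⟨A, hAW, hAcard⟩ := Finset.exists_subset_card_eq (s := W) (n := r + 2) (by omega)
  set B : Finset V := W \ A with hB
  have hBcard : B.card = r + 2 := by
    rw [hB, Finset.card_sdiff_of_subset hAW, hWcard, hAcard]
    omega
  have hABW : A ∪ B = W := Finset.union_sdiff_of_subset hAW
  have hAB : Disjoint A B := Finset.disjoint_sdiff
  have huW : u ∉ W := fun h => (Finset.mem_sdiff.mp h).2 (Finset.mem_insert_self _ _)
  -- outside deficiency
  have hYW : ∑ v ∈ W, (r - f v) + ∑ v ∈ P, (r - f v) < r := by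
    have hd : Disjoint W P := by
      rw [Finset.disjoint_left]
      intro v hv hvP
      exact (Finset.mem_sdiff.mp hv).2 (Finset.mem_insert_of_mem (hPC hvP))
    rw [← Finset.sum_union hd]
    exact lt_of_le_of_lt (Finset.sum_le_sum_of_subset (Finset.subset_univ _)) hY
  have hYAB : ∑ v ∈ A, (r - f v) + ∑ v ∈ B, (r - f v) = ∑ v ∈ W, (r - f v) := by
    rw [← Finset.sum_union hAB, hABW]
  -- the set `Z`
  obtain ⟨Z1, hZ1A, hZ1card⟩ := Finset.exists_subset_card_eq (s := A) (n := 1) (by omega)
  obtain ⟨Z2, hZ2B, hZ2card⟩ := Finset.exists_subset_card_eq (s := B) (n := c - 1) (by omega)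
  have hZd : Disjoint Z1 Z2 := Finset.disjoint_of_subset_left hZ1A
    (Finset.disjoint_of_subset_right hZ2B hAB)
  have hZcard : (Z1 ∪ Z2).card = c := by
    rw [Finset.card_union_of_disjoint hZd, hZ1card, hZ2card]
    omega
  have hAZ : A ∩ (Z1 ∪ Z2) = Z1 := by
    rw [Finset.inter_union_distrib_left, Finset.inter_eq_right.mpr hZ1A]
    have : A ∩ Z2 = ∅ := Finset.disjoint_iff_inter_eq_empty.mp
      (Finset.disjoint_of_subset_right hZ2B hAB)
    rw [this, Finset.union_empty]
  have hBZ : B ∩ (Z1 ∪ Z2) = Z2 := by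
    rw [Finset.inter_union_distrib_left, Finset.inter_eq_right.mpr hZ2B]
    have : B ∩ Z1 = ∅ := Finset.disjoint_iff_inter_eq_empty.mp
      (Finset.disjoint_of_subset_right hZ1A hAB.symm)
    rw [this, Finset.empty_union]
  have hroE : Odd (r + 2) := hro.add_even (by decide)
  refine cut_glue f u A B (Z1 ∪ Z2) hAB (fun h => huW (hAW h))
    (fun h => huW ((Finset.mem_sdiff.mp h).1)) (hAcard ▸ hroE) (hBcard ▸ hroE)
    (Finset.union_subset_union hZ1A hZ2B) (fun z _ => (hodd z).pos) (by rw [hZcard, hfu]; omega)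
    ?_ ?_ ?_
  · refine exc_block f r hr hro hD hodd A (Z1 ∪ Z2) hAcard ?_ ?_
    · rw [hAZ, hZ1card]; decide
    · rw [hAZ, hZ1card]; omega
  · refine exc_block f r hr hro hD hodd B (Z1 ∪ Z2) hBcard ?_ ?_
    · rw [hBZ, hZ2card]
      exact Nat.Even.sub_odd (by omega) hce (by decide)
    · rw [hBZ, hZ2card]; omega
  · have h := exc_third f r u hfu hD Q c P C huC hCcard hPC hPQ hP hCf H hH
    have heq : (fun v => if v ∈ insert u C then (if v = u then r - c else f v) else 0) =
        (fun v => if v ∈ A ∪ B then 0 else if v = u then f u - (Z1 ∪ Z2).card else f v) := by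
      funext v
      rw [hABW, hZcard, hfu]
      by_cases hv : v ∈ insert u C
      · have : v ∉ W := fun h => (Finset.mem_sdiff.mp h).2 hv
        simp only [hv, this, if_true, if_false]
      · have : v ∈ W := Finset.mem_sdiff.mpr ⟨Finset.mem_univ _, hv⟩
        simp only [hv, this, if_true, if_false]
    rw [← heq]
    exact h

end Pool.Agent.MP_6e0dc6_co
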