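import Pool.Agent.Lib.MP_6e0dc6_co.Bar

/-!
Elementary facts on the components of a Tutte barrier of deficiency two.
-/

namespace Pool.Agent.MP_6e0dc6_co

open Finset

variable {V : Type*} [Fintype V] [DecidableEq V]

/-- In a family with all members of size `≥ m`, one member is bounded by the total. -/
theorem ForceLem.card_add_le (T : Finset (Finset V)) (m : ℕ) (h : ∀ C ∈ T, m ≤ C.card)
    {C : Finset V} (hC : C ∈ T) : C.card + m * T.card ≤ ∑ C ∈ T, C.card + m := by
  have h0 := Finset.add_sum_erase T (fun C => C.card) hC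
  have h1 : (T.erase C).card * m ≤ ∑ C ∈ T.erase C, C.card := by
    have := Finset.card_nsmul_le_sum (T.erase C) (fun C => C.card) m
      (fun D hD => h D (mem_of_mem_erase hD))
    simpa using this
  have h2 : (T.erase C).card + 1 = T.card := card_erase_add_one hC
  rw [← h0, ← h2]
  nlinarith

/-- If the deficiency on `U` is at least `2r - 2` then `f = r` outside `U`. -/
theorem ForceLem.eq_of_notMem (f : V → ℕ) (r : ℕ)
    (hXY : ∑ v, (f v - r) + ∑ v, (r - f v) + 2 ≤ 2 * r) (U : Finset V)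
    (hU : 2 * r ≤ ∑ v ∈ U, (r - f v) + 2) {v : V} (hv : v ∉ U) : f v = r := by
  have h1 : ∑ w ∈ U, (r - f w) + (r - f v) ≤ ∑ w, (r - f w) := by
    have h0 := Finset.sum_insert (f := fun w => r - f w) hv
    have h1 := Finset.sum_le_sum_of_subset (f := fun w => r - f w) (subset_univ (insert v U))
    omega
  have h2 : f v - r ≤ ∑ w, (f w - r) :=
    Finset.single_le_sum (f := fun w => f w - r) (fun _ _ => Nat.zero_le _) (mem_univ v)
  omega

/-- The number of vertices of value `a`. -/
theorem ForceLem.card_filter_eq (f : V → ℕ) (r a : ℕ) (har : a ≠ r)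
    (hXY : ∑ v, (f v - r) + ∑ v, (r - f v) + 2 ≤ 2 * r) (U : Finset V)
    (hU : 2 * r ≤ ∑ v ∈ U, (r - f v) + 2) (hUa : ∀ v ∈ U, f v = a) :
    (univ.filter fun v => f v = a).card = U.card := by
  congr 1
  ext v
  simp only [mem_filter, mem_univ, true_and]
  constructor
  · intro hv
    by_contra h
    exact har (hv.symm.trans (ForceLem.eq_of_notMem f r hXY U hU h))
  · exact hUa v

section
variable {f : V → ℕ} {G : SimpleGraph V} {S : Finset V} {F : Finset (Finset V)}

/-- `S` is not empty. -/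
theorem ForceLem.one_le (hB : Barrier f G S F) (hodd : ∀ v, Odd (f v)) : 1 ≤ S.card := by
  by_contra h
  have h0 : S = ∅ := by
    rw [← Finset.card_eq_zero]; omega
  have h1 : 0 < F.card := by rw [hB.card]; omega
  obtain ⟨C, hC⟩ := Finset.card_pos.mp h1
  have h2 := hB.edges_odd hodd hC
  have h3 : ∑ v ∈ C, Forcing.nb G v S = 0 := by
    refine Finset.sum_eq_zero fun v _ => ?_
    have := Forcing.nb_le G v S
    rw [h0, Finset.card_empty] at this
    rw [h0]
    omega
  rw [h3] at h2
  exact absurd h2 (by decide)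

theorem ForceLem.single_three (hB : Barrier f G S F) (h3 : ∀ v, 3 ≤ f v) {C : Finset V}
    (hC : C ∈ F) (h1 : C.card = 1) : 3 ≤ S.card := by
  obtain ⟨v, hv⟩ := Finset.card_eq_one.mp h1
  have h2 := hB.vert hC (v := v) (by rw [hv]; exact mem_singleton_self v)
  have := h3 v
  omega

theorem ForceLem.card_pos (hB : Barrier f G S F) {C : Finset V} (hC : C ∈ F) : 1 ≤ C.card :=
  (hB.odd C hC).pos

theorem ForceLem.card_split (hB : Barrier f G S F) (r : ℕ) :
    (F.filter fun C => C.card ≤ r).card + (F.filter fun C => ¬ C.card ≤ r).card =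
      S.card + 2 := by
  rw [← hB.card]
  exact Finset.card_filter_add_card_filter_not (s := F) (fun C => C.card ≤ r)

theorem ForceLem.large_ge (hB : Barrier f G S F) {r : ℕ} (hro : Odd r) {C : Finset V}
    (hC : C ∈ F.filter fun C => ¬ C.card ≤ r) : r + 2 ≤ C.card := by
  rw [mem_filter] at hC
  obtain ⟨a, ha⟩ := hB.odd C hC.1
  obtain ⟨b, hb⟩ := hro
  have := hC.2
  omega

theorem ForceLem.size (hB : Barrier f G S F) {r : ℕ} (hro : Odd r) :
    S.card + ∑ C ∈ F.filter (fun C => C.card ≤ r), C.card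
      + (F.filter fun C => ¬ C.card ≤ r).card * (r + 2) ≤ Fintype.card V := by
  have h1 := hB.card_le
  have h2 : ∑ C ∈ F, C.card = ∑ C ∈ F.filter (fun C => C.card ≤ r), C.card +
      ∑ C ∈ F.filter (fun C => ¬ C.card ≤ r), C.card :=
    (Finset.sum_filter_add_sum_filter_not F (fun C => C.card ≤ r) (fun C => C.card)).symm
  have h3 : (F.filter fun C => ¬ C.card ≤ r).card * (r + 2) ≤
      ∑ C ∈ F.filter (fun C => ¬ C.card ≤ r), C.card := by
    have := Finset.card_nsmul_le_sum (F.filter fun C => ¬ C.card ≤ r) (fun C => C.card) (r + 2)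
      (fun D hD => ForceLem.large_ge hB hro hD)
    simpa using this
  omega

theorem ForceLem.edges_large (hB : Barrier f G S F) (hodd : ∀ v, Odd (f v)) (r : ℕ) :
    (F.filter fun C => ¬ C.card ≤ r).card ≤
      ∑ C ∈ F.filter (fun C => ¬ C.card ≤ r), ∑ v ∈ C, Forcing.nb G v S := by
  have := Finset.card_nsmul_le_sum (F.filter fun C => ¬ C.card ≤ r)
    (fun C => ∑ v ∈ C, Forcing.nb G v S) 1
      (fun D hD => (hB.edges_odd hodd (mem_filter.mp hD).1).pos)
  simpa using this

theorem ForceLem.sum_fam_le (hB : Barrier f G S F) (T : Finset (Finset V)) (hT : T ⊆ F)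
    (g : V → ℕ) : ∑ v ∈ S, g v + ∑ C ∈ T, ∑ v ∈ C, g v ≤ ∑ v, g v := by
  have h1 := hB.sum_le g
  have h2 : ∑ C ∈ T, ∑ v ∈ C, g v ≤ ∑ C ∈ F, ∑ v ∈ C, g v :=
    Finset.sum_le_sum_of_subset hT
  omega

theorem ForceLem.sum_biUnion (hB : Barrier f G S F) (T : Finset (Finset V)) (hT : T ⊆ F)
    (g : V → ℕ) : ∑ v ∈ T.biUnion id, g v = ∑ C ∈ T, ∑ v ∈ C, g v := by
  rw [Finset.sum_biUnion]
  · rfl
  · intro C hC D hD hne
    exact hB.disj C (hT hC) D (hT hD) hne

theorem ForceLem.card_biUnion (hB : Barrier f G S F) (T : Finset (Finset V)) (hT : T ⊆ F) :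
    (T.biUnion id).card = ∑ C ∈ T, C.card := by
  have := ForceLem.sum_biUnion hB T hT (fun _ => 1)
  simpa using this

/-- The basic inequality, with the hypothesis on the total deviation. -/
theorem ForceLem.star_le (hB : Barrier f G S F) {r : ℕ} (hodd : ∀ v, Odd (f v))
    (hXY : ∑ v, (f v - r) + ∑ v, (r - f v) + 2 ≤ 2 * r) :
    (((F.filter fun C => C.card ≤ r).card : ℤ) - S.card) * r
      + ∑ C ∈ F.filter (fun C => C.card ≤ r), ((C.card : ℤ) - 1) * ((r : ℤ) - C.card)
      + ((F.filter fun C => ¬ C.card ≤ r).card : ℤ) + 2 ≤ 2 * r := by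
  have h1 := hB.star r
  have h2 := ForceLem.edges_large hB hodd r
  have h4 := ForceLem.sum_fam_le hB _ (filter_subset (fun C => C.card ≤ r) F) (fun v => f v - r)
  have h5 := ForceLem.sum_fam_le hB _ (filter_subset (fun C => C.card ≤ r) F) (fun v => r - f v)
  generalize (∑ C ∈ F.filter (fun C => ¬ C.card ≤ r), ∑ v ∈ C, Forcing.nb G v S) = EL at h1 h2
  generalize (∑ C ∈ F.filter (fun C => C.card ≤ r), ∑ v ∈ C, (f v - r)) = XC at h1 h4
  generalize (∑ C ∈ F.filter (fun C => C.card ≤ r), ∑ v ∈ C, (r - f v)) = YC at h1 h5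
  generalize (∑ v ∈ S, (r - f v)) = YS at h1 h5
  generalize (∑ v ∈ S, (f v - r)) = XS at h1 h4
  generalize (∑ v, (r - f v)) = Y at h5 hXY
  generalize (∑ v, (f v - r)) = X at h4 hXY
  generalize (((F.filter fun C => C.card ≤ r).card : ℤ) - S.card) * r = t1 at h1 ⊢
  generalize (∑ C ∈ F.filter (fun C => C.card ≤ r), ((C.card : ℤ) - 1) * ((r : ℤ) - C.card)) =
    t2 at h1 ⊢
  omega

theorem ForceLem.term_nonneg (hB : Barrier f G S F) (r : ℕ) {C : Finset V}
    (hC : C ∈ F.filter (fun C => C.card ≤ r)) :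
    (0 : ℤ) ≤ ((C.card : ℤ) - 1) * ((r : ℤ) - C.card) := by
  have h4 := ForceLem.card_pos hB (mem_filter.mp hC).1
  have h5 := (mem_filter.mp hC).2
  exact mul_nonneg (by omega) (by omega)

/-- If there is one large component and `s + 1` small ones then the small ones have size `1`
or `r`. -/
theorem ForceLem.one_or_r (hB : Barrier f G S F) {r : ℕ} (hr : 3 ≤ r) (hro : Odd r)
    (hodd : ∀ v, Odd (f v))
    (hXY : ∑ v, (f v - r) + ∑ v, (r - f v) + 2 ≤ 2 * r)
    (hl : 1 ≤ (F.filter fun C => ¬ C.card ≤ r).card)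
    (hk : (F.filter fun C => C.card ≤ r).card = S.card + 1) {C : Finset V}
    (hC : C ∈ F.filter (fun C => C.card ≤ r)) : C.card = 1 ∨ C.card = r := by
  by_contra hcon
  push Not at hcon
  have hCF := (mem_filter.mp hC).1
  have hCr := (mem_filter.mp hC).2
  have h1 := ForceLem.star_le hB hodd hXY
  have h3 : (((C.card : ℤ) - 1) * ((r : ℤ) - C.card)) ≤
      ∑ C ∈ F.filter (fun C => C.card ≤ r), ((C.card : ℤ) - 1) * ((r : ℤ) - C.card) := by
    exact Finset.single_le_sum
      (f := fun C : Finset V => ((C.card : ℤ) - 1) * ((r : ℤ) - C.card))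
      (fun D hD => ForceLem.term_nonneg hB r hD) hC
  obtain ⟨a, ha⟩ := hB.odd C hCF
  obtain ⟨b, hb⟩ := hro
  have h6 : 3 ≤ C.card := by omega
  have h7 : C.card + 2 ≤ r := by omega
  have h8 : (0 : ℤ) ≤ (((C.card : ℤ) - 3) * ((r : ℤ) - 2 - C.card)) :=
    mul_nonneg (by omega) (by omega)
  rw [hk] at h1
  push_cast at h1
  have hl' : (1 : ℤ) ≤ ((F.filter fun C => ¬ C.card ≤ r).card : ℤ) := by exact_mod_cast hl
  nlinarith

/-- The families of singletons and of components of size `r` when nothing else is small. -/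
theorem ForceLem.split_small {F : Finset (Finset V)} {r : ℕ} (hr : 3 ≤ r)
    (h : ∀ C ∈ F.filter (fun C => C.card ≤ r), C.card = 1 ∨ C.card = r) :
    (F.filter fun C => C.card = 1).card + (F.filter fun C => C.card = r).card =
        (F.filter fun C => C.card ≤ r).card ∧
      ∑ C ∈ F.filter (fun C => C.card ≤ r), C.card =
        (F.filter fun C => C.card = 1).card + (F.filter fun C => C.card = r).card * r := by
  have hU : F.filter (fun C => C.card ≤ r) =
      (F.filter fun C => C.card = 1) ∪ (F.filter fun C => C.card = r) := by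
    ext C
    simp only [mem_filter, mem_union]
    constructor
    · rintro ⟨h1, h2⟩
      rcases h C (mem_filter.mpr ⟨h1, h2⟩) with h3 | h3
      · exact Or.inl ⟨h1, h3⟩
      · exact Or.inr ⟨h1, h3⟩
    · rintro (⟨h1, h2⟩ | ⟨h1, h2⟩)
      · exact ⟨h1, by omega⟩
      · exact ⟨h1, by omega⟩
  have hd : Disjoint (F.filter fun C => C.card = 1) (F.filter fun C => C.card = r) := by
    rw [Finset.disjoint_left]
    intro C h1 h2
    rw [mem_filter] at h1 h2
    omega
  rw [hU]
  refine ⟨(Finset.card_union_of_disjoint hd).symm, ?_⟩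
  rw [Finset.sum_union hd]
  congr 1
  · rw [Finset.sum_congr rfl (fun C hC => (mem_filter.mp hC).2)]
    simp
  · rw [Finset.sum_congr rfl (fun C hC => (mem_filter.mp hC).2)]
    simp

/-- Deficiency of a subfamily of the singletons. -/
theorem ForceLem.defic_single (hB : Barrier f G S F) (r : ℕ) :
    ((F.filter fun C => C.card = 1).card : ℤ) * ((r : ℤ) - S.card) ≤
      ((∑ C ∈ F.filter (fun C => C.card = 1), ∑ v ∈ C, (r - f v) : ℕ) : ℤ) := by
  push_cast
  rw [← nsmul_eq_mul]
  refine Finset.card_nsmul_le_sum _ _ _ fun C hC => ?_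
  rw [mem_filter] at hC
  have h := hB.defic r hC.1
  rw [hC.2] at h
  push_cast at h
  linarith

end

end Pool.Agent.MP_6e0dc6_co
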