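import Pool.Agent.Lib.MP_6e0dc6_co.Glue
import Pool.Agent.Lib.MP_6e0dc6_co.NearReg

/-!
Near-regular sequences: constructions of realizations without perfect matchings.
-/

namespace Pool.Agent.MP_6e0dc6_co

open Finset

variable {V : Type*} [Fintype V] [DecidableEq V]

omit [DecidableEq V] in
/-- The number of exceptional terms. -/
private theorem nf_cnt (f : V → ℕ) (r : ℕ) (hXY : ∑ v, (f v - r) + ∑ v, (r - f v) < r) :
    Fintype.card V + 1 ≤ (univ.filter fun v => f v = r).card + r := by
  have h1 : (univ.filter fun v => ¬ f v = r).card ≤ ∑ v, (f v - r) + ∑ v, (r - f v) := by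
    rw [← Finset.sum_add_distrib, Finset.card_eq_sum_ones]
    refine (Finset.sum_le_sum (g := fun v => (f v - r) + (r - f v)) ?_).trans
      (Finset.sum_le_sum_of_subset (Finset.filter_subset _ _))
    intro v hv
    have := (Finset.mem_filter.1 hv).2
    omega
  have h2 := Finset.card_filter_add_card_filter_not (s := (univ : Finset V)) (fun v => f v = r)
  rw [Finset.card_univ] at h2
  omega

/-- A block of a near-regular sequence. -/
private theorem nf_block (f : V → ℕ) (r : ℕ) (hr : 1 ≤ r)
    (hXY : ∑ v, (f v - r) + ∑ v, (r - f v) < r) (W : Finset V) (he : Even (∑ v ∈ W, f v))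
    (hW : r + 2 ≤ W.card) (hmax : ∀ v ∈ W, f v + 1 ≤ W.card) :
    IsValence (fun v => if v ∈ W then f v else 0) := by
  have hs : ∀ F : ℕ → ℕ, ∑ v ∈ W, F (if v ∈ W then f v else 0) = ∑ v ∈ W, F (f v) := fun F =>
    Finset.sum_congr rfl fun v hv => by rw [if_pos hv]
  have hX0 : ∑ v ∈ W, (f v - r) ≤ ∑ v, (f v - r) :=
    Finset.sum_le_sum_of_subset (Finset.subset_univ _)
  have hY0 : ∑ v ∈ W, (r - f v) ≤ ∑ v, (r - f v) :=
    Finset.sum_le_sum_of_subset (Finset.subset_univ _)
  apply near_reg W _ r
  · intro v hv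
    rw [if_neg hv]
  · rw [Finset.sum_ite_mem, Finset.univ_inter]
    exact he
  · exact hr
  · exact hW
  · intro v hv
    rw [if_pos hv]
    exact hmax v hv
  · rw [hs fun x => x - r, hs fun x => r - x]
    omega
  · have h1 : (W.filter fun v => r < if v ∈ W then f v else 0).card ≤ ∑ v ∈ W, (f v - r) := by
      rw [Finset.card_eq_sum_ones]
      refine (Finset.sum_le_sum (g := fun v => f v - r) ?_).trans
        (Finset.sum_le_sum_of_subset (Finset.filter_subset _ _))
      intro v hv
      have h2 := Finset.mem_filter.1 hv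
      rw [if_pos h2.1] at h2
      omega
    omega

private theorem nf_compl (f : V → ℕ) (C : Finset V) :
    (fun v => if v ∈ C then 0 else f v) = fun v => if v ∈ Cᶜ then f v else 0 := by
  funext v
  by_cases h : v ∈ C
  · rw [if_pos h, if_neg (by simpa using h)]
  · rw [if_neg h, if_pos (by simpa using h)]

private theorem nf_even_compl (f : V → ℕ) (he : Even (∑ v, f v)) (C : Finset V)
    (hC : Even (∑ v ∈ C, f v)) : Even (∑ v ∈ Cᶜ, f v) := by
  have h := Finset.sum_add_sum_compl C f
  rw [← h, Nat.even_add] at he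
  exact he.1 hC

/-- near-regular, `r` even. -/
theorem nr_even (f : V → ℕ) (he : Even (∑ v, f v)) (D r : ℕ) (hD : ∀ v, f v ≤ D)
    (hn : 3 * D + 2 ≤ Fintype.card V) (hr : 2 ≤ r) (hrD : r ≤ D) (hre : Even r)
    (hXY : ∑ v, (f v - r) + ∑ v, (r - f v) < r) : BadReal f := by
  have h1 := nf_cnt f r hXY
  obtain ⟨C, hC, hCc⟩ := Finset.exists_subset_card_eq
    (show r + 1 ≤ (univ.filter fun v => f v = r).card by omega)
  have hCr : ∀ v ∈ C, f v = r := fun v hv => (Finset.mem_filter.1 (hC hv)).2
  have hsum : Even (∑ v ∈ C, f v) := by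
    rw [Finset.sum_congr rfl hCr, Finset.sum_const, smul_eq_mul]
    exact hre.mul_left _
  have hcc := Finset.card_compl C
  apply split_glue f C
  · rw [hCc]
    exact hre.add_one
  · -- the complete graph on `C`
    refine ⟨SimpleGraph.fromRel fun a b => a ∈ C ∧ b ∈ C, fun a => ?_⟩
    by_cases ha : a ∈ C
    · have h2 : (SimpleGraph.fromRel fun a b => a ∈ C ∧ b ∈ C).neighborSet a =
          ((C.erase a : Finset V) : Set V) := by
        ext b
        simp only [SimpleGraph.mem_neighborSet, SimpleGraph.fromRel_adj, Finset.coe_erase,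
          Set.mem_sdiff, Finset.mem_coe, Set.mem_singleton_iff]
        constructor
        · rintro ⟨h3, ⟨-, h4⟩ | ⟨h4, -⟩⟩
          · exact ⟨h4, fun h => h3 h.symm⟩
          · exact ⟨h4, fun h => h3 h.symm⟩
        · rintro ⟨h3, h4⟩
          exact ⟨fun h => h4 h.symm, Or.inl ⟨ha, h3⟩⟩
      rw [h2, Set.ncard_coe_finset, Finset.card_erase_of_mem ha]
      show C.card - 1 = if a ∈ C then f a else 0
      rw [if_pos ha, hCr a ha, hCc]
      omega
    · have h2 : (SimpleGraph.fromRel fun a b => a ∈ C ∧ b ∈ C).neighborSet a = ∅ := by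
        ext b
        simp only [SimpleGraph.mem_neighborSet, SimpleGraph.fromRel_adj, Set.mem_empty_iff_false,
          iff_false]
        rintro ⟨-, ⟨h4, -⟩ | ⟨-, h4⟩⟩ <;> exact ha h4
      rw [h2, Set.ncard_empty]
      show 0 = if a ∈ C then f a else 0
      rw [if_neg ha]
  · rw [nf_compl]
    apply nf_block f r (by omega) hXY _ (nf_even_compl f he C hsum)
    · omega
    · intro v _
      have := hD v
      omega

/-- near-regular, `r` odd with an even term. -/
theorem nr_odd_even (f : V → ℕ) (he : Even (∑ v, f v)) (D r : ℕ) (hD : ∀ v, f v ≤ D)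
    (hn : 3 * D + 2 ≤ Fintype.card V) (hr : 3 ≤ r) (hrD : r ≤ D) (hre : Odd r)
    (hXY : ∑ v, (f v - r) + ∑ v, (r - f v) < r) (w : V) (hw : Even (f w)) : BadReal f := by
  have h1 := nf_cnt f r hXY
  have hwD := hD w
  -- the number of further vertices
  obtain ⟨k, hk1, hk2, hk3, hk4⟩ : ∃ k, Even k ∧ r + 1 ≤ k ∧ f w ≤ k ∧ k ≤ D + 1 ∧
      (k = D + 1 → k = r + 1) := by
    by_cases h : f w ≤ r + 1
    · exact ⟨r + 1, hre.add_one, le_refl _, h, by omega, fun _ => rfl⟩
    · exact ⟨f w, hw, by omega, le_refl _, by omega, fun h => by omega⟩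
  obtain ⟨R, hR, hRc⟩ := Finset.exists_subset_card_eq
    (show k ≤ (univ.filter fun v => f v = r).card by omega)
  have hRr : ∀ v ∈ R, f v = r := fun v hv => (Finset.mem_filter.1 (hR hv)).2
  have hwR : w ∉ R := by
    intro h
    have := hRr w h
    rw [this] at hw
    exact (Nat.not_even_iff_odd.2 hre) hw
  have hcard : (insert w R).card = k + 1 := by rw [Finset.card_insert_of_notMem hwR, hRc]
  have hsum : Even (∑ v ∈ insert w R, f v) := by
    rw [Finset.sum_insert hwR, Finset.sum_congr rfl hRr, Finset.sum_const, smul_eq_mul, hRc]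
    exact hw.add (hk1.mul_right _)
  have hcc := Finset.card_compl (insert w R)
  apply split_glue f (insert w R)
  · rw [hcard]
    exact hk1.add_one
  · apply nf_block f r (by omega) hXY _ hsum
    · omega
    · intro v hv
      rcases Finset.mem_insert.1 hv with rfl | hv
      · omega
      · have := hRr v hv
        omega
  · rw [nf_compl]
    apply nf_block f r (by omega) hXY _ (nf_even_compl f he _ hsum)
    · omega
    · intro v _
      have := hD v
      omega

/-- The block of a cut vertex with one edge to it. -/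
private theorem nf_arm (f : V → ℕ) (r : ℕ) (hr : 1 ≤ r) (hro : Odd r) (A Z : Finset V) (a : V)
    (ha : a ∈ A) (hZ : ∀ v ∈ A, v ∈ Z ↔ v = a) (hA : A.card = r + 2) (hf : ∀ v ∈ A, f v = r) :
    IsValence (fun v => if v ∈ A then f v - (if v ∈ Z then 1 else 0) else 0) := by
  have hg : ∀ v ∈ A, (if v ∈ A then f v - (if v ∈ Z then 1 else 0) else 0) =
      r - (if v = a then 1 else 0) := by
    intro v hv
    rw [if_pos hv, hf v hv]
    congr 1
    simp only [hZ v hv]
  have hs : ∀ F : ℕ → ℕ, ∑ v ∈ A, F (if v ∈ A then f v - (if v ∈ Z then 1 else 0) else 0) =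
      ∑ v ∈ A, F (r - (if v = a then 1 else 0)) := fun F =>
    Finset.sum_congr rfl fun v hv => by rw [hg v hv]
  have h1 : ∑ v ∈ A, (if v = a then 1 else 0) = 1 := by
    rw [Finset.sum_ite_eq' A a, if_pos ha]
  apply near_reg A _ r
  · intro v hv
    rw [if_neg hv]
  · rw [Finset.sum_ite_mem, Finset.univ_inter]
    have h2 : ∑ v ∈ A, (f v - (if v ∈ Z then 1 else 0)) + 1 = (r + 2) * r := by
      have h4 : ∑ v ∈ A, (f v - (if v ∈ Z then 1 else 0)) + ∑ v ∈ A, (if v = a then 1 else 0) =
          (r + 2) * r := by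
        rw [← Finset.sum_add_distrib, ← hA, ← smul_eq_mul, ← Finset.sum_const]
        refine Finset.sum_congr rfl fun v hv => ?_
        have h3 := hg v hv
        rw [if_pos hv] at h3
        rw [h3]
        split_ifs <;> omega
      rwa [h1] at h4
    have h3 : Odd ((r + 2) * r) := (hro.add_even even_two).mul hro
    rw [← h2, Nat.odd_add_one, Nat.not_odd_iff_even] at h3
    exact h3
  · exact hr
  · omega
  · intro v hv
    rw [hg v hv]
    omega
  · rw [hs fun x => x - r, hs fun x => r - x]
    have h2 : ∑ v ∈ A, (r - (if v = a then 1 else 0) - r) = 0 :=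
      Finset.sum_eq_zero fun v _ => by omega
    have h3 : ∑ v ∈ A, (r - (r - (if v = a then 1 else 0))) = 1 := by
      rw [← h1]
      refine Finset.sum_congr rfl fun v _ => ?_
      split_ifs <;> omega
    rw [h2, h3]
    omega
  · have h2 : (A.filter fun v => r < if v ∈ A then f v - (if v ∈ Z then 1 else 0) else 0) = ∅ := by
      apply Finset.filter_eq_empty_iff.2
      intro v hv
      rw [hg v hv]
      omega
    rw [h2]
    simp

/-- The block of the cut vertex. -/
private theorem nf_body (f : V → ℕ) (he : Even (∑ v, f v)) (r : ℕ) (hr : 2 ≤ r) (u : V)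
    (hu : f u = r) (AB : Finset V) (huAB : u ∉ AB) (hAB : Even (∑ v ∈ AB, f v)) (m : ℕ)
    (hm : ∑ v ∈ ABᶜ, (f v - r) + ∑ v ∈ ABᶜ, (r - f v) + 4 ≤ m) (hmc : m ≤ ABᶜ.card)
    (hX : (ABᶜ.filter fun v => r < f v).card ≤ r)
    (hW : r + 2 ≤ ABᶜ.card) (hmax : ∀ v ∈ ABᶜ, f v + 1 ≤ ABᶜ.card) :
    IsValence (fun v => if v ∈ AB then 0 else if v = u then f u - 2 else f v) := by
  have huW : u ∈ ABᶜ := by simpa using huAB
  have hg : ∀ v ∈ ABᶜ, (if v ∈ AB then 0 else if v = u then f u - 2 else f v) =
      f v - (if v = u then 2 else 0) := by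
    intro v hv
    rw [if_neg (by simpa using hv)]
    split_ifs with h
    · rw [h]
    · rfl
  have hs : ∀ F : ℕ → ℕ, ∑ v ∈ ABᶜ, F (if v ∈ AB then 0 else if v = u then f u - 2 else f v) =
      ∑ v ∈ ABᶜ, F (f v - (if v = u then 2 else 0)) := fun F =>
    Finset.sum_congr rfl fun v hv => by rw [hg v hv]
  have h1 : ∑ v ∈ ABᶜ, (if v = u then 2 else 0) = 2 := by
    rw [Finset.sum_ite_eq' ABᶜ u, if_pos huW]
  have hW' := nf_even_compl f he AB hAB
  apply near_reg ABᶜ _ r
  · intro v hv
    rw [if_pos (by simpa using hv)]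
  · have h0 : ∑ v, (if v ∈ AB then 0 else if v = u then f u - 2 else f v) =
        ∑ v ∈ ABᶜ, (f v - (if v = u then 2 else 0)) := by
      rw [← hs fun x => x]
      symm
      apply Finset.sum_subset (Finset.subset_univ _)
      intro v _ hv
      rw [if_pos (by simpa using hv)]
    rw [h0]
    have h2 : ∑ v ∈ ABᶜ, (f v - (if v = u then 2 else 0)) + 2 = ∑ v ∈ ABᶜ, f v := by
      conv_lhs => rw [← h1]
      rw [← Finset.sum_add_distrib]
      refine Finset.sum_congr rfl fun v hv => ?_
      split_ifs with h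
      · rw [h, hu]
        omega
      · rfl
    rw [← h2, Nat.even_add] at hW'
    exact hW'.2 even_two
  · omega
  · exact hW
  · intro v hv
    rw [hg v hv]
    have := hmax v hv
    omega
  · rw [hs fun x => x - r, hs fun x => r - x]
    have h2 : ∑ v ∈ ABᶜ, (f v - (if v = u then 2 else 0) - r) ≤ ∑ v ∈ ABᶜ, (f v - r) :=
      Finset.sum_le_sum fun v _ => by omega
    have h3 : ∑ v ∈ ABᶜ, (r - (f v - (if v = u then 2 else 0))) ≤
        ∑ v ∈ ABᶜ, (r - f v) + 2 := by
      conv_rhs => rw [← h1]
      rw [← Finset.sum_add_distrib]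
      refine Finset.sum_le_sum fun v _ => ?_
      split_ifs <;> omega
    omega
  · refine le_trans (Finset.card_le_card ?_) hX
    intro v hv
    have h2 := Finset.mem_filter.1 hv
    rw [hg v h2.1] at h2
    exact Finset.mem_filter.2 ⟨h2.1, by omega⟩

/-- near-regular, all terms odd, long. -/
theorem nr_long (f : V → ℕ) (he : Even (∑ v, f v)) (D r : ℕ) (hD : ∀ v, f v ≤ D)
    (hn : 3 * D + 2 ≤ Fintype.card V) (hn' : 3 * r + 7 ≤ Fintype.card V) (hr : 3 ≤ r) (hrD : r ≤ D)
    (hodd : ∀ v, Odd (f v)) (hro : Odd r)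
    (hDr : D = r ∨ r + 2 ≤ D)
    (hXY : ∑ v, (f v - r) + ∑ v, (r - f v) < r) : BadReal f := by
  have h1 := nf_cnt f r hXY
  obtain ⟨T, hT, hTc⟩ := Finset.exists_subset_card_eq
    (show 2 * r + 5 ≤ (univ.filter fun v => f v = r).card by omega)
  have hTr : ∀ v ∈ T, f v = r := fun v hv => (Finset.mem_filter.1 (hT hv)).2
  obtain ⟨u, hu⟩ : T.Nonempty := Finset.card_pos.1 (by omega)
  have hTu : (T.erase u).card = 2 * r + 4 := by
    rw [Finset.card_erase_of_mem hu]
    omega
  obtain ⟨A, hA, hAc⟩ := Finset.exists_subset_card_eq (show r + 2 ≤ (T.erase u).card by omega)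
  set B := T.erase u \ A with hB
  have hBc : B.card = r + 2 := by
    rw [hB, Finset.card_sdiff_of_subset hA]
    omega
  have hAB : Disjoint A B := Finset.disjoint_sdiff
  have hBT : B ⊆ T.erase u := Finset.sdiff_subset
  have huA : u ∉ A := fun h => Finset.notMem_erase u T (hA h)
  have huB : u ∉ B := fun h => Finset.notMem_erase u T (hBT h)
  have hAr : ∀ v ∈ A, f v = r := fun v hv => hTr v (Finset.mem_of_mem_erase (hA hv))
  have hBr : ∀ v ∈ B, f v = r := fun v hv => hTr v (Finset.mem_of_mem_erase (hBT hv))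
  obtain ⟨a, ha⟩ : A.Nonempty := Finset.card_pos.1 (by omega)
  obtain ⟨b, hb⟩ : B.Nonempty := Finset.card_pos.1 (by omega)
  have hab : a ≠ b := fun h => Finset.disjoint_left.1 hAB ha (h ▸ hb)
  have hZc : ({a, b} : Finset V).card = 2 := Finset.card_pair hab
  have hUc : (A ∪ B).card = 2 * r + 4 := by
    rw [Finset.card_union_of_disjoint hAB]
    omega
  have hcc := Finset.card_compl (A ∪ B)
  apply cut_glue f u A B {a, b} hAB huA huB
  · rw [hAc]
    exact hro.add_even even_two
  · rw [hBc]
    exact hro.add_even even_two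
  · intro z hz
    rcases Finset.mem_insert.1 hz with rfl | hz
    · exact Finset.mem_union_left _ ha
    · rw [Finset.mem_singleton.1 hz]
      exact Finset.mem_union_right _ hb
  · intro z _
    exact (hodd z).pos
  · rw [hZc, hTr u hu]
    omega
  · apply nf_arm f r (by omega) hro A {a, b} a ha _ hAc hAr
    intro v hv
    simp only [Finset.mem_insert, Finset.mem_singleton]
    constructor
    · rintro (h | h)
      · exact h
      · exact absurd hb (Finset.disjoint_left.1 hAB (h ▸ hv))
    · exact Or.inl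
  · apply nf_arm f r (by omega) hro B {a, b} b hb _ hBc hBr
    intro v hv
    simp only [Finset.mem_insert, Finset.mem_singleton]
    constructor
    · rintro (h | h)
      · exact absurd hv (Finset.disjoint_left.1 hAB (h ▸ ha))
      · exact h
    · exact Or.inr
  · rw [hZc]
    have hX0 : ∑ v ∈ (A ∪ B)ᶜ, (f v - r) ≤ ∑ v, (f v - r) :=
      Finset.sum_le_sum_of_subset (Finset.subset_univ _)
    have hY0 : ∑ v ∈ (A ∪ B)ᶜ, (r - f v) ≤ ∑ v, (r - f v) :=
      Finset.sum_le_sum_of_subset (Finset.subset_univ _)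
    apply nf_body f he r (by omega) u (hTr u hu) (A ∪ B) (by simp [huA, huB]) _ (r + 3)
    · omega
    · omega
    · have h1 : ((A ∪ B)ᶜ.filter fun v => r < f v).card ≤ ∑ v ∈ (A ∪ B)ᶜ, (f v - r) := by
        rw [Finset.card_eq_sum_ones]
        refine (Finset.sum_le_sum (g := fun v => f v - r) ?_).trans
          (Finset.sum_le_sum_of_subset (Finset.filter_subset _ _))
        intro v hv
        have h2 := Finset.mem_filter.1 hv
        omega
      omega
    · omega
    · intro v _
      have := hD v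
      omega
    · rw [Finset.sum_union hAB, Finset.sum_congr rfl hAr, Finset.sum_congr rfl hBr,
        Finset.sum_const, Finset.sum_const, hAc, hBc]
      exact ⟨_, rfl⟩

/-- `D`-regular up to a leaf. -/
theorem nr_leaf (f : V → ℕ) (he : Even (∑ v, f v)) (r : ℕ) (hr : 3 ≤ r) (hro : Odd r)
    (hn : 3 * r + 3 ≤ Fintype.card V) (l : V) (hl : f l = 1) (h : ∀ v, v ≠ l → f v = r) :
    BadReal f := by
  have hEc : ((univ : Finset V).erase l).card = Fintype.card V - 1 := by
    rw [Finset.card_erase_of_mem (Finset.mem_univ l), Finset.card_univ]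
  obtain ⟨T, hT, hTc⟩ := Finset.exists_subset_card_eq
    (show r + 3 ≤ ((univ : Finset V).erase l).card by omega)
  have hTl : ∀ v ∈ T, v ≠ l := fun v hv => Finset.ne_of_mem_erase (hT hv)
  obtain ⟨u, hu⟩ : T.Nonempty := Finset.card_pos.1 (by omega)
  have hBc : (T.erase u).card = r + 2 := by
    rw [Finset.card_erase_of_mem hu]
    omega
  set B := T.erase u with hB
  have hBl : ∀ v ∈ B, v ≠ l := fun v hv => hTl v (Finset.mem_of_mem_erase hv)
  have hAB : Disjoint {l} B := by
    rw [Finset.disjoint_singleton_left]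
    exact fun h => hBl l h rfl
  have huB : u ∉ B := Finset.notMem_erase u T
  have hur : f u = r := h u (hTl u hu)
  obtain ⟨b, hb⟩ : B.Nonempty := Finset.card_pos.1 (by omega)
  have hlb : l ≠ b := fun e => hBl b hb e.symm
  have hZc : ({l, b} : Finset V).card = 2 := Finset.card_pair hlb
  have hUc : ({l} ∪ B).card = r + 3 := by
    rw [Finset.card_union_of_disjoint hAB, Finset.card_singleton]
    omega
  have hcc := Finset.card_compl ({l} ∪ B)
  have hWr : ∀ v ∈ ({l} ∪ B)ᶜ, f v = r := by
    intro v hv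
    apply h v
    rintro rfl
    simp at hv
  apply cut_glue f u {l} B {l, b} hAB (by simpa using hTl u hu) huB
  · simp
  · rw [hBc]
    exact hro.add_even even_two
  · intro z hz
    rcases Finset.mem_insert.1 hz with rfl | hz
    · exact Finset.mem_union_left _ (Finset.mem_singleton_self _)
    · rw [Finset.mem_singleton.1 hz]
      exact Finset.mem_union_right _ hb
  · intro z hz
    by_cases hzl : z = l
    · rw [hzl, hl]
    · rw [h z hzl]
      omega
  · rw [hZc, hur]
    omega
  · refine ⟨⊥, fun a => ?_⟩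
    have h2 : (⊥ : SimpleGraph V).neighborSet a = ∅ := by
      ext b
      simp
    rw [h2, Set.ncard_empty]
    by_cases ha : a = l
    · subst ha
      simp [hl]
    · simp [ha]
  · apply nf_arm f r (by omega) hro B {l, b} b hb _ hBc fun v hv => h v (hBl v hv)
    intro v hv
    simp only [Finset.mem_insert, Finset.mem_singleton]
    constructor
    · rintro (h | h)
      · exact absurd h (hBl v hv)
      · exact h
    · exact Or.inr
  · rw [hZc]
    have hX0 : ∑ v ∈ ({l} ∪ B)ᶜ, (f v - r) = 0 :=
      Finset.sum_eq_zero fun v hv => by rw [hWr v hv]; omega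
    have hY0 : ∑ v ∈ ({l} ∪ B)ᶜ, (r - f v) = 0 :=
      Finset.sum_eq_zero fun v hv => by rw [hWr v hv]; omega
    apply nf_body f he r (by omega) u hur ({l} ∪ B)
      (by simpa using ⟨hTl u hu, huB⟩) _ 4
    · omega
    · omega
    · have h1 : (({l} ∪ B)ᶜ.filter fun v => r < f v) = ∅ := by
        apply Finset.filter_eq_empty_iff.2
        intro v hv
        rw [hWr v hv]
        omega
      rw [h1]
      simp
    · omega
    · intro v hv
      rw [hWr v hv]
      omega
    · rw [Finset.sum_union hAB, Finset.sum_singleton, hl,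
        Finset.sum_congr rfl fun v hv => h v (hBl v hv), Finset.sum_const, hBc, smul_eq_mul]
      have h3 : Odd ((r + 2) * r) := (hro.add_even even_two).mul hro
      exact odd_one.add_odd h3

end Pool.Agent.MP_6e0dc6_co
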