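import Pool.Agent.Lib.MP_6e0dc6_co.CaseOne
import Pool.Agent.Lib.MP_6e0dc6_co.CaseTwo
import Pool.Agent.Lib.MP_6e0dc6_co.NearRegNF
import Pool.Agent.Lib.MP_6e0dc6_co.Exc
import Pool.Agent.Lib.MP_6e0dc6_co.Forcing

/-!
Classification of the matching-forcing sequences with `n ≥ 3 D + 2`.
-/

namespace Pool.Agent.MP_6e0dc6_co

open Finset

variable {V : Type*} [Fintype V] [DecidableEq V]

/-- A 1-regular graph has a perfect matching. -/
theorem pm_of_one (G : SimpleGraph V) (h : ∀ v, (G.neighborSet v).ncard = 1) :
    ∃ M : G.Subgraph, M.IsPerfectMatching := by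
  refine ⟨⊤, ?_, ?_⟩
  · intro v _
    have := h v
    rw [Set.ncard_eq_one] at this
    obtain ⟨a, ha⟩ := this
    have hmem : ∀ w, G.Adj v w ↔ w = a := fun w => by
      have : w ∈ G.neighborSet v ↔ w ∈ ({a} : Set V) := by rw [ha]
      simpa using this
    refine ⟨a, ?_, ?_⟩
    · simp only [SimpleGraph.Subgraph.top_adj]
      exact (hmem a).mpr rfl
    · intro y hy
      simp only [SimpleGraph.Subgraph.top_adj] at hy
      exact (hmem y).mp hy
  · intro v; simp

/-- A term zero excludes perfect matchings. -/
theorem bad_of_zero (f : V → ℕ) (hf : IsValence f) (v : V) (hv : f v = 0) : BadReal f := by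
  obtain ⟨G, hG⟩ := hf
  refine ⟨G, hG, fun M hM => ?_⟩
  obtain ⟨w, hw, _⟩ := hM.1 (hM.2 v)
  have h0 : (G.neighborSet v).ncard = 0 := by rw [hG, hv]
  rw [Set.ncard_eq_zero] at h0
  have : w ∈ G.neighborSet v := M.adj_sub hw
  rw [h0] at this
  exact this

/-- All valence sequences with `n ≥ 3 D + 2` that are not matching-forcing. -/
theorem bad_main (f : V → ℕ) (hf : IsValence f) (D : ℕ) (hD : ∀ v, f v ≤ D) (hD' : ∃ v, f v = D)
    (hn : 3 * D + 2 ≤ Fintype.card V)
    (h1 : ¬ ∀ v, f v = 1)
    (h2 : ¬ ((∀ v, Odd (f v) ∧ 3 ≤ f v) ∧ ∑ v, (D - f v) < D ∧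
        (Fintype.card V = 3 * D + 3 ∨ Fintype.card V = 3 * D + 5 ∧
          ¬ ∃ (Q : Finset V) (c : ℕ), 2 ≤ c ∧
            IsValence (fun o : Option Q => o.elim c fun i => D - f i)))) : BadReal f := by
  classical
  by_cases hz : ∃ v, f v = 0
  · obtain ⟨v, hv⟩ := hz
    exact bad_of_zero f hf v hv
  push Not at hz
  have hsum := even_sum f hf
  -- the parameter e
  have hex : ∃ s, s + 1 ≤ (univ.filter fun v => f v ≤ s).card := by
    refine ⟨D, ?_⟩
    have : (univ.filter fun v => f v ≤ D) = univ := by
      apply Finset.filter_true_of_mem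
      intro v _; exact hD v
    rw [this, Finset.card_univ]; omega
  obtain ⟨e, he_spec, he_min⟩ : ∃ e, e + 1 ≤ (univ.filter fun v => f v ≤ e).card ∧
      ∀ s < e, ¬ s + 1 ≤ (univ.filter fun v => f v ≤ s).card :=
    ⟨Nat.find hex, Nat.find_spec hex, fun s hs => Nat.find_min hex hs⟩
  have heD : e ≤ D := by
    by_contra hcon
    push Not at hcon
    apply he_min D hcon
    have : (univ.filter fun v => f v ≤ D) = univ := by
      apply Finset.filter_true_of_mem
      intro v _; exact hD v
    rw [this, Finset.card_univ]; omega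
  have he1 : 1 ≤ e := by
    by_contra hcon
    have h0 : e = 0 := by omega
    subst h0
    obtain ⟨v, hv⟩ := Finset.card_pos.mp (show 0 < (univ.filter fun v => f v ≤ 0).card by omega)
    rw [Finset.mem_filter] at hv
    exact hz v (by omega)
  set Lt := univ.filter fun v => f v < e with hLt
  set Le := univ.filter fun v => f v ≤ e with hLe
  set Gt := univ.filter fun v => e < f v with hGt
  have hLtc : Lt.card + 1 ≤ e := by
    have h3 := he_min (e - 1) (by omega)
    have h4 : (univ.filter fun v => f v ≤ e - 1) = Lt := by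
      apply Finset.filter_congr
      intro v _
      constructor <;> intro h <;> omega
    rw [h4] at h3
    omega
  have hLtLe : Lt ⊆ Le := by
    intro v hv
    rw [hLt, Finset.mem_filter] at hv
    rw [hLe, Finset.mem_filter]
    exact ⟨Finset.mem_univ _, by omega⟩
  have hLeGt : Le.card + Gt.card = Fintype.card V := by
    have := Finset.card_filter_add_card_filter_not (s := (univ : Finset V)) (fun v => f v ≤ e)
    rw [Finset.card_univ] at this
    have h4 : (univ.filter fun v => ¬ f v ≤ e) = Gt := by
      apply Finset.filter_congr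
      intro v _
      constructor <;> intro h <;> omega
    rw [h4] at this
    exact this
  by_cases hp : e ≤ Gt.card
  · -- Case 1
    obtain ⟨S, _, hSc, hStop⟩ := exists_top (univ : Finset V) f e (by
      rw [Finset.card_univ]; omega)
    obtain ⟨T, hLtT, hTLe, hTc⟩ := Finset.exists_subsuperset_card_eq hLtLe
      (show Lt.card ≤ e + 1 by omega) he_spec
    have hSgt : ∀ s ∈ S, e + 1 ≤ f s := by
      by_contra hcon
      push Not at hcon
      obtain ⟨s, hs, hsf⟩ := hcon
      have hsub : Gt ⊆ S.erase s := by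
        intro v hv
        rw [hGt, Finset.mem_filter] at hv
        rw [Finset.mem_erase]
        refine ⟨fun h => ?_, ?_⟩
        · subst h; omega
        · by_contra hvS
          have := hStop s hs v (Finset.mem_univ _) hvS
          omega
      have := Finset.card_le_card hsub
      rw [Finset.card_erase_of_mem hs] at this
      omega
    have hTe : ∀ t ∈ T, f t ≤ e := fun t ht => by
      have := hTLe ht
      rw [hLe, Finset.mem_filter] at this
      exact this.2
    apply case_one f hf D e hD hn S T _ hSc hTc hTe hSgt _ _ he1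
    · rw [Finset.disjoint_left]
      intro x hx hx2
      have := hSgt x hx
      have := hTe x hx2
      omega
    · intro m _ hmT
      by_contra hcon
      apply hmT
      apply hLtT
      rw [hLt, Finset.mem_filter]
      exact ⟨Finset.mem_univ _, by omega⟩
    · intro s hs m hm
      exact hStop s hs m (Finset.mem_univ _) hm
  push Not at hp
  by_cases hXY : e ≤ ∑ v, (f v - e) + ∑ v, (e - f v)
  · -- Case 2
    obtain ⟨s, hs⟩ : ∃ s, s = max e (D - 1) := ⟨_, rfl⟩
    have hsD : D ≤ s + 1 := by omega
    have hes : e ≤ s := by omega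
    have hsD2 : s ≤ D := by omega
    set Ge := univ.filter fun v => e ≤ f v with hGe
    have hGec : Lt.card + Ge.card = Fintype.card V := by
      have := Finset.card_filter_add_card_filter_not (s := (univ : Finset V)) (fun v => f v < e)
      rw [Finset.card_univ] at this
      have h4 : (univ.filter fun v => ¬ f v < e) = Ge := by
        apply Finset.filter_congr
        intro v _
        constructor <;> intro h <;> omega
      rw [h4] at this
      exact this
    have hGtGe : Gt ⊆ Ge := by
      intro v hv
      rw [hGt, Finset.mem_filter] at hv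
      rw [hGe, Finset.mem_filter]
      exact ⟨Finset.mem_univ _, by omega⟩
    obtain ⟨S, hGtS, hSGe, hSc⟩ := Finset.exists_subsuperset_card_eq hGtGe
      (show Gt.card ≤ s by omega) (show s ≤ Ge.card by omega)
    have hLtS : Lt ⊆ Sᶜ ∩ Le := by
      intro v hv
      rw [Finset.mem_inter, Finset.mem_compl]
      refine ⟨fun h => ?_, hLtLe hv⟩
      have := hSGe h
      rw [hGe, Finset.mem_filter] at this
      rw [hLt, Finset.mem_filter] at hv
      omega
    have hScLe : Sᶜ ∩ Le = Sᶜ := by
      apply Finset.inter_eq_left.mpr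
      intro v hv
      rw [Finset.mem_compl] at hv
      rw [hLe, Finset.mem_filter]
      refine ⟨Finset.mem_univ _, ?_⟩
      by_contra hcon
      apply hv; apply hGtS
      rw [hGt, Finset.mem_filter]
      exact ⟨Finset.mem_univ _, by omega⟩
    have hScc : (Sᶜ ∩ Le).card = Fintype.card V - s := by
      rw [hScLe, Finset.card_compl, hSc]
    obtain ⟨T, hLtT, hTS, hTc⟩ := Finset.exists_subsuperset_card_eq hLtS
      (show Lt.card ≤ s + 1 by omega) (show s + 1 ≤ (Sᶜ ∩ Le).card by omega)
    have hST : Disjoint S T := by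
      rw [Finset.disjoint_left]
      intro x hx hx2
      have := hTS hx2
      rw [Finset.mem_inter, Finset.mem_compl] at this
      exact this.1 hx
    have hTe : ∀ t ∈ T, f t ≤ e := fun t ht => by
      have := (Finset.mem_inter.mp (hTS ht)).2
      rw [hLe, Finset.mem_filter] at this
      exact this.2
    have hSe : ∀ i ∈ S, e ≤ f i := fun i hi => by
      have := hSGe hi
      rw [hGe, Finset.mem_filter] at this
      exact this.2
    apply case_two f hsum D e s hD hn S T hST hSc hTc hes hsD hs.le heD he1 _ hTe hSe _ _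
    · intro m hmS hmT
      have h3 : ¬ e < f m := fun h => hmS (hGtS (by
        rw [hGt, Finset.mem_filter]; exact ⟨Finset.mem_univ _, h⟩))
      have h4 : ¬ f m < e := fun h => hmT (hLtT (by
        rw [hLt, Finset.mem_filter]; exact ⟨Finset.mem_univ _, h⟩))
      omega
    · have : (S.filter fun v => e < f v) ⊆ Gt := by
        intro v hv
        rw [Finset.mem_filter] at hv
        rw [hGt, Finset.mem_filter]
        exact ⟨Finset.mem_univ _, hv.2⟩
      have := Finset.card_le_card this
      omega
    · have h3 : ∑ v, (f v - e) = ∑ i ∈ S, (f i - e) := by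
        symm
        apply Finset.sum_subset (Finset.subset_univ _)
        intro x _ hx
        have : ¬ e < f x := fun h => hx (hGtS (by
          rw [hGt, Finset.mem_filter]; exact ⟨Finset.mem_univ _, h⟩))
        omega
      have h4 : ∑ v, (e - f v) = ∑ i ∈ T, (e - f i) := by
        symm
        apply Finset.sum_subset (Finset.subset_univ _)
        intro x _ hx
        have : ¬ f x < e := fun h => hx (hLtT (by
          rw [hLt, Finset.mem_filter]; exact ⟨Finset.mem_univ _, h⟩))
        omega
      rw [← h3, ← h4]; exact hXY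
  push Not at hXY
  -- near-regular
  rcases Nat.lt_or_ge e 2 with he2 | he2
  · -- e = 1
    exfalso
    apply h1
    intro v
    have h3 : ∑ v, (f v - e) = 0 := by omega
    rw [Finset.sum_eq_zero_iff] at h3
    have := h3 v (Finset.mem_univ _)
    have := hz v
    omega
  by_cases hev : Even e
  · exact nr_even f hsum D e hD hn he2 heD hev hXY
  have heo : Odd e := Nat.not_even_iff_odd.mp hev
  have he3 : 3 ≤ e := by
    rcases heo with ⟨m, hm⟩; omega
  by_cases hw : ∃ w, Even (f w)
  · obtain ⟨w, hw⟩ := hw
    exact nr_odd_even f hsum D e hD hn he3 heD heo hXY w hw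
  push Not at hw
  have hodd : ∀ v, Odd (f v) := fun v => Nat.not_even_iff_odd.mp (hw v)
  obtain ⟨v0, hv0⟩ := hD'
  have hDodd : Odd D := hv0 ▸ hodd v0
  have hDe : D = e ∨ e + 2 ≤ D := by
    rcases heo with ⟨a, ha⟩
    rcases hDodd with ⟨b, hb⟩
    omega
  by_cases hlong : 3 * e + 7 ≤ Fintype.card V
  · exact nr_long f hsum D e hD hn hlong he3 heD hodd heo hDe hXY
  have hDe' : D = e := by omega
  subst hDe'
  -- parity of n
  have hneven : Even (Fintype.card V) := by
    have h3 := (Finset.even_sum_iff_even_card_odd (s := (univ : Finset V)) f).mp hsum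
    have h4 : (univ.filter fun v => Odd (f v)) = univ := by
      apply Finset.filter_true_of_mem
      intro v _; exact hodd v
    rw [h4, Finset.card_univ] at h3
    exact h3
  have hncases : Fintype.card V = 3 * D + 3 ∨ Fintype.card V = 3 * D + 5 := by
    rcases heo with ⟨a, ha⟩
    rcases hneven with ⟨b, hb⟩
    omega
  have hY : ∑ v, (D - f v) < D := by omega
  by_cases hl : ∃ l, f l < 3
  · obtain ⟨l, hl⟩ := hl
    have hl1 : f l = 1 := by
      rcases hodd l with ⟨a, ha⟩; omega
    apply nr_leaf f hsum D he3 heo (by omega) l hl1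
    intro v hv
    by_contra hcon
    have h3 : (D - f l) + (D - f v) ≤ ∑ v, (D - f v) := by
      have : ∑ x ∈ {l, v}, (D - f x) ≤ ∑ v, (D - f v) :=
        Finset.sum_le_sum_of_subset (Finset.subset_univ _)
      rw [Finset.sum_pair (Ne.symm hv)] at this
      exact this
    have := hD v
    omega
  push Not at hl
  rcases hncases with hn1 | hn1
  · exfalso
    exact h2 ⟨fun v => ⟨hodd v, hl v⟩, hY, Or.inl hn1⟩
  · by_cases hH : ∃ (Q : Finset V) (c : ℕ), 2 ≤ c ∧
            IsValence (fun o : Option Q => o.elim c fun i => D - f i)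
    · obtain ⟨Q, c, hc, hQ⟩ := hH
      exact nr_exc f hsum D he3 heo hn1 hD hodd hY Q c hc hQ
    · exfalso
      exact h2 ⟨fun v => ⟨hodd v, hl v⟩, hY, Or.inr ⟨hn1, hH⟩⟩

/-- The classification over an arbitrary finite vertex type. -/
theorem classify (f : V → ℕ) (hf : IsValence f) (D : ℕ) (hD : ∀ v, f v ≤ D) (hD' : ∃ v, f v = D)
    (hn : 3 * D + 2 ≤ Fintype.card V) :
    MatchingForcing f ↔ (∀ v, f v = 1) ∨
      ((∀ v, Odd (f v) ∧ 3 ≤ f v) ∧ ∑ v, (D - f v) < D ∧
        (Fintype.card V = 3 * D + 3 ∨ Fintype.card V = 3 * D + 5 ∧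
          ¬ ∃ (Q : Finset V) (c : ℕ), 2 ≤ c ∧
            IsValence (fun o : Option Q => o.elim c fun i => D - f i))) := by
  constructor
  · intro hMF
    by_contra hcon
    rw [not_or] at hcon
    obtain ⟨G, hG, hno⟩ := bad_main f hf D hD hD' hn hcon.1 hcon.2
    obtain ⟨M, hM⟩ := hMF.2 G hG
    exact hno M hM
  · rintro (h | ⟨h1, h2, h3⟩)
    · exact ⟨hf, fun G hG => pm_of_one G fun v => by rw [hG, h]⟩
    · refine ⟨hf, fun G hG => ?_⟩
      obtain ⟨v0, hv0⟩ := hD'
      exact forcing f D (hv0 ▸ (h1 v0).1) hD (fun v => (h1 v).1) (fun v => (h1 v).2) h2 h3 G hG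

end Pool.Agent.MP_6e0dc6_co
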