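import Pool.Agent.Lib.MP_6e0dc6_co.EG
import Pool.Agent.Lib.MP_6e0dc6_co.Bip
import Pool.Agent.Lib.MP_6e0dc6_co.Glue

/-!
Realizations in which a prescribed set of vertices is independent.
-/

namespace Pool.Agent.MP_6e0dc6_co

open Finset

variable {V : Type*} [Fintype V] [DecidableEq V]

/-- The contribution of an independent vertex. -/
def riPhi (b c t : ℤ) : ℤ := min b (min t (b + c - t))

/-- The slack of the pair `X, Y`. -/
def riSlack (f : V → ℕ) (S X Y : Finset V) : ℤ :=
  ∑ v ∈ X, (f v : ℤ) + (Y.card : ℤ) * ((S.card : ℤ) - X.card - 1)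
    + ∑ t ∈ Sᶜ, riPhi Y.card ((S.card : ℤ) - X.card) (f t) - ∑ v ∈ Y, (f v : ℤ)

/-- Level of a vertex. -/
def riLvl (X Y : Finset V) (v : V) : ℕ := if v ∈ Y then 2 else if v ∈ X then 0 else 1

/-- The potential. -/
def riPot (A B X Y : Finset V) : ℕ := ∑ a ∈ A, ∑ v ∈ B, (riLvl X Y v - riLvl X Y a)

omit [Fintype V] in
theorem riPot_lt (A B X Y X' Y' : Finset V) (hA : ∀ a ∈ A, riLvl X Y a ≤ riLvl X' Y' a)
    (hB : ∀ v ∈ B, riLvl X' Y' v ≤ riLvl X Y v) (a v : V) (ha : a ∈ A) (hv : v ∈ B)
    (h : riLvl X Y a < riLvl X Y v)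
    (h' : riLvl X Y a < riLvl X' Y' a ∨ riLvl X' Y' v < riLvl X Y v) :
    riPot A B X' Y' < riPot A B X Y := by
  unfold riPot
  apply Finset.sum_lt_sum
  · intro x hx
    apply Finset.sum_le_sum
    intro y hy
    have := hA x hx
    have := hB y hy
    omega
  · refine ⟨a, ha, ?_⟩
    apply Finset.sum_lt_sum
    · intro y hy
      have := hA a ha
      have := hB y hy
      omega
    · refine ⟨v, hv, ?_⟩
      have := hA a ha
      have := hB v hv
      omega

omit [DecidableEq V] in
theorem riPhi_zero (b c : ℤ) (hb : 0 ≤ b) (hc : b ≤ c) : riPhi b c 0 = 0 := by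
  unfold riPhi
  omega

theorem riPhi_conc1 (b c t : ℤ) : riPhi (b + 1) c t + riPhi (b - 1) c t ≤ 2 * riPhi b c t := by
  unfold riPhi
  omega

theorem riPhi_conc2 (b c t : ℤ) : riPhi b (c + 1) t + riPhi b (c - 1) t ≤ 2 * riPhi b c t := by
  unfold riPhi
  omega

theorem riPhi_conc3 (b c t : ℤ) : riPhi (b - 1) c t + riPhi b (c + 1) t ≤ 2 * riPhi b c t := by
  unfold riPhi
  omega

theorem riPhi_par (b t : ℤ) : ∃ m, riPhi b b t = t + 2 * m := by
  unfold riPhi
  rcases le_total t b with h | h
  · exact ⟨0, by omega⟩
  · exact ⟨b - t, by omega⟩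

/-- Parity of the slack when `Y = S \ X`. -/
theorem riSlack_par (f : V → ℕ) (S X Y : Finset V) (he : Even (∑ v, f v)) (hX : X ⊆ S)
    (hY : Y ⊆ S) (hXY : Disjoint X Y) (hc : X.card + Y.card = S.card) :
    Even (riSlack f S X Y) := by
  have hu : X ∪ Y = S := by
    apply Finset.eq_of_subset_of_card_le (Finset.union_subset hX hY)
    rw [Finset.card_union_of_disjoint hXY, hc]
  have hb : (S.card : ℤ) - X.card = Y.card := by omega
  have h1 : ∑ v, (f v : ℤ) = ∑ v ∈ X, (f v : ℤ) + ∑ v ∈ Y, (f v : ℤ) + ∑ t ∈ Sᶜ, (f t : ℤ) := by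
    rw [← Finset.sum_union hXY, hu, Finset.sum_add_sum_compl]
  have h2 : ∃ m : ℤ, ∑ t ∈ Sᶜ, riPhi (Y.card : ℤ) Y.card (f t) = ∑ t ∈ Sᶜ, (f t : ℤ) + 2 * m := by
    choose g hg using fun t : V => riPhi_par (Y.card : ℤ) (f t)
    refine ⟨∑ t ∈ Sᶜ, g t, ?_⟩
    rw [Finset.mul_sum, ← Finset.sum_add_distrib]
    exact Finset.sum_congr rfl fun t _ => hg t
  obtain ⟨m, hm⟩ := h2
  have h3 : Even ((Y.card : ℤ) * ((Y.card : ℤ) - 1)) := by
    rcases Int.even_or_odd (Y.card : ℤ) with h | h
    · exact h.mul_right _
    · exact (h.sub_odd odd_one).mul_left _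
  obtain ⟨p, hp⟩ := h3
  obtain ⟨q, hq⟩ := he
  have hq' : ∑ v, (f v : ℤ) = q + q := by
    exact_mod_cast hq
  unfold riSlack
  rw [hb, hm, hp]
  exact ⟨p + q + m - ∑ v ∈ Y, (f v : ℤ), by linarith⟩

/-- The exchange argument. -/
theorem ri_exchange (g : V → ℕ) (S A : Finset V) (hAS : A ⊆ S) (he : Even (∑ v, g v))
    (htop : ∀ a ∈ A, ∀ v ∈ S, v ∉ A → g v ≤ g a + 1)
    (h : ∀ X ⊆ S, ∀ Y ⊆ S, Disjoint X Y →
      (∀ a ∈ A, ∀ v ∈ S \ A, riLvl X Y v ≤ riLvl X Y a) → 0 ≤ riSlack g S X Y) :
    ∀ N : ℕ, ∀ X ⊆ S, ∀ Y ⊆ S, Disjoint X Y → riPot A (S \ A) X Y = N → 0 ≤ riSlack g S X Y := by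
  intro N
  induction N using Nat.strong_induction_on with
  | _ N ih =>
    intro X hX Y hY hXY hN
    by_cases hall : ∀ a ∈ A, ∀ v ∈ S \ A, riLvl X Y v ≤ riLvl X Y a
    · exact h X hX Y hY hXY hall
    push Not at hall
    obtain ⟨a, ha, v, hv, hlt⟩ := hall
    have hvS := (Finset.mem_sdiff.mp hv).1
    have hvA := (Finset.mem_sdiff.mp hv).2
    have hav : a ≠ v := fun h => hvA (h ▸ ha)
    have hga := htop a ha v hvS hvA
    have hdis : ∀ x, x ∈ X → x ∈ Y → False := fun x h1 h2 => Finset.disjoint_left.mp hXY h1 h2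
    have hcards : X.card + Y.card ≤ S.card := by
      rw [← Finset.card_union_of_disjoint hXY]
      exact Finset.card_le_card (Finset.union_subset hX hY)
    have sumle : ∀ F1 F2 F3 : V → ℤ, (∀ t, F1 t + F2 t ≤ 2 * F3 t) →
        ∑ t ∈ Sᶜ, F1 t + ∑ t ∈ Sᶜ, F2 t ≤ 2 * ∑ t ∈ Sᶜ, F3 t := by
      intro F1 F2 F3 hF
      rw [← Finset.sum_add_distrib, Finset.mul_sum]
      exact Finset.sum_le_sum fun t _ => hF t
    by_cases hvY : v ∈ Y
    · by_cases haX : a ∈ X
      · -- case (iii)
        have haY : a ∉ Y := fun h => hdis a haX h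
        have hvX : v ∉ X := fun h => hdis v h hvY
        have m1 : 0 ≤ riSlack g S X (Y.erase v) := by
          apply ih (riPot A (S \ A) X (Y.erase v)) _ X hX (Y.erase v)
            ((Finset.erase_subset _ _).trans hY) (hXY.mono_right (Finset.erase_subset _ _)) rfl
          rw [← hN]
          apply riPot_lt A (S \ A) X Y X (Y.erase v) _ _ a v ha hv hlt
          · right
            simp [riLvl, hvY, hvX]
          · intro x hx
            have : x ≠ v := fun h => hvA (h ▸ hx)
            simp [riLvl, this]
          · intro x _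
            by_cases hxv : x = v
            · subst hxv; simp [riLvl, hvY, hvX]
            · simp [riLvl, hxv]
        have m2 : 0 ≤ riSlack g S (X.erase a) Y := by
          apply ih (riPot A (S \ A) (X.erase a) Y) _ (X.erase a)
            ((Finset.erase_subset _ _).trans hX) Y hY (hXY.mono_left (Finset.erase_subset _ _)) rfl
          rw [← hN]
          apply riPot_lt A (S \ A) X Y (X.erase a) Y _ _ a v ha hv hlt
          · left
            simp [riLvl, haX, haY]
          · intro x _
            by_cases hxa : x = a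
            · subst hxa; simp [riLvl, haX, haY]
            · simp [riLvl, hxa]
          · intro x hx
            have : x ≠ a := fun h => (Finset.mem_sdiff.mp hx).2 (h ▸ ha)
            simp [riLvl, this]
        have c1 : ((Y.erase v).card : ℤ) = Y.card - 1 := by
          rw [Finset.card_erase_of_mem hvY]
          have := Finset.card_pos.mpr ⟨v, hvY⟩
          omega
        have c2 : ((X.erase a).card : ℤ) = X.card - 1 := by
          rw [Finset.card_erase_of_mem haX]
          have := Finset.card_pos.mpr ⟨a, haX⟩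
          omega
        have s1 : ∑ x ∈ Y.erase v, (g x : ℤ) = ∑ x ∈ Y, (g x : ℤ) - g v := by
          have := Finset.add_sum_erase Y (fun x => (g x : ℤ)) hvY
          linarith
        have s2 : ∑ x ∈ X.erase a, (g x : ℤ) = ∑ x ∈ X, (g x : ℤ) - g a := by
          have := Finset.add_sum_erase X (fun x => (g x : ℤ)) haX
          linarith
        have key := sumle (fun t => riPhi ((Y.card : ℤ) - 1) ((S.card : ℤ) - X.card) (g t))
          (fun t => riPhi (Y.card : ℤ) ((S.card : ℤ) - X.card + 1) (g t))
          (fun t => riPhi (Y.card : ℤ) ((S.card : ℤ) - X.card) (g t))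
          (fun t => riPhi_conc3 _ _ _)
        have hbound : 0 ≤ 2 * riSlack g S X Y + ((Y.card : ℤ) - ((S.card : ℤ) - X.card)) + 2 := by
          unfold riSlack at m1 m2 ⊢
          rw [c1, s1] at m1
          rw [c2, s2] at m2
          have e1 : (S.card : ℤ) - (X.card - 1) = (S.card : ℤ) - X.card + 1 := by ring
          rw [e1] at m2
          have hga' : (g v : ℤ) ≤ g a + 1 := by exact_mod_cast hga
          nlinarith
        rcases Nat.eq_or_lt_of_le hcards with heq | hlt'
        · have hpar := riSlack_par g S X Y he hX hY hXY heq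
          rcases hpar with ⟨m, hm⟩
          omega
        · omega
      · -- case (i)
        have haY : a ∉ Y := by
          intro h
          simp [riLvl, h, hvY] at hlt
        have m1 : 0 ≤ riSlack g S X (Y.erase v) := by
          have hvX : v ∉ X := fun h => hdis v h hvY
          apply ih (riPot A (S \ A) X (Y.erase v)) _ X hX (Y.erase v)
            ((Finset.erase_subset _ _).trans hY) (hXY.mono_right (Finset.erase_subset _ _)) rfl
          rw [← hN]
          apply riPot_lt A (S \ A) X Y X (Y.erase v) _ _ a v ha hv hlt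
          · right
            simp [riLvl, hvY, hvX]
          · intro x hx
            have : x ≠ v := fun h => hvA (h ▸ hx)
            simp [riLvl, this]
          · intro x _
            by_cases hxv : x = v
            · subst hxv; simp [riLvl, hvY, hvX]
            · simp [riLvl, hxv]
        have m2 : 0 ≤ riSlack g S X (insert a Y) := by
          apply ih (riPot A (S \ A) X (insert a Y)) _ X hX (insert a Y)
            (Finset.insert_subset (hAS ha) hY) _ rfl
          · rw [← hN]
            apply riPot_lt A (S \ A) X Y X (insert a Y) _ _ a v ha hv hlt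
            · left
              simp [riLvl, haX, haY]
            · intro x _
              by_cases hxa : x = a
              · subst hxa; simp [riLvl, haX, haY]
              · simp [riLvl, hxa]
            · intro x hx
              have : x ≠ a := fun h => (Finset.mem_sdiff.mp hx).2 (h ▸ ha)
              simp [riLvl, this]
          · rw [Finset.disjoint_insert_right]
            exact ⟨haX, hXY⟩
        have c1 : ((Y.erase v).card : ℤ) = Y.card - 1 := by
          rw [Finset.card_erase_of_mem hvY]
          have := Finset.card_pos.mpr ⟨v, hvY⟩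
          omega
        have c2 : ((insert a Y).card : ℤ) = Y.card + 1 := by
          rw [Finset.card_insert_of_notMem haY]
          push_cast; ring
        have s1 : ∑ x ∈ Y.erase v, (g x : ℤ) = ∑ x ∈ Y, (g x : ℤ) - g v := by
          have := Finset.add_sum_erase Y (fun x => (g x : ℤ)) hvY
          linarith
        have s2 : ∑ x ∈ insert a Y, (g x : ℤ) = g a + ∑ x ∈ Y, (g x : ℤ) :=
          Finset.sum_insert haY
        have key := sumle (fun t => riPhi ((Y.card : ℤ) + 1) ((S.card : ℤ) - X.card) (g t))
          (fun t => riPhi ((Y.card : ℤ) - 1) ((S.card : ℤ) - X.card) (g t))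
          (fun t => riPhi (Y.card : ℤ) ((S.card : ℤ) - X.card) (g t))
          (fun t => riPhi_conc1 _ _ _)
        have hbound : 0 ≤ 2 * riSlack g S X Y + 1 := by
          unfold riSlack at m1 m2 ⊢
          rw [c1, s1] at m1
          rw [c2, s2] at m2
          have hga' : (g v : ℤ) ≤ g a + 1 := by exact_mod_cast hga
          nlinarith
        omega
    · -- case (ii)
      have hvX : v ∉ X := by
        intro h
        simp [riLvl, h, hvY] at hlt
      have haY : a ∉ Y := by
        intro h
        simp [riLvl, h, hvY, hvX] at hlt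
      have haX : a ∈ X := by
        by_contra h
        simp [riLvl, h, hvY, hvX, haY] at hlt
      have m1 : 0 ≤ riSlack g S (X.erase a) Y := by
        apply ih (riPot A (S \ A) (X.erase a) Y) _ (X.erase a)
          ((Finset.erase_subset _ _).trans hX) Y hY (hXY.mono_left (Finset.erase_subset _ _)) rfl
        rw [← hN]
        apply riPot_lt A (S \ A) X Y (X.erase a) Y _ _ a v ha hv hlt
        · left
          simp [riLvl, haX, haY]
        · intro x _
          by_cases hxa : x = a
          · subst hxa; simp [riLvl, haX, haY]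
          · simp [riLvl, hxa]
        · intro x hx
          have : x ≠ a := fun h => (Finset.mem_sdiff.mp hx).2 (h ▸ ha)
          simp [riLvl, this]
      have m2 : 0 ≤ riSlack g S (insert v X) Y := by
        apply ih (riPot A (S \ A) (insert v X) Y) _ (insert v X)
          (Finset.insert_subset hvS hX) Y hY _ rfl
        · rw [← hN]
          apply riPot_lt A (S \ A) X Y (insert v X) Y _ _ a v ha hv hlt
          · right
            simp [riLvl, hvX, hvY]
          · intro x hx
            have : x ≠ v := fun h => hvA (h ▸ hx)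
            simp [riLvl, this]
          · intro x _
            by_cases hxv : x = v
            · subst hxv; simp [riLvl, hvX, hvY]
            · simp [riLvl, hxv]
        · rw [Finset.disjoint_insert_left]
          exact ⟨hvY, hXY⟩
      have c1 : ((X.erase a).card : ℤ) = X.card - 1 := by
        rw [Finset.card_erase_of_mem haX]
        have := Finset.card_pos.mpr ⟨a, haX⟩
        omega
      have c2 : ((insert v X).card : ℤ) = X.card + 1 := by
        rw [Finset.card_insert_of_notMem hvX]
        push_cast; ring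
      have s1 : ∑ x ∈ X.erase a, (g x : ℤ) = ∑ x ∈ X, (g x : ℤ) - g a := by
        have := Finset.add_sum_erase X (fun x => (g x : ℤ)) haX
        linarith
      have s2 : ∑ x ∈ insert v X, (g x : ℤ) = g v + ∑ x ∈ X, (g x : ℤ) :=
        Finset.sum_insert hvX
      have key := sumle (fun t => riPhi (Y.card : ℤ) ((S.card : ℤ) - X.card + 1) (g t))
        (fun t => riPhi (Y.card : ℤ) ((S.card : ℤ) - X.card - 1) (g t))
        (fun t => riPhi (Y.card : ℤ) ((S.card : ℤ) - X.card) (g t))
        (fun t => riPhi_conc2 _ _ _)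
      have hbound : 0 ≤ 2 * riSlack g S X Y + 1 := by
        unfold riSlack at m1 m2 ⊢
        rw [c1, s1] at m1
        rw [c2, s2] at m2
        have e1 : (S.card : ℤ) - (X.card - 1) = (S.card : ℤ) - X.card + 1 := by ring
        have e2 : (S.card : ℤ) - (X.card + 1) = (S.card : ℤ) - X.card - 1 := by ring
        rw [e1] at m1
        rw [e2] at m2
        have hga' : (g v : ℤ) ≤ g a + 1 := by exact_mod_cast hga
        nlinarith
      omega

/-- Slack of the reduced sequence when the levels are compatible with `A`. -/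
theorem ri_base (f : V → ℕ) (S A X Y : Finset V) (j : V) (hj : j ∉ S) (hAS : A ⊆ S)
    (hA : A.card = f j) (hpos : ∀ a ∈ A, 1 ≤ f a) (hX : X ⊆ S) (hY : Y ⊆ S) (hXY : Disjoint X Y)
    (hlvl : ∀ a ∈ A, ∀ v ∈ S \ A, riLvl X Y v ≤ riLvl X Y a) (h : 0 ≤ riSlack f S X Y) :
    0 ≤ riSlack (egLay f j A) S X Y := by
  have hdis : ∀ x, x ∈ X → x ∈ Y → False := fun x h1 h2 => Finset.disjoint_left.mp hXY h1 h2
  have hcards : X.card + Y.card ≤ S.card := by
    rw [← Finset.card_union_of_disjoint hXY]
    exact Finset.card_le_card (Finset.union_subset hX hY)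
  have hsum : ∀ W ⊆ S, ∑ v ∈ W, (egLay f j A v : ℤ) = ∑ v ∈ W, (f v : ℤ) - (A ∩ W).card := by
    intro W hW
    have e : ∀ v ∈ W, (egLay f j A v : ℤ) = (f v : ℤ) - (if v ∈ A then 1 else 0) := by
      intro v hv
      have hvj : v ≠ j := fun h => hj (h ▸ hW hv)
      unfold egLay
      by_cases hvA : v ∈ A
      · have := hpos v hvA
        rw [if_neg hvj, if_pos hvA, if_pos hvA]
        omega
      · rw [if_neg hvj, if_neg hvA, if_neg hvA]
        omega
    rw [Finset.sum_congr rfl e, Finset.sum_sub_distrib]
    congr 1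
    rw [Finset.sum_ite_mem, Finset.inter_comm]
    simp
  have hT : ∑ t ∈ Sᶜ, riPhi Y.card ((S.card : ℤ) - X.card) (egLay f j A t) =
      ∑ t ∈ Sᶜ, riPhi Y.card ((S.card : ℤ) - X.card) (f t)
        - riPhi Y.card ((S.card : ℤ) - X.card) (f j) := by
    have hjS : j ∈ Sᶜ := Finset.mem_compl.mpr hj
    rw [← Finset.add_sum_erase _ _ hjS, ← Finset.add_sum_erase (Sᶜ) (fun t =>
      riPhi Y.card ((S.card : ℤ) - X.card) (f t)) hjS]
    have e0 : egLay f j A j = 0 := by simp [egLay]
    rw [e0, Nat.cast_zero, riPhi_zero _ _ (by omega) (by omega)]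
    have e1 : ∑ x ∈ Sᶜ.erase j, riPhi Y.card ((S.card : ℤ) - X.card) (egLay f j A x) =
        ∑ x ∈ Sᶜ.erase j, riPhi Y.card ((S.card : ℤ) - X.card) (f x) := by
      apply Finset.sum_congr rfl
      intro x hx
      rw [Finset.mem_erase, Finset.mem_compl] at hx
      have hxA : x ∉ A := fun h => hx.2 (hAS h)
      have : egLay f j A x = f x := by
        simp [egLay, hx.1, hxA]
      rw [this]
    rw [e1]
    ring
  have hmain : riPhi Y.card ((S.card : ℤ) - X.card) (f j) ≤
      ((A ∩ Y).card : ℤ) - (A ∩ X).card := by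
    by_cases hAX : (A ∩ X).Nonempty
    · obtain ⟨a, ha⟩ := hAX
      rw [Finset.mem_inter] at ha
      have haY : a ∉ Y := fun h => hdis a ha.2 h
      have hBX : ∀ v ∈ S, v ∉ A → v ∈ X := by
        intro v hv hvA
        have h0 := hlvl a ha.1 v (Finset.mem_sdiff.mpr ⟨hv, hvA⟩)
        by_contra hvX
        simp only [riLvl, ha.2, haY, hvX, if_true, if_false] at h0
        split_ifs at h0 <;> omega
      have hYA : A ∩ Y = Y := by
        apply Finset.inter_eq_right.mpr
        intro v hv
        by_contra hvA
        exact hdis v (hBX v (hY hv) hvA) hv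
      have hcompl : (S \ A) ∪ (A ∩ X) = X := by
        ext v
        simp only [Finset.mem_union, Finset.mem_sdiff, Finset.mem_inter]
        constructor
        · rintro (⟨h1, h2⟩ | ⟨_, h2⟩)
          · exact hBX v h1 h2
          · exact h2
        · intro hv
          by_cases hvA : v ∈ A
          · exact Or.inr ⟨hvA, hv⟩
          · exact Or.inl ⟨hX hv, hvA⟩
      have hc1 : (S \ A).card + (A ∩ X).card = X.card := by
        rw [← Finset.card_union_of_disjoint, hcompl]
        rw [Finset.disjoint_left]
        intro x hx hx2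
        exact (Finset.mem_sdiff.mp hx).2 (Finset.mem_inter.mp hx2).1
      have hc2 := Finset.card_sdiff_add_card_eq_card hAS
      rw [hYA]
      unfold riPhi
      omega
    · rw [Finset.not_nonempty_iff_eq_empty] at hAX
      rw [hAX, Finset.card_empty]
      by_cases hAY : A ⊆ Y
      · rw [Finset.inter_eq_left.mpr hAY, hA]
        unfold riPhi
        omega
      · obtain ⟨a, ha, haY⟩ := Finset.not_subset.mp hAY
        have haX : a ∉ X := fun h => by
          have : a ∈ A ∩ X := Finset.mem_inter.mpr ⟨ha, h⟩
          rw [hAX] at this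
          exact absurd this (Finset.notMem_empty _)
        have hYA : A ∩ Y = Y := by
          apply Finset.inter_eq_right.mpr
          intro v hv
          by_contra hvA
          have h0 := hlvl a ha v (Finset.mem_sdiff.mpr ⟨hY hv, hvA⟩)
          simp only [riLvl, haX, haY, hv, if_true, if_false] at h0
          omega
        rw [hYA]
        unfold riPhi
        omega
  unfold riSlack at h ⊢
  rw [hsum X hX, hsum Y hY, hT]
  linarith

/-- Adding the star at `j`. -/
theorem ri_star (f : V → ℕ) (j : V) (A : Finset V) (hj : j ∉ A) (hA : A.card = f j)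
    (hpos : ∀ a ∈ A, 1 ≤ f a) (G : SimpleGraph V)
    (hG : ∀ v, (G.neighborSet v).ncard = egLay f j A v) :
    ∃ G' : SimpleGraph V, (∀ v, (G'.neighborSet v).ncard = f v) ∧
      ∀ a b, G'.Adj a b → G.Adj a b ∨ (a = j ∧ b ∈ A) ∨ (b = j ∧ a ∈ A) := by
  classical
  have hiso : ∀ w, ¬ G.Adj j w := by
    intro w
    apply no_adj_of_deg_zero G j
    rw [hG j]
    simp [egLay]
  let G4 : SimpleGraph V :=
    { Adj := fun a b => (a = j ∧ b ∈ A) ∨ (b = j ∧ a ∈ A)
      symm := ⟨fun a b h => h.symm⟩
      loopless := ⟨fun a h => by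
        rcases h with ⟨rfl, h⟩ | ⟨rfl, h⟩ <;> exact hj h⟩ }
  have hdis : ∀ v w, G.Adj v w → ¬ G4.Adj v w := by
    rintro v w h1 (⟨rfl, _⟩ | ⟨rfl, _⟩)
    · exact hiso w h1
    · exact hiso v h1.symm
  refine ⟨G ⊔ G4, ?_, ?_⟩
  · intro v
    rw [deg_sup G G4 v (hdis v), hG]
    by_cases hv : v = j
    · subst hv
      have : G4.neighborSet v = (A : Set V) := by
        ext x
        rw [SimpleGraph.mem_neighborSet]
        constructor
        · rintro (⟨_, h⟩ | ⟨_, h⟩)
          · exact h
          · exact (hj h).elim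
        · intro h; exact Or.inl ⟨rfl, h⟩
      rw [this, Set.ncard_coe_finset, hA]
      simp [egLay]
    · by_cases hvA : v ∈ A
      · have : G4.neighborSet v = {j} := by
          ext x
          rw [SimpleGraph.mem_neighborSet, Set.mem_singleton_iff]
          constructor
          · rintro (⟨h, _⟩ | ⟨h, _⟩)
            · exact (hv h).elim
            · exact h
          · intro h; exact Or.inr ⟨h, hvA⟩
        rw [this, Set.ncard_singleton]
        have := hpos v hvA
        simp only [egLay, if_neg hv, if_pos hvA]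
        omega
      · have : G4.neighborSet v = ∅ := by
          ext x
          rw [SimpleGraph.mem_neighborSet]
          constructor
          · rintro (⟨h, _⟩ | ⟨_, h⟩)
            · exact (hv h).elim
            · exact (hvA h).elim
          · intro h; exact h.elim
        rw [this, Set.ncard_empty]
        simp only [egLay, if_neg hv, if_neg hvA]
        omega
  · rintro a b (h | h | h)
    · exact Or.inl h
    · exact Or.inr (Or.inl h)
    · exact Or.inr (Or.inr h)

theorem real_ind_aux (S : Finset V) : ∀ (m : ℕ) (f : V → ℕ),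
    (Sᶜ.filter fun j => 0 < f j).card = m → Even (∑ v, f v) →
    (∀ X ⊆ S, ∀ Y ⊆ S, Disjoint X Y → 0 ≤ riSlack f S X Y) →
    ∃ G : SimpleGraph V, (∀ v, (G.neighborSet v).ncard = f v) ∧
      ∀ a ∉ S, ∀ b ∉ S, ¬ G.Adj a b := by
  intro m
  induction m with
  | zero =>
    intro f hm he h
    have h0 : ∀ v, v ∉ S → f v = 0 := by
      intro v hv
      by_contra hcon
      rw [Finset.card_eq_zero] at hm
      have : v ∈ Sᶜ.filter fun j => 0 < f j := by
        rw [Finset.mem_filter, Finset.mem_compl]
        exact ⟨hv, Nat.pos_of_ne_zero hcon⟩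
      rw [hm] at this
      exact absurd this (Finset.notMem_empty _)
    obtain ⟨G, hG⟩ := eg_suff f he (eg_reduce f (by
      intro K hK1 _
      rcases K.eq_empty_or_nonempty with rfl | hne
      · rw [eg_slack_empty]
      have hk1 : 1 ≤ K.card := hne.card_pos
      have hKS : K ⊆ S := by
        intro v hv
        by_contra hvS
        have := hK1 v hv
        have := h0 v hvS
        omega
      set X := (S \ K).filter fun w => f w < K.card with hXdef
      have hXS : X ⊆ S := (Finset.filter_subset _ _).trans Finset.sdiff_subset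
      have hXK : Disjoint X K := by
        rw [Finset.disjoint_left]
        intro x hx hx2
        rw [hXdef, Finset.mem_filter, Finset.mem_sdiff] at hx
        exact hx.1.2 hx2
      have h1 := h X hXS K hKS hXK
      unfold riSlack at h1
      rw [eg_slack_def]
      have e1 : ∑ t ∈ Sᶜ, riPhi K.card ((S.card : ℤ) - X.card) (f t) = 0 := by
        apply Finset.sum_eq_zero
        intro t ht
        have hcards : X.card + K.card ≤ S.card := by
          rw [← Finset.card_union_of_disjoint hXK]
          exact Finset.card_le_card (Finset.union_subset hXS hKS)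
        rw [h0 t (Finset.mem_compl.mp ht), Nat.cast_zero, riPhi_zero _ _ (by omega) (by omega)]
      rw [e1] at h1
      have e2 : ∑ w ∈ Kᶜ, min (f w) K.card = ∑ w ∈ S \ K, min (f w) K.card := by
        symm
        apply Finset.sum_subset
        · intro x hx
          rw [Finset.mem_compl]
          exact (Finset.mem_sdiff.mp hx).2
        · intro x hx hx2
          have hxS : x ∉ S := fun h => hx2 (Finset.mem_sdiff.mpr ⟨h, Finset.mem_compl.mp hx⟩)
          rw [h0 x hxS]
          simp
      have e3 : ∑ w ∈ S \ K, min (f w) K.card + X.card * K.card =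
          ∑ w ∈ X, f w + (S \ K).card * K.card := by
        have e4 := Finset.sum_filter_add_sum_filter_not (S \ K) (fun w => f w < K.card)
          (fun w => min (f w) K.card)
        rw [← hXdef] at e4
        have e5 : ∑ w ∈ X, min (f w) K.card = ∑ w ∈ X, f w := by
          apply Finset.sum_congr rfl
          intro w hw
          rw [hXdef, Finset.mem_filter] at hw
          omega
        have e6 : ∑ w ∈ (S \ K).filter (fun w => ¬ f w < K.card), min (f w) K.card =
            ((S \ K).filter (fun w => ¬ f w < K.card)).card * K.card := by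
          rw [Finset.sum_const_nat]
          intro w hw
          rw [Finset.mem_filter] at hw
          omega
        have e7 := Finset.card_filter_add_card_filter_not (s := S \ K) (fun w => f w < K.card)
        rw [← hXdef] at e7
        rw [← e4, e5, e6, ← e7]
        ring
      have e8 := Finset.card_sdiff_add_card_eq_card hKS
      have e9 : ((∑ w ∈ S \ K, min (f w) K.card : ℕ) : ℤ) + X.card * K.card =
          ((∑ w ∈ X, f w : ℕ) : ℤ) + ((S \ K).card : ℤ) * K.card := by
        exact_mod_cast e3
      have e10 : ((S \ K).card : ℤ) = S.card - K.card := by omega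
      rw [e10] at e9
      rw [e2]
      push_cast at e9 h1 ⊢
      nlinarith))
    refine ⟨G, hG, ?_⟩
    intro a ha b _ hab
    exact no_adj_of_deg_zero G a (by rw [hG, h0 a ha]) b hab
  | succ m ih =>
    intro f hm he h
    obtain ⟨j, hj⟩ := Finset.card_pos.mp (show 0 < (Sᶜ.filter fun j => 0 < f j).card by omega)
    rw [Finset.mem_filter, Finset.mem_compl] at hj
    obtain ⟨hjS, hjpos⟩ := hj
    -- enough positive vertices in `S`
    have hcnt : f j ≤ (S.filter fun s => 1 ≤ f s).card := by
      have h1 := h (S.filter fun s => f s = 0) (Finset.filter_subset _ _) ∅ (Finset.empty_subset _)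
        (Finset.disjoint_empty_right _)
      unfold riSlack at h1
      have e1 : ∑ v ∈ S.filter (fun s => f s = 0), (f v : ℤ) = 0 := by
        apply Finset.sum_eq_zero
        intro x hx
        rw [Finset.mem_filter] at hx
        rw [hx.2]; simp
      rw [e1, Finset.sum_empty, Finset.card_empty] at h1
      have e2 := Finset.card_filter_add_card_filter_not (s := S) (fun s => f s = 0)
      have e3 : (S.filter fun s => ¬ f s = 0) = S.filter fun s => 1 ≤ f s := by
        apply Finset.filter_congr
        intro x _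
        omega
      rw [e3] at e2
      have e4 : ∑ t ∈ Sᶜ, riPhi ((0 : ℕ) : ℤ) ((S.card : ℤ) - (S.filter fun s => f s = 0).card)
          (f t) ≤ riPhi ((0 : ℕ) : ℤ) ((S.card : ℤ) - (S.filter fun s => f s = 0).card) (f j) := by
        rw [← Finset.add_sum_erase _ _ (Finset.mem_compl.mpr hjS)]
        have : ∑ x ∈ Sᶜ.erase j, riPhi ((0 : ℕ) : ℤ)
            ((S.card : ℤ) - (S.filter fun s => f s = 0).card) (f x) ≤ 0 := by
          apply Finset.sum_nonpos
          intro x _
          unfold riPhi
          omega
        linarith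
      have e5 : (0 : ℤ) ≤ riPhi ((0 : ℕ) : ℤ)
          ((S.card : ℤ) - (S.filter fun s => f s = 0).card) (f j) := by
        have e6 : ((0 : ℕ) : ℤ) * ((S.card : ℤ) - (S.filter fun s => f s = 0).card - 1) = 0 := by
          simp
        rw [e6] at h1
        linarith
      unfold riPhi at e5
      omega
    obtain ⟨A, hAS', hAc, hAtop⟩ := exists_top (S.filter fun s => 1 ≤ f s) f (f j) hcnt
    have hAS : A ⊆ S := hAS'.trans (Finset.filter_subset _ _)
    have hpos : ∀ a ∈ A, 1 ≤ f a := fun a ha => (Finset.mem_filter.mp (hAS' ha)).2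
    have hjA : j ∉ A := fun h => hjS (hAS h)
    have hsum := eg_lay_sum f j A hjA hAc hpos
    have he' : Even (∑ v, egLay f j A v) := by
      rcases he with ⟨q, hq⟩
      exact ⟨q - f j, by omega⟩
    have hg : ∀ X ⊆ S, ∀ Y ⊆ S, Disjoint X Y → 0 ≤ riSlack (egLay f j A) S X Y := by
      intro X hX Y hY hXY
      apply ri_exchange (egLay f j A) S A hAS he' _ _ _ X hX Y hY hXY rfl
      · intro a ha v hv hvA
        have haj : a ≠ j := fun h => hjA (h ▸ ha)
        have hvj : v ≠ j := fun h => hjS (h ▸ hv)
        have e1 : egLay f j A a = f a - 1 := by simp [egLay, haj, ha]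
        have e2 : egLay f j A v = f v := by simp [egLay, hvj, hvA]
        rw [e1, e2]
        have := hpos a ha
        by_cases hv1 : 1 ≤ f v
        · have := hAtop a ha v (Finset.mem_filter.mpr ⟨hv, hv1⟩) hvA
          omega
        · omega
      · intro X' hX' Y' hY' hXY' hlvl
        exact ri_base f S A X' Y' j hjS hAS hAc hpos hX' hY' hXY' hlvl (h X' hX' Y' hY' hXY')
    have hm' : (Sᶜ.filter fun x => 0 < egLay f j A x).card = m := by
      have e1 : (Sᶜ.filter fun x => 0 < egLay f j A x) =
          (Sᶜ.filter fun x => 0 < f x).erase j := by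
        ext x
        rw [Finset.mem_erase, Finset.mem_filter, Finset.mem_filter, Finset.mem_compl]
        by_cases hxj : x = j
        · subst hxj
          simp [egLay]
        · constructor
          · rintro ⟨h1, h2⟩
            have hxA : x ∉ A := fun h => h1 (hAS h)
            simp only [egLay, if_neg hxj, if_neg hxA] at h2
            exact ⟨hxj, h1, h2⟩
          · rintro ⟨_, h1, h2⟩
            have hxA : x ∉ A := fun h => h1 (hAS h)
            simp only [egLay, if_neg hxj, if_neg hxA]
            exact ⟨h1, h2⟩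
      rw [e1, Finset.card_erase_of_mem, hm]
      · rfl
      · rw [Finset.mem_filter, Finset.mem_compl]
        exact ⟨hjS, hjpos⟩
    obtain ⟨G, hG, hGi⟩ := ih (egLay f j A) hm' he' hg
    obtain ⟨G', hG', hG'i⟩ := ri_star f j A hjA hAc hpos G hG
    refine ⟨G', hG', ?_⟩
    intro a ha b hb hab
    rcases hG'i a b hab with h1 | ⟨_, h1⟩ | ⟨_, h1⟩
    · exact hGi a ha b hb h1
    · exact hb (hAS h1)
    · exact ha (hAS h1)

/-- M62-1. Realization in which the complement of `S` is independent. -/
theorem real_ind (f : V → ℕ) (S : Finset V) (he : Even (∑ v, f v))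
    (h : ∀ X ⊆ S, ∀ Y ⊆ S, Disjoint X Y →
      ∑ v ∈ Y, (f v : ℤ) ≤ ∑ v ∈ X, (f v : ℤ) + (Y.card : ℤ) * ((S.card : ℤ) - X.card - 1)
        + ∑ t ∈ Sᶜ, min (Y.card : ℤ)
            (min (f t : ℤ) ((Y.card : ℤ) + ((S.card : ℤ) - X.card) - f t))) :
    ∃ G : SimpleGraph V, (∀ v, (G.neighborSet v).ncard = f v) ∧
      ∀ a ∉ S, ∀ b ∉ S, ¬ G.Adj a b := by
  apply real_ind_aux S _ f rfl he
  intro X hX Y hY hXY
  have := h X hX Y hY hXY
  unfold riSlack riPhi
  linarith

end Pool.Agent.MP_6e0dc6_co
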